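import Pool.Agent.BND.Prim

set_option autoImplicit false

/-!
# BOND, primal side, module CNX: connectivity (helper34)
-/

namespace BND

variable {V : Type} {G G' K : SimpleGraph V} {s t : Set V}

theorem con_empty (G : SimpleGraph V) : Con G ∅ := by
  rintro X ⟨x, hx, -⟩
  exact absurd hx (Set.notMem_empty x)

theorem con_of_subsingleton (G : SimpleGraph V) (hs : s.Subsingleton) : Con G s := by
  rintro X ⟨x, hx, hxX⟩ ⟨y, hy, hyX⟩
  exact absurd (hs hx hy ▸ hxX) hyX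

theorem con_singleton (G : SimpleGraph V) (v : V) : Con G {v} :=
  con_of_subsingleton G Set.subsingleton_singleton

theorem Con.mono_graph (hs : Con G s) (h : ∀ a ∈ s, ∀ b ∈ s, G.Adj a b → G'.Adj a b) :
    Con G' s := by
  intro X h1 h2
  obtain ⟨a, ha, b, hb, hab⟩ := hs X h1 h2
  exact ⟨a, ha, b, hb, h a ha.1 b hb.1 hab⟩

theorem Con.mono_le (hs : Con G s) (h : G ≤ G') : Con G' s :=
  hs.mono_graph fun _ _ _ _ hab => h hab

theorem con_congr (h : ∀ a ∈ s, ∀ b ∈ s, (G.Adj a b ↔ G'.Adj a b)) : Con G s ↔ Con G' s :=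
  ⟨fun hs => hs.mono_graph fun a ha b hb => (h a ha b hb).mp,
    fun hs => hs.mono_graph fun a ha b hb => (h a ha b hb).mpr⟩

/-- Subsets of a connected set which contain no edge leaving them are trivial. -/
theorem Con.all_mem (hs : Con G s) {X : Set V} {x : V} (hx : x ∈ s) (hxX : x ∈ X)
    (h : ∀ a ∈ s, a ∈ X → ∀ b ∈ s, G.Adj a b → b ∈ X) : s ⊆ X := by
  intro y hy
  by_contra hyX
  obtain ⟨a, ha, b, hb, hab⟩ := hs X ⟨x, hx, hxX⟩ ⟨y, hy, hyX⟩
  exact hb.2 (h a ha.1 ha.2 b hb.1 hab)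

theorem Con.union_meet (hs : Con G s) (ht : Con G t) (h : (s ∩ t).Nonempty) :
    Con G (s ∪ t) := by
  obtain ⟨z, hzs, hzt⟩ := h
  rintro X ⟨x, hx, hxX⟩ ⟨y, hy, hyX⟩
  by_cases h1 : (s ∩ X).Nonempty ∧ (s \ X).Nonempty
  · obtain ⟨a, ha, b, hb, hab⟩ := hs X h1.1 h1.2
    exact ⟨a, ⟨Or.inl ha.1, ha.2⟩, b, ⟨Or.inl hb.1, hb.2⟩, hab⟩
  by_cases h2 : (t ∩ X).Nonempty ∧ (t \ X).Nonempty
  · obtain ⟨a, ha, b, hb, hab⟩ := ht X h2.1 h2.2
    exact ⟨a, ⟨Or.inr ha.1, ha.2⟩, b, ⟨Or.inr hb.1, hb.2⟩, hab⟩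
  exfalso
  by_cases hz : z ∈ X
  · have e1 : s ⊆ X := by
      intro w hw
      by_contra hwX
      exact h1 ⟨⟨z, hzs, hz⟩, ⟨w, hw, hwX⟩⟩
    have e2 : t ⊆ X := by
      intro w hw
      by_contra hwX
      exact h2 ⟨⟨z, hzt, hz⟩, ⟨w, hw, hwX⟩⟩
    rcases hy with hy | hy
    · exact hyX (e1 hy)
    · exact hyX (e2 hy)
  · have e1 : ∀ w ∈ s, w ∉ X := fun w hw hwX => h1 ⟨⟨w, hw, hwX⟩, ⟨z, hzs, hz⟩⟩
    have e2 : ∀ w ∈ t, w ∉ X := fun w hw hwX => h2 ⟨⟨w, hw, hwX⟩, ⟨z, hzt, hz⟩⟩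
    rcases hx with hx | hx
    · exact e1 x hx hxX
    · exact e2 x hx hxX

theorem con_pair {a b : V} (hab : G.Adj a b) : Con G {a, b} := by
  rintro X ⟨x, hx, hxX⟩ ⟨y, hy, hyX⟩
  rcases hx with rfl | rfl <;> rcases hy with rfl | rfl
  · exact absurd hxX hyX
  · exact ⟨x, ⟨Or.inl rfl, hxX⟩, y, ⟨Or.inr rfl, hyX⟩, hab⟩
  · exact ⟨x, ⟨Or.inr rfl, hxX⟩, y, ⟨Or.inl rfl, hyX⟩, hab.symm⟩
  · exact absurd hxX hyX

theorem Con.union_adj (hs : Con G s) (ht : Con G t) {a b : V} (ha : a ∈ s) (hb : b ∈ t)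
    (hab : G.Adj a b) : Con G (s ∪ t) := by
  have h1 : Con G (s ∪ {a, b}) := hs.union_meet (con_pair hab) ⟨a, ha, Or.inl rfl⟩
  have h2 : Con G ((s ∪ {a, b}) ∪ t) := h1.union_meet ht ⟨b, Or.inr (Or.inr rfl), hb⟩
  have h3 : (s ∪ {a, b}) ∪ t = s ∪ t := by
    ext w
    constructor
    · rintro ((h | h | h) | h)
      · exact Or.inl h
      · rw [h]; exact Or.inl ha
      · rw [Set.mem_singleton_iff.mp h]; exact Or.inr hb
      · exact Or.inr h
    · rintro (h | h)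
      · exact Or.inl (Or.inl h)
      · exact Or.inr h
  rwa [h3] at h2

theorem Con.insert_adj (hs : Con G s) {a b : V} (hb : b ∈ s) (hab : G.Adj a b) :
    Con G (insert a s) := by
  have h := (con_singleton G a).union_adj hs (Set.mem_singleton a) hb hab
  rwa [Set.singleton_union] at h

/-- A set is connected if every point lies in a connected subset through the point `x0`. -/
theorem con_of_forall {x0 : V} (h : ∀ y ∈ s, ∃ r ⊆ s, Con G r ∧ x0 ∈ r ∧ y ∈ r) : Con G s := by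
  rintro X ⟨x, hx, hxX⟩ ⟨y, hy, hyX⟩
  obtain ⟨r, hr, hrc, h0r, hxr⟩ := h x hx
  obtain ⟨q, hq, hqc, h0q, hyq⟩ := h y hy
  by_cases h0 : x0 ∈ X
  · obtain ⟨a, ha, b, hb, hab⟩ := hqc X ⟨x0, h0q, h0⟩ ⟨y, hyq, hyX⟩
    exact ⟨a, ⟨hq ha.1, ha.2⟩, b, ⟨hq hb.1, hb.2⟩, hab⟩
  · obtain ⟨a, ha, b, hb, hab⟩ := hrc X ⟨x, hxr, hxX⟩ ⟨x0, h0r, h0⟩
    exact ⟨a, ⟨hr ha.1, ha.2⟩, b, ⟨hr hb.1, hb.2⟩, hab⟩

/-- Union of a connected set and of connected sets each of which meets it. -/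
theorem Con.union_family (hs : Con G s) {ι : Type} {r : ι → Set V} (hr : ∀ i, Con G (r i))
    (hm : ∀ i, (s ∩ r i).Nonempty) : Con G (s ∪ ⋃ i, r i) := by
  by_cases hne : s.Nonempty
  · obtain ⟨x0, hx0⟩ := hne
    apply con_of_forall (x0 := x0)
    rintro y (hy | hy)
    · exact ⟨s, Set.subset_union_left, hs, hx0, hy⟩
    · obtain ⟨i, hi⟩ := Set.mem_iUnion.mp hy
      refine ⟨s ∪ r i, ?_, hs.union_meet (hr i) (hm i), Or.inl hx0, Or.inr hi⟩
      exact Set.union_subset_union_right _ (Set.subset_iUnion r i)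
  · rw [Set.not_nonempty_iff_eq_empty] at hne
    have : IsEmpty ι := by
      constructor
      intro i
      obtain ⟨x, hx, -⟩ := hm i
      rw [hne] at hx
      exact hx
    rw [hne]
    simpa using con_empty G

theorem con_iff_preconnected : Con G s ↔ (G.induce s).Preconnected := by
  constructor
  · rintro h ⟨u, hu⟩ ⟨v, hv⟩
    by_contra hcon
    obtain ⟨a, ⟨ha, ha1, ha2⟩, b, ⟨hb, hb2⟩, hab⟩ :=
      h {w | ∃ hw : w ∈ s, (G.induce s).Reachable ⟨u, hu⟩ ⟨w, hw⟩}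
        ⟨u, hu, hu, SimpleGraph.Reachable.refl _⟩
        ⟨v, hv, fun ⟨_, h'⟩ => hcon h'⟩
    exact hb2 ⟨hb, ha2.trans (SimpleGraph.Adj.reachable
      (show (G.induce s).Adj ⟨a, ha1⟩ ⟨b, hb⟩ from hab))⟩
  · rintro h X ⟨x, hx, hxX⟩ ⟨y, hy, hyX⟩
    obtain ⟨p⟩ := h ⟨x, hx⟩ ⟨y, hy⟩
    obtain ⟨d, -, h1, h2⟩ := p.exists_boundary_dart {z : s | (z : V) ∈ X} hxX hyX
    exact ⟨d.fst.1, ⟨d.fst.2, h1⟩, d.snd.1, ⟨d.snd.2, h2⟩, d.adj⟩

theorem connected_iff_con : (G.induce s).Connected ↔ Con G s ∧ s.Nonempty := by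
  constructor
  · intro h
    obtain ⟨⟨x, hx⟩⟩ := h.nonempty
    exact ⟨con_iff_preconnected.mpr h.preconnected, x, hx⟩
  · rintro ⟨h, x, hx⟩
    have : Nonempty s := ⟨⟨x, hx⟩⟩
    exact ⟨con_iff_preconnected.mp h⟩

theorem con_univ_iff : Con G Set.univ ↔ G.Preconnected := by
  constructor
  · intro h u v
    by_contra hcon
    obtain ⟨a, ⟨-, ha⟩, b, ⟨-, hb⟩, hab⟩ := h {w | G.Reachable u w}
      ⟨u, Set.mem_univ _, SimpleGraph.Reachable.refl _⟩ ⟨v, Set.mem_univ _, hcon⟩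
    exact hb (SimpleGraph.Reachable.trans ha (SimpleGraph.Adj.reachable hab))
  · rintro h X ⟨x, -, hxX⟩ ⟨y, -, hyX⟩
    obtain ⟨p⟩ := h x y
    obtain ⟨d, -, h1, h2⟩ := p.exists_boundary_dart X hxX hyX
    exact ⟨d.fst, ⟨Set.mem_univ _, h1⟩, d.snd, ⟨Set.mem_univ _, h2⟩, d.adj⟩

/-- The class of `v` is connected. -/
theorem con_class (K : SimpleGraph V) (v : V) : Con K {w | K.Reachable v w} := by
  have key : ∀ y, K.Reachable v y → ∀ X : Set V, v ∈ X → y ∉ X →
      ∃ a, a ∈ X ∧ K.Reachable v a ∧ ∃ b, b ∉ X ∧ K.Reachable v b ∧ K.Adj a b := by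
    intro y hy X hv
    rw [SimpleGraph.reachable_iff_reflTransGen] at hy
    induction hy with
    | refl => exact fun h => absurd hv h
    | @tail p q hp hpq ih =>
      intro hq
      have hp' : K.Reachable v p := by
        rw [SimpleGraph.reachable_iff_reflTransGen]; exact hp
      by_cases hpX : p ∈ X
      · exact ⟨p, hpX, hp', q, hq, hp'.trans hpq.reachable, hpq⟩
      · exact ih hpX
  rintro X ⟨x, hx, hxX⟩ ⟨y, hy, hyX⟩
  by_cases hv : v ∈ X
  · obtain ⟨a, ha, ha', b, hb, hb', hab⟩ := key y hy X hv hyX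
    exact ⟨a, ⟨ha', ha⟩, b, ⟨hb', hb⟩, hab⟩
  · obtain ⟨a, ha, ha', b, hb, hb', hab⟩ := key x hx Xᶜ hv (by simpa using hxX)
    exact ⟨b, ⟨hb', by simpa using hb⟩, a, ⟨ha', ha⟩, hab.symm⟩

theorem con_class_of_le (h : K ≤ G) (v : V) : Con G {w | K.Reachable v w} :=
  (con_class K v).mono_le h

/-- Two points of a connected set of `K`-edges are in the same class. -/
theorem Con.reachable (hs : Con K s) {a b : V} (ha : a ∈ s) (hb : b ∈ s) : K.Reachable a b := by
  have := hs.all_mem (X := {w | K.Reachable a w}) ha (SimpleGraph.Reachable.refl _)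
    (fun c _ hc d _ hcd => SimpleGraph.Reachable.trans hc hcd.reachable)
  exact this hb

/-! ### components -/

/-- Every vertex of `U \ S` lies in a component. -/
theorem exists_isComp (G : SimpleGraph V) (U S : Set V) {v : V} (hv : v ∈ U \ S) :
    ∃ C, IsComp G U S C ∧ v ∈ C := by
  let C : Set V := ⋃₀ {r : Set V | r ⊆ U \ S ∧ Con G r ∧ v ∈ r}
  have hvC : v ∈ C := ⟨{v}, ⟨Set.singleton_subset_iff.mpr hv, con_singleton G v,
    Set.mem_singleton v⟩, Set.mem_singleton v⟩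
  refine ⟨C, ⟨?_, ⟨v, hvC⟩, ?_, ?_⟩, hvC⟩
  · exact Set.sUnion_subset fun r hr => hr.1
  · apply con_of_forall (x0 := v)
    rintro y ⟨r, hr, hyr⟩
    exact ⟨r, Set.subset_sUnion_of_mem hr, hr.2.1, hr.2.2, hyr⟩
  · rintro c ⟨r, hr, hcr⟩ d hd hcd
    refine ⟨insert d r, ⟨Set.insert_subset hd hr.1, hr.2.1.insert_adj hcr hcd.symm,
      Or.inr hr.2.2⟩, Or.inl rfl⟩

/-- A connected subset of `U \ S` meeting a component lies in it. -/
theorem IsComp.subset {U S C : Set V} (hC : IsComp G U S C) (hs : Con G s) (hsU : s ⊆ U \ S)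
    {x : V} (hx : x ∈ s) (hxC : x ∈ C) : s ⊆ C :=
  hs.all_mem hx hxC fun a _ haC b hb hab => hC.closed a haC b (hsU hb) hab

theorem IsComp.eq_of_mem {U S C D : Set V} (hC : IsComp G U S C) (hD : IsComp G U S D) {x : V}
    (hx : x ∈ C) (hx' : x ∈ D) : C = D :=
  Set.Subset.antisymm (hD.subset hC.con hC.sub hx hx') (hC.subset hD.con hD.sub hx' hx)

theorem IsComp.eq_or_disjoint {U S C D : Set V} (hC : IsComp G U S C) (hD : IsComp G U S D) :
    C = D ∨ Disjoint C D := by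
  by_cases h : Disjoint C D
  · exact Or.inr h
  · rw [Set.not_disjoint_iff] at h
    obtain ⟨x, hx, hx'⟩ := h
    exact Or.inl (hC.eq_of_mem hD hx hx')

/-! ### the statements of module CNX -/

theorem con_iff (G : SimpleGraph V) (s : Set V) : Con G s ↔ (G.induce s).Preconnected :=
  con_iff_preconnected

theorem Con.mono {G G' : SimpleGraph V} {s : Set V} (h : ∀ u ∈ s, ∀ v ∈ s, G.Adj u v → G'.Adj u v)
    (hs : Con G s) : Con G' s := hs.mono_graph h

theorem Con.union {G : SimpleGraph V} {s t : Set V} (hs : Con G s) (ht : Con G t)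
    (h : (s ∩ t).Nonempty) : Con G (s ∪ t) := hs.union_meet ht h

/-- Attaching a set of vertices each of which is joined to `s` by a connected set. -/
theorem Con.attach {G : SimpleGraph V} {s t : Set V} (hs : Con G s)
    (ht : ∀ v ∈ t, ∃ P, v ∈ P ∧ P ⊆ s ∪ t ∧ Con G P ∧ (P ∩ s).Nonempty) : Con G (s ∪ t) := by
  by_cases hne : s.Nonempty
  · obtain ⟨x0, hx0⟩ := hne
    apply con_of_forall (x0 := x0)
    rintro y (hy | hy)
    · exact ⟨s, Set.subset_union_left, hs, hx0, hy⟩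
    · obtain ⟨P, hyP, hP, hPc, hPs⟩ := ht y hy
      refine ⟨s ∪ P, Set.union_subset Set.subset_union_left hP, hs.union_meet hPc ?_, Or.inl hx0,
        Or.inr hyP⟩
      rwa [Set.inter_comm]
  · have : t = ∅ := by
      rw [Set.eq_empty_iff_forall_notMem]
      intro v hv
      obtain ⟨P, -, -, -, x, -, hx⟩ := ht v hv
      exact hne ⟨x, hx⟩
    rw [Set.not_nonempty_iff_eq_empty] at hne
    rw [hne, this, Set.union_empty]
    exact con_empty G

/-- A set closed under adjacency inside a connected set is everything. -/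
theorem Con.closed {G : SimpleGraph V} {s X : Set V} (h : Con G s) {a b : V} (ha : a ∈ s)
    (hb : b ∈ s) (haX : a ∈ X) (hX : ∀ u ∈ s, ∀ v ∈ s, u ∈ X → G.Adj u v → v ∈ X) : b ∈ X :=
  h.all_mem ha haX (fun u hu huX v hv huv => hX u hu v hv huX huv) hb

/-- Reachability preserves every set closed under adjacency. -/
theorem reach_closed {K : SimpleGraph V} {X : Set V} (hX : ∀ u v, u ∈ X → K.Adj u v → v ∈ X)
    {a b : V} (ha : a ∈ X) (hab : K.Reachable a b) : b ∈ X := by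
  rw [SimpleGraph.reachable_iff_reflTransGen] at hab
  induction hab with
  | refl => exact ha
  | tail _ h ih => exact hX _ _ ih h

/-- If `K` is isolated at `a` then its class is `{a}`. -/
theorem reach_isolated {K : SimpleGraph V} {a : V} (h : ∀ v, ¬ K.Adj a v) {b : V}
    (hab : K.Reachable a b) : a = b := by
  have : b ∈ ({a} : Set V) := by
    refine reach_closed (K := K) ?_ (Set.mem_singleton a) hab
    intro u v hu huv
    rw [Set.mem_singleton_iff] at hu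
    rw [hu] at huv
    exact absurd huv (h v)
  exact (Set.mem_singleton_iff.mp this).symm

theorem IsComp.disjoint {G : SimpleGraph V} {U S C D : Set V} (hC : IsComp G U S C)
    (hD : IsComp G U S D) (hne : C ≠ D) : Disjoint C D :=
  (hC.eq_or_disjoint hD).resolve_left hne

/-- A connected subset of `U \ S` which meets a component lies in it. -/
theorem IsComp.sub_of_con {G : SimpleGraph V} {U S C D : Set V} (hC : IsComp G U S C)
    (hD : Con G D) (hDU : D ⊆ U \ S) (h : (C ∩ D).Nonempty) : D ⊆ C := by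
  obtain ⟨x, hxC, hxD⟩ := h
  exact hC.subset hD hDU hxD hxC

theorem cnx_exists_ne {U : Set V} (h : 3 ≤ U.ncard) (u v : V) : ∃ w ∈ U, w ≠ u ∧ w ≠ v := by
  by_contra hcon
  push Not at hcon
  have hsub : U ⊆ {u, v} := by
    intro w hw
    by_cases hwu : w = u
    · exact Or.inl hwu
    · exact Or.inr (hcon w hw hwu)
  have h1 := Set.ncard_le_ncard hsub (Set.toFinite _)
  have h2 : ({u, v} : Set V).ncard ≤ 2 := by
    have := Set.ncard_insert_le u {v}
    rw [Set.ncard_singleton] at this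
    exact this
  omega

theorem cnx_exists_ne3 {U : Set V} (h : 4 ≤ U.ncard) (u v w : V) :
    ∃ x ∈ U, x ≠ u ∧ x ≠ v ∧ x ≠ w := by
  by_contra hcon
  push Not at hcon
  have hsub : U ⊆ {u, v, w} := by
    intro x hx
    by_cases hxu : x = u
    · exact Or.inl hxu
    by_cases hxv : x = v
    · exact Or.inr (Or.inl hxv)
    · exact Or.inr (Or.inr (hcon x hx hxu hxv))
  have h1 := Set.ncard_le_ncard hsub (Set.toFinite _)
  have h2 := Set.ncard_insert_le u {v, w}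
  have h3 := Set.ncard_insert_le v {w}
  rw [Set.ncard_singleton] at h3
  omega

theorem Two.ctr_bot {G : SimpleGraph V} {U : Set V} (h : Two G U) : Ctr G U ⊥ := by
  have hb : ∀ u v : V, (⊥ : SimpleGraph V).Reachable u v ↔ u = v := fun u v =>
    SimpleGraph.reachable_bot
  refine ⟨h.con, ?_, ?_, ?_, ?_⟩
  · intro u v huv
    exact absurd huv (by simp)
  · intro u _ v _ huv hr
    rw [hb] at hr
    exact absurd hr huv.ne
  · intro v _
    have : {w | w ∈ U ∧ ¬ (⊥ : SimpleGraph V).Reachable v w} = U \ {v} := by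
      ext w
      simp only [Set.mem_ofPred_eq, hb, Set.mem_sdiff, Set.mem_singleton_iff]
      constructor
      · rintro ⟨h1, h2⟩
        exact ⟨h1, fun h3 => h2 h3.symm⟩
      · rintro ⟨h1, h2⟩
        exact ⟨h1, fun h3 => h2 h3.symm⟩
    rw [this]
    exact h.del v
  · intro v _
    obtain ⟨w, hw, hwv, -⟩ := cnx_exists_ne h.card v v
    exact ⟨w, hw, by rw [hb]; exact fun h => hwv h.symm⟩

theorem Three.two {G : SimpleGraph V} {U : Set V} (h : Three G U) : Two G U := by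
  have hdel : ∀ v, Con G (U \ {v}) := by
    intro v
    have := h.del v v
    rwa [Set.pair_eq_singleton] at this
  refine ⟨by have := h.card; omega, ?_, hdel⟩
  rintro X ⟨x, hx, hxX⟩ ⟨y, hy, hyX⟩
  obtain ⟨w, hw, hwx, hwy⟩ := cnx_exists_ne (U := U) (by have := h.card; omega) x y
  obtain ⟨a, ha, b, hb, hab⟩ := hdel w X ⟨x, ⟨hx, fun h => hwx h.symm⟩, hxX⟩
    ⟨y, ⟨hy, fun h => hwy h.symm⟩, hyX⟩
  exact ⟨a, ⟨ha.1.1, ha.2⟩, b, ⟨hb.1.1, hb.2⟩, hab⟩

theorem cross_compl (R : SimpleGraph V) (U A : Set V) : cross R U Aᶜ = cross R U A := by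
  ext u v
  simp only [cross, Set.mem_compl_iff]
  tauto

theorem GC.compl {G K : SimpleGraph V} {U A : Set V} (h : GC G U A K) : GC G U Aᶜ K := by
  have e1 : U ∩ Aᶜ = U \ A := rfl
  have e2 : U \ Aᶜ = U ∩ A := by
    ext x
    simp
  refine ⟨?_, ?_, ?_, ?_, h.ctr⟩
  · rw [e1]; exact h.ne'
  · rw [e2]; exact h.ne
  · rw [e1]; exact h.right
  · rw [e2]; exact h.left

theorem SG.compl {R F : SimpleGraph V} {U A : Set V} (h : SG R F U A) : SG R F U Aᶜ := by
  unfold SG at h ⊢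
  rw [cross_compl]
  exact GC.compl h

theorem LO.compl {R F T : SimpleGraph V} {C S A : Set V} (h : LO R F C S A T) :
    LO R F C S Aᶜ T := by
  unfold LO LK at h ⊢
  rw [cross_compl]
  exact GC.compl h

end BND
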