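import Pool.Agent.BND.Prim
import Pool.Agent.BND.Cnx

set_option autoImplicit false

namespace BND

variable {V : Type}

/-! ### Module MIN (file Min.lean; uses CNX): minors -/

theorem min_con_of_closed {G : SimpleGraph V} {s : Set V} (x0 : V)
    (h : ∀ Y : Set V, x0 ∈ Y → (∀ a ∈ s, a ∈ Y → ∀ b ∈ s, G.Adj a b → b ∈ Y) → s ⊆ Y) :
    Con G s := by
  rintro X ⟨x, hx, hxX⟩ ⟨y, hy, hyX⟩
  by_contra hcon
  have hno : ∀ a ∈ s, a ∈ X → ∀ b ∈ s, b ∉ X → ¬ G.Adj a b :=
    fun a ha haX b hb hbX hab => hcon ⟨a, ⟨ha, haX⟩, b, ⟨hb, hbX⟩, hab⟩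
  by_cases h0 : x0 ∈ X
  · refine hyX (h X h0 ?_ hy)
    intro a ha haX b hb hab
    by_contra hbX
    exact hno a ha haX b hb hbX hab
  · refine h Xᶜ h0 ?_ hx hxX
    intro a ha haX b hb hab hbX
    exact hno b hb hbX a ha haX hab.symm

/-- Additional edges at the vertex `p` replaced by a connected set `P`. -/
theorem NoK5.add {G G' : SimpleGraph V} {U U' P : Set V} {p : V} (h : NoK5 G U)
    (hU : U' ⊆ U) (hP : P ⊆ U \ U') (hPc : Con G P) (hPn : P.Nonempty) (hp : p ∈ U')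
    (hpP : ∃ c ∈ P, G.Adj c p)
    (hadd : ∀ u ∈ U', ∀ v ∈ U', G'.Adj u v → ¬ G.Adj u v →
      (u = p ∧ ∃ c ∈ P, G.Adj c v) ∨ (v = p ∧ ∃ c ∈ P, G.Adj c u)) : NoK5 G' U' := by
  classical
  rintro ⟨f, hf, hd, ha⟩
  apply h
  obtain ⟨c0, hc0, hc0p⟩ := hpP
  have hin : ∀ i, p ∈ f i → Con G (f i ∪ P) := by
    intro i hpi
    apply min_con_of_closed c0
    intro Y h0 hY
    have hPY : P ⊆ Y := hPc.all_mem hc0 h0 fun a haP haY b hbP hab =>
      hY a (Or.inr haP) haY b (Or.inr hbP) hab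
    have hpY : p ∈ Y := hY c0 (Or.inr hc0) h0 p (Or.inl hpi) hc0p
    have hfY : f i ⊆ Y := by
      refine (hf i).2.2.all_mem hpi hpY ?_
      intro a hai haY b hbi hab
      by_cases hG : G.Adj a b
      · exact hY a (Or.inl hai) haY b (Or.inl hbi) hG
      · rcases hadd a ((hf i).2.1 hai) b ((hf i).2.1 hbi) hab hG with ⟨-, c, hc, hcb⟩ | ⟨rfl, -⟩
        · exact hY c (Or.inr hc) (hPY hc) b (Or.inl hbi) hcb
        · exact hpY
    exact Set.union_subset hfY hPY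
  refine ⟨fun i => if p ∈ f i then f i ∪ P else f i, ?_, ?_, ?_⟩
  · intro i
    by_cases hpi : p ∈ f i
    · simp only [if_pos hpi]
      exact ⟨(hf i).1.mono Set.subset_union_left, Set.union_subset ((hf i).2.1.trans hU)
        (hP.trans Set.sdiff_subset), hin i hpi⟩
    · simp only [if_neg hpi]
      refine ⟨(hf i).1, (hf i).2.1.trans hU, (hf i).2.2.mono_graph ?_⟩
      intro a hai b hbi hab
      by_contra hG
      rcases hadd a ((hf i).2.1 hai) b ((hf i).2.1 hbi) hab hG with ⟨rfl, -⟩ | ⟨rfl, -⟩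
      · exact hpi hai
      · exact hpi hbi
  · have hPf : ∀ i, Disjoint (f i) P := by
      intro i
      rw [Set.disjoint_left]
      intro x hx hxP
      exact (hP hxP).2 ((hf i).2.1 hx)
    intro i j hij
    have h0 := hd i j hij
    by_cases hpi : p ∈ f i
    · have hpj : p ∉ f j := Set.disjoint_left.mp h0 hpi
      simp only [if_pos hpi, if_neg hpj]
      exact Disjoint.sup_left h0 (hPf j).symm
    · by_cases hpj : p ∈ f j
      · simp only [if_pos hpj, if_neg hpi]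
        exact Disjoint.sup_right h0 (hPf i)
      · simp only [if_neg hpj, if_neg hpi]
        exact h0
  · intro i j hij
    obtain ⟨u, hu, v, hv, huv⟩ := ha i j hij
    have hsub : ∀ i, f i ⊆ (if p ∈ f i then f i ∪ P else f i) := by
      intro i
      split_ifs
      · exact Set.subset_union_left
      · exact subset_rfl
    have hsubP : ∀ i, p ∈ f i → P ⊆ (if p ∈ f i then f i ∪ P else f i) := by
      intro i hi
      rw [if_pos hi]
      exact Set.subset_union_right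
    by_cases hG : G.Adj u v
    · exact ⟨u, hsub i hu, v, hsub j hv, hG⟩
    · rcases hadd u ((hf i).2.1 hu) v ((hf j).2.1 hv) huv hG with ⟨rfl, c, hc, hcv⟩ | ⟨rfl, c, hc, hcu⟩
      · exact ⟨c, hsubP i hu hc, v, hsub j hv, hcv⟩
      · exact ⟨u, hsub i hu, c, hsubP j hv hc, hcu.symm⟩

theorem NoK5.mono {G G' : SimpleGraph V} {U U' : Set V} (h : NoK5 G U) (hU : U' ⊆ U)
    (hG : ∀ u ∈ U', ∀ v ∈ U', G'.Adj u v → G.Adj u v) : NoK5 G' U' := by
  rintro ⟨f, hf, hd, ha⟩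
  refine h ⟨f, fun i => ⟨(hf i).1, (hf i).2.1.trans hU, (hf i).2.2.mono_graph
    fun a ha b hb hab => hG a ((hf i).2.1 ha) b ((hf i).2.1 hb) hab⟩, hd, fun i j hij => ?_⟩
  obtain ⟨u, hu, v, hv, huv⟩ := ha i j hij
  exact ⟨u, hu, v, hv, hG u ((hf i).2.1 hu) v ((hf j).2.1 hv) huv⟩

end BND
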