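import Pool.Agent.BND.Prim
import Pool.Agent.BND.Cnx
import Pool.Agent.BND.Min

set_option autoImplicit false

namespace BND

variable {V : Type}

/-! ### Module PIE (file Pie.lean; uses CNX MIN): pieces of a hub -/

section

variable [Finite V] {G : SimpleGraph V} {U C S C0 C1 C2 : Set V}

omit [Finite V] in
/-- To prove that `W` is connected it is enough to look at sets avoiding a connected core. -/
theorem pie_con_of_core {W Z : Set V} (hZ : Con G Z) (hZW : Z ⊆ W)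
    (h : ∀ Y ⊆ W, Y.Nonempty → Disjoint Y Z → ∃ a ∈ Y, ∃ b ∈ W, b ∉ Y ∧ G.Adj a b) :
    Con G W := by
  rintro X ⟨x, hx, hxX⟩ ⟨y, hy, hyX⟩
  by_cases h1 : (Z ∩ X).Nonempty
  · by_cases h2 : (Z \ X).Nonempty
    · obtain ⟨a, ha, b, hb, hab⟩ := hZ X h1 h2
      exact ⟨a, ⟨hZW ha.1, ha.2⟩, b, ⟨hZW hb.1, hb.2⟩, hab⟩
    · have hd : Disjoint (W \ X) Z := by
        rw [Set.disjoint_left]
        intro z hz hzZ
        exact h2 ⟨z, hzZ, hz.2⟩
      obtain ⟨a, ha, b, hb, hbY, hab⟩ := h (W \ X) Set.sdiff_subset ⟨y, hy, hyX⟩ hd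
      have hbX : b ∈ X := by
        by_contra hbX
        exact hbY ⟨hb, hbX⟩
      exact ⟨b, ⟨hb, hbX⟩, a, ha, hab.symm⟩
  · have hd : Disjoint (W ∩ X) Z := by
      rw [Set.disjoint_left]
      intro z hz hzZ
      exact h1 ⟨z, hzZ, hz.2⟩
    obtain ⟨a, ha, b, hb, hbY, hab⟩ := h (W ∩ X) Set.inter_subset_left ⟨x, hx, hxX⟩ hd
    exact ⟨a, ha, b, ⟨hb, fun hbX => hbY ⟨hb, hbX⟩⟩, hab⟩

omit [Finite V] in
theorem pie_triple (hcard : S.ncard = 3) {s : V} (hs : s ∈ S) :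
    ∃ x y, x ≠ y ∧ x ≠ s ∧ y ≠ s ∧ S = {s, x, y} := by
  obtain ⟨a, b, c, hab, hac, hbc, rfl⟩ := Set.ncard_eq_three.mp hcard
  rcases hs with rfl | rfl | hs
  · exact ⟨b, c, hbc, hab.symm, hac.symm, rfl⟩
  · refine ⟨a, c, hac, hab, hbc.symm, ?_⟩
    ext w
    simp only [Set.mem_insert_iff, Set.mem_singleton_iff]
    tauto
  · rw [Set.mem_singleton_iff] at hs
    subst hs
    refine ⟨a, b, hab, hac, hbc, ?_⟩
    ext w
    simp only [Set.mem_insert_iff, Set.mem_singleton_iff]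
    tauto

/-- Every vertex of a 3-cut has a neighbour in every component. -/
theorem comp_nbr (h3 : Three G U) (hS : S ⊆ U) (hcard : S.ncard = 3) {D : Set V}
    (hC : IsComp G U S C) (hD : IsComp G U S D) (hCD : Disjoint C D) {s : V} (hs : s ∈ S) :
    ∃ c ∈ C, G.Adj s c := by
  obtain ⟨x, y, hxy, hxs, hys, hSe⟩ := pie_triple hcard hs
  have hxS : x ∈ S := by rw [hSe]; exact Or.inr (Or.inl rfl)
  have hyS : y ∈ S := by rw [hSe]; exact Or.inr (Or.inr rfl)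
  have hmem : ∀ w ∈ U \ S, w ∈ U \ {x, y} := by
    rintro w ⟨hw, hwS⟩
    refine ⟨hw, ?_⟩
    rintro (rfl | hwy)
    · exact hwS hxS
    · rw [Set.mem_singleton_iff] at hwy
      subst hwy
      exact hwS hyS
  obtain ⟨c, hc⟩ := hC.ne
  obtain ⟨d, hd⟩ := hD.ne
  obtain ⟨a, ha, b, hb, hab⟩ := h3.del x y C ⟨c, hmem c (hC.sub hc), hc⟩
    ⟨d, hmem d (hD.sub hd), fun hdC => (Set.disjoint_left.mp hCD hdC) hd⟩
  have hbs : b = s := by
    by_contra hbs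
    by_cases hbS : b ∈ S
    · rw [hSe] at hbS
      rcases hbS with h | h
      · exact hbs h
      · exact hb.1.2 h
    · exact hb.2 (hC.closed a ha.2 b ⟨hb.1.1, hbS⟩ hab)
  exact ⟨a, ha.2, by rw [← hbs]; exact hab.symm⟩

omit [Finite V] in
theorem pie_two {W : Set V} (hcard : 3 ≤ W.ncard) (hdel : ∀ v, Con G (W \ {v})) : Two G W := by
  refine ⟨hcard, ?_, hdel⟩
  rintro X ⟨x, hx, hxX⟩ ⟨y, hy, hyX⟩
  obtain ⟨w, hw, hwx, hwy⟩ := cnx_exists_ne hcard x y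
  obtain ⟨a, ha, b, hb, hab⟩ := hdel w X ⟨x, ⟨hx, fun h => hwx h.symm⟩, hxX⟩
    ⟨y, ⟨hy, fun h => hwy h.symm⟩, hyX⟩
  exact ⟨a, ⟨ha.1.1, ha.2⟩, b, ⟨hb.1.1, hb.2⟩, hab⟩

theorem pie_del_two (h3 : Three G U) (hS : S ⊆ U) (hcard : S.ncard = 3) {A B D : Set V}
    (hA : IsComp G U S A) (hB : IsComp G U S B) (hD : IsComp G U S D) (hAB : Disjoint A B)
    (hAD : Disjoint A D) (hBD : Disjoint B D) : Two G (U \ B) := by
  have hSB : S ⊆ U \ B := fun s hs => ⟨hS hs, fun hsB => (hB.sub hsB).2 hs⟩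
  have main : ∀ (v : V) (A : Set V), IsComp G U S A → Disjoint A B → v ∉ A →
      Con G ((U \ B) \ {v}) := by
    intro v A hA hAB hv
    have hZ : Con G (A ∪ (S \ {v})) := by
      apply hA.con.attach
      intro s hs
      obtain ⟨c, hc, hsc⟩ := comp_nbr h3 hS hcard hA hB hAB hs.1
      refine ⟨{s, c}, Or.inl rfl, ?_, con_pair hsc, c, Or.inr rfl, hc⟩
      rintro w (rfl | hw)
      · exact Or.inr hs
      · rw [Set.mem_singleton_iff] at hw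
        subst hw
        exact Or.inl hc
    have hAW : A ⊆ (U \ B) \ {v} := fun w hw =>
      ⟨⟨(hA.sub hw).1, fun hwB => (Set.disjoint_left.mp hAB hw) hwB⟩,
        fun hwv => hv ((Set.mem_singleton_iff.mp hwv) ▸ hw)⟩
    have hZW : A ∪ (S \ {v}) ⊆ (U \ B) \ {v} :=
      Set.union_subset hAW fun w hw => ⟨hSB hw.1, hw.2⟩
    refine pie_con_of_core hZ hZW ?_
    intro Y hYW hYne hYZ
    obtain ⟨y, hy⟩ := hYne
    obtain ⟨z, hz⟩ := hA.ne
    have h1 : Con G (U \ {v}) := h3.two.del v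
    have hzY : z ∉ Y := fun hzY => (Set.disjoint_left.mp hYZ hzY) (Or.inl hz)
    obtain ⟨a, ha, b, hb, hab⟩ := h1 Y ⟨y, ⟨(hYW hy).1.1, (hYW hy).2⟩, hy⟩
      ⟨z, ⟨(hAW hz).1.1, (hAW hz).2⟩, hzY⟩
    refine ⟨a, ha.2, b, ⟨⟨hb.1.1, ?_⟩, hb.1.2⟩, hb.2, hab⟩
    intro hbB
    have haW := hYW ha.2
    have haS : a ∉ S := fun haS =>
      (Set.disjoint_left.mp hYZ ha.2) (Or.inr ⟨haS, haW.2⟩)
    exact haW.1.2 (hB.closed b hbB a ⟨haW.1.1, haS⟩ hab.symm)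
  refine pie_two ?_ ?_
  · rw [← hcard]
    exact Set.ncard_le_ncard hSB (Set.toFinite _)
  · intro v
    by_cases hv : v ∈ A
    · exact main v D hD hBD.symm (fun hvD => (Set.disjoint_left.mp hAD hv) hvD)
    · exact main v A hA hAB hv

theorem pie_three (h3 : Three G U) (hS : S ⊆ U) (hcard : S.ncard = 3) {A : Set V}
    (hA : IsComp G U S A) {G' : SimpleGraph V}
    (h1 : ∀ u ∈ A, ∀ v ∈ A ∪ S, G.Adj u v → G'.Adj u v)
    (h2 : ∀ u ∈ S, ∀ v ∈ S, u ≠ v → G'.Adj u v) : Three G' (A ∪ S) := by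
  constructor
  · obtain ⟨a, ha⟩ := hA.ne
    have haS : a ∉ S := (hA.sub ha).2
    have h4 : (insert a S).ncard = 4 := by
      rw [Set.ncard_insert_of_notMem haS (Set.toFinite _), hcard]
    rw [← h4]
    refine Set.ncard_le_ncard ?_ (Set.toFinite _)
    rintro w (rfl | hw)
    · exact Or.inl ha
    · exact Or.inr hw
  · intro u v
    have hZ : Con G' (S \ {u, v}) := by
      rintro X ⟨x, hx, hxX⟩ ⟨y, hy, hyX⟩
      exact ⟨x, ⟨hx, hxX⟩, y, ⟨hy, hyX⟩, h2 x hx.1 y hy.1 fun h => hyX (h ▸ hxX)⟩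
    refine pie_con_of_core hZ (Set.sdiff_subset_sdiff_left Set.subset_union_right) ?_
    intro Y hYW hYne hYZ
    obtain ⟨y, hy⟩ := hYne
    obtain ⟨s, hsS, hsu, hsv⟩ := cnx_exists_ne (U := S) (by omega) u v
    have hsY : s ∉ Y := fun hsY => (Set.disjoint_left.mp hYZ hsY) ⟨hsS, by
      rintro (h | h)
      · exact hsu h
      · exact hsv h⟩
    have hYA : ∀ w ∈ Y, w ∈ A := by
      intro w hw
      rcases (hYW hw).1 with h | h
      · exact h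
      · exact absurd ⟨h, (hYW hw).2⟩ (Set.disjoint_left.mp hYZ hw)
    obtain ⟨a, ha, b, hb, hab⟩ := h3.del u v Y
      ⟨y, ⟨(hA.sub (hYA y hy)).1, (hYW hy).2⟩, hy⟩
      ⟨s, ⟨hS hsS, by
        rintro (h | h)
        · exact hsu h
        · exact hsv h⟩, hsY⟩
    have hbW : b ∈ A ∪ S := by
      by_cases hbS : b ∈ S
      · exact Or.inr hbS
      · exact Or.inl (hA.closed a (hYA a ha.2) b ⟨hb.1.1, hbS⟩ hab)
    exact ⟨a, ha.2, b, ⟨hbW, hb.1.2⟩, hb.2, h1 a (hYA a ha.2) b hbW hab⟩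

theorem pie_noK5 (h3 : Three G U) (h5 : NoK5 G U) (hS : S ⊆ U) (hcard : S.ncard = 3)
    {A B D : Set V} (hA : IsComp G U S A) (hB : IsComp G U S B) (hD : IsComp G U S D)
    (hAB : Disjoint A B) (hAD : Disjoint A D) (hBD : Disjoint B D) {G' : SimpleGraph V}
    (hG' : ∀ u ∈ A ∪ S, ∀ v ∈ A ∪ S, G'.Adj u v → G.Adj u v ∨ (u ≠ v ∧ u ∈ S ∧ v ∈ S)) :
    NoK5 G' (A ∪ S) := by
  obtain ⟨x, y, z, hxy, hxz, hyz, hSe⟩ := Set.ncard_eq_three.mp hcard
  have hxS : x ∈ S := by rw [hSe]; exact Or.inl rfl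
  have hyS : y ∈ S := by rw [hSe]; exact Or.inr (Or.inl rfl)
  have hzS : z ∈ S := by rw [hSe]; exact Or.inr (Or.inr rfl)
  have hmem : ∀ w ∈ S, w = x ∨ w = y ∨ w = z := by
    intro w hw
    rw [hSe] at hw
    exact hw
  have nbB : ∀ s ∈ S, ∃ c ∈ B, G.Adj c s := fun s hs => by
    obtain ⟨c, hc, h⟩ := comp_nbr h3 hS hcard hB hD hBD hs
    exact ⟨c, hc, h.symm⟩
  have nbD : ∀ s ∈ S, ∃ c ∈ D, G.Adj c s := fun s hs => by
    obtain ⟨c, hc, h⟩ := comp_nbr h3 hS hcard hD hB hBD.symm hs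
    exact ⟨c, hc, h.symm⟩
  -- first step: the edges at `x`
  let G1 : SimpleGraph V := G ⊔ (SimpleGraph.edge x y ⊔ SimpleGraph.edge x z)
  have hG1 : ∀ u v, G1.Adj u v → G.Adj u v ∨ (u = x ∧ v ∈ S) ∨ (v = x ∧ u ∈ S) := by
    intro u v huv
    simp only [G1, SimpleGraph.sup_adj, SimpleGraph.edge_adj] at huv
    rcases huv with h | ⟨⟨rfl, rfl⟩ | ⟨rfl, rfl⟩, -⟩ | ⟨⟨rfl, rfl⟩ | ⟨rfl, rfl⟩, -⟩
    · exact Or.inl h
    · exact Or.inr (Or.inl ⟨rfl, hyS⟩)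
    · exact Or.inr (Or.inr ⟨rfl, hyS⟩)
    · exact Or.inr (Or.inl ⟨rfl, hzS⟩)
    · exact Or.inr (Or.inr ⟨rfl, hzS⟩)
  have hG1' : ∀ u v, u ≠ v → u ∈ S → v ∈ S → (u = x ∨ v = x) → G1.Adj u v := by
    intro u v huv hu hv hx
    simp only [G1, SimpleGraph.sup_adj, SimpleGraph.edge_adj]
    rcases hx with rfl | rfl
    · rcases hmem v hv with rfl | rfl | rfl
      · exact absurd rfl huv
      · exact Or.inr (Or.inl ⟨Or.inl ⟨rfl, rfl⟩, huv⟩)
      · exact Or.inr (Or.inr ⟨Or.inl ⟨rfl, rfl⟩, huv⟩)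
    · rcases hmem u hu with rfl | rfl | rfl
      · exact absurd rfl huv
      · exact Or.inr (Or.inl ⟨Or.inr ⟨rfl, rfl⟩, huv⟩)
      · exact Or.inr (Or.inr ⟨Or.inr ⟨rfl, rfl⟩, huv⟩)
  have hle : G ≤ G1 := le_sup_left
  have hxB : x ∉ B := fun h => (hB.sub h).2 hxS
  have step1 : NoK5 G1 (U \ B) := by
    refine NoK5.add (P := B) (p := x) h5 Set.sdiff_subset ?_ hB.con hB.ne ⟨hS hxS, hxB⟩
      (nbB x hxS) ?_
    · intro w hw
      exact ⟨(hB.sub hw).1, fun h => h.2 hw⟩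
    · intro u _ v _ huv hn
      rcases hG1 u v huv with h | ⟨rfl, hv⟩ | ⟨rfl, hu⟩
      · exact absurd h hn
      · exact Or.inl ⟨rfl, nbB v hv⟩
      · exact Or.inr ⟨rfl, nbB u hu⟩
  refine NoK5.add (P := D) (p := y) step1 ?_ ?_ (hD.con.mono_le hle) hD.ne (Or.inr hyS) ?_ ?_
  · rintro w (hw | hw)
    · exact ⟨(hA.sub hw).1, fun h => (Set.disjoint_left.mp hAB hw) h⟩
    · exact ⟨hS hw, fun h => (hB.sub h).2 hw⟩
  · intro w hw
    refine ⟨⟨(hD.sub hw).1, fun h => (Set.disjoint_left.mp hBD h) hw⟩, ?_⟩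
    rintro (h | h)
    · exact (Set.disjoint_left.mp hAD h) hw
    · exact (hD.sub hw).2 h
  · obtain ⟨c, hc, h⟩ := nbD y hyS
    exact ⟨c, hc, hle h⟩
  · intro u hu v hv huv hn
    rcases hG' u hu v hv huv with h | ⟨hne, huS, hvS⟩
    · exact absurd (hle h) hn
    · have hux : u ≠ x := fun h => hn (hG1' u v hne huS hvS (Or.inl h))
      have hvx : v ≠ x := fun h => hn (hG1' u v hne huS hvS (Or.inr h))
      rcases hmem u huS with h | h | h
      · exact absurd h hux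
      · obtain ⟨c, hc, hcv⟩ := nbD v hvS
        exact Or.inl ⟨h, c, hc, hle hcv⟩
      · rcases hmem v hvS with h' | h' | h'
        · exact absurd h' hvx
        · obtain ⟨c, hc, hcu⟩ := nbD u huS
          exact Or.inr ⟨h', c, hc, hle hcu⟩
        · exact absurd (h.trans h'.symm) hne

theorem hub_del_two (h3 : Three G U) (h : IsHub G U S C0 C1 C2) : Two G (U \ C1) :=
  pie_del_two h3 h.sub h.card h.c0 h.c1 h.c2 h.d01 h.d02 h.d12

theorem hub_leaf_three (h3 : Three G U) (h : IsHub G U S C0 C1 C2) :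
    Three (LG G C1 S) (C1 ∪ S) := by
  refine pie_three h3 h.sub h.card h.c1 ?_ ?_
  · intro u hu v hv huv
    exact Or.inl ⟨huv, Or.inl ⟨hu, hv⟩⟩
  · intro u hu v hv huv
    exact Or.inr ⟨huv, hu, hv⟩

theorem hub_leaf_noK5 (h3 : Three G U) (h5 : NoK5 G U) (h : IsHub G U S C0 C1 C2) :
    NoK5 (LG G C1 S) (C1 ∪ S) := by
  refine pie_noK5 h3 h5 h.sub h.card h.c1 h.c2 h.c0 h.d12 h.d01.symm h.d02.symm ?_
  rintro u - v - (huv | huv)
  · exact Or.inl huv.1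
  · exact Or.inr huv

theorem hub_core_two (h3 : Three G U) (h : IsHub G U S C0 C1 C2) :
    Two (G ⊔ tri S) (C0 ∪ S) := by
  refine (pie_three h3 h.sub h.card h.c0 ?_ ?_).two
  · intro u _ v _ huv
    exact Or.inl huv
  · intro u hu v hv huv
    exact Or.inr ⟨huv, hu, hv⟩

theorem hub_core_noK5 (h3 : Three G U) (h5 : NoK5 G U) (h : IsHub G U S C0 C1 C2) :
    NoK5 (G ⊔ tri S) (C0 ∪ S) := by
  refine pie_noK5 h3 h5 h.sub h.card h.c0 h.c1 h.c2 h.d01 h.d02 h.d12 ?_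
  rintro u - v - (huv | huv)
  · exact Or.inl huv
  · exact Or.inr huv

end

end BND
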