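import Pool.Agent.BND.Prim
import Pool.Agent.BND.Cnx
import Pool.Agent.BND.Pie

/-!
# BND, module ALM: all of `S` in one class
-/

set_option autoImplicit false

namespace BND

variable {V : Type}

/-- A vertex of a connected set without neighbours in the set is alone. -/
theorem alm_alone {G : SimpleGraph V} {s : Set V} (hs : Con G s) {v : V} (hv : v ∈ s)
    (h : ∀ u ∈ s, ¬ G.Adj v u) : s = {v} := by
  ext u
  rw [Set.mem_singleton_iff]
  constructor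
  · intro hu
    by_contra hne
    obtain ⟨a, ha, b, hb, hab⟩ := hs {v} ⟨v, hv, rfl⟩ ⟨u, hu, hne⟩
    have ha' : a = v := ha.2
    rw [ha'] at hab
    exact h b hb.1 hab
  · rintro rfl
    exact hv

theorem alm_aux [Finite V] {R F : SimpleGraph V} {U S C0 C1 C2 : Set V}
    (h3 : Three (R ⊔ F) U) (h : IsHub (R ⊔ F) U S C0 C1 C2) {A : Set V}
    (hA : SG R F (U \ C1) A) (hSA : ∀ s ∈ S, s ∉ A)
    (hm : ∀ s ∈ S, ∀ t ∈ S, (cross R (U \ C1) A).Reachable s t) :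
    U = S ∪ C0 ∪ C1 ∪ C2 ∧ (∀ s ∈ S, ∀ t ∈ S, ¬ (R ⊔ F).Adj s t) ∧
      ∃ w, (C0 = {w} ∨ C2 = {w}) ∧ ∀ s ∈ S, (cross R (U \ C1) A).Adj w s := by
  set G := R ⊔ F with hG
  set K := cross R (U \ C1) A with hK
  have hcU : ∀ {C : Set V}, IsComp G U S C → ∀ x ∈ C, x ∈ U := fun hC x hx => (hC.sub hx).1
  have hcS : ∀ {C : Set V}, IsComp G U S C → ∀ x ∈ C, x ∉ S := fun hC x hx => (hC.sub hx).2
  have hS1 : ∀ s ∈ S, s ∈ U \ C1 := fun s hs => ⟨h.sub hs, fun hc => hcS h.c1 s hc hs⟩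
  obtain ⟨s0, hs0⟩ : S.Nonempty := by
    rw [Set.nonempty_iff_ne_empty]
    intro h0
    have := h.card
    rw [h0, Set.ncard_empty] at this
    omega
  obtain ⟨x0, hx0⟩ := hA.ne
  have hXS : ∀ x ∈ (U \ C1) ∩ A, x ∈ U \ S := fun x hx => ⟨hx.1.1, fun hs => hSA x hs hx.2⟩
  obtain ⟨D, hD, hxD⟩ := exists_isComp G U S (hXS x0 hx0)
  have hXD : (U \ C1) ∩ A ⊆ D := hD.sub_of_con hA.left hXS ⟨x0, hxD, hx0⟩
  have hDC1 : D ≠ C1 := fun hc => hx0.1.2 (hc ▸ hxD)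
  have hdisj : ∀ {C C' : Set V}, IsComp G U S C → IsComp G U S C' → C ≠ C' → ∀ x ∈ C, x ∉ C' :=
    fun hC hC' hne x hx hx' => Set.disjoint_left.mp (hC.disjoint hC' hne) hx hx'
  have hW : ∀ {C : Set V}, IsComp G U S C → C ≠ C1 → ∀ x ∈ C, x ∈ U \ C1 := fun hC hne x hx =>
    ⟨hcU hC x hx, hdisj hC h.c1 hne x hx⟩
  -- the set of vertices which are not merged with `S`
  set N : Set V := {w | w ∈ U \ C1 ∧ ¬ K.Reachable s0 w} with hN
  have hNcon : Con G N := hA.ctr.con s0 (hS1 s0 hs0)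
  have hNS : N ⊆ U \ S := fun x hx => ⟨hx.1.1, fun hs => hx.2 (hm s0 hs0 x hs)⟩
  have hcomp : ∀ E, IsComp G U S E → E ≠ D → E ≠ C1 → E = N := by
    intro E hE hED hE1
    have hsub : E ⊆ N := by
      intro v hv
      refine ⟨hW hE hE1 v hv, fun hr => ?_⟩
      have hiso : ∀ u, ¬ K.Adj v u := by
        rintro u ⟨hvu, hvW, huW, hcr⟩
        have hvu' : G.Adj v u := Or.inl hvu
        by_cases hvA : v ∈ A
        · exact hdisj hE hD hED v hv (hXD ⟨hvW, hvA⟩)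
        · have huA : u ∈ A := by
            by_contra huA
            exact hcr ⟨fun h' => absurd h' hvA, fun h' => absurd h' huA⟩
          exact hdisj hE hD hED v hv
            (hD.closed u (hXD ⟨huW, huA⟩) v (hE.sub hv) hvu'.symm)
      have := reach_isolated hiso hr.symm
      exact hcS hE v hv (this ▸ hs0)
    obtain ⟨e, he⟩ := hE.ne
    exact Set.Subset.antisymm hsub (hE.sub_of_con hNcon hNS ⟨e, he, hsub he⟩)
  have h02 : C0 ≠ C2 := by
    intro hc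
    obtain ⟨c, hc0⟩ := h.c0.ne
    exact Set.disjoint_left.mp h.d02 hc0 (hc ▸ hc0)
  have h01 : C0 ≠ C1 := by
    intro hc
    obtain ⟨c, hc0⟩ := h.c0.ne
    exact Set.disjoint_left.mp h.d01 hc0 (hc ▸ hc0)
  have h21 : C2 ≠ C1 := by
    intro hc
    obtain ⟨c, hc0⟩ := h.c2.ne
    exact Set.disjoint_left.mp h.d12 (hc ▸ hc0) hc0
  -- `D` is `C0` or `C2`, the other one is `N`
  obtain ⟨E, hE, hED, hE1, hDE⟩ : ∃ E, IsComp G U S E ∧ E ≠ D ∧ E ≠ C1 ∧
      ((D = C0 ∧ E = C2) ∨ (D = C2 ∧ E = C0)) := by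
    by_cases hD0 : D = C0
    · exact ⟨C2, h.c2, fun hc => h02 (hD0.symm.trans hc.symm), h21, Or.inl ⟨hD0, rfl⟩⟩
    by_cases hD2 : D = C2
    · exact ⟨C0, h.c0, fun hc => h02 (hc.trans hD2), h01, Or.inr ⟨hD2, rfl⟩⟩
    exact absurd ((hcomp C0 h.c0 (fun hc => hD0 hc.symm) h01).trans
      (hcomp C2 h.c2 (fun hc => hD2 hc.symm) h21).symm) h02
  have hEN : E = N := hcomp E hE hED hE1
  have hU : U = S ∪ C0 ∪ C1 ∪ C2 := by
    ext x
    constructor
    · intro hx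
      by_cases hxS : x ∈ S
      · exact Or.inl (Or.inl (Or.inl hxS))
      obtain ⟨Dx, hDx, hxx⟩ := exists_isComp G U S (⟨hx, hxS⟩ : x ∈ U \ S)
      by_cases h1 : Dx = C1
      · exact Or.inl (Or.inr (h1 ▸ hxx))
      have hxDE : x ∈ D ∨ x ∈ E := by
        by_cases h2 : Dx = D
        · exact Or.inl (h2 ▸ hxx)
        · right
          rw [hEN, ← hcomp Dx hDx h2 h1]
          exact hxx
      rcases hDE with ⟨hd, he⟩ | ⟨hd, he⟩
      · rw [hd, he] at hxDE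
        rcases hxDE with h' | h'
        · exact Or.inl (Or.inl (Or.inr h'))
        · exact Or.inr h'
      · rw [hd, he] at hxDE
        rcases hxDE with h' | h'
        · exact Or.inr h'
        · exact Or.inl (Or.inl (Or.inr h'))
    · rintro (((hx | hx) | hx) | hx)
      · exact h.sub hx
      · exact hcU h.c0 x hx
      · exact hcU h.c1 x hx
      · exact hcU h.c2 x hx
  -- everything in `D ∪ S` is merged
  have hmerged : ∀ x ∈ D ∪ S, x ∈ U \ C1 ∧ K.Reachable s0 x := by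
    rintro x (hx | hx)
    · refine ⟨hW hD hDC1 x hx, ?_⟩
      by_contra hr
      have : x ∈ E := by
        rw [hEN]
        exact ⟨hW hD hDC1 x hx, hr⟩
      exact hdisj hE hD hED x this hx
    · exact ⟨hS1 x hx, hm s0 hs0 x hx⟩
  have hedge : ∀ x ∈ D ∪ S, ∀ y ∈ D ∪ S, G.Adj x y → K.Adj x y := by
    intro x hx y hy hxy
    have h1 := hmerged x hx
    have h2 := hmerged y hy
    exact hA.ctr.strict x h1.1 y h2.1 hxy (h1.2.symm.trans h2.2)
  -- the side `A` is one vertex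
  have hX : (U \ C1) ∩ A = {x0} := by
    refine alm_alone hA.left hx0 ?_
    intro u hu hadj
    have h1 := hedge x0 (Or.inl hxD) u (Or.inl (hXD hu)) hadj
    exact h1.2.2.2 ⟨fun _ => hu.2, fun _ => hx0.2⟩
  have hadj_x0 : ∀ v ∈ D ∪ S, v ≠ x0 → ∀ u ∈ D ∪ S, G.Adj v u → u = x0 := by
    intro v hv hvx u hu hvu
    have h1 := hedge v hv u hu hvu
    have hvA : v ∉ A := by
      intro hvA
      have : v ∈ (U \ C1) ∩ A := ⟨h1.2.1, hvA⟩
      rw [hX] at this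
      exact hvx this
    have huA : u ∈ A := by
      by_contra huA
      exact h1.2.2.2 ⟨fun h' => absurd h' hvA, fun h' => absurd h' huA⟩
    have : u ∈ (U \ C1) ∩ A := ⟨h1.2.2.1, huA⟩
    rw [hX] at this
    exact this
  have hDx : D = {x0} := by
    ext v
    rw [Set.mem_singleton_iff]
    constructor
    · intro hv
      by_contra hvx
      have hcon := h3.del x0 x0
      have hs0x : s0 ≠ x0 := fun hc => hcS hD x0 hxD (hc ▸ hs0)
      have hs0v : s0 ≠ v := fun hc => hcS hD v hv (hc ▸ hs0)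
      obtain ⟨a, ha, b, hb, hab⟩ := hcon {v}
        ⟨v, ⟨hcU hD v hv, by simp [hvx]⟩, rfl⟩
        ⟨s0, ⟨h.sub hs0, by simp [hs0x]⟩, hs0v⟩
      have hav : a = v := ha.2
      rw [hav] at hab
      have hbx : b ≠ x0 := by
        intro hc
        exact hb.1.2 (by simp [hc])
      have hbD : b ∈ D ∪ S := by
        by_cases hbS : b ∈ S
        · exact Or.inr hbS
        · exact Or.inl (hD.closed v hv b ⟨hb.1.1, hbS⟩ hab)
      exact hbx (hadj_x0 v (Or.inl hv) hvx b hbD hab)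
    · rintro rfl
      exact hxD
  refine ⟨hU, ?_, x0, ?_, ?_⟩
  · intro s hs t ht hst
    have h1 := hedge s (Or.inr hs) t (Or.inr ht) hst
    exact h1.2.2.2 ⟨fun h' => absurd h' (hSA s hs), fun h' => absurd h' (hSA t ht)⟩
  · rcases hDE with ⟨hd, -⟩ | ⟨hd, -⟩
    · exact Or.inl (hd.symm.trans hDx)
    · exact Or.inr (hd.symm.trans hDx)
  · intro s hs
    obtain ⟨c, hc, hsc⟩ := comp_nbr h3 h.sub h.card hD hE (hD.disjoint hE hED.symm) hs
    have hcx : c = x0 := by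
      rw [hDx] at hc
      exact hc
    rw [hcx] at hsc
    exact hedge x0 (Or.inl hxD) s (Or.inr hs) hsc.symm

/-- If a strict good cut of `U \ C1` has `S` on one side and in one class then `S` is independent,
there are exactly two other components, and one of them is a real claw whose edges all cross. -/
theorem all_merged [Finite V] {R F : SimpleGraph V} {U S C0 C1 C2 : Set V}
    (h3 : Three (R ⊔ F) U) (h : IsHub (R ⊔ F) U S C0 C1 C2) {A : Set V}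
    (hA : SG R F (U \ C1) A) (hside : ∀ s ∈ S, ∀ t ∈ S, s ∈ A ↔ t ∈ A)
    (hm : ∀ s ∈ S, ∀ t ∈ S, (cross R (U \ C1) A).Reachable s t) :
    U = S ∪ C0 ∪ C1 ∪ C2 ∧ (∀ s ∈ S, ∀ t ∈ S, ¬ (R ⊔ F).Adj s t) ∧
      ∃ w, (C0 = {w} ∨ C2 = {w}) ∧ ∀ s ∈ S, (cross R (U \ C1) A).Adj w s := by
  by_cases hSA : ∀ s ∈ S, s ∉ A
  · exact alm_aux h3 h hA hSA hm
  · push Not at hSA
    obtain ⟨s1, hs1, hs1A⟩ := hSA
    have hSA' : ∀ s ∈ S, s ∉ Aᶜ := fun s hs hc => hc ((hside s1 hs1 s hs).mp hs1A)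
    have h1 := alm_aux h3 h hA.compl hSA' (by rw [cross_compl]; exact hm)
    rw [cross_compl] at h1
    exact h1

/-- If `S` is split then it is not in one class. -/
theorem not_all_merged [Finite V] {R F : SimpleGraph V} {U S C0 C1 C2 : Set V}
    (h3 : Three (R ⊔ F) U) (h : IsHub (R ⊔ F) U S C0 C1 C2) {A : Set V}
    (hA : SG R F (U \ C1) A) (hsp : ∃ s ∈ S, ∃ t ∈ S, s ∈ A ∧ t ∉ A) :
    ∀ s ∈ S, ∃ t ∈ S, ¬ (cross R (U \ C1) A).Reachable s t := by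
  intro s1 hs1
  by_contra hcon
  push Not at hcon
  set G := R ⊔ F with hG
  set K := cross R (U \ C1) A with hK
  have hcU : ∀ {C : Set V}, IsComp G U S C → ∀ x ∈ C, x ∈ U := fun hC x hx => (hC.sub hx).1
  have hcS : ∀ {C : Set V}, IsComp G U S C → ∀ x ∈ C, x ∉ S := fun hC x hx => (hC.sub hx).2
  have hS1 : ∀ s ∈ S, s ∈ U \ C1 := fun s hs => ⟨h.sub hs, fun hc => hcS h.c1 s hc hs⟩
  set N : Set V := {w | w ∈ U \ C1 ∧ ¬ K.Reachable s1 w} with hN
  have hNcon : Con G N := hA.ctr.con s1 (hS1 s1 hs1)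
  have hNS : N ⊆ U \ S := fun x hx => ⟨hx.1.1, fun hs => hx.2 (hcon x hs)⟩
  obtain ⟨n, hnW, hn⟩ := hA.ctr.ne s1 (hS1 s1 hs1)
  obtain ⟨E, hE, hnE⟩ := exists_isComp G U S (hNS ⟨hnW, hn⟩)
  have hNE : N ⊆ E := hE.sub_of_con hNcon hNS ⟨n, hnE, hnW, hn⟩
  -- one of `C0`, `C2` is not `E`
  obtain ⟨D, hD, hDE, hD1⟩ : ∃ D, IsComp G U S D ∧ D ≠ E ∧ Disjoint D C1 := by
    by_cases h0 : C0 = E
    · refine ⟨C2, h.c2, ?_, h.d12.symm⟩
      rintro hc
      obtain ⟨c, hc0⟩ := h.c0.ne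
      exact Set.disjoint_left.mp h.d02 hc0 (by rw [hc, ← h0]; exact hc0)
    · exact ⟨C0, h.c0, h0, h.d01⟩
  obtain ⟨d, hd⟩ := hD.ne
  have hDW : ∀ x ∈ D, x ∈ U \ C1 := fun x hx =>
    ⟨hcU hD x hx, fun hc => Set.disjoint_left.mp hD1 hx hc⟩
  have hDm : ∀ x ∈ D ∪ S, x ∈ U \ C1 ∧ K.Reachable s1 x := by
    rintro x (hx | hx)
    · refine ⟨hDW x hx, ?_⟩
      by_contra hr
      exact Set.disjoint_left.mp (hD.disjoint hE hDE) hx (hNE ⟨hDW x hx, hr⟩)
    · exact ⟨hS1 x hx, hcon x hx⟩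
  have hnb : ∀ u ∈ U \ C1, G.Adj d u → ¬ (d ∈ A ↔ u ∈ A) := by
    intro u hu hdu
    have huD : u ∈ D ∪ S := by
      by_cases huS : u ∈ S
      · exact Or.inr huS
      · exact Or.inl (hD.closed d hd u ⟨hu.1, huS⟩ hdu)
    have h1 := hDm d (Or.inl hd)
    have h2 := hDm u huD
    exact (hA.ctr.strict d h1.1 u h2.1 hdu (h1.2.symm.trans h2.2)).2.2.2
  obtain ⟨s, hs, t, ht, hsA, htA⟩ := hsp
  by_cases hdA : d ∈ A
  · have h1 := alm_alone hA.left (v := d) ⟨hDW d hd, hdA⟩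
      (fun u hu hdu => hnb u hu.1 hdu ⟨fun _ => hu.2, fun _ => hdA⟩)
    have h2 : s ∈ (U \ C1) ∩ A := ⟨hS1 s hs, hsA⟩
    rw [h1] at h2
    have h2' : s = d := h2
    exact hcS hD d hd (h2' ▸ hs)
  · have h1 := alm_alone hA.right (v := d) ⟨hDW d hd, hdA⟩
      (fun u hu hdu => hnb u hu.1 hdu ⟨fun h' => absurd h' hdA, fun h' => absurd h' hu.2⟩)
    have h2 : t ∈ (U \ C1) \ A := ⟨hS1 t ht, htA⟩
    rw [h1] at h2
    have h2' : t = d := h2
    exact hcS hD d hd (h2' ▸ ht)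

end BND
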