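import Pool.Agent.BND.Prim
import Pool.Agent.BND.Cnx

set_option autoImplicit false

namespace BND

variable {V : Type}

/-! ### Module CLAS (file Clas.lean): classification of leaves -/

/-- A leaf without inner cuts is of type alpha (everything critical) or beta (every critical pair is
fat, and `S` contains a fat pair). -/
theorem leaf_type {R F : SimpleGraph V} {C S : Set V} {crit : V → V → Prop} (hS : S.ncard = 3)
    (hCS : Disjoint C S) (hf : LeafFacts R F C S crit)
    (htri : ∀ a ∈ C ∪ S, ∀ b ∈ C ∪ S, ∀ c ∈ C ∪ S, R.Adj a b → R.Adj b c → R.Adj a c → False)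
    (hin : ¬ ∃ A, (∀ s ∈ S, ∀ t ∈ S, s ∈ A ↔ t ∈ A) ∧ LO R F C S A ⊥)
    (hinM : ∀ x y z, x ≠ y → x ≠ z → y ≠ z → S = {x, y, z} → ¬ (R ⊔ F).Adj x y →
      ¬ ∃ A, (∀ s ∈ S, ∀ t ∈ S, s ∈ A ↔ t ∈ A) ∧ LO R F C S A (SimpleGraph.edge x y)) :
    (∀ x ∈ S, ∀ y ∈ S, x ≠ y → crit x y) ∨
    ((∀ x ∈ S, ∀ y ∈ S, x ≠ y → crit x y → F.Adj x y) ∧ ∃ x ∈ S, ∃ y ∈ S, F.Adj x y) := by
  have hfin : S.Finite := Set.finite_of_ncard_ne_zero (by omega)
  by_cases hall : ∀ x ∈ S, ∀ y ∈ S, x ≠ y → crit x y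
  · exact Or.inl hall
  right
  have key : ∀ x ∈ S, ∀ y ∈ S, x ≠ y → crit x y → F.Adj x y := by
    intro x hx y hy hxy hc
    by_contra hF
    have hR : ¬ R.Adj x y := by
      intro hR
      obtain ⟨c, hcC, hcx, hcy⟩ := hf.nbr x hx y hy hc
      exact htri c (Or.inl hcC) x (Or.inr hx) y (Or.inr hy) hcx hR hcy
    have hG : ¬ (R ⊔ F).Adj x y := by
      rintro (h | h)
      · exact hR h
      · exact hF h
    obtain ⟨z, hz, hzx, hzy⟩ := cnx_exists_ne (U := S) (by omega) x y
    have hSe : S = {x, y, z} := by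
      symm
      apply Set.eq_of_subset_of_ncard_le
      · rintro w (rfl | rfl | rfl)
        · exact hx
        · exact hy
        · exact hz
      · rw [hS, Set.ncard_eq_three.mpr ⟨x, y, z, hxy, hzx.symm, hzy.symm, rfl⟩]
      · exact hfin
    rcases hf.A5 x y z hxy hzx.symm hzy.symm hSe hc with h | ⟨h1, h2⟩
    · exact hinM x y z hxy hzx.symm hzy.symm hSe hG h
    · apply hall
      intro p hp q hq hpq
      rw [hSe] at hp hq
      rcases hp with rfl | rfl | rfl <;> rcases hq with rfl | rfl | rfl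
      · exact absurd rfl hpq
      · exact hc
      · exact h1
      · exact hf.symm _ _ hc
      · exact absurd rfl hpq
      · exact h2
      · exact hf.symm _ _ h1
      · exact hf.symm _ _ h2
      · exact absurd rfl hpq
  refine ⟨key, ?_⟩
  by_contra hno
  apply hin
  apply hf.A4
  intro x hx y hy hxy hc
  exact hno ⟨x, hx, y, hy, key x hx y hy hxy hc⟩

end BND
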