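import Pool.Agent.BND.Prim
import Pool.Agent.BND.Cnx

set_option autoImplicit false

namespace BND

variable {V : Type}

/-! ### Module GLU (file Glu.lean; uses CNX): the gluing lemma -/

theorem glu_reach_mem {L : SimpleGraph V} {U : Set V} (hL : ∀ u v, L.Adj u v → u ∈ U)
    {s x : V} (h : L.Reachable s x) : x = s ∨ x ∈ U := by
  have : x ∈ {y | y = s ∨ y ∈ U} := by
    refine reach_closed (K := L) ?_ (Or.inl rfl) h
    intro u v _ huv
    exact Or.inr (hL v u huv.symm)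
  exact this

/-- If `L` connects two vertices of `U1 ∩ U2` only if `K` does. -/
theorem reach_left {K L : SimpleGraph V} {U1 U2 : Set V} (hK : ∀ u v, K.Adj u v → u ∈ U1)
    (hL : ∀ u v, L.Adj u v → u ∈ U2)
    (hS : ∀ s ∈ U1 ∩ U2, ∀ t ∈ U1 ∩ U2, L.Reachable s t → K.Reachable s t) :
    ∀ u ∈ U1, ∀ v ∈ U1, (K ⊔ L).Reachable u v ↔ K.Reachable u v := by
  intro u hu v hv
  constructor
  · intro h
    have key : v ∈ {x | (x ∈ U1 ∧ K.Reachable u x) ∨
        ∃ s ∈ U1 ∩ U2, K.Reachable u s ∧ L.Reachable s x} := by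
      refine reach_closed (K := K ⊔ L) ?_ (Or.inl ⟨hu, SimpleGraph.Reachable.refl _⟩) h
      rintro x y hx (hxy | hxy)
      · rcases hx with ⟨hx1, hx2⟩ | ⟨s, hs, hs1, hs2⟩
        · exact Or.inl ⟨hK y x hxy.symm, hx2.trans hxy.reachable⟩
        · have hxU2 : x ∈ U2 := by
            rcases glu_reach_mem hL hs2 with h1 | h1
            · rw [h1]; exact hs.2
            · exact h1
          have hr := hS s hs x ⟨hK x y hxy, hxU2⟩ hs2
          exact Or.inl ⟨hK y x hxy.symm, (hs1.trans hr).trans hxy.reachable⟩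
      · rcases hx with ⟨hx1, hx2⟩ | ⟨s, hs, hs1, hs2⟩
        · exact Or.inr ⟨x, ⟨hx1, hL x y hxy⟩, hx2, hxy.reachable⟩
        · exact Or.inr ⟨s, hs, hs1, hs2.trans hxy.reachable⟩
    rcases key with ⟨_, h2⟩ | ⟨s, hs, hs1, hs2⟩
    · exact h2
    · have hvU2 : v ∈ U2 := by
        rcases glu_reach_mem hL hs2 with h1 | h1
        · rw [h1]; exact hs.2
        · exact h1
      exact hs1.trans (hS s hs v ⟨hv, hvU2⟩ hs2)
  · intro h
    exact h.mono le_sup_left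

/-- Replacing `K` on one side by `T`. -/
theorem reach_right {K T L : SimpleGraph V} {U1 U2 : Set V} (hK : ∀ u v, K.Adj u v → u ∈ U1)
    (hL : ∀ u v, L.Adj u v → u ∈ U2) (hT : ∀ u v, T.Adj u v → u ∈ U1 ∩ U2)
    (hS : ∀ s ∈ U1 ∩ U2, ∀ t ∈ U1 ∩ U2, K.Reachable s t ↔ (L ⊔ T).Reachable s t) :
    ∀ u ∈ U2, ∀ v ∈ U2, (K ⊔ L).Reachable u v ↔ (L ⊔ T).Reachable u v := by
  intro u hu v hv
  constructor
  · intro h
    have key : v ∈ {x | (x ∈ U2 ∧ (L ⊔ T).Reachable u x) ∨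
        ∃ s ∈ U1 ∩ U2, (L ⊔ T).Reachable u s ∧ K.Reachable s x} := by
      refine reach_closed (K := K ⊔ L) ?_ (Or.inl ⟨hu, SimpleGraph.Reachable.refl _⟩) h
      rintro x y hx (hxy | hxy)
      · rcases hx with ⟨hx1, hx2⟩ | ⟨s, hs, hs1, hs2⟩
        · exact Or.inr ⟨x, ⟨hK x y hxy, hx1⟩, hx2, hxy.reachable⟩
        · exact Or.inr ⟨s, hs, hs1, hs2.trans hxy.reachable⟩
      · have hLT : (L ⊔ T).Adj x y := Or.inl hxy
        rcases hx with ⟨hx1, hx2⟩ | ⟨s, hs, hs1, hs2⟩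
        · exact Or.inl ⟨hL y x hxy.symm, hx2.trans hLT.reachable⟩
        · have hxU1 : x ∈ U1 := by
            rcases glu_reach_mem hK hs2 with h1 | h1
            · rw [h1]; exact hs.1
            · exact h1
          have hr := (hS s hs x ⟨hxU1, hL x y hxy⟩).mp hs2
          exact Or.inl ⟨hL y x hxy.symm, (hs1.trans hr).trans hLT.reachable⟩
    rcases key with ⟨_, h2⟩ | ⟨s, hs, hs1, hs2⟩
    · exact h2
    · have hvU1 : v ∈ U1 := by
        rcases glu_reach_mem hK hs2 with h1 | h1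
        · rw [h1]; exact hs.1
        · exact h1
      exact hs1.trans ((hS s hs v ⟨hvU1, hv⟩).mp hs2)
  · intro h
    refine reach_closed (K := L ⊔ T) (X := {x | (K ⊔ L).Reachable u x}) ?_
      (SimpleGraph.Reachable.refl _) h
    rintro x y hx (hxy | hxy)
    · exact SimpleGraph.Reachable.trans hx
        (SimpleGraph.Adj.reachable (show (K ⊔ L).Adj x y from Or.inr hxy))
    · have hr : K.Reachable x y := (hS x (hT x y hxy) y (hT y x hxy.symm)).mpr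
        (SimpleGraph.Adj.reachable (show (L ⊔ T).Adj x y from Or.inr hxy))
      exact SimpleGraph.Reachable.trans hx (hr.mono le_sup_left)

/-- One piece lies on one side of a separation. -/
theorem glu_side {G G1 K K1 : SimpleGraph V} {U U1 : Set V} (hU : U1 ⊆ U) (h1 : Ctr G1 U1 K1)
    (hK1 : ∀ u ∈ U1, ∀ v ∈ U1, K.Reachable u v ↔ K1.Reachable u v) {w : V}
    (hV1 : ∀ u ∈ U1, ∀ v ∈ U1, G1.Adj u v → ¬ G.Adj u v →
      ¬ K.Reachable w u → ¬ K.Reachable w v →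
      ∃ T : Set V, Con G T ∧ u ∈ T ∧ v ∈ T ∧ ∀ x ∈ T, x ∈ U ∧ ¬ K.Reachable w x)
    {X : Set V} (hX : ∀ a ∈ {x | x ∈ U ∧ ¬ K.Reachable w x} ∩ X,
      ∀ b ∈ {x | x ∈ U ∧ ¬ K.Reachable w x} \ X, ¬ G.Adj a b) {s y : V} (hs : s ∈ U1)
    (hsw : ¬ K.Reachable w s) (hsX : s ∈ X) (hy : y ∈ U1) (hyw : ¬ K.Reachable w y) :
    y ∈ X := by
  by_contra hyX
  have hcon : Con G1 {x | x ∈ U1 ∧ ¬ K.Reachable w x} := by
    by_cases hex : ∃ v ∈ U1, K.Reachable w v
    · obtain ⟨v, hv, hwv⟩ := hex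
      have : {x | x ∈ U1 ∧ ¬ K.Reachable w x} = {x | x ∈ U1 ∧ ¬ K1.Reachable v x} := by
        ext x
        constructor
        · rintro ⟨hx, hx'⟩
          exact ⟨hx, fun h => hx' (hwv.trans ((hK1 v hv x hx).mpr h))⟩
        · rintro ⟨hx, hx'⟩
          exact ⟨hx, fun h => hx' ((hK1 v hv x hx).mp (hwv.symm.trans h))⟩
      rw [this]
      exact h1.con v hv
    · have : {x | x ∈ U1 ∧ ¬ K.Reachable w x} = U1 := by
        ext x
        exact ⟨fun h => h.1, fun h => ⟨h, fun h' => hex ⟨x, h, h'⟩⟩⟩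
      rw [this]
      exact h1.base
  obtain ⟨a, ha, b, hb, hab⟩ := hcon X ⟨s, ⟨hs, hsw⟩, hsX⟩ ⟨y, ⟨hy, hyw⟩, hyX⟩
  by_cases hG : G.Adj a b
  · exact hX a ⟨⟨hU ha.1.1, ha.1.2⟩, ha.2⟩ b ⟨⟨hU hb.1.1, hb.1.2⟩, hb.2⟩ hG
  · obtain ⟨T, hT, haT, hbT, hsub⟩ := hV1 a ha.1.1 b hb.1.1 hab hG ha.1.2 hb.1.2
    obtain ⟨c, hc, d, hd, hcd⟩ := hT X ⟨a, haT, ha.2⟩ ⟨b, hbT, hb.2⟩
    exact hX c ⟨hsub c hc.1, hc.2⟩ d ⟨hsub d hd.1, hd.2⟩ hcd

/-- The gluing lemma. `G1`, `G2` may have virtual edges. -/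
theorem glue {G G1 G2 K K1 K2 : SimpleGraph V} {U1 U2 : Set V}
    (hsep : ∀ u ∈ U1 ∪ U2, ∀ v ∈ U1 ∪ U2, G.Adj u v → (u ∈ U1 ∧ v ∈ U1) ∨ (u ∈ U2 ∧ v ∈ U2))
    (hbase : Con G (U1 ∪ U2)) (h1 : Ctr G1 U1 K1) (h2 : Ctr G2 U2 K2)
    (hG1 : ∀ u ∈ U1, ∀ v ∈ U1, G.Adj u v → G1.Adj u v)
    (hG2 : ∀ u ∈ U2, ∀ v ∈ U2, ¬ (u ∈ U1 ∧ v ∈ U1) → G.Adj u v → G2.Adj u v)
    (hle : ∀ u v, K.Adj u v → G.Adj u v ∧ u ∈ U1 ∪ U2 ∧ v ∈ U1 ∪ U2)
    (hK1 : ∀ u ∈ U1, ∀ v ∈ U1, K.Reachable u v ↔ K1.Reachable u v)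
    (hK2 : ∀ u ∈ U2, ∀ v ∈ U2, K.Reachable u v ↔ K2.Reachable u v)
    (hE1 : ∀ u v, G.Adj u v → K1.Adj u v → K.Adj u v)
    (hE2 : ∀ u v, G.Adj u v → K2.Adj u v → K.Adj u v)
    (hV1 : ∀ u ∈ U1, ∀ v ∈ U1, G1.Adj u v → ¬ G.Adj u v → ∀ w ∈ U1 ∪ U2,
      ¬ K.Reachable w u → ¬ K.Reachable w v →
      ∃ T : Set V, Con G T ∧ u ∈ T ∧ v ∈ T ∧ ∀ x ∈ T, x ∈ U1 ∪ U2 ∧ ¬ K.Reachable w x)
    (hV2 : ∀ u ∈ U2, ∀ v ∈ U2, G2.Adj u v → ¬ G.Adj u v → ∀ w ∈ U1 ∪ U2,
      ¬ K.Reachable w u → ¬ K.Reachable w v →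
      ∃ T : Set V, Con G T ∧ u ∈ T ∧ v ∈ T ∧ ∀ x ∈ T, x ∈ U1 ∪ U2 ∧ ¬ K.Reachable w x)
    (hS : ∀ w ∈ U1 ∪ U2, ∃ s ∈ U1 ∩ U2, ¬ K.Reachable w s) :
    Ctr G (U1 ∪ U2) K := by
  refine ⟨hbase, hle, ?_, ?_, ?_⟩
  · intro u hu v hv huv hr
    by_cases h11 : u ∈ U1 ∧ v ∈ U1
    · exact hE1 u v huv (h1.strict u h11.1 v h11.2 (hG1 u h11.1 v h11.2 huv)
        ((hK1 u h11.1 v h11.2).mp hr))
    · have h22 := (hsep u hu v hv huv).resolve_left h11
      exact hE2 u v huv (h2.strict u h22.1 v h22.2 (hG2 u h22.1 v h22.2 h11 huv)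
        ((hK2 u h22.1 v h22.2).mp hr))
  · intro w hw
    by_contra hcon
    unfold Con at hcon
    push Not at hcon
    obtain ⟨X, hX1, hX2, hX⟩ := hcon
    obtain ⟨s, hs, hws⟩ := hS w hw
    -- symmetric under complement of `X`
    have main : ∀ X : Set V, (∀ a ∈ {x | x ∈ U1 ∪ U2 ∧ ¬ K.Reachable w x} ∩ X,
        ∀ b ∈ {x | x ∈ U1 ∪ U2 ∧ ¬ K.Reachable w x} \ X, ¬ G.Adj a b) → s ∈ X →
        ∀ y ∈ {x | x ∈ U1 ∪ U2 ∧ ¬ K.Reachable w x}, y ∈ X := by
      rintro X hX hsX y ⟨hy | hy, hyw⟩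
      · exact glu_side Set.subset_union_left h1 hK1 (fun u hu v hv h h' => hV1 u hu v hv h h' w hw)
          hX hs.1 hws hsX hy hyw
      · exact glu_side Set.subset_union_right h2 hK2 (fun u hu v hv h h' => hV2 u hu v hv h h' w hw)
          hX hs.2 hws hsX hy hyw
    by_cases hsX : s ∈ X
    · obtain ⟨y, hy, hyX⟩ := hX2
      exact hyX (main X hX hsX y hy)
    · obtain ⟨y, hy, hyX⟩ := hX1
      have hX' : ∀ a ∈ {x | x ∈ U1 ∪ U2 ∧ ¬ K.Reachable w x} ∩ Xᶜ,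
          ∀ b ∈ {x | x ∈ U1 ∪ U2 ∧ ¬ K.Reachable w x} \ Xᶜ, ¬ G.Adj a b := by
        rintro a ⟨ha, haX⟩ b ⟨hb, hbX⟩ hab
        exact hX b ⟨hb, not_not.mp hbX⟩ a ⟨ha, haX⟩ hab.symm
      exact main Xᶜ hX' hsX y hy hyX
  · intro w hw
    obtain ⟨s, hs, hws⟩ := hS w hw
    exact ⟨s, Or.inl hs.1, hws⟩

/-- Removing the virtual merge `x y` (with `x`, `y` both adjacent to `z`). -/
theorem Ctr.remove_edge {G K : SimpleGraph V} {U : Set V} {x y z : V}
    (h : Ctr G U (K ⊔ SimpleGraph.edge x y)) (hxy : ¬ K.Reachable x y) (hz : z ∈ U)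
    (hxz : G.Adj x z) (hyz : G.Adj y z) (hzx : ¬ (K ⊔ SimpleGraph.edge x y).Reachable x z) :
    Ctr G U K := by
  have hne : x ≠ y := by
    rintro rfl
    exact hxy (SimpleGraph.Reachable.refl _)
  have hedge : (K ⊔ SimpleGraph.edge x y).Adj x y :=
    Or.inr ((SimpleGraph.edge_adj x y x y).mpr ⟨Or.inl ⟨rfl, rfl⟩, hne⟩)
  have hcases : ∀ u v, (K ⊔ SimpleGraph.edge x y).Adj u v →
      K.Adj u v ∨ (u = x ∧ v = y) ∨ (u = y ∧ v = x) := by
    rintro u v (huv | huv)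
    · exact Or.inl huv
    · rw [SimpleGraph.edge_adj] at huv
      rcases huv.1 with h' | h'
      · exact Or.inr (Or.inl h')
      · exact Or.inr (Or.inr h')
  have hxU : x ∈ U := (h.le x y hedge).2.1
  have hyU : y ∈ U := (h.le x y hedge).2.2
  have hle : ∀ u v, K.Adj u v → G.Adj u v ∧ u ∈ U ∧ v ∈ U := fun u v huv => h.le u v (Or.inl huv)
  have hmono : ∀ u v, K.Reachable u v → (K ⊔ SimpleGraph.edge x y).Reachable u v :=
    fun u v hr => hr.mono le_sup_left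
  have hclass : ∀ v ∈ U, {w | K.Reachable v w} ⊆ U := by
    intro v hv w hw
    refine reach_closed (K := K) ?_ hv hw
    intro a b _ hab
    exact (hle a b hab).2.2
  -- description of the class of `x`, `y`
  have hxcl : ∀ w, (K ⊔ SimpleGraph.edge x y).Reachable x w → K.Reachable x w ∨ K.Reachable y w := by
    intro w hw
    refine reach_closed (K := K ⊔ SimpleGraph.edge x y)
      (X := {w | K.Reachable x w ∨ K.Reachable y w}) ?_ (Or.inl (SimpleGraph.Reachable.refl _)) hw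
    intro a b ha hab
    rcases hcases a b hab with h1 | ⟨h1, h2⟩ | ⟨h1, h2⟩
    · rcases ha with ha | ha
      · exact Or.inl (SimpleGraph.Reachable.trans ha h1.reachable)
      · exact Or.inr (SimpleGraph.Reachable.trans ha h1.reachable)
    · rw [h2]; exact Or.inr (SimpleGraph.Reachable.refl _)
    · rw [h2]; exact Or.inl (SimpleGraph.Reachable.refl _)
  have hKG : ∀ v, Con G {w | K.Reachable v w} := fun v =>
    con_class_of_le (fun a b hab => (hle a b hab).1) v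
  refine ⟨h.base, hle, ?_, ?_, ?_⟩
  · intro u hu v hv huv hr
    rcases hcases u v (h.strict u hu v hv huv (hmono u v hr)) with h1 | ⟨h1, h2⟩ | ⟨h1, h2⟩
    · exact h1
    · rw [h1, h2] at hr
      exact absurd hr hxy
    · rw [h1, h2] at hr
      exact absurd hr.symm hxy
  · intro v hv
    by_cases hvx : K.Reachable v x
    · have hset : {w | w ∈ U ∧ ¬ K.Reachable v w} =
          {w | w ∈ U ∧ ¬ (K ⊔ SimpleGraph.edge x y).Reachable x w} ∪ {w | K.Reachable y w} := by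
        ext w
        constructor
        · rintro ⟨hw, hw'⟩
          by_cases hc : (K ⊔ SimpleGraph.edge x y).Reachable x w
          · rcases hxcl w hc with h1 | h1
            · exact absurd (hvx.trans h1) hw'
            · exact Or.inr h1
          · exact Or.inl ⟨hw, hc⟩
        · rintro (⟨hw, hw'⟩ | hw)
          · exact ⟨hw, fun h1 => hw' (hmono _ _ (hvx.symm.trans h1))⟩
          · refine ⟨hclass y hyU hw, fun h1 => hxy ?_⟩
            exact (hvx.symm.trans h1).trans (SimpleGraph.Reachable.symm hw)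
      rw [hset]
      exact (h.con x hxU).union_adj (hKG y) (a := z) (b := y) ⟨hz, hzx⟩
        (SimpleGraph.Reachable.refl _) hyz.symm
    by_cases hvy : K.Reachable v y
    · have hset : {w | w ∈ U ∧ ¬ K.Reachable v w} =
          {w | w ∈ U ∧ ¬ (K ⊔ SimpleGraph.edge x y).Reachable x w} ∪ {w | K.Reachable x w} := by
        ext w
        constructor
        · rintro ⟨hw, hw'⟩
          by_cases hc : (K ⊔ SimpleGraph.edge x y).Reachable x w
          · rcases hxcl w hc with h1 | h1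
            · exact Or.inr h1
            · exact absurd (hvy.trans h1) hw'
          · exact Or.inl ⟨hw, hc⟩
        · rintro (⟨hw, hw'⟩ | hw)
          · exact ⟨hw, fun h1 => hw' (hedge.reachable.trans (hmono _ _ (hvy.symm.trans h1)))⟩
          · refine ⟨hclass x hxU hw, fun h1 => hxy ?_⟩
            exact SimpleGraph.Reachable.trans hw (hvy.symm.trans h1).symm
      rw [hset]
      exact (h.con x hxU).union_adj (hKG x) (a := z) (b := x) ⟨hz, hzx⟩
        (SimpleGraph.Reachable.refl _) hxz.symm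
    · have hset : {w | w ∈ U ∧ ¬ K.Reachable v w} =
          {w | w ∈ U ∧ ¬ (K ⊔ SimpleGraph.edge x y).Reachable v w} := by
        ext w
        constructor
        · rintro ⟨hw, hw'⟩
          refine ⟨hw, fun hc => hw' ?_⟩
          refine reach_closed (K := K ⊔ SimpleGraph.edge x y) (X := {w | K.Reachable v w}) ?_
            (SimpleGraph.Reachable.refl _) hc
          intro a b ha hab
          rcases hcases a b hab with h1 | ⟨h1, h2⟩ | ⟨h1, h2⟩
          · exact SimpleGraph.Reachable.trans ha h1.reachable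
          · rw [h1] at ha
            exact absurd ha hvx
          · rw [h1] at ha
            exact absurd ha hvy
        · rintro ⟨hw, hw'⟩
          exact ⟨hw, fun h1 => hw' (hmono _ _ h1)⟩
      rw [hset]
      exact h.con v hv
  · intro v hv
    obtain ⟨w, hw, hvw⟩ := h.ne v hv
    exact ⟨w, hw, fun h1 => hvw (hmono _ _ h1)⟩

end BND
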