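import Pool.Agent.BND.Prim
import Pool.Agent.BND.Cnx
import Pool.Agent.BND.Glu
import Pool.Agent.BND.Min

set_option autoImplicit false

namespace BND

variable {V : Type}

/-! ### Module TWC (file Twc.lean; uses CNX GLU MIN): 2-cuts -/

/-- The induction hypothesis. -/
def IH (U : Set V) : Prop :=
  ∀ (R F : SimpleGraph V) (U' : Set V), U'.ncard < U.ncard → Cls R F U' → ClaimR R F U'

/-- There is a strict good cut (any root or none). -/
theorem exists_sg [Finite V] {R F : SimpleGraph V} {U U' : Set V} (ih : IH U)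
    (hU : U'.ncard < U.ncard) (h : Cls R F U') : ∃ A, SG R F U' A := by
  by_cases hR : ∃ a ∈ U', ∃ b ∈ U', R.Adj a b
  · obtain ⟨a, ha, b, hb, hab⟩ := hR
    obtain ⟨A, hA, -⟩ := ih R F U' hU h a ha b hb hab
    exact ⟨A, hA⟩
  · push Not at hR
    have hne : U'.Nonempty := by
      rw [Set.nonempty_iff_ne_empty]
      rintro rfl
      have := h.two.card
      simp at this
    obtain ⟨v, hv⟩ := hne
    obtain ⟨w, hw, hwv, -⟩ := cnx_exists_ne h.two.card v v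
    have hc : cross R U' {v} = ⊥ := by
      ext a b
      simp only [cross, SimpleGraph.bot_adj, iff_false]
      rintro ⟨h1, h2, h3, -⟩
      exact hR a h2 b h3 h1
    have hi : U' ∩ {v} = {v} := by
      ext x
      simp only [Set.mem_inter_iff, Set.mem_singleton_iff]
      exact ⟨fun h => h.2, fun h => ⟨h ▸ hv, h⟩⟩
    refine ⟨{v}, ⟨⟨v, hv, rfl⟩, ⟨w, hw, hwv⟩, ?_, h.two.del v, ?_⟩⟩
    · rw [hi]
      exact con_singleton _ v
    · rw [hc]
      exact h.two.ctr_bot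

/-- A 2-cut. -/
structure TwcCut (G : SimpleGraph V) (U U1 U2 : Set V) (u v : V) : Prop where
  ne : u ≠ v
  two : Two G U
  un : U1 ∪ U2 = U
  int : U1 ∩ U2 = {u, v}
  sep : ∀ a ∈ U, ∀ b ∈ U, G.Adj a b → (a ∈ U1 ∧ b ∈ U1) ∨ (a ∈ U2 ∧ b ∈ U2)
  n1 : (U1 \ {u, v}).Nonempty
  n2 : (U2 \ {u, v}).Nonempty

section cut

variable {G G' K : SimpleGraph V} {U U1 U2 : Set V} {u v w : V}

theorem TwcCut.swap (h : TwcCut G U U1 U2 u v) : TwcCut G U U2 U1 u v :=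
  ⟨h.ne, h.two, by rw [Set.union_comm]; exact h.un, by rw [Set.inter_comm]; exact h.int,
    fun a ha b hb hab => (h.sep a ha b hb hab).symm, h.n2, h.n1⟩

theorem TwcCut.u1 (h : TwcCut G U U1 U2 u v) : u ∈ U1 := by
  have : u ∈ U1 ∩ U2 := by rw [h.int]; exact Or.inl rfl
  exact this.1

theorem TwcCut.v1 (h : TwcCut G U U1 U2 u v) : v ∈ U1 := by
  have : v ∈ U1 ∩ U2 := by rw [h.int]; exact Or.inr rfl
  exact this.1

theorem TwcCut.eq (h : TwcCut G U U1 U2 u v) {x : V} (h1 : x ∈ U1) (h2 : x ∈ U2) :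
    x = u ∨ x = v := by
  have : x ∈ ({u, v} : Set V) := by rw [← h.int]; exact ⟨h1, h2⟩
  exact this

theorem TwcCut.sub1 (h : TwcCut G U U1 U2 u v) {x : V} (h1 : x ∈ U1) : x ∈ U := by
  rw [← h.un]
  exact Or.inl h1

/-- A part of `U1` which is attached to one vertex only is empty. -/
theorem TwcCut.piece (h : TwcCut G U U1 U2 u v) {Y : Set V} (hY : Y.Nonempty) (hY1 : Y ⊆ U1)
    (hu : u ∉ Y) (hv : v ∉ Y) (hw : w ∉ Y)
    (hc : ∀ a ∈ Y, ∀ b ∈ U1, G.Adj a b → b ∈ Y ∨ b = w) : False := by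
  obtain ⟨y, hy⟩ := hY
  have hex : ∃ z ∈ U, z ≠ w ∧ z ∉ Y := by
    by_cases hwu : u = w
    · exact ⟨v, h.sub1 h.v1, fun h' => h.ne (hwu.trans h'.symm), hv⟩
    · exact ⟨u, h.sub1 h.u1, hwu, hu⟩
  obtain ⟨z, hz, hzw, hzY⟩ := hex
  obtain ⟨a, ha, b, hb, hab⟩ := h.two.del w Y
    ⟨y, ⟨h.sub1 (hY1 hy), fun h' => hw (h' ▸ hy)⟩, hy⟩ ⟨z, ⟨hz, hzw⟩, hzY⟩
  rcases h.sep a ha.1.1 b hb.1.1 hab with h1 | h1
  · rcases hc a ha.2 b h1.2 hab with h2 | h2
    · exact hb.2 h2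
    · exact hb.1.2 h2
  · rcases h.eq (hY1 ha.2) h1.1 with h2 | h2
    · exact hu (h2 ▸ ha.2)
    · exact hv (h2 ▸ ha.2)

theorem TwcCut.con1 (h : TwcCut G U U1 U2 u v) : Con G U1 := by
  have key : ∀ X : Set V, (∀ a ∈ U1 ∩ X, ∀ b ∈ U1 \ X, ¬ G.Adj a b) → u ∈ X → U1 ⊆ X := by
    intro X hX huX
    by_contra hcon
    rw [Set.not_subset] at hcon
    obtain ⟨y, hy, hyX⟩ := hcon
    by_cases hvX : v ∈ X
    · refine h.piece (w := u) (Y := U1 \ X) ⟨y, hy, hyX⟩ Set.sdiff_subset (fun h' => h'.2 huX)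
        (fun h' => h'.2 hvX) (fun h' => h'.2 huX) ?_
      intro a ha b hb hab
      left
      refine ⟨hb, fun hbX => hX b ⟨hb, hbX⟩ a ha hab.symm⟩
    · obtain ⟨p, hp, hpn⟩ := h.n1
      have hpu : p ≠ u := fun h' => hpn (Or.inl h')
      have hpv : p ≠ v := fun h' => hpn (Or.inr h')
      by_cases hpX : p ∈ X
      · refine h.piece (w := u) (Y := (U1 ∩ X) \ {u}) ⟨p, ⟨hp, hpX⟩, hpu⟩
          (fun x hx => hx.1.1) (fun h' => h'.2 rfl) (fun h' => hvX h'.1.2)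
          (fun h' => h'.2 rfl) ?_
        intro a ha b hb hab
        by_cases hbu : b = u
        · exact Or.inr hbu
        · refine Or.inl ⟨⟨hb, ?_⟩, hbu⟩
          by_contra hbX
          exact hX a ha.1 b ⟨hb, hbX⟩ hab
      · refine h.piece (w := v) (Y := (U1 \ X) \ {v}) ⟨p, ⟨hp, hpX⟩, hpv⟩
          (fun x hx => hx.1.1) (fun h' => h'.1.2 huX) (fun h' => h'.2 rfl)
          (fun h' => h'.2 rfl) ?_
        intro a ha b hb hab
        by_cases hbv : b = v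
        · exact Or.inr hbv
        · exact Or.inl ⟨⟨hb, fun hbX => hX b ⟨hb, hbX⟩ a ha.1 hab.symm⟩, hbv⟩
  rintro X ⟨x, hx, hxX⟩ ⟨y, hy, hyX⟩
  by_contra hcon
  push Not at hcon
  by_cases huX : u ∈ X
  · exact hyX (key X hcon huX hy)
  · refine key Xᶜ ?_ huX hx hxX
    rintro a ⟨ha, haX⟩ b ⟨hb, hbX⟩ hab
    exact hcon b ⟨hb, not_not.mp hbX⟩ a ⟨ha, haX⟩ hab.symm

theorem TwcCut.two1 [Finite V] (h : TwcCut G U U1 U2 u v) (hle : ∀ a b, G.Adj a b → G'.Adj a b)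
    (huv : G'.Adj u v) : Two G' U1 := by
  refine ⟨?_, h.con1.mono fun a _ b _ hab => hle a b hab, ?_⟩
  · obtain ⟨p, hp, hpn⟩ := h.n1
    have h1 : ({p, u, v} : Set V) ⊆ U1 := by
      rintro x (rfl | rfl | rfl)
      · exact hp
      · exact h.u1
      · exact h.v1
    have h2 := Set.ncard_le_ncard h1 (Set.toFinite _)
    have h3 : ({p, u, v} : Set V).ncard = 3 := by
      rw [Set.ncard_insert_of_notMem hpn (Set.toFinite _), Set.ncard_pair h.ne]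
    omega
  · intro w
    have key : ∀ X : Set V, (∀ a ∈ (U1 \ {w}) ∩ X, ∀ b ∈ (U1 \ {w}) \ X, ¬ G'.Adj a b) →
        ∀ y ∈ (U1 \ {w}) \ X, (u = w ∨ u ∈ X) → (v = w ∨ v ∈ X) → False := by
      intro X hX y hy hu hv
      refine h.piece (w := w) (Y := (U1 \ {w}) \ X) ⟨y, hy⟩ (fun x hx => hx.1.1) ?_ ?_
        (fun h' => h'.1.2 rfl) ?_
      · intro h'
        rcases hu with hu | hu
        · exact h'.1.2 hu
        · exact h'.2 hu
      · intro h'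
        rcases hv with hv | hv
        · exact h'.1.2 hv
        · exact h'.2 hv
      · intro a ha b hb hab
        by_cases hbw : b = w
        · exact Or.inr hbw
        · refine Or.inl ⟨⟨hb, hbw⟩, fun hbX => ?_⟩
          exact hX b ⟨⟨hb, hbw⟩, hbX⟩ a ha (hle a b hab).symm
    rintro X ⟨x, hx, hxX⟩ ⟨y, hy, hyX⟩
    by_contra hcon
    push Not at hcon
    have hcon' : ∀ a ∈ (U1 \ {w}) ∩ Xᶜ, ∀ b ∈ (U1 \ {w}) \ Xᶜ, ¬ G'.Adj a b := by
      rintro a ⟨ha, haX⟩ b ⟨hb, hbX⟩ hab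
      exact hcon b ⟨hb, not_not.mp hbX⟩ a ⟨ha, haX⟩ hab.symm
    have hx' : x ∈ (U1 \ {w}) \ Xᶜ := ⟨hx, fun h' => h' hxX⟩
    by_cases hu : u = w
    · by_cases hvX : v ∈ X
      · exact key X hcon y ⟨hy, hyX⟩ (Or.inl hu) (Or.inr hvX)
      · exact key Xᶜ hcon' x hx' (Or.inl hu) (Or.inr hvX)
    · by_cases hv : v = w
      · by_cases huX : u ∈ X
        · exact key X hcon y ⟨hy, hyX⟩ (Or.inr huX) (Or.inl hv)
        · exact key Xᶜ hcon' x hx' (Or.inr huX) (Or.inl hv)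
      · by_cases huX : u ∈ X
        · have hvX : v ∈ X := by
            by_contra hvX
            exact hcon u ⟨⟨h.u1, hu⟩, huX⟩ v ⟨⟨h.v1, hv⟩, hvX⟩ huv
          exact key X hcon y ⟨hy, hyX⟩ (Or.inr huX) (Or.inr hvX)
        · have hvX : v ∉ X := by
            intro hvX
            exact hcon v ⟨⟨h.v1, hv⟩, hvX⟩ u ⟨⟨h.u1, hu⟩, huX⟩ huv.symm
          exact key Xᶜ hcon' x hx' (Or.inr huX) (Or.inr hvX)

/-- A class in `U1` which avoids the cut does not meet `U2`. -/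
theorem TwcCut.cls1 (h : TwcCut G U U1 U2 u v)
    (hK : ∀ a b, K.Adj a b → G.Adj a b ∧ a ∈ U ∧ b ∈ U) (hw : w ∈ U1)
    (hwu : ¬ K.Reachable w u) (hwv : ¬ K.Reachable w v) : ∀ x ∈ U2, ¬ K.Reachable w x := by
  intro x hx hwx
  have h1 : x ∈ {y | y ∈ U1 ∧ K.Reachable w y} := by
    refine reach_closed (K := K) (a := w) ?_ ⟨hw, SimpleGraph.Reachable.refl w⟩ hwx
    rintro a b ⟨ha, hwa⟩ hab
    obtain ⟨h1, h2, h3⟩ := hK a b hab
    refine ⟨?_, hwa.trans hab.reachable⟩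
    rcases h.sep a h2 b h3 h1 with h4 | h4
    · exact h4.2
    · rcases h.eq ha h4.1 with h5 | h5
      · exact absurd (h5 ▸ hwa) hwu
      · exact absurd (h5 ▸ hwa) hwv
  rcases h.eq h1.1 hx with h5 | h5
  · exact hwu (h5 ▸ hwx)
  · exact hwv (h5 ▸ hwx)

/-- The virtual edge `u v` is replaced by a path on the other side. -/
theorem TwcCut.virt (h : TwcCut G U U1 U2 u v)
    (hK : ∀ a b, K.Adj a b → G.Adj a b ∧ a ∈ U ∧ b ∈ U) (hw : w ∈ U1 ∪ U2)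
    (hwu : ¬ K.Reachable w u) (hwv : ¬ K.Reachable w v) :
    ∃ T : Set V, Con G T ∧ u ∈ T ∧ v ∈ T ∧ ∀ x ∈ T, x ∈ U1 ∪ U2 ∧ ¬ K.Reachable w x := by
  rcases hw with hw | hw
  · exact ⟨U2, h.swap.con1, h.swap.u1, h.swap.v1, fun x hx => ⟨Or.inr hx, h.cls1 hK hw hwu hwv x hx⟩⟩
  · exact ⟨U1, h.con1, h.u1, h.v1, fun x hx => ⟨Or.inl hx, h.swap.cls1 hK hw hwu hwv x hx⟩⟩

theorem twc_virt' (h : TwcCut G U U1 U2 u v)
    (hK : ∀ a b, K.Adj a b → G.Adj a b ∧ a ∈ U ∧ b ∈ U) {G' : SimpleGraph V}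
    (hG' : ∀ a b, G'.Adj a b ↔ G.Adj a b ∨ (SimpleGraph.edge u v).Adj a b) :
    ∀ a b, G'.Adj a b → ¬ G.Adj a b → ∀ w ∈ U1 ∪ U2,
      ¬ K.Reachable w a → ¬ K.Reachable w b →
      ∃ T : Set V, Con G T ∧ a ∈ T ∧ b ∈ T ∧ ∀ x ∈ T, x ∈ U1 ∪ U2 ∧ ¬ K.Reachable w x := by
  intro a b hab hG w hw hwa hwb
  have h1 := ((hG' a b).1 hab).resolve_left hG
  rw [SimpleGraph.edge_adj] at h1
  rcases h1.1 with ⟨rfl, rfl⟩ | ⟨rfl, rfl⟩
  · exact h.virt hK hw hwa hwb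
  · obtain ⟨T, h2, h3, h4, h5⟩ := h.virt hK hw hwb hwa
    exact ⟨T, h2, h4, h3, h5⟩

end cut

section

variable [Finite V] {R F F1 F2 : SimpleGraph V} {U U1 U2 : Set V} {u v : V}

omit [Finite V] in
/-- Gluing at a 2-cut: both cuts separate `u` and `v` (which are not a real edge). -/
theorem glue_two_split (huv : u ≠ v) (hR : ¬ R.Adj u v) (hT : Two (R ⊔ F) U) (hU : U1 ∪ U2 = U)
    (hS : U1 ∩ U2 = {u, v})
    (hsep : ∀ a ∈ U, ∀ b ∈ U, (R ⊔ F).Adj a b → (a ∈ U1 ∧ b ∈ U1) ∨ (a ∈ U2 ∧ b ∈ U2))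
    (hn1 : (U1 \ {u, v}).Nonempty) (hn2 : (U2 \ {u, v}).Nonempty)
    (hF1 : ∀ a b, F1.Adj a b ↔ F.Adj a b ∨ (SimpleGraph.edge u v).Adj a b) {A1 A2 : Set V}
    (h1 : SG R F1 U1 A1) (h2 : SG R F1 U2 A2) (hu1 : u ∈ A1) (hu2 : u ∈ A2) (hv1 : v ∉ A1)
    (hv2 : v ∉ A2) : SG R F U (A1 ∩ U1 ∪ A2 ∩ U2) := by
  have hc : TwcCut (R ⊔ F) U U1 U2 u v := ⟨huv, hT, hU, hS, hsep, hn1, hn2⟩
  have hG' : ∀ a b, (R ⊔ F1).Adj a b ↔ (R ⊔ F).Adj a b ∨ (SimpleGraph.edge u v).Adj a b := by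
    intro a b
    simp only [SimpleGraph.sup_adj, hF1]
    tauto
  have huv' : (R ⊔ F1).Adj u v := (hG' u v).2 (Or.inr (by rw [SimpleGraph.edge_adj]; exact ⟨Or.inl ⟨rfl, rfl⟩, huv⟩))
  have m1 : ∀ x ∈ U1, (x ∈ A1 ∩ U1 ∪ A2 ∩ U2 ↔ x ∈ A1) := by
    intro x hx
    constructor
    · rintro (h | h)
      · exact h.1
      · rcases hc.eq hx h.2 with rfl | rfl
        · exact hu1
        · exact absurd h.1 hv2
    · exact fun h => Or.inl ⟨h, hx⟩
  have m2 : ∀ x ∈ U2, (x ∈ A1 ∩ U1 ∪ A2 ∩ U2 ↔ x ∈ A2) := by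
    intro x hx
    constructor
    · rintro (h | h)
      · rcases hc.eq h.2 hx with rfl | rfl
        · exact hu2
        · exact absurd h.1 hv1
      · exact h.1
    · exact fun h => Or.inr ⟨h, hx⟩
  -- the virtual edge is not inside a side
  have hside : ∀ s : Set V, (u ∉ s ∨ v ∉ s) → Con (R ⊔ F1) s → Con (R ⊔ F) s := by
    intro s hs hcon
    refine hcon.mono fun a ha b hb hab => ?_
    rcases (hG' a b).1 hab with h | h
    · exact h
    · rw [SimpleGraph.edge_adj] at h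
      rcases h.1 with ⟨rfl, rfl⟩ | ⟨rfl, rfl⟩
      · exact absurd hb (hs.resolve_left (not_not.2 ha))
      · exact absurd ha (hs.resolve_left (not_not.2 hb))
  have hUA : U ∩ (A1 ∩ U1 ∪ A2 ∩ U2) = (U1 ∩ A1) ∪ (U2 ∩ A2) := by
    rw [← hU]
    ext x
    simp only [Set.mem_inter_iff, Set.mem_union]
    tauto
  have hUA' : U \ (A1 ∩ U1 ∪ A2 ∩ U2) = (U1 \ A1) ∪ (U2 \ A2) := by
    ext x
    constructor
    · rintro ⟨hx, hxA⟩
      rw [← hU] at hx
      rcases hx with hx | hx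
      · exact Or.inl ⟨hx, fun h => hxA ((m1 x hx).2 h)⟩
      · exact Or.inr ⟨hx, fun h => hxA ((m2 x hx).2 h)⟩
    · rintro (⟨hx, hxA⟩ | ⟨hx, hxA⟩)
      · exact ⟨hc.sub1 hx, fun h => hxA ((m1 x hx).1 h)⟩
      · exact ⟨hc.swap.sub1 hx, fun h => hxA ((m2 x hx).1 h)⟩
  have hKle : ∀ a b, (cross R U (A1 ∩ U1 ∪ A2 ∩ U2)).Adj a b → (R ⊔ F).Adj a b ∧ a ∈ U ∧ b ∈ U :=
    fun a b h => ⟨Or.inl h.1, h.2.1, h.2.2.1⟩
  have hKsup : cross R U (A1 ∩ U1 ∪ A2 ∩ U2) = cross R U1 A1 ⊔ cross R U2 A2 := by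
    ext a b
    constructor
    · rintro ⟨h, ha, hb, hx⟩
      rcases hsep a ha b hb (Or.inl h) with h' | h'
      · left
        rw [m1 a h'.1, m1 b h'.2] at hx
        exact ⟨h, h'.1, h'.2, hx⟩
      · right
        rw [m2 a h'.1, m2 b h'.2] at hx
        exact ⟨h, h'.1, h'.2, hx⟩
    · rintro (⟨h, ha, hb, hx⟩ | ⟨h, ha, hb, hx⟩)
      · rw [← m1 a ha, ← m1 b hb] at hx
        exact ⟨h, hc.sub1 ha, hc.sub1 hb, hx⟩
      · rw [← m2 a ha, ← m2 b hb] at hx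
        exact ⟨h, hc.swap.sub1 ha, hc.swap.sub1 hb, hx⟩
  have hn1' : ¬ (cross R U1 A1).Reachable u v := fun h =>
    hR (h1.ctr.strict u hc.u1 v hc.v1 huv' h).1
  have hn2' : ¬ (cross R U2 A2).Reachable u v := fun h =>
    hR (h2.ctr.strict u hc.swap.u1 v hc.swap.v1 huv' h).1
  have hst : ∀ K L : SimpleGraph V, ¬ L.Reachable u v →
      ∀ s ∈ ({u, v} : Set V), ∀ t ∈ ({u, v} : Set V), L.Reachable s t → K.Reachable s t := by
    rintro K L hL s (rfl | rfl) t (rfl | rfl) h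
    · exact SimpleGraph.Reachable.refl _
    · exact absurd h hL
    · exact absurd h.symm hL
    · exact SimpleGraph.Reachable.refl _
  have hK1 : ∀ a ∈ U1, ∀ b ∈ U1, (cross R U (A1 ∩ U1 ∪ A2 ∩ U2)).Reachable a b ↔
      (cross R U1 A1).Reachable a b := by
    rw [hKsup]
    refine reach_left (U1 := U1) (U2 := U2) (fun a b h => h.2.1) (fun a b h => h.2.1) ?_
    rw [hS]
    exact hst _ _ hn2'
  have hK2 : ∀ a ∈ U2, ∀ b ∈ U2, (cross R U (A1 ∩ U1 ∪ A2 ∩ U2)).Reachable a b ↔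
      (cross R U2 A2).Reachable a b := by
    rw [hKsup, sup_comm]
    refine reach_left (U1 := U2) (U2 := U1) (fun a b h => h.2.1) (fun a b h => h.2.1) ?_
    rw [Set.inter_comm, hS]
    exact hst _ _ hn1'
  have hctr : Ctr (R ⊔ F) (U1 ∪ U2) (cross R U (A1 ∩ U1 ∪ A2 ∩ U2)) := by
    refine glue (G1 := R ⊔ F1) (G2 := R ⊔ F1) (K1 := cross R U1 A1) (K2 := cross R U2 A2)
      ?_ ?_ h1.ctr h2.ctr ?_ ?_ ?_ hK1 hK2 ?_ ?_ ?_ ?_ ?_
    · rw [hU]
      exact hsep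
    · rw [hU]
      exact hT.con
    · exact fun a _ b _ hab => (hG' a b).2 (Or.inl hab)
    · exact fun a _ b _ _ hab => (hG' a b).2 (Or.inl hab)
    · rw [hU]
      exact hKle
    · intro a b _ hab
      rw [hKsup]
      exact Or.inl hab
    · intro a b _ hab
      rw [hKsup]
      exact Or.inr hab
    · exact fun a _ b _ hab hG => twc_virt' hc hKle hG' a b hab hG
    · exact fun a _ b _ hab hG => twc_virt' hc hKle hG' a b hab hG
    · intro w _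
      by_contra hcon
      push Not at hcon
      have hu := hcon u ⟨hc.u1, hc.swap.u1⟩
      have hv := hcon v ⟨hc.v1, hc.swap.v1⟩
      exact hn1' ((hK1 u hc.u1 v hc.v1).1 (hu.symm.trans hv))
  rw [hU] at hctr
  refine ⟨?_, ?_, ?_, ?_, hctr⟩
  · rw [hUA]
    exact ⟨u, Or.inl ⟨hc.u1, hu1⟩⟩
  · rw [hUA']
    exact ⟨v, Or.inl ⟨hc.v1, hv1⟩⟩
  · rw [hUA]
    exact (hside _ (Or.inr fun h => hv1 h.2) h1.left).union (hside _ (Or.inr fun h => hv2 h.2) h2.left)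
      ⟨u, ⟨hc.u1, hu1⟩, ⟨hc.swap.u1, hu2⟩⟩
  · rw [hUA']
    exact (hside _ (Or.inl fun h => h.2 hu1) h1.right).union
      (hside _ (Or.inl fun h => h.2 hu2) h2.right) ⟨v, ⟨hc.v1, hv1⟩, ⟨hc.swap.v1, hv2⟩⟩

/-- Gluing at a 2-cut: the cut does not separate `u` and `v` (which are an edge of `R` or `F1`). -/
theorem glue_two_one (huv : u ≠ v) (hT : Two (R ⊔ F) U) (hU : U1 ∪ U2 = U)
    (hS : U1 ∩ U2 = {u, v})
    (hsep : ∀ a ∈ U, ∀ b ∈ U, (R ⊔ F).Adj a b → (a ∈ U1 ∧ b ∈ U1) ∨ (a ∈ U2 ∧ b ∈ U2))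
    (hn1 : (U1 \ {u, v}).Nonempty) (hn2 : (U2 \ {u, v}).Nonempty)
    (hF1 : ∀ a b, (R ⊔ F1).Adj a b ↔ (R ⊔ F).Adj a b ∨ (SimpleGraph.edge u v).Adj a b)
    {A1 : Set V} (h1 : SG R F1 U1 A1) (hu1 : u ∉ A1) (hv1 : v ∉ A1) :
    SG R F U (A1 ∩ U1) := by
  have hc : TwcCut (R ⊔ F) U U1 U2 u v := ⟨huv, hT, hU, hS, hsep, hn1, hn2⟩
  have huv' : (R ⊔ F1).Adj u v := (hF1 u v).2 (Or.inr (by rw [SimpleGraph.edge_adj]; exact ⟨Or.inl ⟨rfl, rfl⟩, huv⟩))
  have hK : cross R U (A1 ∩ U1) = cross R U1 A1 := by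
    ext a b
    constructor
    · rintro ⟨h, ha, hb, hx⟩
      rcases hsep a ha b hb (Or.inl h) with h' | h'
      · refine ⟨h, h'.1, h'.2, fun h3 => hx ?_⟩
        exact ⟨fun h4 => ⟨h3.1 h4.1, h'.2⟩, fun h4 => ⟨h3.2 h4.1, h'.1⟩⟩
      · exfalso
        apply hx
        have h5 : ∀ y ∈ U2, y ∉ A1 ∩ U1 := by
          intro y hy hyA
          rcases hc.eq hyA.2 hy with rfl | rfl
          · exact hu1 hyA.1
          · exact hv1 hyA.1
        exact ⟨fun h6 => absurd h6 (h5 a h'.1), fun h6 => absurd h6 (h5 b h'.2)⟩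
    · rintro ⟨h, ha, hb, hx⟩
      refine ⟨h, hc.sub1 ha, hc.sub1 hb, fun h3 => hx ?_⟩
      exact ⟨fun h4 => (h3.1 ⟨h4, ha⟩).1, fun h4 => (h3.2 ⟨h4, hb⟩).1⟩
  have hKle : ∀ a b, (cross R U1 A1).Adj a b → (R ⊔ F).Adj a b ∧ a ∈ U ∧ b ∈ U :=
    fun a b h => ⟨Or.inl h.1, hc.sub1 h.2.1, hc.sub1 h.2.2.1⟩
  have hnr : ¬ (cross R U1 A1).Reachable u v := by
    intro h
    have h3 := (h1.ctr.strict u hc.u1 v hc.v1 huv' h).2.2.2
    exact h3 ⟨fun h4 => absurd h4 hu1, fun h4 => absurd h4 hv1⟩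
  have hK2 : ∀ a ∈ U2, ∀ b ∈ U2, (cross R U1 A1).Reachable a b ↔
      (⊥ : SimpleGraph V).Reachable a b := by
    intro a ha b hb
    rw [SimpleGraph.reachable_bot]
    constructor
    · intro h
      have hout : ∀ x ∈ U2, x ≠ u → x ≠ v → ∀ y, ¬ (cross R U1 A1).Adj x y := by
        intro x hx hxu hxv y hxy
        rcases hc.eq hxy.2.1 hx with h3 | h3
        · exact hxu h3
        · exact hxv h3
      by_cases hau : a = u
      · by_cases hbv : b = v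
        · subst hau hbv
          exact absurd h hnr
        · by_cases hbu : b = u
          · rw [hau, hbu]
          · exact (reach_isolated (hout b hb hbu hbv) h.symm).symm
      · by_cases hav : a = v
        · by_cases hbu : b = u
          · subst hav hbu
            exact absurd h.symm hnr
          · by_cases hbv : b = v
            · rw [hav, hbv]
            · exact (reach_isolated (hout b hb hbu hbv) h.symm).symm
        · exact reach_isolated (hout a ha hau hav) h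
    · rintro rfl
      exact SimpleGraph.Reachable.refl _
  have hT2 : Two (R ⊔ F1) U2 :=
    hc.swap.two1 (fun a b hab => (hF1 a b).2 (Or.inl hab)) huv'
  have hctr : Ctr (R ⊔ F) (U1 ∪ U2) (cross R U1 A1) := by
    refine glue (G1 := R ⊔ F1) (G2 := R ⊔ F1) (K1 := cross R U1 A1) (K2 := ⊥)
      ?_ ?_ h1.ctr hT2.ctr_bot ?_ ?_ ?_ (fun a _ b _ => Iff.rfl) hK2 ?_ ?_ ?_ ?_ ?_
    · rw [hU]
      exact hsep
    · rw [hU]
      exact hT.con
    · exact fun a _ b _ hab => (hF1 a b).2 (Or.inl hab)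
    · exact fun a _ b _ _ hab => (hF1 a b).2 (Or.inl hab)
    · rw [hU]
      exact hKle
    · exact fun a b _ hab => hab
    · exact fun a b _ hab => absurd hab (by simp)
    · exact fun a _ b _ hab hG => twc_virt' hc hKle hF1 a b hab hG
    · exact fun a _ b _ hab hG => twc_virt' hc hKle hF1 a b hab hG
    · intro w _
      by_contra hcon
      push Not at hcon
      have hu := hcon u ⟨hc.u1, hc.swap.u1⟩
      have hv := hcon v ⟨hc.v1, hc.swap.v1⟩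
      exact hnr (hu.symm.trans hv)
  rw [hU] at hctr
  have hUA : U ∩ (A1 ∩ U1) = U1 ∩ A1 := by
    ext x
    constructor
    · exact fun h => ⟨h.2.2, h.2.1⟩
    · exact fun h => ⟨hc.sub1 h.1, h.2, h.1⟩
  have hUA' : U \ (A1 ∩ U1) = (U1 \ A1) ∪ U2 := by
    ext x
    constructor
    · rintro ⟨hx, hxA⟩
      rw [← hU] at hx
      rcases hx with hx | hx
      · exact Or.inl ⟨hx, fun h => hxA ⟨h, hx⟩⟩
      · exact Or.inr hx
    · rintro (⟨hx, hxA⟩ | hx)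
      · exact ⟨hc.sub1 hx, fun h => hxA h.1⟩
      · refine ⟨hc.swap.sub1 hx, fun h => ?_⟩
        rcases hc.eq h.2 hx with rfl | rfl
        · exact hu1 h.1
        · exact hv1 h.1
  unfold SG
  rw [hK]
  refine ⟨?_, ?_, ?_, ?_, hctr⟩
  · rw [hUA]
    exact h1.ne
  · rw [hUA']
    exact ⟨u, Or.inr hc.swap.u1⟩
  · rw [hUA]
    refine h1.left.mono fun a ha b hb hab => ?_
    rcases (hF1 a b).1 hab with h | h
    · exact h
    · rw [SimpleGraph.edge_adj] at h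
      rcases h.1 with ⟨rfl, rfl⟩ | ⟨rfl, rfl⟩
      · exact absurd ha.2 hu1
      · exact absurd hb.2 hu1
  · rw [hUA']
    -- `U2` is on one side of every separation
    have key : ∀ X : Set V, (∀ a ∈ ((U1 \ A1) ∪ U2) ∩ X, ∀ b ∈ ((U1 \ A1) ∪ U2) \ X,
        ¬ (R ⊔ F).Adj a b) → u ∈ X → (U1 \ A1) ∪ U2 ⊆ X := by
      intro X hX huX
      have h2 : U2 ⊆ X := by
        intro y hy
        by_contra hyX
        obtain ⟨a, ha, b, hb, hab⟩ := hc.swap.con1 X ⟨u, hc.swap.u1, huX⟩ ⟨y, hy, hyX⟩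
        exact hX a ⟨Or.inr ha.1, ha.2⟩ b ⟨Or.inr hb.1, hb.2⟩ hab
      rintro y (hy | hy)
      · by_contra hyX
        obtain ⟨a, ha, b, hb, hab⟩ := h1.right X ⟨u, ⟨hc.u1, hu1⟩, huX⟩ ⟨y, hy, hyX⟩
        rcases (hF1 a b).1 hab with h | h
        · exact hX a ⟨Or.inl ha.1, ha.2⟩ b ⟨Or.inl hb.1, hb.2⟩ h
        · rw [SimpleGraph.edge_adj] at h
          rcases h.1 with ⟨rfl, rfl⟩ | ⟨rfl, rfl⟩
          · exact hb.2 (h2 hc.swap.v1)
          · exact hb.2 (h2 hc.swap.u1)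
      · exact h2 hy
    rintro X ⟨x, hx, hxX⟩ ⟨y, hy, hyX⟩
    by_contra hcon
    push Not at hcon
    by_cases huX : u ∈ X
    · exact hyX (key X hcon huX hy)
    · refine key Xᶜ ?_ huX hx hxX
      rintro a ⟨ha, haX⟩ b ⟨hb, hbX⟩ hab
      exact hcon b ⟨hb, not_not.mp hbX⟩ a ⟨ha, haX⟩ hab.symm

end

section step

variable [Finite V] {R F : SimpleGraph V} {U U1 U2 : Set V} {u v : V}

theorem TwcCut.lt {G : SimpleGraph V} (hc : TwcCut G U U1 U2 u v) : U1.ncard < U.ncard := by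
  refine Set.ncard_lt_ncard ⟨fun x hx => hc.sub1 hx, fun h => ?_⟩ (Set.toFinite _)
  obtain ⟨p, hp, hpn⟩ := hc.n2
  rcases hc.eq (h (hc.swap.sub1 hp)) hp with h1 | h1
  · exact hpn (Or.inl h1)
  · exact hpn (Or.inr h1)

omit [Finite V] in
/-- A connected set on the other side which is adjacent to `u` and `v`. -/
theorem TwcCut.comp {G : SimpleGraph V} (hc : TwcCut G U U1 U2 u v) : ∃ P : Set V, P ⊆ U \ U1 ∧
    Con G P ∧ P.Nonempty ∧ (∃ c ∈ P, G.Adj c u) ∧ ∃ c ∈ P, G.Adj c v := by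
  obtain ⟨p, hp, hpn⟩ := hc.n2
  obtain ⟨C, hC, hpC⟩ := exists_isComp G U {u, v} (v := p) ⟨hc.swap.sub1 hp, hpn⟩
  have hC2 : C ⊆ U2 := by
    intro x hx
    by_contra hxU
    obtain ⟨a, ha, b, hb, hab⟩ := hC.con U2 ⟨p, hpC, hp⟩ ⟨x, hx, hxU⟩
    rcases hc.sep a (hC.sub ha.1).1 b (hC.sub hb.1).1 hab with h1 | h1
    · exact (hC.sub ha.1).2 (hc.eq h1.1 ha.2)
    · exact hb.2 h1.2
  have hadj : ∀ s t : V, ({s, t} : Set V) = {u, v} → s ≠ t → ∃ c ∈ C, G.Adj c s := by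
    intro s t hst hne
    have hsU : s ∈ ({u, v} : Set V) := by rw [← hst]; exact Or.inl rfl
    have htU : t ∈ ({u, v} : Set V) := by rw [← hst]; exact Or.inr rfl
    have hsU' : s ∈ U := by
      rcases hsU with rfl | rfl
      · exact hc.sub1 hc.u1
      · exact hc.sub1 hc.v1
    obtain ⟨a, ha, b, hb, hab⟩ := hc.two.del t C
      ⟨p, ⟨(hC.sub hpC).1, fun h => (hC.sub hpC).2 (h ▸ htU)⟩, hpC⟩
      ⟨s, ⟨hsU', hne⟩, fun h => (hC.sub h).2 hsU⟩
    refine ⟨a, ha.2, ?_⟩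
    have : b = s := by
      by_contra hbs
      refine hb.2 (hC.closed a ha.2 b ⟨hb.1.1, fun h => ?_⟩ hab)
      rw [← hst] at h
      rcases h with h | h
      · exact hbs h
      · exact hb.1.2 h
    rwa [this] at hab
  refine ⟨C, fun x hx => ⟨(hC.sub hx).1, fun h => (hC.sub hx).2 (hc.eq h (hC2 hx))⟩, hC.con, hC.ne,
    hadj u v rfl hc.ne, hadj v u (Set.pair_comm v u) hc.ne.symm⟩

theorem TwcCut.cls (hc : TwcCut (R ⊔ F) U U1 U2 u v) (h : Cls R F U) (hR : ¬ R.Adj u v) :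
    Cls R (F ⊔ SimpleGraph.edge u v) U1 := by
  have huv' : (R ⊔ (F ⊔ SimpleGraph.edge u v)).Adj u v :=
    Or.inr (Or.inr (by rw [SimpleGraph.edge_adj]; exact ⟨Or.inl ⟨rfl, rfl⟩, hc.ne⟩))
  refine ⟨hc.two1 ?_ huv', ?_, ?_, ?_⟩
  · rintro a b (h | h)
    · exact Or.inl h
    · exact Or.inr (Or.inl h)
  · exact fun a ha b hb c hc' => h.tri a (hc.sub1 ha) b (hc.sub1 hb) c (hc.sub1 hc')
  · rintro a b hab (h' | h')
    · exact h.disj a b hab h'
    · rw [SimpleGraph.edge_adj] at h'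
      rcases h'.1 with ⟨rfl, rfl⟩ | ⟨rfl, rfl⟩
      · exact hR hab
      · exact hR hab.symm
  · obtain ⟨P, hP, hPc, hPn, hPu, hPv⟩ := hc.comp
    refine NoK5.add (p := u) (P := P) h.k5 (fun x hx => hc.sub1 hx) hP hPc hPn hc.u1 hPu ?_
    intro a _ b _ hab hn
    have h1 : (SimpleGraph.edge u v).Adj a b := by
      rcases hab with h1 | h1 | h1
      · exact absurd (Or.inl h1) hn
      · exact absurd (Or.inr h1) hn
      · exact h1
    rw [SimpleGraph.edge_adj] at h1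
    rcases h1.1 with ⟨rfl, rfl⟩ | ⟨rfl, rfl⟩
    · exact Or.inl ⟨rfl, hPv⟩
    · exact Or.inr ⟨rfl, hPv⟩

theorem TwcCut.main (ih : IH U) (h : Cls R F U) (hc : TwcCut (R ⊔ F) U U1 U2 u v) {a b : V}
    (ha : a ∈ U1) (hb : b ∈ U1) (hab : R.Adj a b) : ∃ A, SG R F U A ∧ (a ∈ A ↔ b ∈ A) := by
  -- a cut of `U2` which does not separate `u` and `v`
  have htwo : ∀ F1 : SimpleGraph V, (∀ a b, (R ⊔ F1).Adj a b ↔ (R ⊔ F).Adj a b ∨
      (SimpleGraph.edge u v).Adj a b) → ∀ A2, SG R F1 U2 A2 → (u ∈ A2 ↔ v ∈ A2) →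
      ∃ A, SG R F U A ∧ (a ∈ A ↔ b ∈ A) := by
    intro F1 hF1 A2 h2 hA2
    have main : ∀ A2, SG R F1 U2 A2 → u ∉ A2 → v ∉ A2 → ∃ A, SG R F U A ∧ (a ∈ A ↔ b ∈ A) := by
      intro A2 h2 hu hv
      have hout : ∀ x ∈ U1, x ∉ A2 ∩ U2 := by
        intro x hx hxA
        rcases hc.eq hx hxA.2 with rfl | rfl
        · exact hu hxA.1
        · exact hv hxA.1
      refine ⟨A2 ∩ U2, glue_two_one hc.ne hc.two hc.swap.un hc.swap.int hc.swap.sep hc.swap.n1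
        hc.swap.n2 hF1 h2 hu hv, ?_⟩
      exact ⟨fun h => absurd h (hout a ha), fun h => absurd h (hout b hb)⟩
    by_cases hu : u ∈ A2
    · exact main A2ᶜ h2.compl (fun h => h hu) (fun h => h (hA2.1 hu))
    · exact main A2 h2 hu (fun h => hu (hA2.2 h))
  by_cases hR : R.Adj u v
  · have hT2 : Two (R ⊔ F) U2 := hc.swap.two1 (fun _ _ h => h) (Or.inl hR)
    have hcls : Cls R F U2 := by
      refine ⟨hT2, ?_, h.disj, h.k5.mono (fun x hx => hc.swap.sub1 hx) fun _ _ _ _ h => h⟩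
      exact fun a ha b hb c hc' => h.tri a (hc.swap.sub1 ha) b (hc.swap.sub1 hb) c
        (hc.swap.sub1 hc')
    obtain ⟨A2, h2, hA2⟩ := ih R F U2 hc.swap.lt hcls u hc.swap.u1 v hc.swap.v1 hR
    refine htwo F ?_ A2 h2 hA2
    intro x y
    constructor
    · exact Or.inl
    · rintro (h' | h')
      · exact h'
      · rw [SimpleGraph.edge_adj] at h'
        rcases h'.1 with ⟨rfl, rfl⟩ | ⟨rfl, rfl⟩
        · exact Or.inl hR
        · exact Or.inl hR.symm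
  · have hF1 : ∀ a b, (R ⊔ (F ⊔ SimpleGraph.edge u v)).Adj a b ↔ (R ⊔ F).Adj a b ∨
        (SimpleGraph.edge u v).Adj a b := by
      intro x y
      simp only [SimpleGraph.sup_adj]
      tauto
    obtain ⟨A1, h1, hA1⟩ := ih R (F ⊔ SimpleGraph.edge u v) U1 hc.lt (hc.cls h hR) a ha b hb hab
    have hcls2 : Cls R (F ⊔ SimpleGraph.edge u v) U2 := hc.swap.cls h hR
    obtain ⟨A2, h2⟩ := exists_sg ih hc.swap.lt hcls2
    by_cases hs2 : u ∈ A2 ↔ v ∈ A2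
    · exact htwo _ hF1 A2 h2 hs2
    · by_cases hs1 : u ∈ A1 ↔ v ∈ A1
      · have main : ∀ A1, SG R (F ⊔ SimpleGraph.edge u v) U1 A1 → (a ∈ A1 ↔ b ∈ A1) →
            u ∉ A1 → v ∉ A1 → ∃ A, SG R F U A ∧ (a ∈ A ↔ b ∈ A) := by
          intro A1 h1 hA1 hu hv
          refine ⟨A1 ∩ U1, glue_two_one hc.ne hc.two hc.un hc.int hc.sep hc.n1
            hc.n2 hF1 h1 hu hv, ?_⟩
          exact ⟨fun h => ⟨hA1.1 h.1, hb⟩, fun h => ⟨hA1.2 h.1, ha⟩⟩
        by_cases hu : u ∈ A1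
        · exact main A1ᶜ h1.compl (not_congr hA1) (fun h => h hu) (fun h => h (hs1.1 hu))
        · exact main A1 h1 hA1 hu (fun h => hu (hs1.2 h))
      · -- both cuts separate `u` and `v`
        have norm : ∀ (U' A : Set V), SG R (F ⊔ SimpleGraph.edge u v) U' A →
            ¬ (u ∈ A ↔ v ∈ A) → ∃ A', SG R (F ⊔ SimpleGraph.edge u v) U' A' ∧ u ∈ A' ∧ v ∉ A' ∧
              ∀ x y, (x ∈ A ↔ y ∈ A) → (x ∈ A' ↔ y ∈ A') := by
          intro U' A hA hs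
          by_cases hu : u ∈ A
          · exact ⟨A, hA, hu, fun hv => hs ⟨fun _ => hv, fun _ => hu⟩, fun _ _ h => h⟩
          · have hv : v ∈ A := by
              by_contra hv
              exact hs ⟨fun h => absurd h hu, fun h => absurd h hv⟩
            exact ⟨Aᶜ, hA.compl, hu, fun h => h hv, fun _ _ h => not_congr h⟩
        obtain ⟨B1, k1, u1, v1, m1⟩ := norm U1 A1 h1 hs1
        obtain ⟨B2, k2, u2, v2, -⟩ := norm U2 A2 h2 hs2
        refine ⟨B1 ∩ U1 ∪ B2 ∩ U2, glue_two_split hc.ne hR hc.two hc.un hc.int hc.sep hc.n1 hc.n2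
          (fun _ _ => Iff.rfl) k1 k2 u1 u2 v1 v2, ?_⟩
        have m : ∀ x ∈ U1, (x ∈ B1 ∩ U1 ∪ B2 ∩ U2 ↔ x ∈ B1) := by
          intro x hx
          constructor
          · rintro (h | h)
            · exact h.1
            · rcases hc.eq hx h.2 with rfl | rfl
              · exact u1
              · exact absurd h.1 v2
          · exact fun h => Or.inl ⟨h, hx⟩
        rw [m a ha, m b hb]
        exact m1 a b hA1

end step

theorem two_cut_step [Finite V] {R F : SimpleGraph V} {U : Set V} (ih : IH U) (h : Cls R F U)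
    (hc : 4 ≤ U.ncard) (hn : ¬ Three (R ⊔ F) U) : ClaimR R F U := by
  have h1 : ∃ u v, ¬ Con (R ⊔ F) (U \ {u, v}) := by
    by_contra hcon
    push Not at hcon
    exact hn ⟨hc, hcon⟩
  obtain ⟨u, v, huv⟩ := h1
  have hne : u ≠ v := by
    rintro rfl
    rw [Set.pair_eq_singleton] at huv
    exact huv (h.two.del u)
  have hu : u ∈ U := by
    by_contra hu
    apply huv
    have : U \ {u, v} = U \ {v} := by
      ext x
      simp only [Set.mem_sdiff, Set.mem_insert_iff, Set.mem_singleton_iff]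
      constructor
      · exact fun h => ⟨h.1, fun h' => h.2 (Or.inr h')⟩
      · rintro ⟨h1, h2⟩
        refine ⟨h1, ?_⟩
        rintro (rfl | h')
        · exact hu h1
        · exact h2 h'
    rw [this]
    exact h.two.del v
  have hv : v ∈ U := by
    by_contra hv
    apply huv
    have : U \ {u, v} = U \ {u} := by
      ext x
      simp only [Set.mem_sdiff, Set.mem_insert_iff, Set.mem_singleton_iff]
      constructor
      · exact fun h => ⟨h.1, fun h' => h.2 (Or.inl h')⟩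
      · rintro ⟨h1, h2⟩
        refine ⟨h1, ?_⟩
        rintro (h' | rfl)
        · exact h2 h'
        · exact hv h1
    rw [this]
    exact h.two.del u
  unfold Con at huv
  push Not at huv
  obtain ⟨X, ⟨p, hp, hpX⟩, ⟨q, hq, hqX⟩, hX⟩ := huv
  have hcut : TwcCut (R ⊔ F) U ((U \ {u, v}) ∩ X ∪ {u, v}) ((U \ {u, v}) \ X ∪ {u, v}) u v := by
    refine ⟨hne, h.two, ?_, ?_, ?_, ⟨p, Or.inl ⟨hp, hpX⟩, hp.2⟩, ⟨q, Or.inl ⟨hq, hqX⟩, hq.2⟩⟩
    · ext x
      constructor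
      · rintro ((h1 | h1) | (h1 | h1))
        · exact h1.1.1
        · rcases h1 with rfl | rfl
          · exact hu
          · exact hv
        · exact h1.1.1
        · rcases h1 with rfl | rfl
          · exact hu
          · exact hv
      · intro hx
        by_cases h1 : x ∈ ({u, v} : Set V)
        · exact Or.inl (Or.inr h1)
        · by_cases h2 : x ∈ X
          · exact Or.inl (Or.inl ⟨⟨hx, h1⟩, h2⟩)
          · exact Or.inr (Or.inl ⟨⟨hx, h1⟩, h2⟩)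
    · ext x
      constructor
      · rintro ⟨h1 | h1, h2 | h2⟩
        · exact absurd h1.2 h2.2
        · exact h2
        · exact h1
        · exact h1
      · exact fun h1 => ⟨Or.inr h1, Or.inr h1⟩
    · intro a ha b hb hab
      by_cases h1 : a ∈ ({u, v} : Set V)
      · by_cases h2 : b ∈ ({u, v} : Set V)
        · exact Or.inl ⟨Or.inr h1, Or.inr h2⟩
        · by_cases h3 : b ∈ X
          · exact Or.inl ⟨Or.inr h1, Or.inl ⟨⟨hb, h2⟩, h3⟩⟩
          · exact Or.inr ⟨Or.inr h1, Or.inl ⟨⟨hb, h2⟩, h3⟩⟩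
      · by_cases h2 : b ∈ ({u, v} : Set V)
        · by_cases h3 : a ∈ X
          · exact Or.inl ⟨Or.inl ⟨⟨ha, h1⟩, h3⟩, Or.inr h2⟩
          · exact Or.inr ⟨Or.inl ⟨⟨ha, h1⟩, h3⟩, Or.inr h2⟩
        · by_cases h3 : a ∈ X
          · by_cases h4 : b ∈ X
            · exact Or.inl ⟨Or.inl ⟨⟨ha, h1⟩, h3⟩, Or.inl ⟨⟨hb, h2⟩, h4⟩⟩
            · exact absurd hab (hX a ⟨⟨ha, h1⟩, h3⟩ b ⟨⟨hb, h2⟩, h4⟩)
          · by_cases h4 : b ∈ X
            · exact absurd hab.symm (hX b ⟨⟨hb, h2⟩, h4⟩ a ⟨⟨ha, h1⟩, h3⟩)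
            · exact Or.inr ⟨Or.inl ⟨⟨ha, h1⟩, h3⟩, Or.inl ⟨⟨hb, h2⟩, h4⟩⟩
  intro a ha b hb hab
  rcases hcut.sep a ha b hb (Or.inl hab) with h1 | h1
  · exact hcut.main ih h h1.1 h1.2 hab
  · exact hcut.swap.main ih h h1.1 h1.2 hab

end BND
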