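import Pool.Agent.BND.Prim
import Pool.Agent.BND.Cnx
import Pool.Agent.BND.Glu
import Pool.Agent.BND.Pie
import Pool.Agent.BND.Twc

set_option autoImplicit false

namespace BND

variable {V : Type}

/-! ### Module CLW (file Clw.lean; uses CNX PIE TWC): two claws -/

/-- To show that a set is connected take a closed subset through a point. -/
theorem clw_con {G : SimpleGraph V} {s : Set V} {x0 : V} (hx0 : x0 ∈ s)
    (h : ∀ X : Set V, x0 ∈ X → (∀ a ∈ s, a ∈ X → ∀ b ∈ s, G.Adj a b → b ∈ X) → s ⊆ X) :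
    Con G s := by
  rintro X ⟨x, hx, hxX⟩ ⟨y, hy, hyX⟩
  by_contra hcon
  push Not at hcon
  by_cases h0 : x0 ∈ X
  · have := h X h0 (fun a ha haX b hb hab => by
      by_contra hbX
      exact hcon a ⟨ha, haX⟩ b ⟨hb, hbX⟩ hab)
    exact hyX (this hy)
  · have := h Xᶜ h0 (fun a ha haX b hb hab hbX => hcon b ⟨hb, hbX⟩ a ⟨ha, haX⟩ hab.symm)
    exact this hx hxX

/-- The edges in `S` are replaced by paths through `w`. -/
theorem clw_T {G : SimpleGraph V} {S W : Set V} {w : V} (hW : Con (G ⊔ tri S) W)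
    (hne : (W ∩ S).Nonempty) (hw : ∀ s ∈ S, G.Adj w s) : Con G (insert w W) := by
  obtain ⟨s0, hs0, hs0S⟩ := hne
  refine clw_con (Set.mem_insert w W) ?_
  intro X hwX hX
  have h1 : ∀ s ∈ W, s ∈ S → s ∈ X := fun s hs hsS =>
    hX w (Set.mem_insert w W) hwX s (Or.inr hs) (hw s hsS)
  have h2 : W ⊆ X := by
    refine hW.all_mem hs0 (h1 s0 hs0 hs0S) ?_
    intro a ha haX b hb hab
    rcases hab with hab | hab
    · exact hX a (Or.inr ha) haX b (Or.inr hb) hab
    · exact h1 b hb hab.2.2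
  rintro u (rfl | hu)
  · exact hwX
  · exact h2 hu

/-- The data of two claws. -/
structure ClwD (G R : SimpleGraph V) (U U0 S : Set V) (w1 w2 : V) (K0 : SimpleGraph V) :
    Prop where
  memU : ∀ u, u ∈ U ↔ u ∈ U0 ∨ u = w1 ∨ u = w2
  n1 : w1 ∉ U0
  n2 : w2 ∉ U0
  n12 : w1 ≠ w2
  SU : S ⊆ U0
  nb1 : ∀ v ∈ U, G.Adj w1 v → v ∈ S
  nb2 : ∀ v ∈ U, G.Adj w2 v → v ∈ S
  r1 : ∀ s ∈ S, R.Adj w1 s
  r2 : ∀ s ∈ S, R.Adj w2 s
  rg : ∀ u v, R.Adj u v → G.Adj u v
  ind : ∀ s ∈ S, ∀ t ∈ S, ¬ G.Adj s t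
  two : Two G U
  c0 : Ctr (G ⊔ tri S) U0 K0
  k0R : ∀ u v, K0.Adj u v → R.Adj u v

section

variable {G R K0 K : SimpleGraph V} {U U0 S : Set V} {w1 w2 x y z : V}

theorem ClwD.iso1 (D : ClwD G R U U0 S w1 w2 K0) : ∀ v, ¬ K0.Adj w1 v :=
  fun v h => D.n1 (D.c0.le w1 v h).2.1

theorem ClwD.iso2 (D : ClwD G R U U0 S w1 w2 K0) : ∀ v, ¬ K0.Adj w2 v :=
  fun v h => D.n2 (D.c0.le w2 v h).2.1

theorem ClwD.sub (D : ClwD G R U U0 S w1 w2 K0) {u : V} (h : u ∈ U0) : u ∈ U :=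
  (D.memU u).2 (Or.inl h)

theorem ClwD.m1 (D : ClwD G R U U0 S w1 w2 K0) : w1 ∈ U := (D.memU w1).2 (Or.inr (Or.inl rfl))

theorem ClwD.m2 (D : ClwD G R U U0 S w1 w2 K0) : w2 ∈ U := (D.memU w2).2 (Or.inr (Or.inr rfl))

theorem ClwD.k0G (D : ClwD G R U U0 S w1 w2 K0) : K0 ≤ G :=
  fun _ _ h => D.rg _ _ (D.k0R _ _ h)

theorem ClwD.cl (D : ClwD G R U U0 S w1 w2 K0) (v : V) : Con G {w | K0.Reachable v w} :=
  con_class_of_le D.k0G v

theorem ClwD.clU (D : ClwD G R U U0 S w1 w2 K0) {v w : V} (hv : v ∈ U0)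
    (h : K0.Reachable v w) : w ∈ U0 :=
  reach_closed (X := U0) (fun _ _ _ h' => (D.c0.le _ _ h').2.2) hv h

theorem ClwD.sep (D : ClwD G R U U0 S w1 w2 K0) {s t : V} (hs : s ∈ S) (ht : t ∈ S)
    (hst : s ≠ t) : ¬ K0.Reachable s t := by
  intro h
  have h1 := D.c0.strict s (D.SU hs) t (D.SU ht) (Or.inr ⟨hst, hs, ht⟩) h
  exact D.ind s hs t ht (D.k0G h1)

/-- attach both claws -/
theorem ClwD.both (D : ClwD G R U U0 S w1 w2 K0) {W : Set V} (hW : Con (G ⊔ tri S) W)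
    {s : V} (hs : s ∈ W) (hsS : s ∈ S) : Con G (insert w2 (insert w1 W)) := by
  have h1 := clw_T hW ⟨s, hs, hsS⟩ (fun t ht => D.rg _ _ (D.r1 t ht))
  exact h1.insert_adj (Or.inr hs) (D.rg _ _ (D.r2 s hsS))

/-- There is a vertex of `S` outside of a given class. -/
theorem ClwD.out (D : ClwD G R U U0 S w1 w2 K0) (hx : x ∈ S) (hy : y ∈ S) (hxy : x ≠ y)
    (v : V) : ∃ s ∈ S, ¬ K0.Reachable v s := by
  by_cases h : K0.Reachable v x
  · exact ⟨y, hy, fun h' => D.sep hx hy hxy (h.symm.trans h')⟩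
  · exact ⟨x, hx, h⟩

theorem ClwD.case0 (D : ClwD G R U U0 S w1 w2 K0) (hx : x ∈ S) (hy : y ∈ S) (hxy : x ≠ y) :
    Ctr G U K0 := by
  refine ⟨D.two.con, ?_, ?_, ?_, ?_⟩
  · intro u v h
    exact ⟨D.k0G h, D.sub (D.c0.le u v h).2.1, D.sub (D.c0.le u v h).2.2⟩
  · intro u hu v hv huv hr
    rcases (D.memU u).1 hu with hu0 | rfl | rfl
    · rcases (D.memU v).1 hv with hv0 | rfl | rfl
      · exact D.c0.strict u hu0 v hv0 (Or.inl huv) hr
      · exact absurd (reach_isolated D.iso1 hr.symm) huv.ne'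
      · exact absurd (reach_isolated D.iso2 hr.symm) huv.ne'
    · exact absurd (reach_isolated D.iso1 hr) huv.ne
    · exact absurd (reach_isolated D.iso2 hr) huv.ne
  · intro v hv
    have key : ∀ w, (∀ u, ¬ K0.Adj w u) → {u | u ∈ U ∧ ¬ K0.Reachable w u} = U \ {w} := by
      intro w hw
      ext u
      constructor
      · rintro ⟨h1, h2⟩
        refine ⟨h1, ?_⟩
        rintro rfl
        exact h2 (SimpleGraph.Reachable.refl _)
      · rintro ⟨h1, h2⟩
        exact ⟨h1, fun h3 => h2 (reach_isolated hw h3).symm⟩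
    rcases (D.memU v).1 hv with hv0 | rfl | rfl
    · obtain ⟨s, hs, hsv⟩ := D.out hx hy hxy v
      have e : {w | w ∈ U ∧ ¬ K0.Reachable v w} =
          insert w2 (insert w1 {w | w ∈ U0 ∧ ¬ K0.Reachable v w}) := by
        ext u
        constructor
        · rintro ⟨h1, h2⟩
          rcases (D.memU u).1 h1 with hu | hu | hu
          · exact Or.inr (Or.inr ⟨hu, h2⟩)
          · exact Or.inr (Or.inl hu)
          · exact Or.inl hu
        · rintro (rfl | rfl | ⟨h1, h2⟩)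
          · exact ⟨D.m2, fun h => D.n2 (D.clU hv0 h)⟩
          · exact ⟨D.m1, fun h => D.n1 (D.clU hv0 h)⟩
          · exact ⟨D.sub h1, h2⟩
      rw [e]
      exact D.both (D.c0.con v hv0) ⟨D.SU hs, hsv⟩ hs
    · rw [key _ D.iso1]; exact D.two.del _
    · rw [key _ D.iso2]; exact D.two.del _
  · intro v _
    obtain ⟨s, hs, hsv⟩ := D.out hx hy hxy v
    exact ⟨s, D.sub (D.SU hs), hsv⟩

theorem ClwD.case1 (D : ClwD G R U U0 S w1 w2 K0) (hx : x ∈ S) (hy : y ∈ S) (hxy : x ≠ y)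
    (hK : ∀ u v, K.Adj u v ↔ K0.Adj u v ∨ ((u = w1 ∨ u = w2) ∧ v = x) ∨
      ((v = w1 ∨ v = w2) ∧ u = x))
    (hW : Con G {w | w ∈ U0 ∧ ¬ K0.Reachable x w}) : Ctr G U K := by
  have hle : K0 ≤ K := fun u v h => (hK u v).2 (Or.inl h)
  have hwx1 : K.Adj w1 x := (hK _ _).2 (Or.inr (Or.inl ⟨Or.inl rfl, rfl⟩))
  have hwx2 : K.Adj w2 x := (hK _ _).2 (Or.inr (Or.inl ⟨Or.inr rfl, rfl⟩))
  -- the class of x
  have hcx : ∀ u, K.Reachable x u → K0.Reachable x u ∨ u = w1 ∨ u = w2 := by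
    intro u hu
    refine reach_closed (K := K) (X := {u | K0.Reachable x u ∨ u = w1 ∨ u = w2}) ?_
      (Or.inl (SimpleGraph.Reachable.refl _)) hu
    rintro p q hp hpq
    rcases (hK p q).1 hpq with h | ⟨-, h⟩ | ⟨h, -⟩
    · rcases hp with hp | rfl | rfl
      · exact Or.inl (hp.trans h.reachable)
      · exact absurd h (D.iso1 q)
      · exact absurd h (D.iso2 q)
    · rw [h]; exact Or.inl (SimpleGraph.Reachable.refl _)
    · exact Or.inr h
  have hcv : ∀ v ∈ U0, ¬ K0.Reachable x v → ∀ u, K.Reachable v u → K0.Reachable v u := by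
    intro v hv hvx u hu
    refine reach_closed (K := K) (X := {u | K0.Reachable v u}) ?_
      (SimpleGraph.Reachable.refl _) hu
    rintro p q hp hpq
    rcases (hK p q).1 hpq with h | ⟨h, -⟩ | ⟨-, h⟩
    · exact SimpleGraph.Reachable.trans hp h.reachable
    · exfalso
      have := D.clU hv hp
      rcases h with rfl | rfl
      · exact D.n1 this
      · exact D.n2 this
    · rw [h] at hp
      exact absurd (SimpleGraph.Reachable.symm hp) hvx
  have hx1 : ∀ v, v = w1 ∨ v = w2 → K.Reachable x v := by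
    rintro v (rfl | rfl)
    · exact hwx1.symm.reachable
    · exact hwx2.symm.reachable
  have hle' : ∀ {u v}, K0.Reachable u v → K.Reachable u v := fun h => h.mono hle
  refine ⟨D.two.con, ?_, ?_, ?_, ?_⟩
  · intro u v h
    rcases (hK u v).1 h with h | ⟨h1 | h1, h2⟩ | ⟨h1 | h1, h2⟩
    · exact ⟨D.k0G h, D.sub (D.c0.le u v h).2.1, D.sub (D.c0.le u v h).2.2⟩
    · rw [h1, h2]; exact ⟨D.rg _ _ (D.r1 x hx), D.m1, D.sub (D.SU hx)⟩
    · rw [h1, h2]; exact ⟨D.rg _ _ (D.r2 x hx), D.m2, D.sub (D.SU hx)⟩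
    · rw [h1, h2]; exact ⟨(D.rg _ _ (D.r1 x hx)).symm, D.sub (D.SU hx), D.m1⟩
    · rw [h1, h2]; exact ⟨(D.rg _ _ (D.r2 x hx)).symm, D.sub (D.SU hx), D.m2⟩
  · -- strict
    have hw : ∀ w v, w = w1 ∨ w = w2 → v ∈ S → K.Reachable w v → K.Adj w v := by
      intro w v hw hv hr
      have h1 : K.Reachable x v := (hx1 w hw).trans hr
      have h2 : K0.Reachable x v := by
        rcases hcx v h1 with h | h | h
        · exact h
        · exact absurd (h ▸ D.SU hv) D.n1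
        · exact absurd (h ▸ D.SU hv) D.n2
      have h3 : x = v := by
        by_contra hne
        exact D.sep hx hv hne h2
      rw [← h3]
      exact (hK _ _).2 (Or.inr (Or.inl ⟨hw, rfl⟩))
    intro u hu v hv huv hr
    rcases (D.memU u).1 hu with hu0 | hu1
    · rcases (D.memU v).1 hv with hv0 | hv1
      · apply hle
        apply D.c0.strict u hu0 v hv0 (Or.inl huv)
        by_cases hxu : K0.Reachable x u
        · rcases hcx v ((hle' hxu).trans hr) with h | h | h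
          · exact hxu.symm.trans h
          · exact absurd (h ▸ hv0) D.n1
          · exact absurd (h ▸ hv0) D.n2
        · exact hcv u hu0 hxu v hr
      · refine (hw v u hv1 ?_ hr.symm).symm
        rcases hv1 with h | h
        · rw [h] at huv; exact D.nb1 u hu huv.symm
        · rw [h] at huv; exact D.nb2 u hu huv.symm
    · refine hw u v hu1 ?_ hr
      rcases hu1 with h | h
      · rw [h] at huv; exact D.nb1 v hv huv
      · rw [h] at huv; exact D.nb2 v hv huv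
  · -- con
    intro v hv
    by_cases hxv : K.Reachable x v
    · have e : {w | w ∈ U ∧ ¬ K.Reachable v w} = {w | w ∈ U0 ∧ ¬ K0.Reachable x w} := by
        ext u
        constructor
        · rintro ⟨h1, h2⟩
          rcases (D.memU u).1 h1 with hu | hu
          · exact ⟨hu, fun h => h2 (hxv.symm.trans (hle' h))⟩
          · exact absurd (hxv.symm.trans (hx1 u hu)) h2
        · rintro ⟨h1, h2⟩
          refine ⟨D.sub h1, fun h => ?_⟩
          rcases hcx u (hxv.trans h) with h' | h' | h'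
          · exact h2 h'
          · exact D.n1 (h' ▸ h1)
          · exact D.n2 (h' ▸ h1)
      rw [e]; exact hW
    · have hv0 : v ∈ U0 := by
        rcases (D.memU v).1 hv with h | h
        · exact h
        · exact absurd (hx1 v h) hxv
      have hxv0 : ¬ K0.Reachable x v := fun h => hxv (hle' h)
      have e : {w | w ∈ U ∧ ¬ K.Reachable v w} =
          insert w2 (insert w1 {w | w ∈ U0 ∧ ¬ K0.Reachable v w}) := by
        ext u
        constructor
        · rintro ⟨h1, h2⟩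
          rcases (D.memU u).1 h1 with hu | hu | hu
          · exact Or.inr (Or.inr ⟨hu, fun h => h2 (hle' h)⟩)
          · exact Or.inr (Or.inl hu)
          · exact Or.inl hu
        · rintro (rfl | rfl | ⟨h1, h2⟩)
          · exact ⟨D.m2, fun h => D.n2 (D.clU hv0 (hcv v hv0 hxv0 _ h))⟩
          · exact ⟨D.m1, fun h => D.n1 (D.clU hv0 (hcv v hv0 hxv0 _ h))⟩
          · exact ⟨D.sub h1, fun h => h2 (hcv v hv0 hxv0 _ h)⟩
      rw [e]
      exact D.both (D.c0.con v hv0) ⟨D.SU hx, fun h => hxv0 h.symm⟩ hx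
  · intro v hv
    by_cases hxv : K.Reachable x v
    · refine ⟨y, D.sub (D.SU hy), fun h => ?_⟩
      rcases hcx y (hxv.trans h) with h' | h' | h'
      · exact D.sep hx hy hxy h'
      · exact D.n1 (h' ▸ D.SU hy)
      · exact D.n2 (h' ▸ D.SU hy)
    · exact ⟨x, D.sub (D.SU hx), fun h => hxv h.symm⟩

theorem ClwD.case2 (D : ClwD G R U U0 S w1 w2 K0) (hS : S = {x, y, z}) (hxy : x ≠ y)
    (hxz : x ≠ z) (hyz : y ≠ z)
    (hK : ∀ u v, K.Adj u v ↔ K0.Adj u v ∨ (u = w1 ∧ (v = y ∨ v = z)) ∨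
      (v = w1 ∧ (u = y ∨ u = z)) ∨ (u = w2 ∧ v = x) ∨ (v = w2 ∧ u = x))
    {X : Set V} (hyX : y ∈ X) (hzX : z ∉ X)
    (hX : ∀ u ∈ U0, ¬ K0.Reachable x u → ∀ v ∈ U0, ¬ K0.Reachable x v → u ∈ X → v ∉ X →
      ¬ G.Adj u v) : Ctr G U K := by
  have hx : x ∈ S := by rw [hS]; exact Or.inl rfl
  have hy : y ∈ S := by rw [hS]; exact Or.inr (Or.inl rfl)
  have hz : z ∈ S := by rw [hS]; exact Or.inr (Or.inr rfl)
  have hle : K0 ≤ K := fun u v h => (hK u v).2 (Or.inl h)
  have hle' : ∀ {u v}, K0.Reachable u v → K.Reachable u v := fun h => h.mono hle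
  have hwy : K.Adj w1 y := (hK _ _).2 (Or.inr (Or.inl ⟨rfl, Or.inl rfl⟩))
  have hwz : K.Adj w1 z := (hK _ _).2 (Or.inr (Or.inl ⟨rfl, Or.inr rfl⟩))
  have hwx : K.Adj w2 x := (hK _ _).2 (Or.inr (Or.inr (Or.inr (Or.inl ⟨rfl, rfl⟩))))
  -- the class of x
  have hcx : ∀ u, K.Reachable w2 u → K0.Reachable x u ∨ u = w2 := by
    intro u hu
    refine reach_closed (K := K) (X := {u | K0.Reachable x u ∨ u = w2}) ?_ (Or.inr rfl) hu
    intro p q hp hpq
    rcases (hK p q).1 hpq with h | ⟨h, -⟩ | ⟨-, h⟩ | ⟨-, h⟩ | ⟨h, -⟩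
    · rcases hp with hp | hp
      · exact Or.inl (hp.trans h.reachable)
      · rw [hp] at h; exact absurd h (D.iso2 q)
    · exfalso
      rcases hp with hp | hp
      · exact D.n1 (h ▸ D.clU (D.SU hx) hp)
      · exact D.n12 (h.symm.trans hp)
    · exfalso
      rcases hp with hp | hp
      · rcases h with h | h
        · rw [h] at hp; exact D.sep hx hy hxy hp
        · rw [h] at hp; exact D.sep hx hz hxz hp
      · rcases h with h | h
        · exact D.n2 (hp ▸ h ▸ D.SU hy)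
        · exact D.n2 (hp ▸ h ▸ D.SU hz)
    · rw [h]; exact Or.inl (SimpleGraph.Reachable.refl _)
    · exact Or.inr h
  -- the class of y and z
  have hcy : ∀ u, K.Reachable w1 u → K0.Reachable y u ∨ K0.Reachable z u ∨ u = w1 := by
    intro u hu
    refine reach_closed (K := K) (X := {u | K0.Reachable y u ∨ K0.Reachable z u ∨ u = w1}) ?_
      (Or.inr (Or.inr rfl)) hu
    intro p q hp hpq
    rcases (hK p q).1 hpq with h | ⟨-, h⟩ | ⟨h, -⟩ | ⟨h, -⟩ | ⟨-, h⟩
    · rcases hp with hp | hp | hp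
      · exact Or.inl (hp.trans h.reachable)
      · exact Or.inr (Or.inl (hp.trans h.reachable))
      · rw [hp] at h; exact absurd h (D.iso1 q)
    · rcases h with h | h
      · rw [h]; exact Or.inl (SimpleGraph.Reachable.refl _)
      · rw [h]; exact Or.inr (Or.inl (SimpleGraph.Reachable.refl _))
    · exact Or.inr (Or.inr h)
    · exfalso
      rcases hp with hp | hp | hp
      · exact D.n2 (h ▸ D.clU (D.SU hy) hp)
      · exact D.n2 (h ▸ D.clU (D.SU hz) hp)
      · exact D.n12 (hp.symm.trans h)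
    · exfalso
      rcases hp with hp | hp | hp
      · rw [h] at hp; exact D.sep hy hx hxy.symm hp
      · rw [h] at hp; exact D.sep hz hx hxz.symm hp
      · exact D.n1 (hp ▸ h ▸ D.SU hx)
  have hcv : ∀ v ∈ U0, ¬ K0.Reachable x v → ¬ K0.Reachable y v → ¬ K0.Reachable z v →
      ∀ u, K.Reachable v u → K0.Reachable v u := by
    intro v hv hvx hvy hvz u hu
    refine reach_closed (K := K) (X := {u | K0.Reachable v u}) ?_
      (SimpleGraph.Reachable.refl _) hu
    intro p q hp hpq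
    rcases (hK p q).1 hpq with h | ⟨h, -⟩ | ⟨-, h⟩ | ⟨h, -⟩ | ⟨-, h⟩
    · exact SimpleGraph.Reachable.trans hp h.reachable
    · exact absurd (h ▸ D.clU hv hp) D.n1
    · exfalso
      rcases h with h | h
      · rw [h] at hp; exact hvy (SimpleGraph.Reachable.symm hp)
      · rw [h] at hp; exact hvz (SimpleGraph.Reachable.symm hp)
    · exact absurd (h ▸ D.clU hv hp) D.n2
    · rw [h] at hp
      exact absurd (SimpleGraph.Reachable.symm hp) hvx
  have hry : ∀ {u}, K0.Reachable y u → K.Reachable w1 u := fun h => hwy.reachable.trans (hle' h)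
  have hrz : ∀ {u}, K0.Reachable z u → K.Reachable w1 u := fun h => hwz.reachable.trans (hle' h)
  have hrx : ∀ {u}, K0.Reachable x u → K.Reachable w2 u := fun h => hwx.reachable.trans (hle' h)
  -- the classes of y and z are on the two sides of X
  have hyD : ∀ u, K0.Reachable y u → u ∈ X := by
    intro u hu
    refine reach_closed (K := K0) (X := {u | K0.Reachable y u ∧ u ∈ X}) ?_
      ⟨SimpleGraph.Reachable.refl _, hyX⟩ hu |>.2
    rintro p q ⟨hp, hpX⟩ hpq
    have hq : K0.Reachable y q := hp.trans hpq.reachable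
    refine ⟨hq, ?_⟩
    by_contra hqX
    refine hX p (D.clU (D.SU hy) hp) ?_ q (D.clU (D.SU hy) hq) ?_ hpX hqX (D.k0G hpq)
    · exact fun h => D.sep hx hy hxy (h.trans hp.symm)
    · exact fun h => D.sep hx hy hxy (h.trans hq.symm)
  have hzD : ∀ u, K0.Reachable z u → u ∉ X := by
    intro u hu
    refine reach_closed (K := K0) (X := {u | K0.Reachable z u ∧ u ∉ X}) ?_
      ⟨SimpleGraph.Reachable.refl _, hzX⟩ hu |>.2
    rintro p q ⟨hp, hpX⟩ hpq
    have hq : K0.Reachable z q := hp.trans hpq.reachable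
    refine ⟨hq, ?_⟩
    intro hqX
    refine hX q (D.clU (D.SU hz) hq) ?_ p (D.clU (D.SU hz) hp) ?_ hqX hpX (D.k0G hpq).symm
    · exact fun h => D.sep hx hz hxz (h.trans hq.symm)
    · exact fun h => D.sep hx hz hxz (h.trans hp.symm)
  refine ⟨D.two.con, ?_, ?_, ?_, ?_⟩
  · intro u v h
    rcases (hK u v).1 h with h | ⟨h1, h2 | h2⟩ | ⟨h1, h2 | h2⟩ | ⟨h1, h2⟩ | ⟨h1, h2⟩
    · exact ⟨D.k0G h, D.sub (D.c0.le u v h).2.1, D.sub (D.c0.le u v h).2.2⟩
    · rw [h1, h2]; exact ⟨D.rg _ _ (D.r1 y hy), D.m1, D.sub (D.SU hy)⟩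
    · rw [h1, h2]; exact ⟨D.rg _ _ (D.r1 z hz), D.m1, D.sub (D.SU hz)⟩
    · rw [h1, h2]; exact ⟨(D.rg _ _ (D.r1 y hy)).symm, D.sub (D.SU hy), D.m1⟩
    · rw [h1, h2]; exact ⟨(D.rg _ _ (D.r1 z hz)).symm, D.sub (D.SU hz), D.m1⟩
    · rw [h1, h2]; exact ⟨D.rg _ _ (D.r2 x hx), D.m2, D.sub (D.SU hx)⟩
    · rw [h1, h2]; exact ⟨(D.rg _ _ (D.r2 x hx)).symm, D.sub (D.SU hx), D.m2⟩
  · -- strict
    have hs1 : ∀ v ∈ S, K.Reachable w1 v → K.Adj w1 v := by
      intro v hv hr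
      rcases hcy v hr with h | h | h
      · have : y = v := by
          by_contra hne
          exact D.sep hy hv hne h
        rw [← this]; exact hwy
      · have : z = v := by
          by_contra hne
          exact D.sep hz hv hne h
        rw [← this]; exact hwz
      · exact absurd (h ▸ D.SU hv) D.n1
    have hs2 : ∀ v ∈ S, K.Reachable w2 v → K.Adj w2 v := by
      intro v hv hr
      rcases hcx v hr with h | h
      · have : x = v := by
          by_contra hne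
          exact D.sep hx hv hne h
        rw [← this]; exact hwx
      · exact absurd (h ▸ D.SU hv) D.n2
    have hyz' : ∀ u v, G.Adj u v → K0.Reachable y u → K0.Reachable z v → False := by
      intro u v huv hu hv
      refine hX u (D.clU (D.SU hy) hu) (fun h => D.sep hx hy hxy (h.trans hu.symm)) v
        (D.clU (D.SU hz) hv) (fun h => D.sep hx hz hxz (h.trans hv.symm)) (hyD u hu) (hzD v hv) huv
    have hr0 : ∀ u ∈ U0, ∀ v ∈ U0, G.Adj u v → K.Reachable u v → K0.Reachable u v := by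
      intro u hu v hv huv hr
      by_cases hxu : K0.Reachable x u
      · rcases hcx v ((hrx hxu).trans hr) with h | h
        · exact hxu.symm.trans h
        · exact absurd (h ▸ hv) D.n2
      by_cases hyu : K0.Reachable y u
      · rcases hcy v ((hry hyu).trans hr) with h | h | h
        · exact hyu.symm.trans h
        · exact (hyz' u v huv hyu h).elim
        · exact absurd (h ▸ hv) D.n1
      by_cases hzu : K0.Reachable z u
      · rcases hcy v ((hrz hzu).trans hr) with h | h | h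
        · exact (hyz' v u huv.symm h hzu).elim
        · exact hzu.symm.trans h
        · exact absurd (h ▸ hv) D.n1
      exact hcv u hu hxu hyu hzu v hr
    intro u hu v hv huv hr
    rcases (D.memU u).1 hu with hu0 | hu1 | hu1
    · rcases (D.memU v).1 hv with hv0 | hv1 | hv1
      · exact hle (D.c0.strict u hu0 v hv0 (Or.inl huv) (hr0 u hu0 v hv0 huv hr))
      · rw [hv1] at huv hr ⊢
        exact (hs1 u (D.nb1 u hu huv.symm) hr.symm).symm
      · rw [hv1] at huv hr ⊢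
        exact (hs2 u (D.nb2 u hu huv.symm) hr.symm).symm
    · rw [hu1] at huv hr ⊢
      exact hs1 v (D.nb1 v hv huv) hr
    · rw [hu1] at huv hr ⊢
      exact hs2 v (D.nb2 v hv huv) hr
  · -- con
    intro v hv
    by_cases hxv : K.Reachable w2 v
    · have e : {w | w ∈ U ∧ ¬ K.Reachable v w} =
          insert w1 {w | w ∈ U0 ∧ ¬ K0.Reachable x w} := by
        ext u
        constructor
        · rintro ⟨h1, h2⟩
          rcases (D.memU u).1 h1 with hu | hu | hu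
          · exact Or.inr ⟨hu, fun h => h2 (hxv.symm.trans (hrx h))⟩
          · exact Or.inl hu
          · rw [hu] at h2; exact absurd hxv.symm h2
        · rintro (rfl | ⟨h1, h2⟩)
          · refine ⟨D.m1, fun h => ?_⟩
            rcases hcx _ (hxv.trans h) with h' | h'
            · exact D.n1 (D.clU (D.SU hx) h')
            · exact D.n12 h'
          · refine ⟨D.sub h1, fun h => ?_⟩
            rcases hcx _ (hxv.trans h) with h' | h'
            · exact h2 h'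
            · exact D.n2 (h' ▸ h1)
      rw [e]
      exact clw_T (D.c0.con x (D.SU hx)) ⟨y, ⟨D.SU hy, D.sep hx hy hxy⟩, hy⟩
        (fun t ht => D.rg _ _ (D.r1 t ht))
    by_cases hyv : K.Reachable w1 v
    · have e : {w | w ∈ U ∧ ¬ K.Reachable v w} =
          insert w2 {w | w ∈ U0 ∧ ¬ K0.Reachable y w ∧ ¬ K0.Reachable z w} := by
        ext u
        constructor
        · rintro ⟨h1, h2⟩
          rcases (D.memU u).1 h1 with hu | hu | hu
          · exact Or.inr ⟨hu, fun h => h2 (hyv.symm.trans (hry h)),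
              fun h => h2 (hyv.symm.trans (hrz h))⟩
          · rw [hu] at h2; exact absurd hyv.symm h2
          · exact Or.inl hu
        · rintro (rfl | ⟨h1, h2, h3⟩)
          · exact ⟨D.m2, fun h => hxv h.symm⟩
          · refine ⟨D.sub h1, fun h => ?_⟩
            rcases hcy _ (hyv.trans h) with h' | h' | h'
            · exact h2 h'
            · exact h3 h'
            · exact D.n1 (h' ▸ h1)
      rw [e]
      set M := insert w2 {w | w ∈ U0 ∧ ¬ K0.Reachable y w ∧ ¬ K0.Reachable z w} with hM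
      have hxM : x ∈ M := Or.inr ⟨D.SU hx, D.sep hy hx hxy.symm, D.sep hz hx hxz.symm⟩
      refine clw_con hxM ?_
      intro Y hxY hY
      -- the class of x
      have h1 : ∀ u, K0.Reachable x u → u ∈ M := fun u hu =>
        Or.inr ⟨D.clU (D.SU hx) hu, fun h => D.sep hy hx hxy.symm (h.trans hu.symm),
          fun h => D.sep hz hx hxz.symm (h.trans hu.symm)⟩
      have h2 : ∀ u, K0.Reachable x u → u ∈ Y := by
        have := (D.cl x).all_mem (X := Y) (SimpleGraph.Reachable.refl _) hxY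
          (fun a ha haY b hb hab => hY a (h1 a ha) haY b (h1 b hb) hab)
        exact fun u hu => this hu
      have h3 : w2 ∈ Y := hY x hxM hxY w2 (Or.inl rfl) (D.rg _ _ (D.r2 x hx)).symm
      -- the rest
      have hnS : ∀ p ∈ U0, ¬ K0.Reachable x p → ¬ K0.Reachable y p → ¬ K0.Reachable z p →
          p ∉ S := by
        intro p _ hp1 hp2 hp3 hpS
        rw [hS] at hpS
        rcases hpS with rfl | rfl | rfl
        · exact hp1 (SimpleGraph.Reachable.refl _)
        · exact hp2 (SimpleGraph.Reachable.refl _)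
        · exact hp3 (SimpleGraph.Reachable.refl _)
      have hyside : ∀ p ∈ U0, ¬ K0.Reachable x p → ¬ K0.Reachable y p → p ∈ X → p ∈ Y := by
        intro p hp0 hp1 hp2 hpX
        by_contra hpY
        obtain ⟨q, ⟨⟨hq0, hq2⟩, hq1, hqX, hqY⟩, r, ⟨⟨hr0, hr2⟩, hr⟩, hqr⟩ :=
          D.c0.con y (D.SU hy) {w | ¬ K0.Reachable x w ∧ w ∈ X ∧ w ∉ Y}
            ⟨p, ⟨hp0, hp2⟩, hp1, hpX, hpY⟩
            ⟨x, ⟨D.SU hx, D.sep hy hx hxy.symm⟩, fun h => h.1 (SimpleGraph.Reachable.refl _)⟩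
        have hqz : ¬ K0.Reachable z q := fun h => hzD q h hqX
        have hqM : q ∈ M := Or.inr ⟨hq0, hq2, hqz⟩
        rcases hqr with hqr | hqr
        · by_cases hrx' : K0.Reachable x r
          · exact hqY (hY r (h1 r hrx') (h2 r hrx') q hqM hqr.symm)
          by_cases hrX : r ∈ X
          · have hrY : r ∈ Y := by
              by_contra hrY
              exact hr ⟨hrx', hrX, hrY⟩
            have hrz' : ¬ K0.Reachable z r := fun h => hzD r h hrX
            exact hqY (hY r (Or.inr ⟨hr0, hr2, hrz'⟩) hrY q hqM hqr.symm)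
          · exact hX q hq0 hq1 r hr0 hrx' hqX hrX hqr
        · exact hnS q hq0 hq1 hq2 hqz hqr.2.1
      have hzside : ∀ p ∈ U0, ¬ K0.Reachable x p → ¬ K0.Reachable z p → p ∉ X → p ∈ Y := by
        intro p hp0 hp1 hp2 hpX
        by_contra hpY
        obtain ⟨q, ⟨⟨hq0, hq2⟩, hq1, hqX, hqY⟩, r, ⟨⟨hr0, hr2⟩, hr⟩, hqr⟩ :=
          D.c0.con z (D.SU hz) {w | ¬ K0.Reachable x w ∧ w ∉ X ∧ w ∉ Y}
            ⟨p, ⟨hp0, hp2⟩, hp1, hpX, hpY⟩
            ⟨x, ⟨D.SU hx, D.sep hz hx hxz.symm⟩, fun h => h.1 (SimpleGraph.Reachable.refl _)⟩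
        have hqz : ¬ K0.Reachable y q := fun h => hqX (hyD q h)
        have hqM : q ∈ M := Or.inr ⟨hq0, hqz, hq2⟩
        rcases hqr with hqr | hqr
        · by_cases hrx' : K0.Reachable x r
          · exact hqY (hY r (h1 r hrx') (h2 r hrx') q hqM hqr.symm)
          by_cases hrX : r ∈ X
          · exact hX r hr0 hrx' q hq0 hq1 hrX hqX hqr.symm
          · have hrY : r ∈ Y := by
              by_contra hrY
              exact hr ⟨hrx', hrX, hrY⟩
            have hrz' : ¬ K0.Reachable y r := fun h => hrX (hyD r h)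
            exact hqY (hY r (Or.inr ⟨hr0, hrz', hr2⟩) hrY q hqM hqr.symm)
        · exact hnS q hq0 hq1 hqz hq2 hqr.2.1
      rintro p (rfl | ⟨hp0, hp1, hp2⟩)
      · exact h3
      · by_cases hpx : K0.Reachable x p
        · exact h2 p hpx
        by_cases hpX : p ∈ X
        · exact hyside p hp0 hpx hp1 hpX
        · exact hzside p hp0 hpx hp2 hpX
    · have hv0 : v ∈ U0 := by
        rcases (D.memU v).1 hv with h | h | h
        · exact h
        · rw [h] at hyv; exact absurd (SimpleGraph.Reachable.refl _) hyv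
        · rw [h] at hxv; exact absurd (SimpleGraph.Reachable.refl _) hxv
      have hxv0 : ¬ K0.Reachable x v := fun h => hxv (hrx h)
      have hyv0 : ¬ K0.Reachable y v := fun h => hyv (hry h)
      have hzv0 : ¬ K0.Reachable z v := fun h => hyv (hrz h)
      have e : {w | w ∈ U ∧ ¬ K.Reachable v w} =
          insert w2 (insert w1 {w | w ∈ U0 ∧ ¬ K0.Reachable v w}) := by
        ext u
        constructor
        · rintro ⟨h1, h2⟩
          rcases (D.memU u).1 h1 with hu | hu | hu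
          · exact Or.inr (Or.inr ⟨hu, fun h => h2 (hle' h)⟩)
          · exact Or.inr (Or.inl hu)
          · exact Or.inl hu
        · rintro (rfl | rfl | ⟨h1, h2⟩)
          · exact ⟨D.m2, fun h => hxv h.symm⟩
          · exact ⟨D.m1, fun h => hyv h.symm⟩
          · exact ⟨D.sub h1, fun h => h2 (hcv v hv0 hxv0 hyv0 hzv0 _ h)⟩
      rw [e]
      exact D.both (D.c0.con v hv0) ⟨D.SU hx, fun h => hxv0 h.symm⟩ hx
  · intro v _
    by_cases hxv : K.Reachable w2 v
    · refine ⟨y, D.sub (D.SU hy), fun h => ?_⟩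
      rcases hcx y (hxv.trans h) with h' | h'
      · exact D.sep hx hy hxy h'
      · exact D.n2 (h' ▸ D.SU hy)
    · exact ⟨w2, D.m2, fun h => hxv h.symm⟩

end

section

variable {R F : SimpleGraph V} {U U0 S A0 : Set V} {w1 w2 x y z : V}

/-- `S` is on one side. -/
theorem clw_sg0 (D : ClwD (R ⊔ F) R U U0 S w1 w2 (cross R U0 A0))
    (h0 : GC ((R ⊔ F) ⊔ tri S) U0 A0 (cross R U0 A0)) (hx : x ∈ S) (hy : y ∈ S) (hxy : x ≠ y)
    (hSA : ∀ s ∈ S, s ∉ A0) : SG R F U (A0 ∩ U0) := by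
  have hK : cross R U (A0 ∩ U0) = cross R U0 A0 := by
    ext u v
    constructor
    · rintro ⟨h1, h2, h3, h4⟩
      have hG : (R ⊔ F).Adj u v := Or.inl h1
      have hkey : ∀ p q, (R ⊔ F).Adj p q → q ∈ U → (p = w1 ∨ p = w2) →
          p ∉ A0 ∩ U0 ∧ q ∉ A0 ∩ U0 := by
        rintro p q hpq hq (rfl | rfl)
        · exact ⟨fun h => D.n1 h.2, fun h => hSA q (D.nb1 q hq hpq) h.1⟩
        · exact ⟨fun h => D.n2 h.2, fun h => hSA q (D.nb2 q hq hpq) h.1⟩
      have hu0 : u ∈ U0 := by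
        rcases (D.memU u).1 h2 with h | h
        · exact h
        · obtain ⟨h5, h6⟩ := hkey u v hG h3 h
          exact absurd (iff_of_false h5 h6) h4
      have hv0 : v ∈ U0 := by
        rcases (D.memU v).1 h3 with h | h
        · exact h
        · obtain ⟨h5, h6⟩ := hkey v u hG.symm h2 h
          exact absurd (iff_of_false h6 h5) h4
      refine ⟨h1, hu0, hv0, ?_⟩
      simpa [hu0, hv0] using h4
    · rintro ⟨h1, h2, h3, h4⟩
      refine ⟨h1, D.sub h2, D.sub h3, ?_⟩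
      simpa [h2, h3] using h4
  have e1 : U ∩ (A0 ∩ U0) = U0 ∩ A0 := by
    ext u
    constructor
    · rintro ⟨-, h1, h2⟩; exact ⟨h2, h1⟩
    · rintro ⟨h1, h2⟩; exact ⟨D.sub h1, h2, h1⟩
  have e2 : U \ (A0 ∩ U0) = insert w2 (insert w1 (U0 \ A0)) := by
    ext u
    constructor
    · rintro ⟨h1, h2⟩
      rcases (D.memU u).1 h1 with h | h | h
      · exact Or.inr (Or.inr ⟨h, fun h' => h2 ⟨h', h⟩⟩)
      · exact Or.inr (Or.inl h)
      · exact Or.inl h
    · rintro (rfl | rfl | ⟨h1, h2⟩)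
      · exact ⟨D.m2, fun h => D.n2 h.2⟩
      · exact ⟨D.m1, fun h => D.n1 h.2⟩
      · exact ⟨D.sub h1, fun h => h2 h.1⟩
  unfold SG
  rw [hK]
  refine ⟨?_, ?_, ?_, ?_, D.case0 hx hy hxy⟩
  · rw [e1]; exact h0.ne
  · rw [e2]; exact ⟨w2, Or.inl rfl⟩
  · rw [e1]
    refine h0.left.mono ?_
    rintro u hu v hv (h | h)
    · exact h
    · exact absurd hu.2 (hSA u h.2.1)
  · rw [e2]
    exact D.both h0.right ⟨D.SU hx, hSA x hx⟩ hx

/-- `x` is separated from `y` and `z`. -/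
theorem clw_sg1 (D : ClwD (R ⊔ F) R U U0 S w1 w2 (cross R U0 A0))
    (h0 : GC ((R ⊔ F) ⊔ tri S) U0 A0 (cross R U0 A0)) (hS : S = {x, y, z}) (hxy : x ≠ y)
    (hxz : x ≠ z) (hyz : y ≠ z) (hxA : x ∈ A0) (hyA : y ∉ A0) (hzA : z ∉ A0) :
    SG R F U (A0 ∩ U0) ∨ SG R F U (insert w1 (A0 ∩ U0)) := by
  have hx : x ∈ S := by rw [hS]; exact Or.inl rfl
  have hy : y ∈ S := by rw [hS]; exact Or.inr (Or.inl rfl)
  have hz : z ∈ S := by rw [hS]; exact Or.inr (Or.inr rfl)
  have hS' : ∀ s, s ∈ S → s = x ∨ s = y ∨ s = z := by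
    intro s hs
    rw [hS] at hs
    exact hs
  have hx0 := D.SU hx
  have hy0 := D.SU hy
  have hz0 := D.SU hz
  have hleft : Con (R ⊔ F) (U0 ∩ A0) := by
    refine h0.left.mono ?_
    rintro u hu v hv (h | h)
    · exact h
    · exfalso
      have hux : u = x := by
        rcases hS' u h.2.1 with h' | h' | h'
        · exact h'
        · exact absurd (h' ▸ hu.2) hyA
        · exact absurd (h' ▸ hu.2) hzA
      have hvx : v = x := by
        rcases hS' v h.2.2 with h' | h' | h'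
        · exact h'
        · exact absurd (h' ▸ hv.2) hyA
        · exact absurd (h' ▸ hv.2) hzA
      exact h.1 (hux.trans hvx.symm)
  by_cases hW : Con (R ⊔ F) {w | w ∈ U0 ∧ ¬ (cross R U0 A0).Reachable x w}
  · left
    have hK : ∀ u v, (cross R U (A0 ∩ U0)).Adj u v ↔ (cross R U0 A0).Adj u v ∨
        ((u = w1 ∨ u = w2) ∧ v = x) ∨ ((v = w1 ∨ v = w2) ∧ u = x) := by
      have hkey : ∀ p q, (R ⊔ F).Adj p q → q ∈ U → (p = w1 ∨ p = w2) →
          ¬ (p ∈ A0 ∩ U0 ↔ q ∈ A0 ∩ U0) → q = x := by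
        intro p q hpq hq hp hne
        have hqS : q ∈ S := by
          rcases hp with rfl | rfl
          · exact D.nb1 q hq hpq
          · exact D.nb2 q hq hpq
        have hpA : p ∉ A0 ∩ U0 := by
          rcases hp with rfl | rfl
          · exact fun h => D.n1 h.2
          · exact fun h => D.n2 h.2
        rcases hS' q hqS with h | h | h
        · exact h
        · exact absurd (iff_of_false hpA (fun h' => hyA (h ▸ h'.1))) hne
        · exact absurd (iff_of_false hpA (fun h' => hzA (h ▸ h'.1))) hne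
      intro u v
      constructor
      · rintro ⟨h1, h2, h3, h4⟩
        have hG : (R ⊔ F).Adj u v := Or.inl h1
        rcases (D.memU u).1 h2 with hu | hu
        · rcases (D.memU v).1 h3 with hv | hv
          · refine Or.inl ⟨h1, hu, hv, ?_⟩
            simpa [hu, hv] using h4
          · exact Or.inr (Or.inr ⟨hv, hkey v u hG.symm h2 hv (fun h => h4 h.symm)⟩)
        · exact Or.inr (Or.inl ⟨hu, hkey u v hG h3 hu h4⟩)
      · rintro (⟨h1, h2, h3, h4⟩ | ⟨h, rfl⟩ | ⟨h, rfl⟩)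
        · refine ⟨h1, D.sub h2, D.sub h3, ?_⟩
          simpa [h2, h3] using h4
        · rcases h with rfl | rfl
          · exact ⟨D.r1 _ hx, D.m1, D.sub hx0, fun h => D.n1 (h.2 ⟨hxA, hx0⟩).2⟩
          · exact ⟨D.r2 _ hx, D.m2, D.sub hx0, fun h => D.n2 (h.2 ⟨hxA, hx0⟩).2⟩
        · rcases h with rfl | rfl
          · exact ⟨(D.r1 _ hx).symm, D.sub hx0, D.m1, fun h => D.n1 (h.1 ⟨hxA, hx0⟩).2⟩
          · exact ⟨(D.r2 _ hx).symm, D.sub hx0, D.m2, fun h => D.n2 (h.1 ⟨hxA, hx0⟩).2⟩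
    have e1 : U ∩ (A0 ∩ U0) = U0 ∩ A0 := by
      ext u
      constructor
      · rintro ⟨-, h1, h2⟩; exact ⟨h2, h1⟩
      · rintro ⟨h1, h2⟩; exact ⟨D.sub h1, h2, h1⟩
    have e2 : U \ (A0 ∩ U0) = insert w2 (insert w1 (U0 \ A0)) := by
      ext u
      constructor
      · rintro ⟨h1, h2⟩
        rcases (D.memU u).1 h1 with h | h | h
        · exact Or.inr (Or.inr ⟨h, fun h' => h2 ⟨h', h⟩⟩)
        · exact Or.inr (Or.inl h)
        · exact Or.inl h
      · rintro (rfl | rfl | ⟨h1, h2⟩)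
        · exact ⟨D.m2, fun h => D.n2 h.2⟩
        · exact ⟨D.m1, fun h => D.n1 h.2⟩
        · exact ⟨D.sub h1, fun h => h2 h.1⟩
    refine ⟨?_, ?_, ?_, ?_, D.case1 hx hy hxy hK hW⟩
    · rw [e1]; exact h0.ne
    · rw [e2]; exact ⟨w2, Or.inl rfl⟩
    · rw [e1]; exact hleft
    · rw [e2]
      exact D.both h0.right ⟨hy0, hyA⟩ hy
  · right
    have hK : ∀ u v, (cross R U (insert w1 (A0 ∩ U0))).Adj u v ↔ (cross R U0 A0).Adj u v ∨
        (u = w1 ∧ (v = y ∨ v = z)) ∨ (v = w1 ∧ (u = y ∨ u = z)) ∨ (u = w2 ∧ v = x) ∨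
          (v = w2 ∧ u = x) := by
      have hmem : ∀ p ∈ U0, (p ∈ insert w1 (A0 ∩ U0) ↔ p ∈ A0) := by
        intro p hp
        constructor
        · rintro (rfl | h)
          · exact absurd hp D.n1
          · exact h.1
        · exact fun h => Or.inr ⟨h, hp⟩
      have hw1A : w1 ∈ insert w1 (A0 ∩ U0) := Or.inl rfl
      have hw2A : w2 ∉ insert w1 (A0 ∩ U0) := by
        rintro (h | h)
        · exact D.n12 h.symm
        · exact D.n2 h.2
      have hxm := (hmem x hx0).2 hxA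
      have hym : y ∉ insert w1 (A0 ∩ U0) := fun h => hyA ((hmem y hy0).1 h)
      have hzm : z ∉ insert w1 (A0 ∩ U0) := fun h => hzA ((hmem z hz0).1 h)
      have hkey1 : ∀ q, (R ⊔ F).Adj w1 q → q ∈ U →
          ¬ (w1 ∈ insert w1 (A0 ∩ U0) ↔ q ∈ insert w1 (A0 ∩ U0)) → q = y ∨ q = z := by
        intro q hq hqU hne
        rcases hS' q (D.nb1 q hqU hq) with h | h
        · rw [h] at hne
          exact absurd (iff_of_true hw1A hxm) hne
        · exact h
      have hkey2 : ∀ q, (R ⊔ F).Adj w2 q → q ∈ U →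
          ¬ (w2 ∈ insert w1 (A0 ∩ U0) ↔ q ∈ insert w1 (A0 ∩ U0)) → q = x := by
        intro q hq hqU hne
        rcases hS' q (D.nb2 q hqU hq) with h | h | h
        · exact h
        · rw [h] at hne
          exact absurd (iff_of_false hw2A hym) hne
        · rw [h] at hne
          exact absurd (iff_of_false hw2A hzm) hne
      intro u v
      constructor
      · rintro ⟨h1, h2, h3, h4⟩
        have hG : (R ⊔ F).Adj u v := Or.inl h1
        rcases (D.memU u).1 h2 with hu | hu | hu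
        · rcases (D.memU v).1 h3 with hv | hv | hv
          · refine Or.inl ⟨h1, hu, hv, ?_⟩
            rwa [hmem u hu, hmem v hv] at h4
          · rw [hv] at hG h4
            exact Or.inr (Or.inr (Or.inl ⟨hv, hkey1 u hG.symm h2 (fun h => h4 h.symm)⟩))
          · rw [hv] at hG h4
            exact Or.inr (Or.inr (Or.inr (Or.inr ⟨hv, hkey2 u hG.symm h2 (fun h => h4 h.symm)⟩)))
        · rw [hu] at hG h4
          exact Or.inr (Or.inl ⟨hu, hkey1 v hG h3 h4⟩)
        · rw [hu] at hG h4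
          exact Or.inr (Or.inr (Or.inr (Or.inl ⟨hu, hkey2 v hG h3 h4⟩)))
      · rintro (⟨h1, h2, h3, h4⟩ | ⟨h, h' | h'⟩ | ⟨h, h' | h'⟩ | ⟨h, h'⟩ | ⟨h, h'⟩)
        · refine ⟨h1, D.sub h2, D.sub h3, ?_⟩
          rwa [hmem u h2, hmem v h3]
        · rw [h, h']
          exact ⟨D.r1 _ hy, D.m1, D.sub hy0, fun h => hym (h.1 hw1A)⟩
        · rw [h, h']
          exact ⟨D.r1 _ hz, D.m1, D.sub hz0, fun h => hzm (h.1 hw1A)⟩
        · rw [h, h']
          exact ⟨(D.r1 _ hy).symm, D.sub hy0, D.m1, fun h => hym (h.2 hw1A)⟩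
        · rw [h, h']
          exact ⟨(D.r1 _ hz).symm, D.sub hz0, D.m1, fun h => hzm (h.2 hw1A)⟩
        · rw [h, h']
          exact ⟨D.r2 _ hx, D.m2, D.sub hx0, fun h => hw2A (h.2 hxm)⟩
        · rw [h, h']
          exact ⟨(D.r2 _ hx).symm, D.sub hx0, D.m2, fun h => hw2A (h.1 hxm)⟩
    have hctr : Ctr (R ⊔ F) U (cross R U (insert w1 (A0 ∩ U0))) := by
      have hW' : ∃ X : Set V, ({w | w ∈ U0 ∧ ¬ (cross R U0 A0).Reachable x w} ∩ X).Nonempty ∧
          ({w | w ∈ U0 ∧ ¬ (cross R U0 A0).Reachable x w} \ X).Nonempty ∧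
          ∀ a ∈ {w | w ∈ U0 ∧ ¬ (cross R U0 A0).Reachable x w} ∩ X,
            ∀ b ∈ {w | w ∈ U0 ∧ ¬ (cross R U0 A0).Reachable x w} \ X, ¬ (R ⊔ F).Adj a b := by
        unfold Con at hW
        push Not at hW
        exact hW
      obtain ⟨X, hX1, hX2, hX3⟩ := hW'
      obtain ⟨p, hp, q, hq, hpq⟩ := D.c0.con x hx0 X hX1 hX2
      rcases hpq with hpq | hpq
      · exact absurd hpq (hX3 p hp q hq)
      have hpx : p ≠ x := by
        rintro rfl
        exact hp.1.2 (SimpleGraph.Reachable.refl _)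
      have hqx : q ≠ x := by
        rintro rfl
        exact hq.1.2 (SimpleGraph.Reachable.refl _)
      rcases hS' p hpq.2.1 with h | h | h
      · exact absurd h hpx
      · rcases hS' q hpq.2.2 with h' | h' | h'
        · exact absurd h' hqx
        · exact absurd (h.trans h'.symm) hpq.1
        · refine D.case2 hS hxy hxz hyz hK (X := X) (h ▸ hp.2) (h' ▸ hq.2) ?_
          intro u hu hu' v hv hv' huX hvX
          exact hX3 u ⟨⟨hu, hu'⟩, huX⟩ v ⟨⟨hv, hv'⟩, hvX⟩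
      · rcases hS' q hpq.2.2 with h' | h' | h'
        · exact absurd h' hqx
        · refine D.case2 hS hxy hxz hyz hK (X := Xᶜ) (h' ▸ hq.2) (fun h'' => h'' (h ▸ hp.2)) ?_
          intro u hu hu' v hv hv' huX hvX huv
          have hvX' : v ∈ X := by
            by_contra h''
            exact hvX h''
          exact hX3 v ⟨⟨hv, hv'⟩, hvX'⟩ u ⟨⟨hu, hu'⟩, huX⟩ huv.symm
        · exact absurd (h.trans h'.symm) hpq.1
    have e1 : U ∩ insert w1 (A0 ∩ U0) = insert w1 (U0 ∩ A0) := by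
      ext u
      constructor
      · rintro ⟨-, h1 | ⟨h1, h2⟩⟩
        · exact Or.inl h1
        · exact Or.inr ⟨h2, h1⟩
      · rintro (rfl | ⟨h1, h2⟩)
        · exact ⟨D.m1, Or.inl rfl⟩
        · exact ⟨D.sub h1, Or.inr ⟨h2, h1⟩⟩
    have e2 : U \ insert w1 (A0 ∩ U0) = insert w2 (U0 \ A0) := by
      ext u
      constructor
      · rintro ⟨h1, h2⟩
        rcases (D.memU u).1 h1 with h | h | h
        · exact Or.inr ⟨h, fun h' => h2 (Or.inr ⟨h', h⟩)⟩
        · exact absurd (Or.inl h) h2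
        · exact Or.inl h
      · rintro (rfl | ⟨h1, h2⟩)
        · refine ⟨D.m2, ?_⟩
          rintro (h | h)
          · exact D.n12 h.symm
          · exact D.n2 h.2
        · refine ⟨D.sub h1, ?_⟩
          rintro (rfl | h)
          · exact D.n1 h1
          · exact h2 h.1
    refine ⟨?_, ?_, ?_, ?_, hctr⟩
    · rw [e1]; exact ⟨w1, Or.inl rfl⟩
    · rw [e2]; exact ⟨w2, Or.inl rfl⟩
    · rw [e1]
      exact hleft.insert_adj ⟨hx0, hxA⟩ (D.rg _ _ (D.r1 x hx))
    · rw [e2]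
      exact clw_T h0.right ⟨y, ⟨hy0, hyA⟩, hy⟩ (fun t ht => D.rg _ _ (D.r2 t ht))

/-- The cut of the core is extended to the claws. -/
theorem clw_ext (D : ClwD (R ⊔ F) R U U0 S w1 w2 (cross R U0 A0))
    (h0 : GC ((R ⊔ F) ⊔ tri S) U0 A0 (cross R U0 A0)) (hS : S = {x, y, z}) (hxy : x ≠ y)
    (hxz : x ≠ z) (hyz : y ≠ z)
    (hA : (x ∉ A0 ∧ y ∉ A0 ∧ z ∉ A0) ∨ (x ∈ A0 ∧ y ∉ A0 ∧ z ∉ A0) ∨
      (x ∉ A0 ∧ y ∈ A0 ∧ z ∉ A0) ∨ (x ∉ A0 ∧ y ∉ A0 ∧ z ∈ A0)) :
    ∃ A, SG R F U A ∧ ∀ u ∈ U0, (u ∈ A ↔ u ∈ A0) := by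
  have hm1 : ∀ u ∈ U0, (u ∈ A0 ∩ U0 ↔ u ∈ A0) := fun u hu =>
    ⟨fun h => h.1, fun h => ⟨h, hu⟩⟩
  have hm2 : ∀ u ∈ U0, (u ∈ insert w1 (A0 ∩ U0) ↔ u ∈ A0) := by
    intro u hu
    constructor
    · rintro (rfl | h)
      · exact absurd hu D.n1
      · exact h.1
    · exact fun h => Or.inr ⟨h, hu⟩
  have hdo : (SG R F U (A0 ∩ U0) ∨ SG R F U (insert w1 (A0 ∩ U0))) →
      ∃ A, SG R F U A ∧ ∀ u ∈ U0, (u ∈ A ↔ u ∈ A0) := by
    rintro (h | h)
    · exact ⟨_, h, hm1⟩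
    · exact ⟨_, h, hm2⟩
  rcases hA with ⟨h1, h2, h3⟩ | ⟨h1, h2, h3⟩ | ⟨h1, h2, h3⟩ | ⟨h1, h2, h3⟩
  · refine ⟨_, clw_sg0 D h0 (x := x) (y := y) (by rw [hS]; exact Or.inl rfl)
      (by rw [hS]; exact Or.inr (Or.inl rfl)) hxy ?_, hm1⟩
    intro s hs
    rw [hS] at hs
    rcases hs with rfl | rfl | rfl
    · exact h1
    · exact h2
    · exact h3
  · exact hdo (clw_sg1 D h0 hS hxy hxz hyz h1 h2 h3)
  · have hS2 : S = {y, x, z} := by
      rw [hS]; ext u; simp only [Set.mem_insert_iff, Set.mem_singleton_iff]; tauto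
    exact hdo (clw_sg1 D h0 hS2 hxy.symm hyz hxz h2 h1 h3)
  · have hS2 : S = {z, x, y} := by
      rw [hS]; ext u; simp only [Set.mem_insert_iff, Set.mem_singleton_iff]; tauto
    exact hdo (clw_sg1 D h0 hS2 hxz.symm hyz.symm hxy h3 h1 h2)

end

theorem claw_step [Finite V] {R F : SimpleGraph V} {U S C0 : Set V} {w1 w2 : V} (ih : IH U)
    (hcls : Cls R F U) (h3 : Three (R ⊔ F) U) (h : IsHub (R ⊔ F) U S C0 {w1} {w2})
    (hU : U = S ∪ C0 ∪ {w1} ∪ {w2})
    (hind : ∀ s ∈ S, ∀ t ∈ S, ¬ (R ⊔ F).Adj s t) (hw1 : ∀ s ∈ S, R.Adj w1 s)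
    (hw2 : ∀ s ∈ S, R.Adj w2 s) {a b : V} (ha : a ∈ C0 ∪ S) (hb : b ∈ C0 ∪ S)
    (hab : R.Adj a b) : ∃ A, SG R F U A ∧ (a ∈ A ↔ b ∈ A) := by
  classical
  obtain ⟨x, y, z, hxy, hxz, hyz, hS⟩ := Set.ncard_eq_three.mp h.card
  have hw1U : w1 ∈ U \ S := h.c1.sub (Set.mem_singleton w1)
  have hw2U : w2 ∈ U \ S := h.c2.sub (Set.mem_singleton w2)
  have hn1 : w1 ∉ C0 ∪ S := by
    rintro (h1 | h1)
    · exact Set.disjoint_left.mp h.d01 h1 (Set.mem_singleton w1)
    · exact hw1U.2 h1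
  have hn2 : w2 ∉ C0 ∪ S := by
    rintro (h1 | h1)
    · exact Set.disjoint_left.mp h.d02 h1 (Set.mem_singleton w2)
    · exact hw2U.2 h1
  have hn12 : w1 ≠ w2 := fun e =>
    Set.disjoint_left.mp h.d12 (Set.mem_singleton w1) (Set.mem_singleton_iff.mpr e)
  have hmem : ∀ u, u ∈ U ↔ u ∈ C0 ∪ S ∨ u = w1 ∨ u = w2 := by
    intro u
    rw [hU]
    simp only [Set.mem_union, Set.mem_singleton_iff]
    tauto
  have hU0U : C0 ∪ S ⊆ U := fun u hu => (hmem u).2 (Or.inl hu)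
  -- the core
  have hsup : R ⊔ (F ⊔ tri S) = (R ⊔ F) ⊔ tri S := (sup_assoc R F (tri S)).symm
  have hcls0 : Cls R (F ⊔ tri S) (C0 ∪ S) := by
    refine ⟨?_, ?_, ?_, ?_⟩
    · rw [hsup]; exact hub_core_two h3 h
    · intro p hp q hq r hr
      exact hcls.tri p (hU0U hp) q (hU0U hq) r (hU0U hr)
    · rintro p q hpq (h1 | h1)
      · exact hcls.disj p q hpq h1
      · exact hind p h1.2.1 q h1.2.2 (Or.inl hpq)
    · rw [hsup]; exact hub_core_noK5 h3 hcls.k5 h
  have hcard : (C0 ∪ S).ncard < U.ncard := by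
    apply Set.ncard_lt_ncard _ (Set.toFinite U)
    refine ⟨hU0U, fun h' => hn1 (h' hw1U.1)⟩
  obtain ⟨A0, hA0, hab0⟩ := ih R (F ⊔ tri S) (C0 ∪ S) hcard hcls0 a ha b hb hab
  -- the data
  have hD : ∀ A0 : Set V, GC ((R ⊔ F) ⊔ tri S) (C0 ∪ S) A0 (cross R (C0 ∪ S) A0) →
      ClwD (R ⊔ F) R U (C0 ∪ S) S w1 w2 (cross R (C0 ∪ S) A0) := by
    intro A0 hA0
    refine ⟨hmem, hn1, hn2, hn12, Set.subset_union_right, ?_, ?_, hw1, hw2,
      fun u v huv => Or.inl huv, hind, h3.two, hA0.ctr, fun u v huv => huv.1⟩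
    · intro v hv hadj
      by_contra hvS
      have := h.c1.closed w1 (Set.mem_singleton w1) v ⟨hv, hvS⟩ hadj
      exact hadj.ne (Set.mem_singleton_iff.mp this).symm
    · intro v hv hadj
      by_contra hvS
      have := h.c2.closed w2 (Set.mem_singleton w2) v ⟨hv, hvS⟩ hadj
      exact hadj.ne (Set.mem_singleton_iff.mp this).symm
  have hG0 : GC ((R ⊔ F) ⊔ tri S) (C0 ∪ S) A0 (cross R (C0 ∪ S) A0) := by
    rw [← hsup]; exact hA0
  have hG1 : GC ((R ⊔ F) ⊔ tri S) (C0 ∪ S) A0ᶜ (cross R (C0 ∪ S) A0ᶜ) := by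
    rw [← hsup]; exact hA0.compl
  by_cases hA : (x ∉ A0 ∧ y ∉ A0 ∧ z ∉ A0) ∨ (x ∈ A0 ∧ y ∉ A0 ∧ z ∉ A0) ∨
      (x ∉ A0 ∧ y ∈ A0 ∧ z ∉ A0) ∨ (x ∉ A0 ∧ y ∉ A0 ∧ z ∈ A0)
  · obtain ⟨A, h1, h2⟩ := clw_ext (hD A0 hG0) hG0 hS hxy hxz hyz hA
    exact ⟨A, h1, by rw [h2 a ha, h2 b hb]; exact hab0⟩
  · have hA' : (x ∉ A0ᶜ ∧ y ∉ A0ᶜ ∧ z ∉ A0ᶜ) ∨ (x ∈ A0ᶜ ∧ y ∉ A0ᶜ ∧ z ∉ A0ᶜ) ∨
        (x ∉ A0ᶜ ∧ y ∈ A0ᶜ ∧ z ∉ A0ᶜ) ∨ (x ∉ A0ᶜ ∧ y ∉ A0ᶜ ∧ z ∈ A0ᶜ) := by
      simp only [Set.mem_compl_iff, not_not]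
      tauto
    obtain ⟨A, h1, h2⟩ := clw_ext (hD A0ᶜ hG1) hG1 hS hxy hxz hyz hA'
    refine ⟨A, h1, ?_⟩
    rw [h2 a ha, h2 b hb]
    simp only [Set.mem_compl_iff]
    tauto

end BND
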