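import Pool.Agent.BND.Prim
import Pool.Agent.BND.Cnx
import Pool.Agent.BND.Glu

set_option autoImplicit false

namespace BND

variable {V : Type}

/-! ### Module INN (file Inn.lean; uses CNX GLU): inner cuts -/

section

variable {G R F : SimpleGraph V} {U S C : Set V} {x y z : V}

theorem inn_mem (hS : S ⊆ U) (hC : IsComp G U S C) {c d : V} (hc : c ∈ C) (hd : d ∈ U)
    (h : G.Adj c d) : d ∈ C ∪ S := by
  by_cases hdS : d ∈ S
  · exact Or.inr hdS
  · exact Or.inl (hC.closed c hc d ⟨hd, hdS⟩ h)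

theorem inn_sub (hS : S ⊆ U) (hC : IsComp G U S C) : C ∪ S ⊆ U := by
  rintro v (h | h)
  · exact (hC.sub h).1
  · exact hS h

theorem inn_notMem (hC : IsComp G U S C) {s : V} (hs : s ∈ S) : s ∉ C :=
  fun h => (hC.sub h).2 hs

theorem inn_union (hS : S ⊆ U) (hC : IsComp G U S C) : (U \ C) ∪ (C ∪ S) = U := by
  ext v
  constructor
  · rintro (h | h)
    · exact h.1
    · exact inn_sub hS hC h
  · intro h
    by_cases hv : v ∈ C
    · exact Or.inr (Or.inl hv)
    · exact Or.inl ⟨h, hv⟩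

theorem inn_inter (hS : S ⊆ U) (hC : IsComp G U S C) : (U \ C) ∩ (C ∪ S) = S := by
  ext v
  constructor
  · rintro ⟨h1, h2⟩
    exact h2.resolve_left h1.2
  · intro h
    exact ⟨⟨hS h, inn_notMem hC h⟩, Or.inr h⟩

/-- A connected set of the leaf is attached to a set containing its vertices in `S`. -/
theorem inn_attach {Q T : Set V} (hQ : Con G Q) (hT : Con (LG G C S) T)
    (hTS : T ∩ S ⊆ Q) (hne : (T ∩ S).Nonempty) : Con G (Q ∪ T) := by
  intro X h1 h2
  by_cases hQX : (Q ∩ X).Nonempty ∧ (Q \ X).Nonempty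
  · obtain ⟨a, ha, b, hb, hab⟩ := hQ X hQX.1 hQX.2
    exact ⟨a, ⟨Or.inl ha.1, ha.2⟩, b, ⟨Or.inl hb.1, hb.2⟩, hab⟩
  by_cases hTX : (T ∩ X).Nonempty ∧ (T \ X).Nonempty
  · obtain ⟨a, ha, b, hb, hab⟩ := hT X hTX.1 hTX.2
    rcases hab with hab | hab
    · exact ⟨a, ⟨Or.inr ha.1, ha.2⟩, b, ⟨Or.inr hb.1, hb.2⟩, hab.1⟩
    · exact absurd ⟨⟨a, hTS ⟨ha.1, hab.2.1⟩, ha.2⟩, ⟨b, hTS ⟨hb.1, hab.2.2⟩, hb.2⟩⟩ hQX
  exfalso
  obtain ⟨s, hs⟩ := hne
  have hsQ := hTS hs
  obtain ⟨p, hp, hpX⟩ := h1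
  obtain ⟨q, hq, hqX⟩ := h2
  by_cases hsX : s ∈ X
  · rcases hq with hq | hq
    · exact hQX ⟨⟨s, hsQ, hsX⟩, ⟨q, hq, hqX⟩⟩
    · exact hTX ⟨⟨s, hs.1, hsX⟩, ⟨q, hq, hqX⟩⟩
  · rcases hp with hp | hp
    · exact hQX ⟨⟨p, hp, hpX⟩, ⟨s, hsQ, hsX⟩⟩
    · exact hTX ⟨⟨p, hp, hpX⟩, ⟨s, hs.1, hsX⟩⟩

/-- The sides of the inner cut. -/
theorem inn_sides (hS : S ⊆ U) (hC : IsComp G U S C) (hSne : S.Nonempty)
    (hcon : Con G (U \ C)) {A : Set V} (hA : ∀ s ∈ S, s ∉ A) {K : SimpleGraph V}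
    (h : GC (LG G C S) (C ∪ S) A K) : (U ∩ (A ∩ C)).Nonempty ∧ (U \ (A ∩ C)).Nonempty ∧
      Con G (U ∩ (A ∩ C)) ∧ Con G (U \ (A ∩ C)) := by
  have hmem : ∀ v, v ∈ C ∪ S → v ∈ A → v ∈ C := fun v hv hvA =>
    hv.resolve_right fun hvS => hA v hvS hvA
  refine ⟨?_, ?_, ?_, ?_⟩
  · obtain ⟨v, hv, hvA⟩ := h.ne
    exact ⟨v, inn_sub hS hC hv, hvA, hmem v hv hvA⟩
  · obtain ⟨s, hs⟩ := hSne
    exact ⟨s, hS hs, fun h' => hA s hs h'.1⟩
  · have e : U ∩ (A ∩ C) = (C ∪ S) ∩ A := by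
      ext v
      constructor
      · rintro ⟨-, h1, h2⟩
        exact ⟨Or.inl h2, h1⟩
      · rintro ⟨h1, h2⟩
        exact ⟨inn_sub hS hC h1, h2, hmem v h1 h2⟩
    rw [e]
    refine h.left.mono_graph ?_
    intro a ha b hb hab
    rcases hab with hab | hab
    · exact hab.1
    · exact absurd ha.2 (hA a hab.2.1)
  · have e : U \ (A ∩ C) = (U \ C) ∪ ((C ∪ S) \ A) := by
      ext v
      constructor
      · rintro ⟨h1, h2⟩
        by_cases hv : v ∈ C
        · exact Or.inr ⟨Or.inl hv, fun h' => h2 ⟨h', hv⟩⟩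
        · exact Or.inl ⟨h1, hv⟩
      · rintro (h1 | h1)
        · exact ⟨h1.1, fun h' => h1.2 h'.2⟩
        · exact ⟨inn_sub hS hC h1.1, fun h' => h1.2 h'.1⟩
    rw [e]
    refine inn_attach hcon h.right ?_ ?_
    · rintro v ⟨-, hv⟩
      exact ⟨hS hv, inn_notMem hC hv⟩
    · obtain ⟨s, hs⟩ := hSne
      exact ⟨s, ⟨Or.inr hs, hA s hs⟩, hs⟩

theorem inn_cross (hS : S ⊆ U) (hC : IsComp (R ⊔ F) U S C) {A : Set V} (hA : ∀ s ∈ S, s ∉ A) :
    cross R U (A ∩ C) = LK R C S A := by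
  have key : ∀ u v, R.Adj u v → u ∈ U → v ∈ U → u ∈ A ∩ C → v ∉ A ∩ C →
      v ∈ C ∪ S ∧ v ∉ A := by
    intro u v huv hu hv hu' hv'
    have h1 : v ∈ C ∪ S := inn_mem hS hC hu'.2 hv (Or.inl huv)
    refine ⟨h1, fun hvA => ?_⟩
    rcases h1 with h1 | h1
    · exact hv' ⟨hvA, h1⟩
    · exact hA v h1 hvA
  ext u v
  constructor
  · rintro ⟨huv, hu, hv, hne⟩
    by_cases hu' : u ∈ A ∩ C
    · have hv' : v ∉ A ∩ C := fun h => hne ⟨fun _ => h, fun _ => hu'⟩
      obtain ⟨h1, h2⟩ := key u v huv hu hv hu' hv'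
      exact ⟨⟨huv, Or.inl ⟨hu'.2, h1⟩⟩, Or.inl hu'.2, h1, fun h => h2 (h.mp hu'.1)⟩
    · have hv' : v ∈ A ∩ C := by
        by_contra hv'
        exact hne ⟨fun h => absurd h hu', fun h => absurd h hv'⟩
      obtain ⟨h1, h2⟩ := key v u huv.symm hv hu hv' hu'
      exact ⟨⟨huv, Or.inr ⟨hv'.2, h1⟩⟩, h1, Or.inl hv'.2, fun h => h2 (h.mpr hv'.1)⟩
  · rintro ⟨⟨huv, -⟩, hu, hv, hne⟩
    refine ⟨huv, inn_sub hS hC hu, inn_sub hS hC hv, fun h => hne ?_⟩
    have hmem : ∀ v, v ∈ C ∪ S → v ∈ A → v ∈ A ∩ C := fun v hv hvA =>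
      ⟨hvA, hv.resolve_right fun hvS => hA v hvS hvA⟩
    exact ⟨fun h' => (h.mp (hmem u hu h')).1, fun h' => (h.mpr (hmem v hv h')).1⟩

/-- No real edge of the leaf joins two vertices of `S`. -/
theorem inn_LK_S (hC : IsComp G U S C) {A : Set V} {s t : V} (hs : s ∈ S) (ht : t ∈ S) :
    ¬ (LK R C S A).Adj s t := by
  rintro ⟨⟨-, h | h⟩, -⟩
  · exact inn_notMem hC hs h.1
  · exact inn_notMem hC ht h.1

/-- the first hypotheses of the gluing lemma -/
theorem inn_sep (hS : S ⊆ U) (hC : IsComp G U S C) :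
    ∀ u ∈ (U \ C) ∪ (C ∪ S), ∀ v ∈ (U \ C) ∪ (C ∪ S), G.Adj u v →
      (u ∈ U \ C ∧ v ∈ U \ C) ∨ (u ∈ C ∪ S ∧ v ∈ C ∪ S) := by
  intro u hu v hv huv
  rw [inn_union hS hC] at hu hv
  by_cases hu' : u ∈ C
  · exact Or.inr ⟨Or.inl hu', inn_mem hS hC hu' hv huv⟩
  by_cases hv' : v ∈ C
  · exact Or.inr ⟨inn_mem hS hC hv' hu huv.symm, Or.inl hv'⟩
  · exact Or.inl ⟨⟨hu, hu'⟩, ⟨hv, hv'⟩⟩

theorem inn_G2 (hS : S ⊆ U) (hC : IsComp G U S C) :
    ∀ u ∈ C ∪ S, ∀ v ∈ C ∪ S, ¬ (u ∈ U \ C ∧ v ∈ U \ C) → G.Adj u v → (LG G C S).Adj u v := by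
  intro u hu v hv hn huv
  by_cases hu' : u ∈ C
  · exact Or.inl ⟨huv, Or.inl ⟨hu', hv⟩⟩
  by_cases hv' : v ∈ C
  · exact Or.inl ⟨huv, Or.inr ⟨hv', hu⟩⟩
  · exact absurd ⟨⟨inn_sub hS hC hu, hu'⟩, ⟨inn_sub hS hC hv, hv'⟩⟩ hn

/-- the part of a connected side outside a class with at most one vertex there -/
theorem inn_con_of_le_one {Q : Set V} {K : SimpleGraph V} (hQ : Con G Q)
    (hdel : ∀ v, Con G (Q \ {v})) {w : V}
    (h : ∀ p ∈ Q, ∀ q ∈ Q, K.Reachable w p → K.Reachable w q → p = q) :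
    Con G {p | p ∈ Q ∧ ¬ K.Reachable w p} := by
  by_cases hex : ∃ p ∈ Q, K.Reachable w p
  · obtain ⟨p, hp, hwp⟩ := hex
    have e : {q | q ∈ Q ∧ ¬ K.Reachable w q} = Q \ {p} := by
      ext q
      constructor
      · rintro ⟨h1, h2⟩
        refine ⟨h1, fun h3 => h2 ?_⟩
        rw [Set.mem_singleton_iff] at h3
        rw [h3]
        exact hwp
      · rintro ⟨h1, h2⟩
        exact ⟨h1, fun h3 => h2 (Set.mem_singleton_iff.mpr (h q h1 p hp h3 hwp))⟩
    rw [e]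
    exact hdel p
  · have e : {q | q ∈ Q ∧ ¬ K.Reachable w q} = Q := by
      ext q
      constructor
      · exact fun h1 => h1.1
      · exact fun h1 => ⟨h1, fun h2 => hex ⟨q, h1, h2⟩⟩
    rw [e]
    exact hQ

theorem inn_exists_two (hcard : S.ncard = 3) : ∃ s ∈ S, ∃ t ∈ S, s ≠ t := by
  obtain ⟨a, b, c, hab, -, -, rfl⟩ := Set.ncard_eq_three.mp hcard
  exact ⟨a, Or.inl rfl, b, Or.inr (Or.inl rfl), hab⟩

theorem inn_good0 (h2 : Two (R ⊔ F) U) (hS : S ⊆ U) (hC : IsComp (R ⊔ F) U S C)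
    (hR1 : Two (R ⊔ F) (U \ C)) (hcard : S.ncard = 3) {A : Set V}
    (hA : ∀ s ∈ S, s ∉ A) (h : LO R F C S A ⊥) : SG R F U (A ∩ C) := by
  obtain ⟨s0, hs0, t0, ht0, hst0⟩ := inn_exists_two hcard
  have hL := inn_cross (R := R) (F := F) hS hC hA
  unfold LO at h
  rw [sup_bot_eq] at h
  obtain ⟨e1, e2, e3, e4⟩ := inn_sides hS hC ⟨s0, hs0⟩ hR1.con hA h
  refine ⟨e1, e2, e3, e4, ?_⟩
  rw [hL]
  set L := LK R C S A with hLdef
  have hLS : ∀ s ∈ S, ∀ t ∈ S, L.Reachable s t → s = t := by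
    intro s hs t ht hr
    by_contra hne
    exact inn_LK_S hC hs ht (h.ctr.strict s (Or.inr hs) t (Or.inr ht)
      (Or.inr ⟨hne, hs, ht⟩) hr)
  have hbot : ∀ u v : V, (⊥ : SimpleGraph V).Reachable u v ↔ u = v := fun u v =>
    SimpleGraph.reachable_bot
  have hK1 : ∀ u ∈ U \ C, ∀ v ∈ U \ C, L.Reachable u v ↔ (⊥ : SimpleGraph V).Reachable u v := by
    have h1 := reach_left (K := (⊥ : SimpleGraph V)) (L := L) (U1 := U \ C) (U2 := C ∪ S)
      (fun u v huv => absurd huv (by simp)) (fun u v huv => huv.2.1)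
      (fun s hs t ht hr => by
        rw [inn_inter hS hC] at hs ht
        rw [hbot]
        exact hLS s hs t ht hr)
    rwa [bot_sup_eq] at h1
  have hone : ∀ w p q : V, p ∈ U \ C → q ∈ U \ C → L.Reachable w p → L.Reachable w q → p = q := by
    intro w p q hp hq h1 h2
    exact (hbot p q).mp ((hK1 p hp q hq).mp (h1.symm.trans h2))
  have hglue : Ctr (R ⊔ F) ((U \ C) ∪ (C ∪ S)) L := by
    refine glue (G1 := R ⊔ F) (G2 := LG (R ⊔ F) C S) (K1 := ⊥) (K2 := L)
      (inn_sep hS hC) ?_ hR1.ctr_bot h.ctr (fun _ _ _ _ h => h) (inn_G2 hS hC) ?_ hK1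
      (fun _ _ _ _ => Iff.rfl) (fun u v _ h => absurd h (by simp)) (fun _ _ _ h => h)
      (fun u _ v _ h1 h2 => absurd h1 h2) ?_ ?_
    · rw [inn_union hS hC]
      exact h2.con
    · intro u v huv
      rw [inn_union hS hC]
      exact ⟨Or.inl huv.1.1, inn_sub hS hC huv.2.1, inn_sub hS hC huv.2.2.1⟩
    · intro u hu v hv huv hn w hw hwu hwv
      have huv' : (tri S).Adj u v := by
        rcases huv with h' | h'
        · exact absurd h'.1 hn
        · exact h'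
      refine ⟨{p | p ∈ U \ C ∧ ¬ L.Reachable w p},
        inn_con_of_le_one hR1.con hR1.del (fun p hp q hq => hone w p q hp hq),
        ⟨⟨hS huv'.2.1, inn_notMem hC huv'.2.1⟩, hwu⟩, ⟨⟨hS huv'.2.2, inn_notMem hC huv'.2.2⟩, hwv⟩,
        fun p hp => ⟨Or.inl hp.1, hp.2⟩⟩
    · intro w hw
      rw [inn_inter hS hC]
      by_contra hcon
      push Not at hcon
      exact hst0 (hLS s0 hs0 t0 ht0 ((hcon s0 hs0).symm.trans (hcon t0 ht0)))
  rwa [inn_union hS hC] at hglue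

/-- An inner cut of a leaf, no virtual merge. -/
theorem good_of_inner (h2 : Two (R ⊔ F) U) (hS : S ⊆ U) (hC : IsComp (R ⊔ F) U S C)
    (hR1 : Two (R ⊔ F) (U \ C)) (hcard : S.ncard = 3) {A : Set V}
    (hside : ∀ s ∈ S, ∀ t ∈ S, s ∈ A ↔ t ∈ A) (h : LO R F C S A ⊥) {a b : V}
    (ha : a ∉ C) (hb : b ∉ C) : ∃ A', SG R F U A' ∧ (a ∈ A' ↔ b ∈ A') := by
  obtain ⟨s0, hs0, -⟩ := inn_exists_two hcard
  have hfin : ∀ A : Set V, (a ∈ A ∩ C ↔ b ∈ A ∩ C) := fun A =>
    ⟨fun h => absurd h.2 ha, fun h => absurd h.2 hb⟩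
  by_cases hA : s0 ∈ A
  · refine ⟨Aᶜ ∩ C, inn_good0 h2 hS hC hR1 hcard (fun s hs h' => h' ?_) h.compl, hfin _⟩
    exact (hside s hs s0 hs0).mpr hA
  · exact ⟨A ∩ C, inn_good0 h2 hS hC hR1 hcard (fun s hs h' => hA ((hside s hs s0 hs0).mp h')) h,
      hfin _⟩

/-! ### the virtual edge -/

theorem inn_edge_reach {u v : V} (h : (SimpleGraph.edge x y).Reachable u v) :
    u = v ∨ (u = x ∧ v = y) ∨ (u = y ∧ v = x) := by
  by_cases hu : u = x ∨ u = y
  · have h1 : v ∈ ({x, y} : Set V) := by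
      refine reach_closed (K := SimpleGraph.edge x y) ?_ (a := u) ?_ h
      · intro p q _ hpq
        rw [SimpleGraph.edge_adj] at hpq
        rcases hpq.1 with ⟨-, h'⟩ | ⟨-, h'⟩
        · exact Or.inr h'
        · exact Or.inl h'
      · rcases hu with hu | hu
        · exact Or.inl hu
        · exact Or.inr hu
    rcases hu with rfl | rfl <;> rcases h1 with h1 | h1
    · exact Or.inl h1.symm
    · exact Or.inr (Or.inl ⟨rfl, h1⟩)
    · exact Or.inr (Or.inr ⟨rfl, h1⟩)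
    · exact Or.inl (Set.mem_singleton_iff.mp h1).symm
  · left
    refine reach_isolated ?_ h
    intro q hq
    rw [SimpleGraph.edge_adj] at hq
    rcases hq.1 with ⟨h', -⟩ | ⟨h', -⟩
    · exact hu (Or.inl h')
    · exact hu (Or.inr h')

theorem inn_edge_adj (hxy : x ≠ y) : (SimpleGraph.edge x y).Adj x y := by
  rw [SimpleGraph.edge_adj]
  exact ⟨Or.inl ⟨rfl, rfl⟩, hxy⟩

/-- `U \ C` minus two vertices of the 3-cut. -/
theorem inn_del_two (h3 : Three G U) (hS : {x, y, z} ⊆ U) (hxz : x ≠ z) (hyz : y ≠ z)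
    (hC : IsComp G U {x, y, z} C) : Con G ((U \ C) \ {x, y}) := by
  have hzU : z ∈ U := hS (Or.inr (Or.inr rfl))
  have hzC : z ∉ C := inn_notMem hC (Or.inr (Or.inr rfl))
  have hz : z ∈ (U \ C) \ {x, y} := by
    refine ⟨⟨hzU, hzC⟩, ?_⟩
    rintro (h | h)
    · exact hxz h.symm
    · exact hyz (Set.mem_singleton_iff.mp h).symm
  -- a closed set without `z` is empty
  have key : ∀ Y : Set V, Y ⊆ (U \ C) \ {x, y} → z ∉ Y → Y.Nonempty →
      ∃ a ∈ Y, ∃ b ∈ (U \ C) \ {x, y}, b ∉ Y ∧ G.Adj a b := by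
    intro Y hY hzY hYne
    obtain ⟨p, hp⟩ := hYne
    obtain ⟨a, ha, b, hb, hab⟩ := h3.del x y Y
      ⟨p, ⟨(hY hp).1.1, (hY hp).2⟩, hp⟩ ⟨z, ⟨hzU, hz.2⟩, hzY⟩
    refine ⟨a, ha.2, b, ⟨⟨hb.1.1, ?_⟩, hb.1.2⟩, hb.2, hab⟩
    intro hbC
    have h1 := inn_mem hS hC hbC ha.1.1 hab.symm
    rcases h1 with h1 | h1
    · exact (hY ha.2).1.2 h1
    · rcases h1 with h1 | h1 | h1
      · exact ha.1.2 (Or.inl h1)
      · exact ha.1.2 (Or.inr h1)
      · rw [Set.mem_singleton_iff] at h1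
        exact hzY (h1 ▸ ha.2)
  intro X h1 h2
  by_cases hzX : z ∈ X
  · obtain ⟨a, ha, b, hb, hbn, hab⟩ := key (((U \ C) \ {x, y}) \ X) Set.sdiff_subset
      (fun h => h.2 hzX) h2
    refine ⟨b, ⟨hb, ?_⟩, a, ha, hab.symm⟩
    by_contra hbX
    exact hbn ⟨hb, hbX⟩
  · obtain ⟨a, ha, b, hb, hbn, hab⟩ := key (((U \ C) \ {x, y}) ∩ X) Set.inter_subset_left
      (fun h => hzX h.2) h1
    exact ⟨a, ha, b, ⟨hb, fun hbX => hbn ⟨hb, hbX⟩⟩, hab⟩

theorem inn_ctr_edge (h3 : Three G U) (hS : {x, y, z} ⊆ U)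
    (hxy : x ≠ y) (hxz : x ≠ z) (hyz : y ≠ z)
    (hC : IsComp G U {x, y, z} C) (hR1 : Two G (U \ C)) :
    Ctr (G ⊔ SimpleGraph.edge x y) (U \ C) (SimpleGraph.edge x y) := by
  have hx : x ∈ U \ C := ⟨hS (Or.inl rfl), inn_notMem hC (Or.inl rfl)⟩
  have hy : y ∈ U \ C := ⟨hS (Or.inr (Or.inl rfl)), inn_notMem hC (Or.inr (Or.inl rfl))⟩
  have hz : z ∈ U \ C := ⟨hS (Or.inr (Or.inr rfl)), inn_notMem hC (Or.inr (Or.inr rfl))⟩
  have hadj := inn_edge_adj hxy
  refine ⟨hR1.con.mono_le le_sup_left, ?_, ?_, ?_, ?_⟩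
  · intro u v huv
    refine ⟨Or.inr huv, ?_, ?_⟩
    · rw [SimpleGraph.edge_adj] at huv
      rcases huv.1 with ⟨h, -⟩ | ⟨h, -⟩ <;> rw [h] <;> assumption
    · rw [SimpleGraph.edge_adj] at huv
      rcases huv.1 with ⟨-, h⟩ | ⟨-, h⟩ <;> rw [h] <;> assumption
  · intro u _ v _ huv hr
    rcases inn_edge_reach hr with h | ⟨h1, h2⟩ | ⟨h1, h2⟩
    · exact absurd h huv.ne
    · rw [h1, h2]; exact hadj
    · rw [h1, h2]; exact hadj.symm
  · intro v hv
    by_cases hvxy : v = x ∨ v = y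
    · have e : {w | w ∈ U \ C ∧ ¬ (SimpleGraph.edge x y).Reachable v w} =
          (U \ C) \ {x, y} := by
        ext w
        constructor
        · rintro ⟨h1, h2⟩
          refine ⟨h1, ?_⟩
          rintro (h | h)
          · rw [h] at h2
            rcases hvxy with rfl | rfl
            · exact h2 (SimpleGraph.Reachable.refl _)
            · exact h2 hadj.symm.reachable
          · rw [Set.mem_singleton_iff] at h
            rw [h] at h2
            rcases hvxy with rfl | rfl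
            · exact h2 hadj.reachable
            · exact h2 (SimpleGraph.Reachable.refl _)
        · rintro ⟨h1, h2⟩
          refine ⟨h1, fun h => ?_⟩
          rcases inn_edge_reach h with h | ⟨-, h⟩ | ⟨-, h⟩
          · rw [← h] at h2
            exact h2 (hvxy.imp id id)
          · exact h2 (Or.inr h)
          · exact h2 (Or.inl h)
      rw [e]
      exact (inn_del_two h3 hS hxz hyz hC).mono_le le_sup_left
    · have e : {w | w ∈ U \ C ∧ ¬ (SimpleGraph.edge x y).Reachable v w} = (U \ C) \ {v} := by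
        ext w
        constructor
        · rintro ⟨h1, h2⟩
          refine ⟨h1, fun h => ?_⟩
          rw [Set.mem_singleton_iff] at h
          rw [h] at h2
          exact h2 (SimpleGraph.Reachable.refl _)
        · rintro ⟨h1, h2⟩
          refine ⟨h1, fun h => ?_⟩
          rcases inn_edge_reach h with h | ⟨h, -⟩ | ⟨h, -⟩
          · exact h2 (Set.mem_singleton_iff.mpr h.symm)
          · exact hvxy (Or.inl h)
          · exact hvxy (Or.inr h)
      rw [e]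
      exact (hR1.del v).mono_le le_sup_left
  · intro v hv
    by_cases hvxy : v = x ∨ v = y
    · refine ⟨z, hz, fun h => ?_⟩
      rcases inn_edge_reach h with h | ⟨-, h⟩ | ⟨-, h⟩
      · rcases hvxy with h' | h'
        · exact hxz (h'.symm.trans h)
        · exact hyz (h'.symm.trans h)
      · exact hyz h.symm
      · exact hxz h.symm
    · refine ⟨x, hx, fun h => ?_⟩
      rcases inn_edge_reach h with h | ⟨h, -⟩ | ⟨h, -⟩
      · exact hvxy (Or.inl h)
      · exact hvxy (Or.inl h)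
      · exact hvxy (Or.inr h)

theorem inn_good1 (h3 : Three (R ⊔ F) U) (hS : {x, y, z} ⊆ U)
    (hxy : x ≠ y) (hxz : x ≠ z) (hyz : y ≠ z)
    (hC : IsComp (R ⊔ F) U {x, y, z} C) (hR1 : Two (R ⊔ F) (U \ C))
    (hna : ¬ (R ⊔ F).Adj x y) {A : Set V} (hA : ∀ s ∈ ({x, y, z} : Set V), s ∉ A)
    (h : LO R F C {x, y, z} A (SimpleGraph.edge x y)) : SG R F U (A ∩ C) := by
  have hxS : x ∈ ({x, y, z} : Set V) := Or.inl rfl
  have hyS : y ∈ ({x, y, z} : Set V) := Or.inr (Or.inl rfl)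
  have hzS : z ∈ ({x, y, z} : Set V) := Or.inr (Or.inr rfl)
  have hcard : ({x, y, z} : Set V).ncard = 3 := Set.ncard_eq_three.mpr
    ⟨x, y, z, hxy, hxz, hyz, rfl⟩
  set S : Set V := {x, y, z} with hSdef
  have hadj := inn_edge_adj hxy
  have hL := inn_cross (R := R) (F := F) hS hC hA
  unfold LO at h
  obtain ⟨e1, e2, e3, e4⟩ := inn_sides hS hC ⟨x, hxS⟩ hR1.con hA h
  set L := LK R C S A with hLdef
  have hstr : ∀ s ∈ S, ∀ t ∈ S, s ≠ t → (L ⊔ SimpleGraph.edge x y).Reachable s t →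
      (SimpleGraph.edge x y).Adj s t := by
    intro s hs t ht hne hr
    exact (h.ctr.strict s (Or.inr hs) t (Or.inr ht) (Or.inr ⟨hne, hs, ht⟩) hr).resolve_left
      (inn_LK_S hC hs ht)
  have hnxz : ¬ (L ⊔ SimpleGraph.edge x y).Reachable x z := by
    intro hr
    have := hstr x hxS z hzS hxz hr
    rw [SimpleGraph.edge_adj] at this
    rcases this.1 with ⟨-, h'⟩ | ⟨h', -⟩
    · exact hyz h'.symm
    · exact hxy h'
  by_cases hxyL : L.Reachable x y
  · -- the virtual edge is superfluous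
    have hred : ∀ u v, (L ⊔ SimpleGraph.edge x y).Reachable u v ↔ L.Reachable u v := by
      intro u v
      constructor
      · intro hr
        refine reach_closed (K := L ⊔ SimpleGraph.edge x y) (X := {w | L.Reachable u w}) ?_
          (SimpleGraph.Reachable.refl _) hr
        rintro p q hp (hpq | hpq)
        · exact SimpleGraph.Reachable.trans hp hpq.reachable
        · rw [SimpleGraph.edge_adj] at hpq
          rcases hpq.1 with ⟨h1, h2⟩ | ⟨h1, h2⟩
          · rw [h1] at hp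
            rw [h2]
            exact SimpleGraph.Reachable.trans hp hxyL
          · rw [h1] at hp
            rw [h2]
            exact SimpleGraph.Reachable.trans hp hxyL.symm
      · intro hr
        exact hr.mono le_sup_left
    have hK1 : ∀ u ∈ U \ C, ∀ v ∈ U \ C, L.Reachable u v ↔
        (SimpleGraph.edge x y).Reachable u v := by
      have h1 := reach_left (K := SimpleGraph.edge x y) (L := L) (U1 := U \ C) (U2 := C ∪ S)
        (fun u v huv => by
          rw [SimpleGraph.edge_adj] at huv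
          rcases huv.1 with ⟨h', -⟩ | ⟨h', -⟩
          · rw [h']; exact ⟨hS hxS, inn_notMem hC hxS⟩
          · rw [h']; exact ⟨hS hyS, inn_notMem hC hyS⟩)
        (fun u v huv => huv.2.1)
        (fun s hs t ht hr => by
          rw [inn_inter hS hC] at hs ht
          by_cases hst : s = t
          · rw [hst]
          · exact (hstr s hs t ht hst (hr.mono le_sup_left)).reachable)
      intro u hu v hv
      rw [← h1 u hu v hv, sup_comm, hred]
    have hclass : ∀ w, ¬ L.Reachable w x → ∃ T : Set V, Con (R ⊔ F) T ∧ x ∈ T ∧ y ∈ T ∧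
        ∀ p ∈ T, p ∈ (U \ C) ∪ (C ∪ S) ∧ ¬ L.Reachable w p := by
      intro w hw
      refine ⟨{p | L.Reachable x p}, con_class_of_le (show L ≤ R ⊔ F from fun a b hab => Or.inl hab.1.1) x,
        SimpleGraph.Reachable.refl _, hxyL, ?_⟩
      intro p hp
      refine ⟨Or.inr ?_, fun h' => hw (h'.trans (SimpleGraph.Reachable.symm hp))⟩
      exact reach_closed (K := L) (X := C ∪ S) (fun a b _ hab => hab.2.2.1) (Or.inr hxS) hp
    have hvirt : ∀ u v, (SimpleGraph.edge x y).Adj u v → ∀ w, ¬ L.Reachable w u →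
        ¬ L.Reachable w v → ∃ T : Set V, Con (R ⊔ F) T ∧ u ∈ T ∧ v ∈ T ∧
        ∀ p ∈ T, p ∈ (U \ C) ∪ (C ∪ S) ∧ ¬ L.Reachable w p := by
      intro u v huv w hwu hwv
      rw [SimpleGraph.edge_adj] at huv
      rcases huv.1 with ⟨h1, h2⟩ | ⟨h1, h2⟩
      · rw [h1] at hwu ⊢
        rw [h2]
        exact hclass w hwu
      · rw [h2] at hwv ⊢
        rw [h1]
        obtain ⟨T, hT, hTx, hTy, hT'⟩ := hclass w hwv
        exact ⟨T, hT, hTy, hTx, hT'⟩
    have hglue : Ctr (R ⊔ F) ((U \ C) ∪ (C ∪ S)) L := by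
      refine glue (G1 := (R ⊔ F) ⊔ SimpleGraph.edge x y) (G2 := LG (R ⊔ F) C S)
        (K1 := SimpleGraph.edge x y) (K2 := L ⊔ SimpleGraph.edge x y)
        (inn_sep hS hC) ?_ (inn_ctr_edge h3 hS hxy hxz hyz hC hR1) h.ctr
        (fun _ _ _ _ h => Or.inl h) (inn_G2 hS hC) ?_ hK1
        (fun u _ v _ => (hred u v).symm) ?_ ?_ ?_ ?_ ?_
      · rw [inn_union hS hC]
        exact h3.two.con
      · intro u v huv
        rw [inn_union hS hC]
        exact ⟨Or.inl huv.1.1, inn_sub hS hC huv.2.1, inn_sub hS hC huv.2.2.1⟩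
      · intro u v huv he
        rw [SimpleGraph.edge_adj] at he
        rcases he.1 with ⟨h1, h2⟩ | ⟨h1, h2⟩
        · rw [h1, h2] at huv
          exact absurd huv hna
        · rw [h1, h2] at huv
          exact absurd huv.symm hna
      · rintro u v huv (he | he)
        · exact he
        · rw [SimpleGraph.edge_adj] at he
          rcases he.1 with ⟨h1, h2⟩ | ⟨h1, h2⟩
          · rw [h1, h2] at huv
            exact absurd huv hna
          · rw [h1, h2] at huv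
            exact absurd huv.symm hna
      · intro u _ v _ huv hn w _ hwu hwv
        exact hvirt u v (huv.resolve_left hn) w hwu hwv
      · intro u hu v hv huv hn w hw hwu hwv
        have huv' : (tri S).Adj u v := by
          rcases huv with h' | h'
          · exact absurd h'.1 hn
          · exact h'
        by_cases he : (SimpleGraph.edge x y).Adj u v
        · exact hvirt u v he w hwu hwv
        · -- the class of `w` contains neither `x` nor `y`
          have hwx : ¬ L.Reachable w x := by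
            intro hwx
            have hwy := hwx.trans hxyL
            have hu3 : u = z := by
              rcases huv'.2.1 with h' | h' | h'
              · rw [h'] at hwu; exact absurd hwx hwu
              · rw [h'] at hwu; exact absurd hwy hwu
              · exact h'
            have hv3 : v = z := by
              rcases huv'.2.2 with h' | h' | h'
              · rw [h'] at hwv; exact absurd hwx hwv
              · rw [h'] at hwv; exact absurd hwy hwv
              · exact h'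
            exact huv'.1 (hu3.trans hv3.symm)
          have hwy : ¬ L.Reachable w y := fun h' => hwx (h'.trans hxyL.symm)
          refine ⟨{p | p ∈ U \ C ∧ ¬ L.Reachable w p},
            inn_con_of_le_one hR1.con hR1.del ?_,
            ⟨⟨hS huv'.2.1, inn_notMem hC huv'.2.1⟩, hwu⟩,
            ⟨⟨hS huv'.2.2, inn_notMem hC huv'.2.2⟩, hwv⟩,
            fun p hp => ⟨Or.inl hp.1, hp.2⟩⟩
          intro p hp q hq h1 h2
          rcases inn_edge_reach ((hK1 p hp q hq).mp (h1.symm.trans h2)) with h' | ⟨h', -⟩ | ⟨h', -⟩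
          · exact h'
          · rw [h'] at h1; exact absurd h1 hwx
          · rw [h'] at h1; exact absurd h1 hwy
      · intro w hw
        rw [inn_inter hS hC]
        by_contra hcon
        push Not at hcon
        exact hnxz (((hcon x hxS).symm.trans (hcon z hzS)).mono le_sup_left)
    refine ⟨e1, e2, e3, e4, ?_⟩
    rw [hL]
    rwa [inn_union hS hC] at hglue
  · -- the virtual edge can be removed
    have hctr : Ctr (LG (R ⊔ F) C S) (C ∪ S) L :=
      Ctr.remove_edge h.ctr hxyL (Or.inr hzS) (Or.inr ⟨hxz, hxS, hzS⟩) (Or.inr ⟨hyz, hyS, hzS⟩)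
        hnxz
    refine inn_good0 h3.two hS hC hR1 hcard hA ?_
    unfold LO
    rw [sup_bot_eq]
    exact ⟨h.ne, h.ne', h.left, h.right, hctr⟩

/-- An inner cut of a leaf, `x y` virtually merged, `x y` not an edge. -/
theorem good_of_inner_edge (h3 : Three (R ⊔ F) U) (hS : {x, y, z} ⊆ U)
    (hxy : x ≠ y) (hxz : x ≠ z) (hyz : y ≠ z)
    (hC : IsComp (R ⊔ F) U {x, y, z} C) (hR1 : Two (R ⊔ F) (U \ C))
    (hna : ¬ (R ⊔ F).Adj x y) {A : Set V}
    (hside : ∀ s ∈ ({x, y, z} : Set V), ∀ t ∈ ({x, y, z} : Set V), s ∈ A ↔ t ∈ A)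
    (h : LO R F C {x, y, z} A (SimpleGraph.edge x y)) {a b : V}
    (ha : a ∉ C) (hb : b ∉ C) : ∃ A', SG R F U A' ∧ (a ∈ A' ↔ b ∈ A') := by
  have hxS : x ∈ ({x, y, z} : Set V) := Or.inl rfl
  have hfin : ∀ A : Set V, (a ∈ A ∩ C ↔ b ∈ A ∩ C) := fun A =>
    ⟨fun h => absurd h.2 ha, fun h => absurd h.2 hb⟩
  by_cases hA : x ∈ A
  · refine ⟨Aᶜ ∩ C, inn_good1 h3 hS hxy hxz hyz hC hR1 hna (fun s hs h' => h' ?_) h.compl,
      hfin _⟩
    exact (hside s hs x hxS).mpr hA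
  · exact ⟨A ∩ C, inn_good1 h3 hS hxy hxz hyz hC hR1 hna
      (fun s hs h' => hA ((hside s hs x hxS).mp h')) h, hfin _⟩

end

end BND
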