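import Pool.Agent.BND.Prim
import Pool.Agent.BND.Cnx
import Pool.Agent.BND.Glu

/-!
# BND, module LGL: gluing a leaf
-/

set_option autoImplicit false

namespace BND

variable {V : Type}

section

variable {R F : SimpleGraph V} {U S C : Set V}

/-- The crossing real edges of the glued cut. -/
theorem lgl_cross (hS : S ⊆ U) (hC : IsComp (R ⊔ F) U S C) {A1 A2 : Set V}
    (hag : ∀ s ∈ S, s ∈ A1 ↔ s ∈ A2) :
    cross R U (A1 \ C ∪ A2 ∩ C) = cross R (U \ C) A1 ⊔ LK R C S A2 := by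
  have hCU : ∀ x ∈ C, x ∈ U := fun x hx => (hC.sub hx).1
  have hCS : ∀ x ∈ C, x ∉ S := fun x hx => (hC.sub hx).2
  have m1 : ∀ x, x ∉ C → (x ∈ A1 \ C ∪ A2 ∩ C ↔ x ∈ A1) := by
    intro x hx
    constructor
    · rintro (h | h)
      · exact h.1
      · exact absurd h.2 hx
    · exact fun h => Or.inl ⟨h, hx⟩
  have m2 : ∀ x, x ∈ C → (x ∈ A1 \ C ∪ A2 ∩ C ↔ x ∈ A2) := by
    intro x hx
    constructor
    · rintro (h | h)
      · exact absurd hx h.2
      · exact h.1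
    · exact fun h => Or.inr ⟨h, hx⟩
  have mS : ∀ x, x ∈ C ∪ S → (x ∈ A1 \ C ∪ A2 ∩ C ↔ x ∈ A2) := by
    rintro x (hx | hx)
    · exact m2 x hx
    · rw [m1 x (fun hc => hCS x hc hx)]
      exact hag x hx
  ext u v
  constructor
  · rintro ⟨huv, hu, hv, hcr⟩
    by_cases huC : u ∈ C
    · right
      have hvCS : v ∈ C ∪ S := by
        by_cases hvS : v ∈ S
        · exact Or.inr hvS
        · exact Or.inl (hC.closed u huC v ⟨hv, hvS⟩ (Or.inl huv))
      rw [mS u (Or.inl huC), mS v hvCS] at hcr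
      exact ⟨⟨huv, Or.inl ⟨huC, hvCS⟩⟩, Or.inl huC, hvCS, hcr⟩
    · by_cases hvC : v ∈ C
      · right
        have huCS : u ∈ C ∪ S := by
          by_cases huS : u ∈ S
          · exact Or.inr huS
          · exact Or.inl (hC.closed v hvC u ⟨hu, huS⟩ (Or.inl huv.symm))
        rw [mS u huCS, mS v (Or.inl hvC)] at hcr
        exact ⟨⟨huv, Or.inr ⟨hvC, huCS⟩⟩, huCS, Or.inl hvC, hcr⟩
      · left
        rw [m1 u huC, m1 v hvC] at hcr
        exact ⟨huv, ⟨hu, huC⟩, ⟨hv, hvC⟩, hcr⟩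
  · rintro (⟨huv, hu, hv, hcr⟩ | ⟨⟨huv, hC'⟩, hu, hv, hcr⟩)
    · rw [← m1 u hu.2, ← m1 v hv.2] at hcr
      exact ⟨huv, hu.1, hv.1, hcr⟩
    · have hU : ∀ x ∈ C ∪ S, x ∈ U := by
        rintro x (hx | hx)
        · exact hCU x hx
        · exact hS hx
      rw [← mS u hu, ← mS v hv] at hcr
      exact ⟨huv, hU u hu, hU v hv, hcr⟩

/-- Connectedness of one side. -/
theorem lgl_side {G : SimpleGraph V} {C S P Q : Set V}
    (h1 : Con G P) (h2 : Con (LG G C S) Q) (hQ : Q ⊆ C ∪ S)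
    (hPQ : ∀ s ∈ S, s ∈ Q → s ∈ P) (hs : ∃ s ∈ S, s ∈ Q) : Con G (P ∪ Q ∩ C) := by
  intro X hX hX'
  by_contra hcon
  push Not at hcon
  obtain ⟨s, hsS, hsQ⟩ := hs
  have hsP := hPQ s hsS hsQ
  -- `P` is on one side
  have hP1 : P ⊆ X ∨ Disjoint P X := by
    by_contra hc
    rw [not_or] at hc
    obtain ⟨hc1, hc2⟩ := hc
    rw [Set.not_subset] at hc1
    rw [Set.not_disjoint_iff] at hc2
    obtain ⟨p, hp, hpX⟩ := hc1
    obtain ⟨q, hq, hqX⟩ := hc2
    obtain ⟨a, ha, b, hb, hab⟩ := h1 X ⟨q, hq, hqX⟩ ⟨p, hp, hpX⟩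
    exact hcon a ⟨Or.inl ha.1, ha.2⟩ b ⟨Or.inl hb.1, hb.2⟩ hab
  -- a crossing edge of `LG` inside `Q` is impossible
  have hQ1 : ∀ a ∈ Q, ∀ b ∈ Q, a ∈ X → b ∉ X → ¬ (LG G C S).Adj a b := by
    intro a ha b hb haX hbX hab
    have mem : ∀ x ∈ Q, x ∈ P ∪ Q ∩ C := by
      intro x hx
      rcases hQ hx with h | h
      · exact Or.inr ⟨hx, h⟩
      · exact Or.inl (hPQ x h hx)
    rcases hab with hab | hab
    · exact hcon a ⟨mem a ha, haX⟩ b ⟨mem b hb, hbX⟩ hab.1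
    · rcases hP1 with h | h
      · exact hbX (h (hPQ b hab.2.2 hb))
      · exact Set.disjoint_left.mp h (hPQ a hab.2.1 ha) haX
  have hQ2 : Q ⊆ X ∨ Disjoint Q X := by
    by_contra hc
    rw [not_or] at hc
    obtain ⟨hc1, hc2⟩ := hc
    rw [Set.not_subset] at hc1
    rw [Set.not_disjoint_iff] at hc2
    obtain ⟨p, hp, hpX⟩ := hc1
    obtain ⟨q, hq, hqX⟩ := hc2
    obtain ⟨a, ha, b, hb, hab⟩ := h2 X ⟨q, hq, hqX⟩ ⟨p, hp, hpX⟩
    exact hQ1 a ha.1 b hb.1 ha.2 hb.2 hab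
  obtain ⟨p, hp, hpX⟩ := hX
  obtain ⟨q, hq, hqX⟩ := hX'
  rcases hP1 with h | h
  · have hQX : Q ⊆ X := by
      rcases hQ2 with h' | h'
      · exact h'
      · exact absurd (h hsP) (Set.disjoint_left.mp h' hsQ)
    rcases hq with hq | hq
    · exact hqX (h hq)
    · exact hqX (hQX hq.1)
  · have hQX : Disjoint Q X := by
      rcases hQ2 with h' | h'
      · exact absurd (h' hsQ) (Set.disjoint_left.mp h hsP)
      · exact h'
    rcases hp with hp | hp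
    · exact Set.disjoint_left.mp h hp hpX
    · exact Set.disjoint_left.mp hQX hp.1 hpX

/-- The leaf `C` (with the virtual merges `T`) is glued to a strict good cut `A1` of `U \ C` which
splits `S`. -/
theorem leaf_glue (hbase : Con (R ⊔ F) U) (hS : S ⊆ U) (hC : IsComp (R ⊔ F) U S C)
    {A1 A2 : Set V} {T : SimpleGraph V} (h1 : SG R F (U \ C) A1) (h2 : LO R F C S A2 T)
    (hT : T ≤ tri S) (hag : ∀ s ∈ S, s ∈ A1 ↔ s ∈ A2)
    (hpart : ∀ s ∈ S, ∀ t ∈ S, (cross R (U \ C) A1).Reachable s t ↔ T.Reachable s t)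
    (hne : ∀ s ∈ S, ∃ t ∈ S, ¬ T.Reachable s t)
    (hsp : ∃ s ∈ S, ∃ t ∈ S, s ∈ A1 ∧ t ∉ A1) :
    SG R F U (A1 \ C ∪ A2 ∩ C) := by
  set G := R ⊔ F with hG
  have hCU : ∀ x ∈ C, x ∈ U := fun x hx => (hC.sub hx).1
  have hCS : ∀ x ∈ C, x ∉ S := fun x hx => (hC.sub hx).2
  have hS1 : ∀ s ∈ S, s ∈ U \ C := fun s hs => ⟨hS hs, fun hc => hCS s hc hs⟩
  have hUU : (U \ C) ∪ (C ∪ S) = U := by
    ext x
    constructor
    · rintro (h | h | h)
      · exact h.1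
      · exact hCU x h
      · exact hS h
    · intro h
      by_cases hx : x ∈ C
      · exact Or.inr (Or.inl hx)
      · exact Or.inl ⟨h, hx⟩
  have hII : (U \ C) ∩ (C ∪ S) = S := by
    ext x
    constructor
    · rintro ⟨h, h' | h'⟩
      · exact absurd h' h.2
      · exact h'
    · intro h
      exact ⟨hS1 x h, Or.inr h⟩
  have hcr := lgl_cross hS hC hag (R := R) (F := F)
  set K1 := cross R (U \ C) A1 with hK1
  set L := LK R C S A2 with hL
  -- `L` has no edges inside `S`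
  have hLS : ∀ s ∈ S, ∀ t ∈ S, ¬ L.Adj s t := by
    rintro s hs t ht ⟨⟨-, h | h⟩, -⟩
    · exact hCS s h.1 hs
    · exact hCS t h.1 ht
  have hTS : ∀ u v, T.Adj u v → u ∈ S ∧ v ∈ S := fun u v huv => ⟨(hT huv).2.1, (hT huv).2.2⟩
  -- reachability on `S`
  have hLT : ∀ s ∈ S, ∀ t ∈ S, (L ⊔ T).Reachable s t ↔ T.Reachable s t := by
    intro s hs t ht
    constructor
    · intro h
      by_cases hst : s = t
      · rw [hst]
      · have h3 := h2.ctr.strict s (Or.inr hs) t (Or.inr ht) (Or.inr ⟨hst, hs, ht⟩) h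
        rcases h3 with h3 | h3
        · exact absurd h3 (hLS s hs t ht)
        · exact h3.reachable
    · exact fun h => h.mono le_sup_right
  have hpart' : ∀ s ∈ (U \ C) ∩ (C ∪ S), ∀ t ∈ (U \ C) ∩ (C ∪ S),
      K1.Reachable s t ↔ (L ⊔ T).Reachable s t := by
    rw [hII]
    intro s hs t ht
    rw [hLT s hs t ht]
    exact hpart s hs t ht
  have hK1U : ∀ u v, K1.Adj u v → u ∈ U \ C := fun u v huv => huv.2.1
  have hLU : ∀ u v, L.Adj u v → u ∈ C ∪ S := fun u v huv => huv.2.1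
  have hR1 := reach_left (K := K1) (L := L) hK1U hLU (by
    intro s hs t ht hst
    rw [hpart' s hs t ht]
    exact hst.mono le_sup_left)
  have hR2 := reach_right (K := K1) (L := L) (T := T) hK1U hLU (by
    intro u v huv
    rw [hII]
    exact (hTS u v huv).1) hpart'
  have hsep : ∀ u ∈ (U \ C) ∪ (C ∪ S), ∀ v ∈ (U \ C) ∪ (C ∪ S), G.Adj u v →
      (u ∈ U \ C ∧ v ∈ U \ C) ∨ (u ∈ C ∪ S ∧ v ∈ C ∪ S) := by
    rw [hUU]
    intro u hu v hv huv
    by_cases huC : u ∈ C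
    · right
      refine ⟨Or.inl huC, ?_⟩
      by_cases hvS : v ∈ S
      · exact Or.inr hvS
      · exact Or.inl (hC.closed u huC v ⟨hv, hvS⟩ huv)
    · by_cases hvC : v ∈ C
      · right
        refine ⟨?_, Or.inl hvC⟩
        by_cases huS : u ∈ S
        · exact Or.inr huS
        · exact Or.inl (hC.closed v hvC u ⟨hu, huS⟩ huv.symm)
      · exact Or.inl ⟨⟨hu, huC⟩, ⟨hv, hvC⟩⟩
  have hctr : Ctr G ((U \ C) ∪ (C ∪ S)) (K1 ⊔ L) := by
    refine glue (G1 := G) (G2 := LG G C S) (K1 := K1) (K2 := L ⊔ T) hsep (by rw [hUU]; exact hbase)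
      h1.ctr h2.ctr (fun u _ v _ h => h) ?_ ?_ hR1 hR2 ?_ ?_ ?_ ?_ ?_
    · -- G ≤ G2
      intro u hu v hv hn huv
      left
      refine ⟨huv, ?_⟩
      rcases hu with hu | hu
      · exact Or.inl ⟨hu, hv⟩
      · rcases hv with hv | hv
        · exact Or.inr ⟨hv, Or.inr hu⟩
        · exact absurd ⟨hS1 u hu, hS1 v hv⟩ hn
    · -- K ≤ G
      rintro u v (h | h)
      · exact ⟨Or.inl h.1, Or.inl h.2.1, Or.inl h.2.2.1⟩
      · exact ⟨Or.inl h.1.1, Or.inr h.2.1, Or.inr h.2.2.1⟩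
    · exact fun u v _ h => Or.inl h
    · -- edges of K2 which are edges of G
      rintro u v huv (h | h)
      · exact Or.inr h
      · left
        obtain ⟨hu, hv⟩ := hTS u v h
        have hr : K1.Reachable u v := (hpart u hu v hv).mpr h.reachable
        exact h1.ctr.strict u (hS1 u hu) v (hS1 v hv) huv hr
    · intro u _ v _ h h'
      exact absurd h h'
    · -- virtual edges: inside `S`
      intro u hu v hv h h' w hw hwu hwv
      have huv : u ∈ S ∧ v ∈ S := by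
        rcases h with h | h
        · exact absurd h.1 h'
        · exact ⟨h.2.1, h.2.2⟩
      have hu1 := hS1 u huv.1
      have hv1 := hS1 v huv.2
      refine ⟨{x | x ∈ U \ C ∧ ¬ (K1 ⊔ L).Reachable w x}, ?_, ⟨hu1, hwu⟩, ⟨hv1, hwv⟩,
        fun x hx => ⟨Or.inl hx.1, hx.2⟩⟩
      by_cases hex : ∃ y ∈ U \ C, (K1 ⊔ L).Reachable w y
      · obtain ⟨y, hy, hwy⟩ := hex
        have : {x | x ∈ U \ C ∧ ¬ (K1 ⊔ L).Reachable w x} =
            {x | x ∈ U \ C ∧ ¬ K1.Reachable y x} := by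
          ext x
          constructor
          · rintro ⟨hx, hx'⟩
            exact ⟨hx, fun hr => hx' (hwy.trans ((hR1 y hy x hx).mpr hr))⟩
          · rintro ⟨hx, hx'⟩
            exact ⟨hx, fun hr => hx' ((hR1 y hy x hx).mp (hwy.symm.trans hr))⟩
        rw [this]
        exact h1.ctr.con y hy
      · push Not at hex
        have : {x | x ∈ U \ C ∧ ¬ (K1 ⊔ L).Reachable w x} = U \ C := by
          ext x
          exact ⟨fun hx => hx.1, fun hx => ⟨hx, hex x hx⟩⟩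
        rw [this]
        exact h1.ctr.base
    · -- not all of `S` in one class
      intro w hw
      rw [hII]
      by_cases hex : ∃ s ∈ S, (K1 ⊔ L).Reachable w s
      · obtain ⟨s, hs, hws⟩ := hex
        obtain ⟨t, ht, hst⟩ := hne s hs
        refine ⟨t, ht, fun hwt => hst ?_⟩
        rw [← hpart s hs t ht]
        exact (hR1 s (hS1 s hs) t (hS1 t ht)).mp (hws.symm.trans hwt)
      · push Not at hex
        obtain ⟨s, hs, -⟩ := hsp
        exact ⟨s, hs, hex s hs⟩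
  rw [hUU] at hctr
  obtain ⟨s, hs, t, ht, hsA, htA⟩ := hsp
  have hsA2 : s ∈ A2 := (hag s hs).mp hsA
  have htA2 : t ∉ A2 := fun h => htA ((hag t ht).mpr h)
  have e1 : U ∩ (A1 \ C ∪ A2 ∩ C) = (U \ C) ∩ A1 ∪ ((C ∪ S) ∩ A2) ∩ C := by
    ext x
    constructor
    · rintro ⟨hx, h | h⟩
      · exact Or.inl ⟨⟨hx, h.2⟩, h.1⟩
      · exact Or.inr ⟨⟨Or.inl h.2, h.1⟩, h.2⟩
    · rintro (h | h)
      · exact ⟨h.1.1, Or.inl ⟨h.2, h.1.2⟩⟩
      · exact ⟨hCU x h.2, Or.inr ⟨h.1.2, h.2⟩⟩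
  have e2 : U \ (A1 \ C ∪ A2 ∩ C) = (U \ C) \ A1 ∪ ((C ∪ S) \ A2) ∩ C := by
    ext x
    constructor
    · rintro ⟨hx, h⟩
      by_cases hxC : x ∈ C
      · exact Or.inr ⟨⟨Or.inl hxC, fun h' => h (Or.inr ⟨h', hxC⟩)⟩, hxC⟩
      · exact Or.inl ⟨⟨hx, hxC⟩, fun h' => h (Or.inl ⟨h', hxC⟩)⟩
    · rintro (h | h)
      · refine ⟨h.1.1, ?_⟩
        rintro (h' | h')
        · exact h.2 h'.1
        · exact h.1.2 h'.2
      · refine ⟨hCU x h.2, ?_⟩
        rintro (h' | h')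
        · exact h'.2 h.2
        · exact h.1.2 h'.1
  unfold SG
  rw [hcr]
  refine ⟨⟨s, hS hs, Or.inl ⟨hsA, (hS1 s hs).2⟩⟩, ⟨t, hS ht, ?_⟩, ?_, ?_, hctr⟩
  · rintro (h | h)
    · exact htA h.1
    · exact (hS1 t ht).2 h.2
  · rw [e1]
    exact lgl_side h1.left h2.left Set.inter_subset_left
      (fun x hx hx' => ⟨hS1 x hx, (hag x hx).mpr hx'.2⟩) ⟨s, hs, Or.inr hs, hsA2⟩
  · rw [e2]
    exact lgl_side h1.right h2.right Set.sdiff_subset
      (fun x hx hx' => ⟨hS1 x hx, fun h => hx'.2 ((hag x hx).mp h)⟩) ⟨t, ht, Or.inr ht, htA2⟩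

end

end BND
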