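import Pool.Agent.BND.Prim
import Pool.Agent.BND.Cnx

set_option autoImplicit false

namespace BND

variable {V : Type}

/-! ### Module TRIV (file Triv.lean; uses CNX): a leaf on the side of `S` -/

section

variable {R F : SimpleGraph V} {U S C : Set V}

theorem triv_nbr {G : SimpleGraph V} (h3 : Three G U) (hS : S ⊆ U) (hcard : S.ncard = 3)
    (hC : IsComp G U S C) {s : V} (hs : s ∈ S) : ∃ c ∈ C, G.Adj c s := by
  have hfin : S.Finite := Set.finite_of_ncard_ne_zero (by omega)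
  have h2 : (S \ {s}).ncard = 2 := by
    rw [Set.ncard_sdiff_singleton_of_mem hs]
    omega
  obtain ⟨p, q, hpq, he⟩ := Set.ncard_eq_two.mp h2
  obtain ⟨c, hc⟩ := hC.ne
  have hnot : ∀ x ∈ S, x ≠ s → x = p ∨ x = q := by
    intro x hx hxs
    have : x ∈ S \ {s} := ⟨hx, hxs⟩
    rw [he] at this
    exact this
  have hps : p ∈ S ∧ p ≠ s := by
    have : p ∈ S \ {s} := by rw [he]; simp
    exact this
  have hqs : q ∈ S ∧ q ≠ s := by
    have : q ∈ S \ {s} := by rw [he]; simp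
    exact this
  obtain ⟨a, ha, b, hb, hab⟩ := h3.del p q C
    ⟨c, ⟨(hC.sub hc).1, by
      rintro (rfl | rfl)
      · exact (hC.sub hc).2 hps.1
      · exact (hC.sub hc).2 hqs.1⟩, hc⟩
    ⟨s, ⟨hS hs, by
      rintro (h | h)
      · exact hps.2 h.symm
      · exact hqs.2 h.symm⟩, fun h => (hC.sub h).2 hs⟩
  refine ⟨a, ha.2, ?_⟩
  have hbS : b ∈ S := by
    by_contra hbS
    exact hb.2 (hC.closed a ha.2 b ⟨hb.1.1, hbS⟩ hab)
  have hbs : b = s := by
    by_contra hbs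
    exact hb.1.2 (hnot b hbS hbs)
  rw [hbs] at hab
  exact hab

theorem triv_aux (h3 : Three (R ⊔ F) U) (hS : S ⊆ U) (hcard : S.ncard = 3)
    (hC : IsComp (R ⊔ F) U S C) {A1 : Set V} (h1 : SG R F (U \ C) A1)
    (hside : ∀ s ∈ S, s ∉ A1)
    (hne : ∀ s ∈ S, ∃ t ∈ S, ¬ (cross R (U \ C) A1).Reachable s t) :
    SG R F U (A1 \ C) := by
  have hSC : ∀ s ∈ S, s ∉ C := fun s hs h => (hC.sub h).2 hs
  have hK : cross R U (A1 \ C) = cross R (U \ C) A1 := by
    have key : ∀ u v, R.Adj u v → u ∈ U → v ∈ U → u ∈ A1 → u ∉ C → ¬ (v ∈ A1 ∧ v ∉ C) →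
        v ∉ C ∧ v ∉ A1 := by
      intro u v huv hu hv huA huC hvA
      have hvC : v ∉ C := by
        intro hvC
        exact huC (hC.closed v hvC u ⟨hu, fun h => hside u h huA⟩ (Or.inl huv.symm))
      exact ⟨hvC, fun h => hvA ⟨h, hvC⟩⟩
    ext u v
    constructor
    · rintro ⟨h, hu, hv, hc⟩
      by_cases huA : u ∈ A1 ∧ u ∉ C
      · have h4 := key u v h hu hv huA.1 huA.2 fun h5 => hc ⟨fun _ => h5, fun _ => huA⟩
        exact ⟨h, ⟨hu, huA.2⟩, ⟨hv, h4.1⟩, fun h5 => h4.2 (h5.mp huA.1)⟩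
      · have hvA : v ∈ A1 ∧ v ∉ C := by
          by_contra hvA
          exact hc ⟨fun h5 => absurd h5 huA, fun h5 => absurd h5 hvA⟩
        have h4 := key v u h.symm hv hu hvA.1 hvA.2 huA
        exact ⟨h, ⟨hu, h4.1⟩, ⟨hv, hvA.2⟩, fun h5 => h4.2 (h5.mpr hvA.1)⟩
    · rintro ⟨h, hu, hv, hc⟩
      refine ⟨h, hu.1, hv.1, fun h5 => hc ⟨fun h6 => ?_, fun h6 => ?_⟩⟩
      · exact (h5.mp ⟨h6, hu.2⟩).1
      · exact (h5.mpr ⟨h6, hv.2⟩).1
  have hUC : U ∩ (A1 \ C) = (U \ C) ∩ A1 := by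
    ext x
    simp only [Set.mem_inter_iff, Set.mem_sdiff]
    tauto
  obtain ⟨s0, hs0⟩ : S.Nonempty := Set.nonempty_of_ncard_ne_zero (by omega)
  have hiso : ∀ c ∈ C, ∀ v, ¬ (cross R (U \ C) A1).Adj c v := fun c hc v h => h.2.1.2 hc
  unfold SG
  rw [hK]
  refine ⟨?_, ?_, ?_, ?_, ?_⟩
  · rw [hUC]; exact h1.ne
  · obtain ⟨x, hx, hxA⟩ := h1.ne'
    exact ⟨x, hx.1, fun h => hxA h.1⟩
  · rw [hUC]; exact h1.left
  · have e : U \ (A1 \ C) = C ∪ ((U \ C) \ A1) := by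
      ext x
      simp only [Set.mem_union, Set.mem_sdiff]
      constructor
      · rintro ⟨hx, hx'⟩
        by_cases hxC : x ∈ C
        · exact Or.inl hxC
        · exact Or.inr ⟨⟨hx, hxC⟩, fun h => hx' ⟨h, hxC⟩⟩
      · rintro (hx | hx)
        · exact ⟨(hC.sub hx).1, fun h => h.2 hx⟩
        · exact ⟨hx.1.1, fun h => hx.2 h.1⟩
    rw [e]
    obtain ⟨c, hc, hcs⟩ := triv_nbr h3 hS hcard hC hs0
    exact hC.con.union_adj h1.right hc ⟨⟨hS hs0, hSC s0 hs0⟩, hside s0 hs0⟩ hcs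
  · refine ⟨h3.two.con, ?_, ?_, ?_, ?_⟩
    · intro u v huv
      exact ⟨Or.inl huv.1, huv.2.1.1, huv.2.2.1.1⟩
    · intro u hu v hv huv hr
      by_cases huC : u ∈ C
      · exact absurd (reach_isolated (hiso u huC) hr) huv.ne
      by_cases hvC : v ∈ C
      · exact absurd (reach_isolated (hiso v hvC) hr.symm).symm huv.ne
      exact h1.ctr.strict u ⟨hu, huC⟩ v ⟨hv, hvC⟩ huv hr
    · intro v hv
      by_cases hvC : v ∈ C
      · have e : {w | w ∈ U ∧ ¬ (cross R (U \ C) A1).Reachable v w} = U \ {v} := by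
          ext w
          simp only [Set.mem_ofPred_eq, Set.mem_sdiff, Set.mem_singleton_iff]
          constructor
          · rintro ⟨h4, h5⟩
            refine ⟨h4, ?_⟩
            rintro rfl
            exact h5 (SimpleGraph.Reachable.refl _)
          · rintro ⟨h4, h5⟩
            exact ⟨h4, fun h6 => h5 (reach_isolated (hiso v hvC) h6).symm⟩
        rw [e]
        exact h3.two.del v
      · have e : {w | w ∈ U ∧ ¬ (cross R (U \ C) A1).Reachable v w} =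
            C ∪ {w | w ∈ U \ C ∧ ¬ (cross R (U \ C) A1).Reachable v w} := by
          ext w
          simp only [Set.mem_ofPred_eq, Set.mem_union, Set.mem_sdiff]
          constructor
          · rintro ⟨h4, h5⟩
            by_cases hwC : w ∈ C
            · exact Or.inl hwC
            · exact Or.inr ⟨⟨h4, hwC⟩, h5⟩
          · rintro (h4 | h4)
            · refine ⟨(hC.sub h4).1, fun h6 => ?_⟩
              have := reach_isolated (hiso w h4) h6.symm
              rw [this] at h4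
              exact hvC h4
            · exact ⟨h4.1.1, h4.2⟩
        obtain ⟨t, ht, hvt⟩ : ∃ t ∈ S, ¬ (cross R (U \ C) A1).Reachable v t := by
          by_cases hvs : (cross R (U \ C) A1).Reachable v s0
          · obtain ⟨t, ht, hst⟩ := hne s0 hs0
            exact ⟨t, ht, fun h => hst (hvs.symm.trans h)⟩
          · exact ⟨s0, hs0, hvs⟩
        rw [e]
        obtain ⟨c, hc, hct⟩ := triv_nbr h3 hS hcard hC ht
        exact hC.con.union_adj (h1.ctr.con v ⟨hv, hvC⟩) hc ⟨⟨hS ht, hSC t ht⟩, hvt⟩ hct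
    · intro v hv
      by_cases hvC : v ∈ C
      · exact ⟨s0, hS hs0, fun h => hSC s0 hs0 (reach_isolated (hiso v hvC) h ▸ hvC)⟩
      · obtain ⟨w, hw, hw'⟩ := h1.ctr.ne v ⟨hv, hvC⟩
        exact ⟨w, hw.1, hw'⟩

/-- `S` is on one side and not in one class: the leaf goes to the side of `S`. -/
theorem leaf_trivial (h3 : Three (R ⊔ F) U) (hS : S ⊆ U) (hcard : S.ncard = 3)
    (hC : IsComp (R ⊔ F) U S C) {A1 : Set V} (h1 : SG R F (U \ C) A1)
    (hside : ∀ s ∈ S, ∀ t ∈ S, s ∈ A1 ↔ t ∈ A1)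
    (hne : ∀ s ∈ S, ∃ t ∈ S, ¬ (cross R (U \ C) A1).Reachable s t) :
    ∃ A, SG R F U A ∧ ∀ u ∈ U \ C, ∀ v ∈ U \ C, (u ∈ A1 ↔ v ∈ A1) → (u ∈ A ↔ v ∈ A) := by
  by_cases hA : ∀ s ∈ S, s ∉ A1
  · refine ⟨A1 \ C, triv_aux h3 hS hcard hC h1 hA hne, ?_⟩
    intro u hu v hv huv
    exact ⟨fun h => ⟨huv.mp h.1, hv.2⟩, fun h => ⟨huv.mpr h.1, hu.2⟩⟩
  · have hA' : ∀ s ∈ S, s ∉ A1ᶜ := by
      push Not at hA
      obtain ⟨t, ht, htA⟩ := hA
      intro s hs hsA
      exact hsA ((hside s hs t ht).mpr htA)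
    refine ⟨A1ᶜ \ C, triv_aux h3 hS hcard hC h1.compl hA' (by rw [cross_compl]; exact hne), ?_⟩
    intro u hu v hv huv
    exact ⟨fun h => ⟨fun h' => h.1 (huv.mpr h'), hv.2⟩, fun h => ⟨fun h' => h.1 (huv.mp h'), hu.2⟩⟩

end

end BND
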