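import Pool.Agent.BND.Prim
import Pool.Agent.BND.Lgl
import Pool.Agent.BND.Inn
import Pool.Agent.BND.Triv
import Pool.Agent.BND.Alm
import Pool.Agent.BND.Pie
import Pool.Agent.BND.Twc

set_option autoImplicit false

namespace BND

variable {V : Type}

/-! ### Module DEL (file Del.lean; uses LGL INN TRIV ALM PIE TWC): delete one leaf -/

section

variable {K : SimpleGraph V} {S : Set V} {x y z : V}

theorem del_part (hmem : ∀ s ∈ S, s = x ∨ s = y ∨ s = z) (hyz : y ≠ z) (ryz : K.Reachable y z)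
    (nxy : ¬ K.Reachable x y) (nxz : ¬ K.Reachable x z) :
    ∀ s ∈ S, ∀ t ∈ S, K.Reachable s t ↔ (SimpleGraph.edge y z).Reachable s t := by
  intro s hs t ht
  have hadj := inn_edge_adj hyz
  constructor
  · intro hr
    rcases hmem s hs with rfl | rfl | rfl <;> rcases hmem t ht with rfl | rfl | rfl
    · exact SimpleGraph.Reachable.refl _
    · exact absurd hr nxy
    · exact absurd hr nxz
    · exact absurd hr.symm nxy
    · exact SimpleGraph.Reachable.refl _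
    · exact hadj.reachable
    · exact absurd hr.symm nxz
    · exact hadj.symm.reachable
    · exact SimpleGraph.Reachable.refl _
  · intro hr
    rcases inn_edge_reach hr with h | ⟨h1, h2⟩ | ⟨h1, h2⟩
    · rw [h]
    · rw [h1, h2]; exact ryz
    · rw [h1, h2]; exact ryz.symm

theorem del_part_bot (hmem : ∀ s ∈ S, s = x ∨ s = y ∨ s = z) (nyz : ¬ K.Reachable y z)
    (nxy : ¬ K.Reachable x y) (nxz : ¬ K.Reachable x z) :
    ∀ s ∈ S, ∀ t ∈ S, K.Reachable s t ↔ (⊥ : SimpleGraph V).Reachable s t := by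
  intro s hs t ht
  rw [SimpleGraph.reachable_bot]
  constructor
  · intro hr
    rcases hmem s hs with rfl | rfl | rfl <;> rcases hmem t ht with rfl | rfl | rfl
    · rfl
    · exact absurd hr nxy
    · exact absurd hr nxz
    · exact absurd hr.symm nxy
    · rfl
    · exact absurd hr nyz
    · exact absurd hr.symm nxz
    · exact absurd hr.symm nyz
    · rfl
  · intro h
    rw [h]

theorem del_ne_edge (hmem : ∀ s ∈ S, s = x ∨ s = y ∨ s = z) (hx : x ∈ S) (hy : y ∈ S)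
    (hxy : x ≠ y) (hxz : x ≠ z) :
    ∀ s ∈ S, ∃ t ∈ S, ¬ (SimpleGraph.edge y z).Reachable s t := by
  intro s hs
  rcases hmem s hs with rfl | rfl | rfl
  · refine ⟨y, hy, fun hr => ?_⟩
    rcases inn_edge_reach hr with h | ⟨h, -⟩ | ⟨h, -⟩
    · exact hxy h
    · exact hxy h
    · exact hxz h
  · refine ⟨x, hx, fun hr => ?_⟩
    rcases inn_edge_reach hr with h | ⟨-, h⟩ | ⟨-, h⟩
    · exact hxy h.symm
    · exact hxz h
    · exact hxy h
  · refine ⟨x, hx, fun hr => ?_⟩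
    rcases inn_edge_reach hr with h | ⟨-, h⟩ | ⟨-, h⟩
    · exact hxz h.symm
    · exact hxz h
    · exact hxy h

end

section

variable [Finite V] {R F : SimpleGraph V} {U S C0 C1 C2 : Set V} {crit : V → V → Prop} {a b : V}

omit [Finite V] in
/-- gluing, after complementing the cut of the leaf if necessary -/
theorem del_glue (hbase : Con (R ⊔ F) U) (hS : S ⊆ U) (hC : IsComp (R ⊔ F) U S C1)
    {x y z : V} (hmem : ∀ s ∈ S, s = x ∨ s = y ∨ s = z) (hx : x ∈ S) (hy : y ∈ S)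
    {A1 A2 : Set V} {T : SimpleGraph V} (h1 : SG R F (U \ C1) A1) (h2 : LO R F C1 S A2 T)
    (hT : T ≤ tri S) (hx1 : x ∈ A1) (hy1 : y ∉ A1) (hz1 : z ∉ A1) (hyz2 : y ∈ A2 ↔ z ∈ A2)
    (hxy2 : ¬ (x ∈ A2 ↔ y ∈ A2))
    (hpart : ∀ s ∈ S, ∀ t ∈ S, (cross R (U \ C1) A1).Reachable s t ↔ T.Reachable s t)
    (hne : ∀ s ∈ S, ∃ t ∈ S, ¬ T.Reachable s t) (ha : a ∉ C1) (hb : b ∉ C1)
    (hab : a ∈ A1 ↔ b ∈ A1) : ∃ A, SG R F U A ∧ (a ∈ A ↔ b ∈ A) := by
  have key : ∀ A2 : Set V, LO R F C1 S A2 T → x ∈ A2 → y ∉ A2 → z ∉ A2 →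
      ∃ A, SG R F U A ∧ (a ∈ A ↔ b ∈ A) := by
    intro A2 h2 hx2 hy2 hz2
    refine ⟨A1 \ C1 ∪ A2 ∩ C1, leaf_glue hbase hS hC h1 h2 hT ?_ hpart hne
      ⟨x, hx, y, hy, hx1, hy1⟩, ?_⟩
    · intro s hs
      rcases hmem s hs with rfl | rfl | rfl
      · exact ⟨fun _ => hx2, fun _ => hx1⟩
      · exact ⟨fun h => absurd h hy1, fun h => absurd h hy2⟩
      · exact ⟨fun h => absurd h hz1, fun h => absurd h hz2⟩
    · have m1 : ∀ p, p ∉ C1 → (p ∈ A1 \ C1 ∪ A2 ∩ C1 ↔ p ∈ A1) := by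
        intro p hp
        constructor
        · rintro (h | h)
          · exact h.1
          · exact absurd h.2 hp
        · exact fun h => Or.inl ⟨h, hp⟩
      rw [m1 a ha, m1 b hb]
      exact hab
  by_cases hx2 : x ∈ A2
  · have hy2 : y ∉ A2 := fun h => hxy2 ⟨fun _ => h, fun _ => hx2⟩
    exact key A2 h2 hx2 hy2 (fun h => hy2 (hyz2.mpr h))
  · have hy2 : y ∈ A2 := by
      by_contra hy2
      exact hxy2 ⟨fun h => absurd h hx2, fun h => absurd h hy2⟩
    exact key A2ᶜ h2.compl hx2 (fun h => h hy2) (fun h => h (hyz2.mp hy2))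

/-- the core of both statements: `x` is separated from `y`, `z` -/
theorem del_core (hcls : Cls R F U) (h3 : Three (R ⊔ F) U)
    (h : IsHub (R ⊔ F) U S C0 C1 C2) (hf : LeafFacts R F C1 S crit)
    {x y z : V} (hxy : x ≠ y) (hxz : x ≠ z) (hyz : y ≠ z) (hSe : S = {x, y, z}) {A1 : Set V}
    (hA1 : SG R F (U \ C1) A1) (hx1 : x ∈ A1) (hy1 : y ∉ A1) (hz1 : z ∉ A1)
    (hcy : (cross R (U \ C1) A1).Reachable x y → ¬ crit x y)
    (hcz : (cross R (U \ C1) A1).Reachable x z → ¬ crit x z)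
    (ha : a ∉ C1) (hb : b ∉ C1)
    (hab : a ∈ A1 ↔ b ∈ A1) : ∃ A, SG R F U A ∧ (a ∈ A ↔ b ∈ A) := by
  have hx : x ∈ S := by rw [hSe]; exact Or.inl rfl
  have hy : y ∈ S := by rw [hSe]; exact Or.inr (Or.inl rfl)
  have hz : z ∈ S := by rw [hSe]; exact Or.inr (Or.inr rfl)
  have hmem : ∀ s ∈ S, s = x ∨ s = y ∨ s = z := by
    intro s hs
    rw [hSe] at hs
    rcases hs with h' | h' | h'
    · exact Or.inl h'
    · exact Or.inr (Or.inl h')
    · exact Or.inr (Or.inr (Set.mem_singleton_iff.mp h'))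
  have hR1 := hub_del_two h3 h
  have hbase : Con (R ⊔ F) U := hcls.two.con
  have hSW : ∀ s ∈ S, s ∈ U \ C1 := fun s hs => ⟨h.sub hs, inn_notMem h.c1 hs⟩
  have hnall := not_all_merged h3 h hA1 ⟨x, hx, y, hy, hx1, hy1⟩
  have hall : ∀ {A : Set V}, (y ∈ A ↔ z ∈ A) → (x ∈ A ↔ y ∈ A) →
      ∀ s ∈ S, ∀ t ∈ S, s ∈ A ↔ t ∈ A := by
    intro A e1 e2 s hs t ht
    rcases hmem s hs with rfl | rfl | rfl <;> rcases hmem t ht with rfl | rfl | rfl <;> tauto
  have hedge : ∀ p ∈ S, ∀ q ∈ S, SimpleGraph.edge p q ≤ tri S := by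
    intro p hp q hq u v huv
    rw [SimpleGraph.edge_adj] at huv
    refine ⟨huv.2, ?_⟩
    rcases huv.1 with ⟨h1, h2⟩ | ⟨h1, h2⟩
    · rw [h1, h2]; exact ⟨hp, hq⟩
    · rw [h1, h2]; exact ⟨hq, hp⟩
  set K1 := cross R (U \ C1) A1 with hK1
  by_cases ryz : K1.Reachable y z
  · -- y ~ z
    have nxy : ¬ K1.Reachable x y := by
      intro r
      obtain ⟨t, ht, hnt⟩ := hnall x hx
      rcases hmem t ht with rfl | rfl | rfl
      · exact hnt (SimpleGraph.Reachable.refl _)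
      · exact hnt r
      · exact hnt (r.trans ryz)
    have nxz : ¬ K1.Reachable x z := fun r => nxy (r.trans ryz.symm)
    have hnyz : ¬ (R ⊔ F).Adj y z := by
      intro hadj
      have := hA1.ctr.strict y (hSW y hy) z (hSW z hz) hadj ryz
      exact this.2.2.2 ⟨fun h' => absurd h' hy1, fun h' => absurd h' hz1⟩
    obtain ⟨A2, e2, hA2⟩ := hf.A3 x y z hxy hxz hyz hSe
    by_cases hsame : (x ∈ A2 ↔ y ∈ A2)
    · have hSe' : S = {y, z, x} := by
        rw [hSe]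
        ext w
        simp only [Set.mem_insert_iff, Set.mem_singleton_iff]
        tauto
      have hc1 := h.c1
      have hsub := h.sub
      have hall' := hall e2 hsame
      rw [hSe'] at hc1 hsub hA2 hall'
      exact good_of_inner_edge h3 hsub hyz hxy.symm hxz.symm hc1 hR1 hnyz hall' hA2 ha hb
    · exact del_glue hbase h.sub h.c1 hmem hx hy hA1 hA2 (hedge y hy z hz) hx1 hy1 hz1 e2 hsame
        (del_part hmem hyz ryz nxy nxz) (del_ne_edge hmem hx hy hxy hxz) ha hb hab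
  by_cases rxy : K1.Reachable x y
  · -- x ~ y
    have nxz : ¬ K1.Reachable x z := fun r => ryz (rxy.symm.trans r)
    obtain ⟨A2, e2, hA2⟩ := hf.A2 x y z hxy hxz hyz hSe (hcy rxy)
    rcases hA2 with ⟨hsame, hA2⟩ | ⟨hsame, hA2⟩
    · exact good_of_inner hcls.two h.sub h.c1 hR1 h.card (hall e2 hsame) hA2 ha hb
    · have hmem' : ∀ s ∈ S, s = z ∨ s = x ∨ s = y := fun s hs => by
        rcases hmem s hs with h' | h' | h'
        · exact Or.inr (Or.inl h')
        · exact Or.inr (Or.inr h')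
        · exact Or.inl h'
      exact del_glue hbase h.sub h.c1 hmem hx hy hA1 hA2 (hedge x hx y hy) hx1 hy1 hz1 e2 hsame
        (del_part hmem' hxy rxy (fun r => nxz r.symm) (fun r => ryz r.symm))
        (del_ne_edge hmem' hz hx hxz.symm hyz.symm) ha hb hab
  by_cases rxz : K1.Reachable x z
  · -- x ~ z
    have hSe' : S = {x, z, y} := by
      rw [hSe]
      ext w
      simp only [Set.mem_insert_iff, Set.mem_singleton_iff]
      tauto
    obtain ⟨A2, e2, hA2⟩ := hf.A2 x z y hxz hxy hyz.symm hSe' (hcz rxz)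
    rcases hA2 with ⟨hsame, hA2⟩ | ⟨hsame, hA2⟩
    · exact good_of_inner hcls.two h.sub h.c1 hR1 h.card
        (hall e2.symm (hsame.trans e2)) hA2 ha hb
    · have hmem' : ∀ s ∈ S, s = y ∨ s = x ∨ s = z := fun s hs => by
        rcases hmem s hs with h' | h' | h'
        · exact Or.inr (Or.inl h')
        · exact Or.inl h'
        · exact Or.inr (Or.inr h')
      have hmem'' : ∀ s ∈ S, s = x ∨ s = z ∨ s = y := fun s hs => by
        rcases hmem s hs with h' | h' | h'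
        · exact Or.inl h'
        · exact Or.inr (Or.inr h')
        · exact Or.inr (Or.inl h')
      exact del_glue hbase h.sub h.c1 hmem'' hx hz hA1 hA2 (hedge x hx z hz) hx1 hz1 hy1 e2 hsame
        (del_part hmem' hxz rxz (fun r => rxy r.symm) ryz)
        (del_ne_edge hmem' hy hx hxy.symm hyz) ha hb hab
  · -- discrete
    obtain ⟨A2, e2, hA2⟩ := hf.A1 x y z hxy hxz hyz hSe
    by_cases hsame : (x ∈ A2 ↔ y ∈ A2)
    · exact good_of_inner hcls.two h.sub h.c1 hR1 h.card (hall e2 hsame) hA2 ha hb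
    · exact del_glue hbase h.sub h.c1 hmem hx hy hA1 hA2 bot_le hx1 hy1 hz1 e2 hsame
        (del_part_bot hmem ryz rxy rxz)
        (fun s hs => by
          rcases hmem s hs with rfl | rfl | rfl
          · exact ⟨y, hy, fun hr => hxy (SimpleGraph.reachable_bot.mp hr)⟩
          · exact ⟨x, hx, fun hr => hxy (SimpleGraph.reachable_bot.mp hr).symm⟩
          · exact ⟨x, hx, fun hr => hxz (SimpleGraph.reachable_bot.mp hr).symm⟩) ha hb hab

/-- `S` is split. -/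
theorem del_split (hcls : Cls R F U) (h3 : Three (R ⊔ F) U)
    (h : IsHub (R ⊔ F) U S C0 C1 C2) (hf : LeafFacts R F C1 S crit) {A1 : Set V}
    (hA1 : SG R F (U \ C1) A1)
    (hcr : ∀ x ∈ S, ∀ y ∈ S, x ≠ y → ¬ (x ∈ A1 ↔ y ∈ A1) →
      (cross R (U \ C1) A1).Reachable x y → ¬ crit x y)
    (hsp : ∃ s ∈ S, ∃ t ∈ S, s ∈ A1 ∧ t ∉ A1) (ha : a ∉ C1) (hb : b ∉ C1)
    (hab : a ∈ A1 ↔ b ∈ A1) : ∃ A, SG R F U A ∧ (a ∈ A ↔ b ∈ A) := by
  obtain ⟨s, hs, t, ht, hsA, htA⟩ := hsp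
  have hst : s ≠ t := fun h' => htA (h' ▸ hsA)
  obtain ⟨x, y, hxy, hxs, hys, hSe⟩ := pie_triple h.card hs
  have htxy : t = x ∨ t = y := by
    rw [hSe] at ht
    rcases ht with h' | h' | h'
    · exact absurd h'.symm hst
    · exact Or.inl h'
    · exact Or.inr (Set.mem_singleton_iff.mp h')
  -- the third vertex
  obtain ⟨r, hrs, hrt, hSr⟩ : ∃ r, r ≠ s ∧ r ≠ t ∧ S = {s, t, r} := by
    rcases htxy with rfl | rfl
    · exact ⟨y, hys, hxy.symm, hSe⟩
    · refine ⟨x, hxs, hxy, ?_⟩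
      rw [hSe]
      ext w
      simp only [Set.mem_insert_iff, Set.mem_singleton_iff]
      tauto
  have hr : r ∈ S := by rw [hSr]; exact Or.inr (Or.inr rfl)
  by_cases hrA : r ∈ A1
  · -- `t` is alone; complement
    have hSr' : S = {t, s, r} := by
      rw [hSr]
      ext w
      simp only [Set.mem_insert_iff, Set.mem_singleton_iff]
      tauto
    refine del_core hcls h3 h hf hst.symm hrt.symm hrs.symm hSr' hA1.compl htA
      (fun h' => h' hsA) (fun h' => h' hrA) ?_ ?_ ha hb ?_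
    · rw [cross_compl]
      exact hcr t ht s hs hst.symm fun h' => htA (h'.mpr hsA)
    · rw [cross_compl]
      exact hcr t ht r hr hrt.symm fun h' => htA (h'.mpr hrA)
    · rw [Set.mem_compl_iff, Set.mem_compl_iff, hab]
  · exact del_core hcls h3 h hf hst hrs.symm hrt.symm hSr hA1 hsA htA hrA
      (hcr s hs t ht hst fun h' => htA (h'.mp hsA))
      (hcr s hs r hr hrs.symm fun h' => hrA (h'.mp hsA)) ha hb hab

/-- the induction hypothesis for the deletion of `C1` -/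
theorem del_ih (ih : IH U) (hcls : Cls R F U) (h3 : Three (R ⊔ F) U)
    (h : IsHub (R ⊔ F) U S C0 C1 C2)
    (ha : a ∈ C0 ∪ S) (hb : b ∈ C0 ∪ S) (hab : R.Adj a b) :
    (a ∉ C1 ∧ b ∉ C1) ∧ ∃ A1, SG R F (U \ C1) A1 ∧ (a ∈ A1 ↔ b ∈ A1) := by
  have hmem : ∀ p ∈ C0 ∪ S, p ∈ U \ C1 := by
    rintro p (hp | hp)
    · exact ⟨(h.c0.sub hp).1, fun h' => Set.disjoint_left.mp h.d01 hp h'⟩
    · exact ⟨h.sub hp, inn_notMem h.c1 hp⟩
  refine ⟨⟨(hmem a ha).2, (hmem b hb).2⟩, ?_⟩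
  refine ih R F (U \ C1) ?_ ?_ a (hmem a ha) b (hmem b hb) hab
  · obtain ⟨c, hc⟩ := h.c1.ne
    refine Set.ncard_lt_ncard ⟨Set.sdiff_subset, fun h' => ?_⟩ (Set.toFinite _)
    exact (h' (h.c1.sub hc).1).2 hc
  · exact ⟨hub_del_two h3 h, fun p hp q hq r hr => hcls.tri p hp.1 q hq.1 r hr.1, hcls.disj,
      hcls.k5.mono Set.sdiff_subset fun _ _ _ _ h' => h'⟩

/-- Type beta. -/
theorem del_beta (ih : IH U) (hcls : Cls R F U) (h3 : Three (R ⊔ F) U)
    (h : IsHub (R ⊔ F) U S C0 C1 C2) (hf : LeafFacts R F C1 S crit)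
    (hb1 : ∀ x ∈ S, ∀ y ∈ S, x ≠ y → crit x y → F.Adj x y) (hb2 : ∃ x ∈ S, ∃ y ∈ S, F.Adj x y)
    (ha : a ∈ C0 ∪ S) (hb : b ∈ C0 ∪ S) (hab : R.Adj a b) :
    ∃ A, SG R F U A ∧ (a ∈ A ↔ b ∈ A) := by
  obtain ⟨⟨haC, hbC⟩, A1, hA1, hab1⟩ := del_ih ih hcls h3 h ha hb hab
  have hSW : ∀ s ∈ S, s ∈ U \ C1 := fun s hs => ⟨h.sub hs, inn_notMem h.c1 hs⟩
  have haW : a ∈ U \ C1 := by
    refine ⟨?_, haC⟩
    rcases ha with h' | h'
    · exact (h.c0.sub h').1
    · exact h.sub h'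
  have hbW : b ∈ U \ C1 := by
    refine ⟨?_, hbC⟩
    rcases hb with h' | h'
    · exact (h.c0.sub h').1
    · exact h.sub h'
  have hfat : ∀ x ∈ S, ∀ y ∈ S, F.Adj x y → ¬ (cross R (U \ C1) A1).Reachable x y := by
    intro x hx y hy hxy hr
    have := hA1.ctr.strict x (hSW x hx) y (hSW y hy) (Or.inr hxy) hr
    exact hcls.disj x y this.1 hxy
  by_cases hside : ∀ s ∈ S, ∀ t ∈ S, s ∈ A1 ↔ t ∈ A1
  · by_cases hne : ∀ s ∈ S, ∃ t ∈ S, ¬ (cross R (U \ C1) A1).Reachable s t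
    · obtain ⟨A, hA, hA'⟩ := leaf_trivial h3 h.sub h.card h.c1 hA1 hside hne
      exact ⟨A, hA, hA' a haW b hbW hab1⟩
    · push Not at hne
      obtain ⟨s, hs, hall⟩ := hne
      obtain ⟨x, hx, y, hy, hxy⟩ := hb2
      exact absurd ((hall x hx).symm.trans (hall y hy)) (hfat x hx y hy hxy)
  · push Not at hside
    obtain ⟨s, hs, t, ht, hst⟩ := hside
    refine del_split hcls h3 h hf hA1 ?_ ?_ haC hbC hab1
    · intro x hx y hy hxy _ hr hc
      exact hfat x hx y hy (hb1 x hx y hy hxy hc) hr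
    · rcases hst with ⟨h1, h2⟩ | ⟨h1, h2⟩
      · exact ⟨s, hs, t, ht, h1, h2⟩
      · exact ⟨t, ht, s, hs, h2, h1⟩

/-- Type alpha: delete `C1`; `C2` has a common real neighbour of every pair. -/
theorem del_alpha (ih : IH U) (hcls : Cls R F U) (h3 : Three (R ⊔ F) U)
    (h : IsHub (R ⊔ F) U S C0 C1 C2) (hf : LeafFacts R F C1 S crit)
    (hc2 : ∀ x ∈ S, ∀ y ∈ S, x ≠ y → ∃ c ∈ C2, R.Adj c x ∧ R.Adj c y)
    (ha : a ∈ C0 ∪ S) (hb : b ∈ C0 ∪ S) (hab : R.Adj a b) :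
    (∃ A, SG R F U A ∧ (a ∈ A ↔ b ∈ A)) ∨
    (U = S ∪ C0 ∪ C1 ∪ C2 ∧ (∀ s ∈ S, ∀ t ∈ S, ¬ (R ⊔ F).Adj s t) ∧
      ∃ w, C2 = {w} ∧ ∀ s ∈ S, R.Adj w s) := by
  obtain ⟨⟨haC, hbC⟩, A1, hA1, hab1⟩ := del_ih ih hcls h3 h ha hb hab
  have hSW : ∀ s ∈ S, s ∈ U \ C1 := fun s hs => ⟨h.sub hs, inn_notMem h.c1 hs⟩
  have haW : a ∈ U \ C1 := by
    refine ⟨?_, haC⟩
    rcases ha with h' | h'
    · exact (h.c0.sub h').1
    · exact h.sub h'
  have hbW : b ∈ U \ C1 := by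
    refine ⟨?_, hbC⟩
    rcases hb with h' | h'
    · exact (h.c0.sub h').1
    · exact h.sub h'
  by_cases hside : ∀ s ∈ S, ∀ t ∈ S, s ∈ A1 ↔ t ∈ A1
  · by_cases hne : ∀ s ∈ S, ∃ t ∈ S, ¬ (cross R (U \ C1) A1).Reachable s t
    · obtain ⟨A, hA, hA'⟩ := leaf_trivial h3 h.sub h.card h.c1 hA1 hside hne
      exact Or.inl ⟨A, hA, hA' a haW b hbW hab1⟩
    · push Not at hne
      obtain ⟨s, hs, hall⟩ := hne
      obtain ⟨e1, e2, w, hw, hws⟩ := all_merged h3 h hA1 hside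
        (fun p hp q hq => (hall p hp).symm.trans (hall q hq))
      rcases hw with hw | hw
      · exfalso
        have hor : ∀ p ∈ C0 ∪ S, p = w ∨ p ∈ S := by
          rintro p (hp | hp)
          · rw [hw] at hp
            exact Or.inl hp
          · exact Or.inr hp
        rcases hor a ha with haw | haS
        · rcases hor b hb with hbw | hbS
          · exact hab.ne (haw.trans hbw.symm)
          · have := hws b hbS
            rw [← haw] at this
            exact this.2.2.2 hab1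
        · rcases hor b hb with hbw | hbS
          · have := hws a haS
            rw [← hbw] at this
            exact this.2.2.2 hab1.symm
          · exact e2 a haS b hbS (Or.inl hab)
      · exact Or.inr ⟨e1, e2, w, hw, fun s hs => (hws s hs).1⟩
  · push Not at hside
    obtain ⟨s, hs, t, ht, hst⟩ := hside
    left
    refine del_split hcls h3 h hf hA1 ?_ ?_ haC hbC hab1
    · -- `x`, `y` on different sides are not in one class
      intro x hx y hy hxy hcr hr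
      exfalso
      obtain ⟨c, hc, hcx, hcy⟩ := hc2 x hx y hy hxy
      have hcW : c ∈ U \ C1 := ⟨(h.c2.sub hc).1, fun h' => Set.disjoint_left.mp h.d12 h' hc⟩
      by_cases hcA : (c ∈ A1 ↔ x ∈ A1)
      · have h1 : (cross R (U \ C1) A1).Adj c y :=
          ⟨hcy, hcW, hSW y hy, fun h' => hcr (hcA.symm.trans h')⟩
        have h2 := hA1.ctr.strict c hcW x (hSW x hx) (Or.inl hcx) (h1.reachable.trans hr.symm)
        exact h2.2.2.2 hcA
      · have h1 : (cross R (U \ C1) A1).Adj c x := ⟨hcx, hcW, hSW x hx, hcA⟩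
        have h2 := hA1.ctr.strict c hcW y (hSW y hy) (Or.inl hcy) (h1.reachable.trans hr)
        have h3 := h2.2.2.2
        tauto
    · rcases hst with ⟨h1, h2⟩ | ⟨h1, h2⟩
      · exact ⟨s, hs, t, ht, h1, h2⟩
      · exact ⟨t, ht, s, hs, h2, h1⟩

end

end BND
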