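import Pool.Agent.BND.Prim
import Pool.Agent.BND.Cnx
import Pool.Agent.BND.Pie

set_option autoImplicit false

namespace BND

variable {V : Type}

/-! ### Module HUB (file Hub.lean; uses CNX PIE): the choice of the hub -/

section

variable [Finite V] {G : SimpleGraph V} {U S C0 C1 C2 : Set V}

omit [Finite V] in
/-- Any component may be chosen to be the first one. -/
theorem hub_choose_first (h : IsHub G U S C0 C1 C2) {D : Set V} (hD : IsComp G U S D) :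
    ∃ D1 D2, IsHub G U S D D1 D2 := by
  rcases h.c0.eq_or_disjoint hD with h0 | h0
  · subst h0
    exact ⟨C1, C2, h⟩
  rcases h.c1.eq_or_disjoint hD with h1 | h1
  · subst h1
    exact ⟨C0, C2, ⟨h.sub, h.card, h.c1, h.c0, h.c2, h.d01.symm, h.d12, h.d02⟩⟩
  · rcases h.c2.eq_or_disjoint hD with h2 | h2
    · subst h2
      exact ⟨C0, C1, ⟨h.sub, h.card, h.c2, h.c0, h.c1, h.d02.symm, h.d12.symm, h.d01⟩⟩
    · exact ⟨C1, C2, ⟨h.sub, h.card, hD, h.c1, h.c2, h1.symm, h2.symm, h.d12⟩⟩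

omit [Finite V] in
/-- The edge `a b` lies in `D ∪ S` for some component `D`. -/
theorem hub_edge_comp (h : IsHub G U S C0 C1 C2) {a b : V} (ha : a ∈ U) (hb : b ∈ U)
    (hab : G.Adj a b) : ∃ D, IsComp G U S D ∧ a ∈ D ∪ S ∧ b ∈ D ∪ S := by
  by_cases haS : a ∈ S
  · by_cases hbS : b ∈ S
    · exact ⟨C0, h.c0, Or.inr haS, Or.inr hbS⟩
    · obtain ⟨D, hD, hbD⟩ := exists_isComp G U S (v := b) ⟨hb, hbS⟩
      exact ⟨D, hD, Or.inr haS, Or.inl hbD⟩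
  · obtain ⟨D, hD, haD⟩ := exists_isComp G U S (v := a) ⟨ha, haS⟩
    by_cases hbS : b ∈ S
    · exact ⟨D, hD, Or.inl haD, Or.inr hbS⟩
    · exact ⟨D, hD, Or.inl haD, Or.inl (hD.closed a haD b ⟨hb, hbS⟩ hab)⟩

theorem exists_max_hub (h : ∃ S C0 C1 C2, IsHub G U S C0 C1 C2) {a b : V}
    (ha : a ∈ U) (hb : b ∈ U) (hab : G.Adj a b) :
    ∃ S C0 C1 C2, IsHub G U S C0 C1 C2 ∧ a ∈ C0 ∪ S ∧ b ∈ C0 ∪ S ∧
      ∀ S' C0' C1' C2', IsHub G U S' C0' C1' C2' → a ∈ C0' ∪ S' → b ∈ C0' ∪ S' →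
        C0'.ncard ≤ C0.ncard := by
  classical
  obtain ⟨S, C0, C1, C2, h⟩ := h
  obtain ⟨D, hD, haD, hbD⟩ := hub_edge_comp h ha hb hab
  obtain ⟨D1, D2, h'⟩ := hub_choose_first h hD
  let Q : ℕ → Prop := fun n => ∃ S C0 C1 C2, IsHub G U S C0 C1 C2 ∧ a ∈ C0 ∪ S ∧ b ∈ C0 ∪ S ∧
    C0.ncard = n
  have hbd : ∀ X : Set V, X.ncard ≤ (Set.univ : Set V).ncard := fun X =>
    Set.ncard_le_ncard (Set.subset_univ X) (Set.toFinite _)
  have hQ : Q D.ncard := ⟨S, D, D1, D2, h', haD, hbD, rfl⟩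
  obtain ⟨S0, E0, E1, E2, hE, haE, hbE, hn⟩ := Nat.findGreatest_spec (hbd D) hQ
  refine ⟨S0, E0, E1, E2, hE, haE, hbE, ?_⟩
  intro S' C0' C1' C2' hh ha' hb'
  rw [hn]
  exact Nat.le_findGreatest (hbd C0') ⟨S', C0', C1', C2', hh, ha', hb', rfl⟩

/-- For the maximal choice the leaf `C1` has no hub. -/
theorem leaf_no_hub (h3 : Three G U) {a b : V} (h : IsHub G U S C0 C1 C2)
    (ha : a ∈ C0 ∪ S) (hb : b ∈ C0 ∪ S)
    (hmax : ∀ S' C0' C1' C2', IsHub G U S' C0' C1' C2' → a ∈ C0' ∪ S' → b ∈ C0' ∪ S' →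
        C0'.ncard ≤ C0.ncard) :
    ¬ ∃ S' D0 D1 D2, IsHub (LG G C1 S) (C1 ∪ S) S' D0 D1 D2 := by
  rintro ⟨S', D0, D1, D2, h'⟩
  have hC1S : ∀ x ∈ C1, x ∉ S := fun x hx hxS => (h.c1.sub hx).2 hxS
  have hC0S : ∀ x ∈ C0, x ∉ S := fun x hx hxS => (h.c0.sub hx).2 hxS
  have hC1U : ∀ x ∈ C1, x ∈ U := fun x hx => (h.c1.sub hx).1
  have hC01 : ∀ x ∈ C0, x ∉ C1 := fun x hx hx' => Set.disjoint_left.mp h.d01 hx hx'
  have hS'U : S' ⊆ U := by
    intro x hx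
    rcases h'.sub hx with hx | hx
    · exact hC1U x hx
    · exact h.sub hx
  have hC0S' : ∀ x ∈ C0, x ∉ S' := by
    intro x hx hx'
    rcases h'.sub hx' with hx' | hx'
    · exact hC01 x hx hx'
    · exact hC0S x hx hx'
  -- `S'` is not `S`
  have hne : S' ≠ S := by
    intro he
    subst he
    have hcon : Con (LG G C1 S') C1 := by
      refine h.c1.con.mono_graph fun x hx y hy hxy => ?_
      exact Or.inl ⟨hxy, Or.inl ⟨hx, Or.inl hy⟩⟩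
    have hsub : C1 ⊆ (C1 ∪ S') \ S' := fun x hx => ⟨Or.inl hx, hC1S x hx⟩
    have key : ∀ D, IsComp (LG G C1 S') (C1 ∪ S') S' D → C1 ⊆ D := by
      intro D hD
      obtain ⟨x, hx⟩ := hD.ne
      have hx1 : x ∈ C1 := by
        rcases (hD.sub hx).1 with h1 | h1
        · exact h1
        · exact absurd h1 (hD.sub hx).2
      exact hD.sub_of_con hcon hsub ⟨x, hx, hx1⟩
    obtain ⟨x, hx⟩ := h.c1.ne
    exact Set.disjoint_left.mp h'.d01 (key D0 h'.c0 hx) (key D1 h'.c1 hx)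
  -- a vertex of `S` outside `S'`
  obtain ⟨s, hsS, hsS'⟩ : ∃ s ∈ S, s ∉ S' := by
    by_contra hcon
    push Not at hcon
    have hsub : S ⊆ S' := hcon
    refine hne (Set.eq_of_subset_of_ncard_le hsub ?_ (Set.toFinite _)).symm
    rw [h'.card, h.card]
  -- two components avoiding `S`
  have hmeet : ∀ D D', IsComp (LG G C1 S) (C1 ∪ S) S' D → IsComp (LG G C1 S) (C1 ∪ S) S' D' →
      Disjoint D D' → D ∩ S = ∅ ∨ D' ∩ S = ∅ := by
    intro D D' hD hD' hdis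
    by_contra hcon
    push Not at hcon
    obtain ⟨⟨x, hxD, hxS⟩, ⟨y, hyD, hyS⟩⟩ := hcon
    have hxy : x ≠ y := fun he => Set.disjoint_left.mp hdis hxD (he ▸ hyD)
    have hy' : y ∈ D := hD.closed x hxD y (hD'.sub hyD) (Or.inr ⟨hxy, hxS, hyS⟩)
    exact Set.disjoint_left.mp hdis hy' hyD
  obtain ⟨D, D', hD, hD', hdis, hDS, hDS'⟩ : ∃ D D', IsComp (LG G C1 S) (C1 ∪ S) S' D ∧
      IsComp (LG G C1 S) (C1 ∪ S) S' D' ∧ Disjoint D D' ∧ D ∩ S = ∅ ∧ D' ∩ S = ∅ := by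
    rcases hmeet D0 D1 h'.c0 h'.c1 h'.d01 with h0 | h1
    · rcases hmeet D1 D2 h'.c1 h'.c2 h'.d12 with h1 | h2
      · exact ⟨D0, D1, h'.c0, h'.c1, h'.d01, h0, h1⟩
      · exact ⟨D0, D2, h'.c0, h'.c2, h'.d02, h0, h2⟩
    · rcases hmeet D0 D2 h'.c0 h'.c2 h'.d02 with h0 | h2
      · exact ⟨D0, D1, h'.c0, h'.c1, h'.d01, h0, h1⟩
      · exact ⟨D1, D2, h'.c1, h'.c2, h'.d12, h1, h2⟩
  -- they are components of `G[U] - S'`
  have hcomp : ∀ E, IsComp (LG G C1 S) (C1 ∪ S) S' E → E ∩ S = ∅ →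
      IsComp G U S' E ∧ E ⊆ C1 := by
    intro E hE hES
    have hES' : ∀ x ∈ E, x ∉ S := fun x hx hxS => by
      have : x ∈ E ∩ S := ⟨hx, hxS⟩
      rw [hES] at this
      exact this
    have hEC : E ⊆ C1 := by
      intro x hx
      rcases (hE.sub hx).1 with h1 | h1
      · exact h1
      · exact absurd h1 (hES' x hx)
    refine ⟨⟨fun x hx => ⟨hC1U x (hEC hx), (hE.sub hx).2⟩, hE.ne, ?_, ?_⟩, hEC⟩
    · refine hE.con.mono_graph fun x hx y hy hxy => ?_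
      rcases hxy with hxy | hxy
      · exact hxy.1
      · exact absurd hxy.2.1 (hES' x hx)
    · intro c hc d hd hcd
      by_cases hdS : d ∈ S
      · exact hE.closed c hc d ⟨Or.inr hdS, hd.2⟩ (Or.inl ⟨hcd, Or.inl ⟨hEC hc, Or.inr hdS⟩⟩)
      · have hd1 : d ∈ C1 := h.c1.closed c (hEC hc) d ⟨hd.1, hdS⟩ hcd
        exact hE.closed c hc d ⟨Or.inl hd1, hd.2⟩ (Or.inl ⟨hcd, Or.inl ⟨hEC hc, Or.inl hd1⟩⟩)
  obtain ⟨hDc, hDC⟩ := hcomp D hD hDS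
  obtain ⟨hDc', hDC'⟩ := hcomp D' hD' hDS'
  -- the component of `s`
  obtain ⟨E, hE, hsE⟩ := exists_isComp G U S' (v := s) ⟨h.sub hsS, hsS'⟩
  have hnb : ∀ t ∈ S, ∃ c ∈ C0, G.Adj t c := fun t ht =>
    comp_nbr h3 h.sub h.card h.c0 h.c1 h.d01 ht
  have hC0E : C0 ⊆ E := by
    obtain ⟨c, hc, hsc⟩ := hnb s hsS
    have hcE : c ∈ E := hE.closed s hsE c ⟨(h.c0.sub hc).1, hC0S' c hc⟩ hsc
    exact hE.sub_of_con h.c0.con (fun x hx => ⟨(h.c0.sub hx).1, hC0S' x hx⟩) ⟨c, hcE, hc⟩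
  have hSE : ∀ t ∈ S, t ∉ S' → t ∈ E := by
    intro t ht ht'
    obtain ⟨c, hc, htc⟩ := hnb t ht
    exact hE.closed c (hC0E hc) t ⟨h.sub ht, ht'⟩ htc.symm
  have hmem : ∀ t ∈ C0 ∪ S, t ∈ E ∪ S' := by
    rintro t (ht | ht)
    · exact Or.inl (hC0E ht)
    · by_cases ht' : t ∈ S'
      · exact Or.inr ht'
      · exact Or.inl (hSE t ht ht')
  have hEne : ∀ X, IsComp G U S' X → X ⊆ C1 → Disjoint E X := by
    intro X hX hXC
    refine hE.disjoint hX fun he => ?_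
    rw [← he] at hXC
    exact hC1S s (hXC hsE) hsS
  have hhub : IsHub G U S' E D D' :=
    ⟨hS'U, h'.card, hE, hDc, hDc', hEne D hDc hDC, hEne D' hDc' hDC', hdis⟩
  have hle := hmax S' E D D' hhub (hmem a ha) (hmem b hb)
  have hlt : C0.ncard < E.ncard := by
    refine Set.ncard_lt_ncard ⟨hC0E, fun hcon => ?_⟩ (Set.toFinite _)
    exact hC0S s (hcon hsE) hsS
  omega

theorem hub_v8_no_triangle : ∀ i j k : Fin 8, i ≠ j → j ≠ k → i ≠ k →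
    (i - j = 1 ∨ j - i = 1 ∨ i - j = 4) → (j - k = 1 ∨ k - j = 1 ∨ j - k = 4) →
    (i - k = 1 ∨ k - i = 1 ∨ i - k = 4) → False := by decide

omit [Finite V] in
theorem leaf_not_v8 (hS : S.ncard = 3) : ¬ IsV8 (LG G C1 S) (C1 ∪ S) := by
  rintro ⟨e, he, hr, hadj⟩
  obtain ⟨x, y, z, hxy, hxz, hyz, rfl⟩ := Set.ncard_eq_three.mp hS
  have hpre : ∀ t ∈ ({x, y, z} : Set V), ∃ i, e i = t := by
    intro t ht
    have : t ∈ Set.range e := by rw [hr]; exact Or.inr ht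
    exact this
  have hx : x ∈ ({x, y, z} : Set V) := Or.inl rfl
  have hy : y ∈ ({x, y, z} : Set V) := Or.inr (Or.inl rfl)
  have hz : z ∈ ({x, y, z} : Set V) := Or.inr (Or.inr rfl)
  obtain ⟨i, hi⟩ := hpre x hx
  obtain ⟨j, hj⟩ := hpre y hy
  obtain ⟨k, hk⟩ := hpre z hz
  have key : ∀ p q : Fin 8, ∀ u v : V, e p = u → e q = v → u ≠ v →
      u ∈ ({x, y, z} : Set V) → v ∈ ({x, y, z} : Set V) → (p - q = 1 ∨ q - p = 1 ∨ p - q = 4) := by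
    intro p q u v hp hq huv hu hv
    rw [← hadj, hp, hq]
    exact Or.inr ⟨huv, hu, hv⟩
  refine hub_v8_no_triangle i j k ?_ ?_ ?_ (key i j x y hi hj hxy hx hy)
    (key j k y z hj hk hyz hy hz) (key i k x z hi hk hxz hx hz)
  · rintro rfl
    exact hxy (hi.symm.trans hj)
  · rintro rfl
    exact hyz (hj.symm.trans hk)
  · rintro rfl
    exact hxz (hi.symm.trans hk)

end

end BND
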