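import Pool.Agent.BND.Prim
import Pool.Agent.BND.Cnx

set_option autoImplicit false

namespace BND

variable {V : Type}

/-! ### Module STA (file Sta.lean; uses CNX): star lemma and the Wagner graph -/

theorem star_sg [Finite V] {R F : SimpleGraph V} {U : Set V} (hcls : Cls R F U) {v : V}
    (hv : v ∈ U)
    (hind : ∀ x ∈ U, ∀ y ∈ U, (R ⊔ F).Adj v x → (R ⊔ F).Adj v y → ¬ (R ⊔ F).Adj x y)
    (hcon : Con (R ⊔ F) {w | w ∈ U ∧ w ≠ v ∧ ¬ (R ⊔ F).Adj v w})
    (hne : {w | w ∈ U ∧ w ≠ v ∧ ¬ (R ⊔ F).Adj v w}.Nonempty)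
    (hnb : ∀ x ∈ U, (R ⊔ F).Adj v x → ∃ w ∈ U, w ≠ v ∧ ¬ (R ⊔ F).Adj v w ∧ (R ⊔ F).Adj x w) :
    SG R F U {v} := by
  set G := R ⊔ F with hG
  set W : Set V := {w | w ∈ U ∧ w ≠ v ∧ ¬ G.Adj v w} with hW
  set K := cross R U {v} with hK
  have hKadj : ∀ a b, K.Adj a b ↔ R.Adj a b ∧ a ∈ U ∧ b ∈ U ∧ (a = v ∨ b = v) := by
    intro a b
    simp only [hK, cross, Set.mem_singleton_iff]
    constructor
    · rintro ⟨h1, h2, h3, h4⟩
      refine ⟨h1, h2, h3, ?_⟩
      by_contra hcon
      rw [not_or] at hcon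
      exact h4 ⟨fun h => absurd h hcon.1, fun h => absurd h hcon.2⟩
    · rintro ⟨h1, h2, h3, h4⟩
      refine ⟨h1, h2, h3, ?_⟩
      intro h
      rcases h4 with h4 | h4
      · exact h1.ne (h4.trans (h.mp h4).symm)
      · exact h1.ne ((h.mpr h4).trans h4.symm)
  -- classes
  have hcl1 : ∀ w, K.Reachable v w → w = v ∨ (w ∈ U ∧ R.Adj v w) := by
    intro w hw
    refine reach_closed (K := K) (X := {w | w = v ∨ (w ∈ U ∧ R.Adj v w)}) ?_ (Or.inl rfl) hw
    intro a b ha hab
    rw [hKadj] at hab
    by_cases hb : b = v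
    · exact Or.inl hb
    · have hav : a = v := hab.2.2.2.resolve_right hb
      rw [hav] at hab
      exact Or.inr ⟨hab.2.2.1, hab.1⟩
  have hcl1' : ∀ w, w ∈ U → R.Adj v w → K.Reachable v w := fun w hw h =>
    SimpleGraph.Adj.reachable ((hKadj v w).mpr ⟨h, hv, hw, Or.inl rfl⟩)
  have hcl2 : ∀ a w, ¬ K.Reachable v a → K.Reachable a w → a = w := by
    intro a w ha hw
    refine reach_isolated (K := K) ?_ hw
    intro b hab
    rw [hKadj] at hab
    rcases hab.2.2.2 with h | h
    · exact ha (h ▸ SimpleGraph.Reachable.refl _)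
    · rw [h] at hab
      exact ha (hcl1' a hab.2.1 hab.1.symm)
  have hRG : ∀ a b, R.Adj a b → G.Adj a b := fun a b h => Or.inl h
  refine ⟨⟨v, hv, rfl⟩, ?_, ?_, ?_, ?_⟩
  · obtain ⟨w, hw⟩ := hne
    exact ⟨w, hw.1, hw.2.1⟩
  · exact con_of_subsingleton G (Set.subsingleton_singleton.anti Set.inter_subset_right)
  · exact hcls.two.del v
  · refine ⟨hcls.two.con, ?_, ?_, ?_, ?_⟩
    · intro a b hab
      rw [hKadj] at hab
      exact ⟨hRG _ _ hab.1, hab.2.1, hab.2.2.1⟩
    · intro a ha b hb hab hr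
      rw [hKadj]
      by_cases hva : K.Reachable v a
      · have hvb : K.Reachable v b := hva.trans hr
        rcases hcl1 a hva with h1 | ⟨-, h1⟩
        · rcases hcl1 b hvb with h2 | ⟨-, h2⟩
          · exact absurd (h1.trans h2.symm) hab.ne
          · rw [h1]
            exact ⟨h2, hv, hb, Or.inl rfl⟩
        · rcases hcl1 b hvb with h2 | ⟨-, h2⟩
          · rw [h2]
            exact ⟨h1.symm, ha, hv, Or.inr rfl⟩
          · exact absurd hab (hind a ha b hb (hRG _ _ h1) (hRG _ _ h2))
      · exact absurd (hcl2 a b hva hr) hab.ne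
    · intro a ha
      by_cases hva : K.Reachable v a
      · have hset : {w | w ∈ U ∧ ¬ K.Reachable a w} = W ∪ {w | w ∈ U ∧ F.Adj v w ∧ ¬ R.Adj v w} := by
          ext w
          constructor
          · rintro ⟨hw, hw'⟩
            have hwv : w ≠ v := by
              rintro rfl
              exact hw' hva.symm
            have hnR : ¬ R.Adj v w := fun h => hw' (hva.symm.trans (hcl1' w hw h))
            by_cases hG' : G.Adj v w
            · exact Or.inr ⟨hw, hG'.resolve_left hnR, hnR⟩
            · exact Or.inl ⟨hw, hwv, hG'⟩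
          · rintro (⟨hw, h1, h2⟩ | ⟨hw, h1, h2⟩)
            · refine ⟨hw, fun h => ?_⟩
              rcases hcl1 w (hva.trans h) with h3 | ⟨-, h3⟩
              · exact h1 h3
              · exact h2 (hRG _ _ h3)
            · refine ⟨hw, fun h => ?_⟩
              rcases hcl1 w (hva.trans h) with h3 | ⟨-, h3⟩
              · exact h1.ne h3.symm
              · exact h2 h3
        rw [hset]
        refine hcon.attach ?_
        rintro w ⟨hw, h1, h2⟩
        obtain ⟨c, hc, hcv, hcn, hwc⟩ := hnb w hw (Or.inr h1)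
        refine ⟨{w, c}, Or.inl rfl, ?_, con_pair hwc, c, Or.inr rfl, hc, hcv, hcn⟩
        rintro z (hz | hz)
        · rw [hz]; exact Or.inr ⟨hw, h1, h2⟩
        · rw [Set.mem_singleton_iff.mp hz]; exact Or.inl ⟨hc, hcv, hcn⟩
      · have hset : {w | w ∈ U ∧ ¬ K.Reachable a w} = U \ {a} := by
          ext w
          constructor
          · rintro ⟨hw, hw'⟩
            refine ⟨hw, ?_⟩
            rintro rfl
            exact hw' (SimpleGraph.Reachable.refl _)
          · rintro ⟨hw, hw'⟩
            exact ⟨hw, fun h => hw' (hcl2 a w hva h).symm⟩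
        rw [hset]
        exact hcls.two.del a
    · intro a ha
      obtain ⟨w, hw⟩ := hne
      by_cases hva : K.Reachable v a
      · refine ⟨w, hw.1, fun h => ?_⟩
        rcases hcl1 w (hva.trans h) with h3 | ⟨-, h3⟩
        · exact hw.2.1 h3
        · exact hw.2.2 (hRG _ _ h3)
      · exact ⟨v, hv, fun h => hva h.symm⟩

theorem v8_step [Finite V] {R F : SimpleGraph V} {U : Set V} (hcls : Cls R F U)
    (h8 : IsV8 (R ⊔ F) U) : ClaimR R F U := by
  obtain ⟨e, he, hU, hadj⟩ := h8
  intro a ha b hb hab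
  rw [← hU] at ha hb
  obtain ⟨i, rfl⟩ := ha
  obtain ⟨j, rfl⟩ := hb
  obtain ⟨k, hki, hkj⟩ : ∃ k : Fin 8, k ≠ i ∧ k ≠ j := by
    clear hab
    revert i j
    decide
  have hmem : ∀ m, e m ∈ U := fun m => hU ▸ Set.mem_range_self m
  refine ⟨{e k}, ?_, ?_⟩
  · refine star_sg hcls (hmem k) ?_ ?_ ?_ ?_
    · intro x hx y hy hkx hky hxy
      rw [← hU] at hx hy
      obtain ⟨x, rfl⟩ := hx
      obtain ⟨y, rfl⟩ := hy
      rw [hadj] at hkx hky hxy
      clear hki hkj hab
      revert k x y
      decide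
    · -- the path k+3, k+2, k+6, k+5
      have hset : {w | w ∈ U ∧ w ≠ e k ∧ ¬ (R ⊔ F).Adj (e k) w} =
          ({e (k + 3), e (k + 2)} ∪ {e (k + 6), e (k + 5)} : Set V) := by
        ext w
        constructor
        · rintro ⟨hw, hwk, hwa⟩
          rw [← hU] at hw
          obtain ⟨m, rfl⟩ := hw
          rw [hadj] at hwa
          have hmk : m ≠ k := fun h => hwk (h ▸ rfl)
          have : m = k + 3 ∨ m = k + 2 ∨ m = k + 6 ∨ m = k + 5 := by
            clear hki hkj hab hwk
            revert k m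
            decide
          rcases this with h | h | h | h <;> rw [h] <;> simp
        · have key : ∀ m : Fin 8, (m = k + 3 ∨ m = k + 2 ∨ m = k + 6 ∨ m = k + 5) →
              e m ∈ U ∧ e m ≠ e k ∧ ¬ (R ⊔ F).Adj (e k) (e m) := by
            intro m hm
            refine ⟨hmem m, ?_, ?_⟩
            · intro h
              have := he h
              clear hki hkj hab h
              revert k m
              decide
            · rw [hadj]
              clear hki hkj hab
              revert k m
              decide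
          rintro ((h | h) | (h | h))
          · rw [h]; exact key _ (Or.inl rfl)
          · rw [Set.mem_singleton_iff.mp h]; exact key _ (Or.inr (Or.inl rfl))
          · rw [h]; exact key _ (Or.inr (Or.inr (Or.inl rfl)))
          · rw [Set.mem_singleton_iff.mp h]; exact key _ (Or.inr (Or.inr (Or.inr rfl)))
      rw [hset]
      have c1 : (R ⊔ F).Adj (e (k + 3)) (e (k + 2)) := by
        rw [hadj]; clear hki hkj hset; revert k; decide
      have c2 : (R ⊔ F).Adj (e (k + 6)) (e (k + 5)) := by
        rw [hadj]; clear hki hkj hset c1; revert k; decide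
      have c3 : (R ⊔ F).Adj (e (k + 2)) (e (k + 6)) := by
        rw [hadj]; clear hki hkj hset c1 c2; revert k; decide
      exact (con_pair c1).union_adj (con_pair c2) (Or.inr rfl) (Or.inl rfl) c3
    · refine ⟨e (k + 2), hmem _, ?_, ?_⟩
      · intro h
        have := he h
        clear hki hkj h
        revert k
        decide
      · rw [hadj]; clear hki hkj; revert k; decide
    · intro x hx hkx
      rw [← hU] at hx
      obtain ⟨x, rfl⟩ := hx
      rw [hadj] at hkx
      have : ∃ w : Fin 8, w ≠ k ∧ ¬ (k - w = 1 ∨ w - k = 1 ∨ k - w = 4) ∧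
          (x - w = 1 ∨ w - x = 1 ∨ x - w = 4) := by
        clear hki hkj hab
        revert k x
        decide
      obtain ⟨w, h1, h2, h3⟩ := this
      exact ⟨e w, hmem w, fun h => h1 (he h), by rw [hadj]; exact h2, by rw [hadj]; exact h3⟩
  · simp only [Set.mem_singleton_iff]
    exact ⟨fun h => absurd (he h).symm hki, fun h => absurd (he h).symm hkj⟩

end BND
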