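import Pool.Agent.BND.Prim
import Pool.Agent.BND.Cnx

set_option autoImplicit false

namespace BND

variable {V : Type}

/-! ### Module THR (file Thr.lean; uses CNX): three vertices -/

theorem thr_ctr {G K : SimpleGraph V} {U : Set V} {x y z : V} (h : Two G U)
    (hU : U = {x, y, z}) (hxy : x ≠ y) (hyz : y ≠ z) (hxz : K.Adj x z)
    (hK : ∀ u v, K.Adj u v → (u = x ∧ v = z) ∨ (u = z ∧ v = x)) (hG : G.Adj x z) :
    Ctr G U K := by
  have hx : x ∈ U := by rw [hU]; simp
  have hy : y ∈ U := by rw [hU]; simp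
  have hz : z ∈ U := by rw [hU]; simp
  have hmem : ∀ u ∈ U, u = x ∨ u = y ∨ u = z := by
    intro u hu
    rw [hU] at hu
    simpa using hu
  have hreach : ∀ u v, K.Reachable u v → u = v ∨ ((u = x ∨ u = z) ∧ (v = x ∨ v = z)) := by
    intro u v huv
    have := reach_closed (K := K) (X := {w | u = w ∨ ((u = x ∨ u = z) ∧ (w = x ∨ w = z))})
      (a := u) (b := v) ?_ (Or.inl rfl) huv
    · exact this
    · intro p q hp hpq
      rcases hK p q hpq with ⟨rfl, rfl⟩ | ⟨rfl, rfl⟩
      · rcases hp with rfl | ⟨h1, -⟩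
        · exact Or.inr ⟨Or.inl rfl, Or.inr rfl⟩
        · exact Or.inr ⟨h1, Or.inr rfl⟩
      · rcases hp with rfl | ⟨h1, -⟩
        · exact Or.inr ⟨Or.inr rfl, Or.inl rfl⟩
        · exact Or.inr ⟨h1, Or.inl rfl⟩
  refine ⟨h.con, ?_, ?_, ?_, ?_⟩
  · intro u v huv
    rcases hK u v huv with ⟨rfl, rfl⟩ | ⟨rfl, rfl⟩
    · exact ⟨hG, hx, hz⟩
    · exact ⟨hG.symm, hz, hx⟩
  · intro u hu v hv huv hr
    rcases hreach u v hr with rfl | ⟨rfl | rfl, rfl | rfl⟩
    · exact absurd rfl huv.ne
    · exact absurd rfl huv.ne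
    · exact hxz
    · exact hxz.symm
    · exact absurd rfl huv.ne
  · intro v hv
    rcases hmem v hv with rfl | rfl | rfl
    · apply con_of_subsingleton
      rintro p ⟨hp, hp'⟩ q ⟨hq, hq'⟩
      have e : ∀ p ∈ U, ¬ K.Reachable v p → p = y := by
        intro p hp hp'
        rcases hmem p hp with rfl | rfl | rfl
        · exact absurd (SimpleGraph.Reachable.refl _) hp'
        · rfl
        · exact absurd hxz.reachable hp'
      rw [e p hp hp', e q hq hq']
    · have : {w | w ∈ U ∧ ¬ K.Reachable v w} = U \ {v} := by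
        ext w
        simp only [Set.mem_ofPred_eq, Set.mem_sdiff, Set.mem_singleton_iff]
        constructor
        · rintro ⟨h1, h2⟩
          refine ⟨h1, ?_⟩
          rintro rfl
          exact h2 (SimpleGraph.Reachable.refl _)
        · rintro ⟨h1, h2⟩
          refine ⟨h1, fun h3 => ?_⟩
          rcases hreach v w h3 with h4 | ⟨h4 | h4, -⟩
          · exact h2 h4.symm
          · exact hxy h4.symm
          · exact hyz h4
      rw [this]
      exact h.del v
    · apply con_of_subsingleton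
      rintro p ⟨hp, hp'⟩ q ⟨hq, hq'⟩
      have e : ∀ p ∈ U, ¬ K.Reachable v p → p = y := by
        intro p hp hp'
        rcases hmem p hp with rfl | rfl | rfl
        · exact absurd hxz.symm.reachable hp'
        · rfl
        · exact absurd (SimpleGraph.Reachable.refl _) hp'
      rw [e p hp hp', e q hq hq']
  · intro v hv
    have hyr : ∀ u, u ≠ y → ¬ K.Reachable u y := by
      intro u hu hr
      rcases hreach u y hr with h4 | ⟨-, h4 | h4⟩
      · exact hu h4
      · exact hxy h4.symm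
      · exact hyz h4
    by_cases hvy : v = y
    · subst hvy
      exact ⟨x, hx, fun hr => hyr x hxy hr.symm⟩
    · exact ⟨y, hy, hyr v hvy⟩

theorem card_three [Finite V] {R F : SimpleGraph V} {U : Set V} (h : Cls R F U)
    (hc : U.ncard = 3) : ClaimR R F U := by
  intro a ha b hb hab
  obtain ⟨c, hcU, hca, hcb⟩ := cnx_exists_ne (U := U) (by omega) a b
  have hne := hab.ne
  have hU : U = {a, b, c} := by
    symm
    apply Set.eq_of_subset_of_ncard_le
    · rintro x (rfl | rfl | rfl)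
      · exact ha
      · exact hb
      · exact hcU
    · rw [hc, Set.ncard_eq_three.mpr ⟨a, b, c, hne, hca.symm, hcb.symm, rfl⟩]
    · exact Set.toFinite _
  refine ⟨{c}, ?_, ?_⟩
  swap
  · simp only [Set.mem_singleton_iff]
    exact ⟨fun h => absurd h.symm hca, fun h => absurd h.symm hcb⟩
  have hmem : ∀ u ∈ U, u = a ∨ u = b ∨ u = c := by
    intro u hu
    rw [hU] at hu
    simpa using hu
  refine ⟨⟨c, hcU, rfl⟩, ⟨a, ha, fun h => hca (Set.mem_singleton_iff.mp h).symm⟩, ?_,
    h.two.del c, ?_⟩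
  · apply con_of_subsingleton
    rintro p ⟨-, hp⟩ q ⟨-, hq⟩
    rw [Set.mem_singleton_iff.mp hp, Set.mem_singleton_iff.mp hq]
  have hKK : ∀ u v, (cross R U {c}).Adj u v → R.Adj u v ∧ ((u = a ∧ v = c) ∨ (u = c ∧ v = a) ∨
      (u = b ∧ v = c) ∨ (u = c ∧ v = b)) := by
    rintro u v ⟨h1, h2, h3, h4⟩
    refine ⟨h1, ?_⟩
    rcases hmem u h2 with rfl | rfl | rfl <;> rcases hmem v h3 with rfl | rfl | rfl <;>
      simp_all [Ne.symm]
  by_cases h1 : R.Adj a c
  · have h2 : ¬ R.Adj b c := fun h2 => h.tri a ha b hb c hcU hab h2 h1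
    apply thr_ctr (x := a) (y := b) (z := c) h.two hU hne hcb.symm
    · refine ⟨h1, ha, hcU, ?_⟩
      simp [hca.symm]
    · intro u v huv
      obtain ⟨h3, h4⟩ := hKK u v huv
      rcases h4 with h4 | h4 | ⟨rfl, rfl⟩ | ⟨rfl, rfl⟩
      · exact Or.inl h4
      · exact Or.inr h4
      · exact absurd h3 h2
      · exact absurd h3.symm h2
    · exact Or.inl h1
  by_cases h2 : R.Adj b c
  · apply thr_ctr (x := b) (y := a) (z := c) h.two (by rw [hU]; ext w; simp; tauto) hne.symm
      hca.symm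
    · refine ⟨h2, hb, hcU, ?_⟩
      simp [hcb.symm]
    · intro u v huv
      obtain ⟨h3, h4⟩ := hKK u v huv
      rcases h4 with ⟨rfl, rfl⟩ | ⟨rfl, rfl⟩ | h4 | h4
      · exact absurd h3 h1
      · exact absurd h3.symm h1
      · exact Or.inl h4
      · exact Or.inr h4
    · exact Or.inl h2
  have : cross R U {c} = ⊥ := by
    ext u v
    simp only [SimpleGraph.bot_adj, iff_false]
    intro huv
    obtain ⟨h3, h4⟩ := hKK u v huv
    rcases h4 with ⟨rfl, rfl⟩ | ⟨rfl, rfl⟩ | ⟨rfl, rfl⟩ | ⟨rfl, rfl⟩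
    · exact h1 h3
    · exact h1 h3.symm
    · exact h2 h3
    · exact h2 h3.symm
  rw [this]
  exact h.two.ctr_bot

end BND
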