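import Pool.Agent.BND.Prim
import Pool.Agent.BND.Hub
import Pool.Agent.BND.Clas
import Pool.Agent.BND.Del
import Pool.Agent.BND.Clw
import Pool.Agent.BND.Sta
import Pool.Agent.BND.Thr

/-!
# BOND, primal side: assembly
-/

set_option autoImplicit false

namespace BND

variable {V : Type}

/-- The three inputs of the primal side. -/
structure Inputs (HD : ∀ V : Type, SimpleGraph V → Set V → Prop) : Prop where
  wagner : ∀ (V : Type) [Finite V] (G : SimpleGraph V) (U : Set V), Three G U → NoK5 G U →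
    HD V G U ∨ (∃ S C0 C1 C2, IsHub G U S C0 C1 C2) ∨ IsV8 G U
  planar : ∀ (V : Type) [Finite V] (R F : SimpleGraph V) (U : Set V), Cls R F U →
    Three (R ⊔ F) U → HD V (R ⊔ F) U → ClaimR R F U
  leaf : ∀ (V : Type) [Finite V] (R F : SimpleGraph V) (C S : Set V),
    (∀ a b, R.Adj a b → ¬ F.Adj a b) →
    (∀ a ∈ C ∪ S, ∀ b ∈ C ∪ S, ∀ c ∈ C ∪ S, R.Adj a b → R.Adj b c → R.Adj a c → False) →
    Disjoint C S → C.Nonempty → Con (R ⊔ F) C → S.ncard = 3 →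
    (∀ s ∈ S, ∃ c ∈ C, (R ⊔ F).Adj s c) →
    Three (LG (R ⊔ F) C S) (C ∪ S) → HD V (LG (R ⊔ F) C S) (C ∪ S) →
    ∃ crit : V → V → Prop, LeafFacts R F C S crit

theorem IsHub.swap {G : SimpleGraph V} {U S C0 C1 C2 : Set V} (h : IsHub G U S C0 C1 C2) :
    IsHub G U S C0 C2 C1 :=
  ⟨h.sub, h.card, h.c0, h.c2, h.c1, h.d02, h.d01, h.d12.symm⟩

theorem IsComp.disj {G : SimpleGraph V} {U S C : Set V} (h : IsComp G U S C) : Disjoint C S :=
  Set.disjoint_left.mpr fun _ hx hs => (h.sub hx).2 hs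

/-- Either the leaf `C1` gives an inner cut, or it has facts and is of type alpha or beta. -/
theorem asm_leaf {HD : ∀ V : Type, SimpleGraph V → Set V → Prop} (hI : Inputs HD) [Finite V]
    {R F : SimpleGraph V} {U S C0 C1 C2 : Set V} (hcls : Cls R F U) (h3 : Three (R ⊔ F) U)
    (h : IsHub (R ⊔ F) U S C0 C1 C2) {a b : V} (ha : a ∈ C0 ∪ S) (hb : b ∈ C0 ∪ S)
    (hmax : ∀ S' C0' C1' C2', IsHub (R ⊔ F) U S' C0' C1' C2' → a ∈ C0' ∪ S' → b ∈ C0' ∪ S' →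
        C0'.ncard ≤ C0.ncard) :
    (∃ A, SG R F U A ∧ (a ∈ A ↔ b ∈ A)) ∨
    ∃ crit : V → V → Prop, LeafFacts R F C1 S crit ∧
      ((∀ x ∈ S, ∀ y ∈ S, x ≠ y → crit x y) ∨
      ((∀ x ∈ S, ∀ y ∈ S, x ≠ y → crit x y → F.Adj x y) ∧ ∃ x ∈ S, ∃ y ∈ S, F.Adj x y)) := by
  have hLU : C1 ∪ S ⊆ U := Set.union_subset (fun x hx => (h.c1.sub hx).1) h.sub
  have hL3 := hub_leaf_three h3 h
  have hHD : HD V (LG (R ⊔ F) C1 S) (C1 ∪ S) := by
    rcases hI.wagner V _ _ hL3 (hub_leaf_noK5 h3 hcls.k5 h) with h1 | h1 | h1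
    · exact h1
    · exact absurd h1 (leaf_no_hub h3 h ha hb hmax)
    · exact absurd h1 (leaf_not_v8 h.card)
  have htri : ∀ a ∈ C1 ∪ S, ∀ b ∈ C1 ∪ S, ∀ c ∈ C1 ∪ S, R.Adj a b → R.Adj b c → R.Adj a c →
      False := fun a ha b hb c hc => hcls.tri a (hLU ha) b (hLU hb) c (hLU hc)
  obtain ⟨crit, hf⟩ := hI.leaf V R F C1 S hcls.disj htri h.c1.disj h.c1.ne h.c1.con h.card
    (fun s hs => comp_nbr h3 h.sub h.card h.c1 h.c2 h.d12 hs) hL3 hHD
  have haC : a ∉ C1 := by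
    rintro hx
    rcases ha with h' | h'
    · exact Set.disjoint_left.mp h.d01 h' hx
    · exact (h.c1.sub hx).2 h'
  have hbC : b ∉ C1 := by
    rintro hx
    rcases hb with h' | h'
    · exact Set.disjoint_left.mp h.d01 h' hx
    · exact (h.c1.sub hx).2 h'
  have hR1 := hub_del_two h3 h
  by_cases hin : ∃ A, (∀ s ∈ S, ∀ t ∈ S, s ∈ A ↔ t ∈ A) ∧ LO R F C1 S A ⊥
  · obtain ⟨A, hA, hA'⟩ := hin
    exact Or.inl (good_of_inner hcls.two h.sub h.c1 hR1 h.card hA hA' haC hbC)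
  by_cases hinM : ∀ x y z, x ≠ y → x ≠ z → y ≠ z → S = {x, y, z} → ¬ (R ⊔ F).Adj x y →
      ¬ ∃ A, (∀ s ∈ S, ∀ t ∈ S, s ∈ A ↔ t ∈ A) ∧ LO R F C1 S A (SimpleGraph.edge x y)
  · exact Or.inr ⟨crit, hf, leaf_type h.card h.c1.disj hf htri hin hinM⟩
  · push Not at hinM
    obtain ⟨x, y, z, hxy, hxz, hyz, hS, hna, A, hA, hA'⟩ := hinM
    left
    have hc1 := h.c1
    have hsub := h.sub
    rw [hS] at hc1 hsub hA hA'
    exact good_of_inner_edge h3 hsub hxy hxz hyz hc1 hR1 hna hA hA' haC hbC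

theorem asm_hub {HD : ∀ V : Type, SimpleGraph V → Set V → Prop} (hI : Inputs HD) [Finite V]
    {R F : SimpleGraph V} {U : Set V} (ih : IH U) (hcls : Cls R F U) (h3 : Three (R ⊔ F) U)
    (hh : ∃ S C0 C1 C2, IsHub (R ⊔ F) U S C0 C1 C2) : ClaimR R F U := by
  intro a ha b hb hab
  obtain ⟨S, C0, C1, C2, h, ha0, hb0, hmax⟩ :=
    exists_max_hub hh ha hb (Or.inl hab : (R ⊔ F).Adj a b)
  rcases asm_leaf hI hcls h3 h ha0 hb0 hmax with h1 | ⟨crit1, hf1, ht1⟩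
  · exact h1
  rcases asm_leaf hI hcls h3 h.swap ha0 hb0 hmax with h1 | ⟨crit2, hf2, ht2⟩
  · exact h1
  rcases ht1 with hα1 | ⟨hβ1, hβ1'⟩
  swap
  · exact del_beta ih hcls h3 h hf1 hβ1 hβ1' ha0 hb0 hab
  rcases ht2 with hα2 | ⟨hβ2, hβ2'⟩
  swap
  · exact del_beta ih hcls h3 h.swap hf2 hβ2 hβ2' ha0 hb0 hab
  rcases del_alpha ih hcls h3 h hf1
    (fun x hx y hy hxy => hf2.nbr x hx y hy (hα2 x hx y hy hxy)) ha0 hb0 hab with h1 | h1
  · exact h1
  rcases del_alpha ih hcls h3 h.swap hf2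
    (fun x hx y hy hxy => hf1.nbr x hx y hy (hα1 x hx y hy hxy)) ha0 hb0 hab with h2 | h2
  · exact h2
  obtain ⟨hU, hind, w2, rfl, hw2⟩ := h1
  obtain ⟨-, -, w1, rfl, hw1⟩ := h2
  exact claw_step ih hcls h3 h hU hind hw1 hw2 ha0 hb0 hab

theorem claimR_all {HD : ∀ V : Type, SimpleGraph V → Set V → Prop}
    (hI : Inputs HD) (V : Type) [Finite V] (R F : SimpleGraph V) (U : Set V)
    (h : Cls R F U) : ClaimR R F U := by
  induction hn : U.ncard using Nat.strong_induction_on generalizing R F U with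
  | _ n ihn =>
  have ih : IH U := fun R' F' U' hU' h' => ihn _ (hn ▸ hU') R' F' U' h' rfl
  rcases Nat.lt_or_ge 3 U.ncard with h4 | h4
  · by_cases h3 : Three (R ⊔ F) U
    · rcases hI.wagner V _ U h3 h.k5 with h1 | h1 | h1
      · exact hI.planar V R F U h h3 h1
      · exact asm_hub hI ih h h3 h1
      · exact v8_step h h1
    · exact two_cut_step ih h h4 h3
  · exact card_three h (le_antisymm h4 h.two.card)

end BND
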