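import Pool.Agent.Helper35.Bond.Cove
import Pool.Agent.Helper32.Bond.CT

/-!
# BOND: covers for the dual side (module COVE, helper35, from helper32's `cover_theorem`)
-/

set_option autoImplicit false

namespace Pool.Agent.Bond

/-- The cover theorem (helper32). -/
theorem coverThm : CoverThm := fun D E w hw hO hB hl hd => cover_theorem D E w hw hO hB hl hd

end Pool.Agent.Bond

open Pool.Agent.Bond in
/-- Covers exist if the even sets of `D` are the cuts of another multigraph `(s, t)`. -/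
theorem BDu.cove_of_dual {W E Ψ : Type} [DecidableEq W] [DecidableEq E] [Fintype E] (D : BDu W E)
    (s t : E → Ψ)
    (h : ∀ Z : Finset E, (∀ w, Even (D.dg Z w)) ↔
      ∃ X : Set Ψ, ∀ e, e ∈ Z ↔ ¬ (s e ∈ X ↔ t e ∈ X)) : D.COVE Finset.univ := by
  refine cove_of_dual_inst coverThm D Finset.univ ⟨Ψ, ⟨s, t⟩, fun Z _ => ?_⟩
  rw [evenSet_mgOf, h Z]
  constructor
  · rintro ⟨X, hX⟩
    refine ⟨fun v => v ∈ X, ?_⟩
    ext e
    rw [MG.mem_cutSet]
    exact ⟨fun he => ⟨Finset.mem_univ e, (hX e).mp he⟩, fun he => (hX e).mpr he.2⟩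
  · rintro ⟨g, hg⟩
    refine ⟨{v | g v}, fun e => ?_⟩
    rw [hg, MG.mem_cutSet]
    exact ⟨fun he => he.2, fun he => ⟨Finset.mem_univ e, he⟩⟩
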