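import Pool.Agent.BND.Prim
import Pool.Agent.Helper48.BDu.Defs

/-!
# BOND: dual pairs for simple graphs (interface between front end, dual side and primal side)
-/

set_option autoImplicit false

namespace BND

variable {V W : Type}

/-- A system of faces of `G` which is an algebraic dual: every edge lies in exactly two faces, and
the edge sets meeting all faces evenly are the cuts. -/
structure DualPair (G : SimpleGraph V) (f : W → Set (Sym2 V)) : Prop where
  sub : ∀ w, f w ⊆ G.edgeSet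
  two : ∀ e ∈ G.edgeSet, ∃ w₁ w₂, w₁ ≠ w₂ ∧ ∀ w, e ∈ f w ↔ (w = w₁ ∨ w = w₂)
  cut : ∀ B : Set (Sym2 V), B ⊆ G.edgeSet →
    ((∀ w, Even (f w ∩ B).ncard) ↔
      ∃ X : Set V, ∀ u v, G.Adj u v → (s(u, v) ∈ B ↔ ¬ (u ∈ X ↔ v ∈ X)))

/-- `G` has a dual with finitely many faces. -/
def HasDual (G : SimpleGraph V) : Prop := ∃ (n : ℕ) (f : Fin n → Set (Sym2 V)), DualPair G f

/-- Weight of a set of edges: label 1 counts once, label 2 counts twice. -/
noncomputable def wt (lab : Sym2 V → ℕ) (S : Set (Sym2 V)) : ℕ :=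
  {e | e ∈ S ∧ lab e = 1}.ncard + 2 * {e | e ∈ S ∧ lab e = 2}.ncard

/-- The contracted edges: label 0, or label 1 and crossing `A`. -/
def KL (G : SimpleGraph V) (lab : Sym2 V → ℕ) (A : Set V) : SimpleGraph V where
  Adj u v := G.Adj u v ∧ (lab s(u, v) = 0 ∨ (lab s(u, v) = 1 ∧ ¬ (u ∈ A ↔ v ∈ A)))
  symm := ⟨fun u v h => ⟨h.1.symm, by
    rw [Sym2.eq_swap]
    exact h.2.imp id fun h' => ⟨h'.1, fun hc => h'.2 hc.symm⟩⟩⟩
  loopless := ⟨fun _ h => h.1.ne rfl⟩

end BND
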