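import Pool.Agent.BND.Prim
import Pool.Agent.BND.Cnx

set_option autoImplicit false

namespace BND

variable {V : Type}

/-! ### Module FIN (file Fin.lean; uses CNX): the frozen statement -/

/-- In a 2-connected graph on at least three vertices an edge is never the only edge between a set
and its complement. -/
theorem fin_second_edge {G : SimpleGraph V} {U : Set V} (h2 : Two G U) {K : Set V} {a b : V}
    (ha : a ∈ K) (haU : a ∈ U) (hb : b ∉ K) (hbU : b ∈ U) :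
    ∃ c ∈ K, ∃ d, d ∉ K ∧ c ∈ U ∧ d ∈ U ∧ G.Adj c d ∧ ¬ (c = a ∧ d = b) := by
  classical
  have hab : a ≠ b := fun h => hb (h ▸ ha)
  by_cases hK : ∃ k ∈ K, k ≠ a ∧ k ∈ U
  · obtain ⟨k, hk, hka, hkU⟩ := hK
    obtain ⟨c, ⟨⟨hcU, hca⟩, hcK⟩, d, ⟨⟨hdU, hda⟩, hdK⟩, hcd⟩ := h2.del a K
      ⟨k, ⟨hkU, hka⟩, hk⟩ ⟨b, ⟨hbU, fun h => hab h.symm⟩, hb⟩
    exact ⟨c, hcK, d, hdK, hcU, hdU, hcd, fun h => hca h.1⟩
  · push Not at hK
    obtain ⟨w, hwU, hwa, hwb⟩ := cnx_exists_ne h2.card a b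
    obtain ⟨c, ⟨⟨hcU, hcb⟩, hcK⟩, d, ⟨⟨hdU, hdb⟩, hdK⟩, hcd⟩ := h2.del b {a}
      ⟨a, ⟨haU, hab⟩, rfl⟩ ⟨w, ⟨hwU, hwb⟩, hwa⟩
    rw [Set.mem_singleton_iff] at hcK
    subst hcK
    refine ⟨c, ha, d, ?_, hcU, hdU, hcd, fun h => hdb h.2⟩
    intro hd
    exact hK d hd hdK hdU

theorem final (hclaim : ∀ (V : Type) [Finite V] (R F : SimpleGraph V) (U : Set V),
      Cls R F U → ClaimR R F U) :
    ∀ (V : Type) [Fintype V] (G : SimpleGraph V),
      3 ≤ Fintype.card V → G.Connected →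
      (∀ v : V, (G.induce {w : V | w ≠ v}).Connected) →
      G.CliqueFree 3 →
      (¬ ∃ f : Fin 5 → Set V, (∀ i, (G.induce (f i)).Connected) ∧
          (∀ i j, i ≠ j → Disjoint (f i) (f j)) ∧
          (∀ i j, i ≠ j → ∃ u ∈ f i, ∃ v ∈ f j, G.Adj u v)) →
      ∃ H : SimpleGraph V, H ≤ G ∧ H ≠ ⊥ ∧ ¬ (G \ H).Connected ∧
        (∀ K : SimpleGraph V, K ≤ H → K ≠ ⊥ → ¬ (G \ K).Connected → K = H) ∧
        (∃ u v : V, ¬ H.Reachable u v) ∧
        (∃ a b c d : V, G.Adj a b ∧ G.Adj c d ∧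
            ¬ H.Reachable a b ∧ ¬ H.Reachable c d ∧
            ¬ (a = c ∧ b = d) ∧ ¬ (a = d ∧ b = c)) ∧
        (∀ v : V, (G.induce {w : V | ¬ H.Reachable v w}).Connected) := by
  intro V _ G h3 hG h2 hT h5
  classical
  have hsup : G ⊔ ⊥ = G := sup_bot_eq G
  have htwo : Two G Set.univ := by
    refine ⟨?_, ?_, ?_⟩
    · rw [Set.ncard_univ, Nat.card_eq_fintype_card]; exact h3
    · rw [con_univ_iff]; exact hG.preconnected
    · intro v
      have := (connected_iff_con.mp (h2 v)).1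
      have e : (Set.univ \ {v} : Set V) = {w | w ≠ v} := by
        ext w
        simp
      rw [e]
      exact this
  have hcls : Cls G ⊥ Set.univ := by
    refine ⟨by rw [hsup]; exact htwo, ?_, ?_, ?_⟩
    · intro a _ b _ c _ hab hbc hac
      exact hT {a, b, c} (SimpleGraph.is3Clique_triple_iff.mpr ⟨hab, hac, hbc⟩)
    · intro a b _ h
      exact h
    · rw [hsup]
      rintro ⟨f, hf, hd, ha⟩
      refine h5 ⟨f, fun i => ?_, hd, ha⟩
      rw [connected_iff_con]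
      exact ⟨(hf i).2.2, (hf i).1⟩
  -- an edge
  obtain ⟨x0⟩ : Nonempty V := Fintype.card_pos_iff.mp (by omega)
  obtain ⟨y0, -, hy0, -⟩ := cnx_exists_ne htwo.card x0 x0
  obtain ⟨a0, -, b0, -, hab0⟩ := htwo.con {x0} ⟨x0, Set.mem_univ _, rfl⟩ ⟨y0, Set.mem_univ _, hy0⟩
  obtain ⟨A, hA, -⟩ := hclaim V G ⊥ Set.univ hcls a0 (Set.mem_univ _) b0 (Set.mem_univ _) hab0
  unfold SG at hA
  rw [hsup] at hA
  obtain ⟨hne, hne', hl, hr, hctr⟩ := hA
  rw [Set.univ_inter] at hne hl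
  have hcompl : (Set.univ \ A : Set V) = Aᶜ := by
    ext w
    simp
  rw [hcompl] at hne' hr
  set H := cross G Set.univ A with hH
  have hadj : ∀ u v, H.Adj u v ↔ G.Adj u v ∧ ¬ (u ∈ A ↔ v ∈ A) := by
    intro u v
    constructor
    · rintro ⟨h1, _, _, h4⟩
      exact ⟨h1, h4⟩
    · rintro ⟨h1, h4⟩
      exact ⟨h1, Set.mem_univ _, Set.mem_univ _, h4⟩
  have hHG : H ≤ G := fun u v h => ((hadj u v).mp h).1
  obtain ⟨xa, hxa⟩ := hne
  obtain ⟨xb, hxb⟩ := hne'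
  have hcross : ∃ a b, H.Adj a b := by
    obtain ⟨a, ha, b, hb, hab⟩ := htwo.con A ⟨xa, Set.mem_univ _, hxa⟩ ⟨xb, Set.mem_univ _, hxb⟩
    exact ⟨a, b, (hadj a b).mpr ⟨hab, fun h => hb.2 (h.mp ha.2)⟩⟩
  have hclass : ∀ v, Con G {w | ¬ H.Reachable v w} := by
    intro v
    have := hctr.con v (Set.mem_univ _)
    have e : {w | w ∈ (Set.univ : Set V) ∧ ¬ H.Reachable v w} = {w | ¬ H.Reachable v w} := by
      ext w
      exact ⟨fun h => h.2, fun h => ⟨Set.mem_univ _, h⟩⟩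
    rw [e] at this
    exact this
  have hclne : ∀ v, ∃ w, ¬ H.Reachable v w := by
    intro v
    obtain ⟨w, _, hw⟩ := hctr.ne v (Set.mem_univ _)
    exact ⟨w, hw⟩
  refine ⟨H, hHG, ?_, ?_, ?_, ?_, ?_, ?_⟩
  · intro h
    obtain ⟨a, b, hab⟩ := hcross
    rw [h] at hab
    exact hab
  · intro h
    have := con_univ_iff.mpr h.preconnected
    obtain ⟨a, ha, b, hb, hab⟩ := this A ⟨xa, Set.mem_univ _, hxa⟩ ⟨xb, Set.mem_univ _, hxb⟩
    rw [SimpleGraph.sdiff_adj] at hab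
    exact hab.2 ((hadj a b).mpr ⟨hab.1, fun h => hb.2 (h.mp ha.2)⟩)
  · intro K hK _ hdis
    by_contra hneK
    obtain ⟨a, b, hab, hKab⟩ : ∃ a b, H.Adj a b ∧ ¬ K.Adj a b := by
      by_contra hcon
      push Not at hcon
      exact hneK (le_antisymm hK fun a b h => hcon a b h)
    apply hdis
    have hcA : Con (G \ K) A := by
      refine hl.mono_graph ?_
      intro u hu v hv huv
      rw [SimpleGraph.sdiff_adj]
      exact ⟨huv, fun h => ((hadj u v).mp (hK h)).2 ⟨fun _ => hv, fun _ => hu⟩⟩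
    have hcB : Con (G \ K) Aᶜ := by
      refine hr.mono_graph ?_
      intro u hu v hv huv
      rw [SimpleGraph.sdiff_adj]
      exact ⟨huv, fun h => ((hadj u v).mp (hK h)).2 ⟨fun h' => absurd h' hu,
        fun h' => absurd h' hv⟩⟩
    have huniv : Con (G \ K) Set.univ := by
      have key : ∀ a b, H.Adj a b → ¬ K.Adj a b → a ∈ A → Con (G \ K) Set.univ := by
        intro a b hab hKab ha
        have hb : b ∈ Aᶜ := fun hb => ((hadj a b).mp hab).2 ⟨fun _ => hb, fun _ => ha⟩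
        have := hcA.union_adj hcB ha hb (show (G \ K).Adj a b by
          rw [SimpleGraph.sdiff_adj]
          exact ⟨hHG hab, hKab⟩)
        rwa [Set.union_compl_self] at this
      by_cases ha : a ∈ A
      · exact key a b hab hKab ha
      · have hb : b ∈ A := by
          by_contra hb
          exact ((hadj a b).mp hab).2 ⟨fun h => absurd h ha, fun h => absurd h hb⟩
        exact key b a hab.symm (fun h => hKab h.symm) hb
    have : Nonempty V := ⟨x0⟩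
    exact ⟨con_univ_iff.mp huniv⟩
  · obtain ⟨w, hw⟩ := hclne x0
    exact ⟨x0, w, hw⟩
  · obtain ⟨w, hw⟩ := hclne x0
    obtain ⟨a, ha, b, hb, -, -, hab, -⟩ := fin_second_edge htwo
      (K := {w | H.Reachable x0 w}) (a := x0) (b := w)
      (SimpleGraph.Reachable.refl _) (Set.mem_univ _) hw (Set.mem_univ _)
    obtain ⟨c, hc, d, hd, -, -, hcd, hne'⟩ := fin_second_edge htwo
      (K := {w | H.Reachable x0 w}) (a := a) (b := b) ha (Set.mem_univ _) hb (Set.mem_univ _)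
    refine ⟨a, b, c, d, hab, hcd, ?_, ?_, ?_, ?_⟩
    · exact fun h => hb (SimpleGraph.Reachable.trans ha h)
    · exact fun h => hd (SimpleGraph.Reachable.trans hc h)
    · rintro ⟨h1, h2⟩
      exact hne' ⟨h1.symm, h2.symm⟩
    · rintro ⟨h1, h2⟩
      exact hd (h1 ▸ ha)
  · intro v
    rw [connected_iff_con]
    obtain ⟨w, hw⟩ := hclne v
    exact ⟨hclass v, w, hw⟩

end BND
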