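import Pool.Agent.BND.Leaf
import Pool.Agent.BND.Asm
import Pool.Agent.BND.Fin
import Pool.Agent.BOND.Adapt2

/-!
# BOND, primal side: the three inputs and the final theorem
-/

set_option autoImplicit false

namespace BND

open Pool.Agent.BOND (res res_eq wagner_dual)

variable {V : Type}

theorem res_con {G : SimpleGraph V} {U s : Set V} (hs : s ⊆ U) : Con (res G U) s ↔ Con G s :=
  con_congr fun _ ha _ hb => ⟨fun h => h.1, fun h => ⟨h, hs ha, hs hb⟩⟩

/-- Claim R for a 3-connected labelled graph with a dual. -/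
theorem claimR_dual [Finite V] {R F : SimpleGraph V} {U : Set V} (hcls : Cls R F U)
    (h3 : Three (R ⊔ F) U) (hd : HasDual (res (R ⊔ F) U)) : ClaimR R F U := by
  intro a ha b hb hab
  obtain ⟨n, f, hf⟩ := hd
  have hH : (res (R ⊔ F) U).Adj a b := ⟨Or.inl hab, ha, hb⟩
  have hz : ∀ u v, (⊥ : SimpleGraph V).Adj u v ↔ (res (R ⊔ F) U).Adj u v ∧ rl R s(u, v) = 0 := by
    intro u v
    have := rl_pos R s(u, v)
    simp only [SimpleGraph.bot_adj, false_iff, not_and]
    intro _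
    omega
  have h3' : Three (res (R ⊔ F) U) U :=
    ⟨h3.card, fun u v => (res_con Set.sdiff_subset).mpr (h3.del u v)⟩
  obtain ⟨ρ, ρ', -, hρ⟩ := hf.two s(a, b) hH
  have hρm : s(a, b) ∈ f ρ := (hρ ρ).mpr (Or.inl rfl)
  have hwt : ∀ w, wt (rl R) (f w) = swt (rl R) (f w) := fun w => wt_eq_swt fun e _ => rl_le R e
  have hbig : 3 ≤ wt (rl R) (f ρ) := by
    have h1 := ((hf.ev ρ).swt_two (hf.sub ρ) (lab := rl R) hρm (fun e _ _ => rl_pos R e)).1
    rw [hwt, swt_split _ hρm]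
    have h2 := rl_pos R s(a, b)
    omega
  obtain ⟨A, hA, habA, -⟩ := planarGood (G := res (R ⊔ F) U) (U := U) hf (fun u v h => h.2)
    (lab := rl R) (fun e _ => rl_le R e) hz h3'.two.ctr_bot ⟨ρ, hbig⟩ hH (rl_one.mpr hab) hρm (by
      intro w _
      rw [hwt]
      refine (hf.ev w).swt_ne_three (hf.sub w) (fun e _ => rl_pos R e) ?_
      intro x y z hxy hzx hzy h1 h2 h4
      rw [rl_one] at h1 h2 h4
      exact hcls.tri z hzx.2.1 x hxy.2.1 y hxy.2.2 h2 h1 h4)
  refine ⟨A, ?_, habA⟩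
  have hK : KL (res (R ⊔ F) U) (rl R) A = cross R U A := by
    ext u v
    constructor
    · rintro ⟨⟨-, hu, hv⟩, h | ⟨h, hcr⟩⟩
      · have := rl_pos R s(u, v)
        omega
      · exact ⟨rl_one.mp h, hu, hv, hcr⟩
    · rintro ⟨h, hu, hv, hcr⟩
      exact ⟨⟨Or.inl h, hu, hv⟩, Or.inr ⟨rl_one.mpr h, hcr⟩⟩
  rw [hK] at hA
  refine ⟨hA.ne, hA.ne', (res_con Set.inter_subset_left).mp hA.left,
    (res_con Set.sdiff_subset).mp hA.right, (res_con subset_rfl).mp hA.ctr.base, ?_, ?_, ?_,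
    hA.ctr.ne⟩
  · intro u v h
    obtain ⟨h1, h2⟩ := hA.ctr.le u v h
    exact ⟨h1.1, h2⟩
  · exact fun u hu v hv huv => hA.ctr.strict u hu v hv ⟨huv, hu, hv⟩
  · exact fun v hv => (res_con fun w hw => hw.1).mp (hA.ctr.con v hv)

/-- The inputs of the primal side. -/
theorem inputs : Inputs fun V G U => HasDual (res G U) where
  wagner := wagner_dual
  planar := fun V _ R F U hcls h3 hd => claimR_dual hcls h3 hd
  leaf := by
    intro V _ R F C S _ htri hCS _ hcon hS hnb h3 hd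
    rw [res_eq fun u v h => LG_mem h] at hd
    obtain ⟨n, f, hf⟩ := hd
    exact ⟨_, Ctx.facts (W := Fin n) ⟨htri, hCS, hcon, hnb, h3, hf⟩ hS⟩

/-- **Every 2-connected triangle-free graph without `K₅` minor has a contractible bond.** -/
theorem bond_main :
    ∀ (V : Type) [Fintype V] (G : SimpleGraph V),
      3 ≤ Fintype.card V → G.Connected →
      (∀ v : V, (G.induce {w : V | w ≠ v}).Connected) →
      G.CliqueFree 3 →
      (¬ ∃ f : Fin 5 → Set V, (∀ i, (G.induce (f i)).Connected) ∧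
          (∀ i j, i ≠ j → Disjoint (f i) (f j)) ∧
          (∀ i j, i ≠ j → ∃ u ∈ f i, ∃ v ∈ f j, G.Adj u v)) →
      ∃ H : SimpleGraph V, H ≤ G ∧ H ≠ ⊥ ∧ ¬ (G \ H).Connected ∧
        (∀ K : SimpleGraph V, K ≤ H → K ≠ ⊥ → ¬ (G \ K).Connected → K = H) ∧
        (∃ u v : V, ¬ H.Reachable u v) ∧
        (∃ a b c d : V, G.Adj a b ∧ G.Adj c d ∧
            ¬ H.Reachable a b ∧ ¬ H.Reachable c d ∧
            ¬ (a = c ∧ b = d) ∧ ¬ (a = d ∧ b = c)) ∧
        (∀ v : V, (G.induce {w : V | ¬ H.Reachable v w}).Connected) :=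
  final fun V _ R F U h => claimR_all inputs V R F U h

end BND
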