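import Pool.Agent.BND.Prim
import Pool.Agent.BND.Cnx
import Pool.Agent.BND.Dual

/-!
# BND, leaf part 1: even sets of edges and weights
-/

set_option autoImplicit false

namespace BND

variable {V : Type}

/-- Even set of edges: every vertex is in an even number of its edges. -/
def Ev (B : Set (Sym2 V)) : Prop := ∀ v, Even {e | e ∈ B ∧ v ∈ e}.ncard

/-- Total label of a set of edges. -/
noncomputable def swt (lab : Sym2 V → ℕ) (B : Set (Sym2 V)) : ℕ := ∑ᶠ e ∈ B, lab e

theorem DualPair.ev {G : SimpleGraph V} {W : Type} {f : W → Set (Sym2 V)} (h : DualPair G f)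
    (w : W) : Ev (f w) := by
  intro v
  have h1 := (h.cut {e | e ∈ G.edgeSet ∧ v ∈ e} (fun e he => he.1)).mpr
    ⟨{v}, fun a b hab => by
      have hne := hab.ne
      simp only [Set.mem_ofPred_eq, SimpleGraph.mem_edgeSet, Sym2.mem_iff, Set.mem_singleton_iff]
      constructor
      · rintro ⟨-, rfl | rfl⟩
        · intro hh
          exact hne (hh.mp rfl).symm
        · intro hh
          exact hne (hh.mpr rfl)
      · intro hh
        refine ⟨hab, ?_⟩
        by_contra hc
        rw [not_or] at hc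
        exact hh ⟨fun h => absurd h.symm hc.1, fun h => absurd h.symm hc.2⟩⟩ w
  have h2 : {e | e ∈ f w ∧ v ∈ e} = f w ∩ {e | e ∈ G.edgeSet ∧ v ∈ e} := by
    ext e
    constructor
    · exact fun he => ⟨he.1, h.sub w he.1, he.2⟩
    · exact fun he => ⟨he.1, he.2.2⟩
  rw [h2]
  exact h1

/-- At a vertex of an edge of an even set there is another edge. -/
theorem Ev.other [Finite V] {B : Set (Sym2 V)} (h : Ev B) {e : Sym2 V} (he : e ∈ B) {v : V}
    (hv : v ∈ e) : ∃ e' ∈ B, e' ≠ e ∧ v ∈ e' := by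
  by_contra hcon
  push Not at hcon
  have : {e | e ∈ B ∧ v ∈ e} = {e} := by
    ext e'
    constructor
    · rintro ⟨h1, h2⟩
      by_contra h3
      exact hcon e' h1 h3 h2
    · rintro rfl
      exact ⟨he, hv⟩
  have h1 := h v
  rw [this, Set.ncard_singleton] at h1
  exact absurd h1 (by decide)

/-- Structure of an even set near an edge. -/
theorem Ev.two_or [Finite V] {G : SimpleGraph V} {B : Set (Sym2 V)} (h : Ev B)
    (hB : B ⊆ G.edgeSet) {a b : V} (hab : s(a, b) ∈ B) :
    2 ≤ (B \ {s(a, b)}).ncard ∧ ((B \ {s(a, b)}).ncard = 2 →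
      ∃ c, c ≠ a ∧ c ≠ b ∧ B = {s(a, b), s(c, a), s(c, b)}) := by
  have hne : a ≠ b := (show G.Adj a b from hB hab).ne
  obtain ⟨e1, he1, hn1, hv1⟩ := h.other hab (Sym2.mem_mk_left a b)
  obtain ⟨e2, he2, hn2, hv2⟩ := h.other hab (Sym2.mem_mk_right a b)
  obtain ⟨c, rfl⟩ := Sym2.mem_iff_exists.mp hv1
  obtain ⟨d, rfl⟩ := Sym2.mem_iff_exists.mp hv2
  have hac : a ≠ c := (show G.Adj a c from hB he1).ne
  have hbd : b ≠ d := (show G.Adj b d from hB he2).ne
  have hcb : c ≠ b := by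
    rintro rfl
    exact hn1 rfl
  have hda : d ≠ a := by
    rintro rfl
    exact hn2 Sym2.eq_swap
  have h12 : s(a, c) ≠ s(b, d) := by
    intro hh
    rw [Sym2.eq_iff] at hh
    rcases hh with ⟨h1, -⟩ | ⟨h1, -⟩
    · exact hne h1
    · exact hda h1.symm
  have hsub : ({s(a, c), s(b, d)} : Set (Sym2 V)) ⊆ B \ {s(a, b)} := by
    rintro e (rfl | rfl)
    · exact ⟨he1, hn1⟩
    · exact ⟨he2, hn2⟩
  have hfin : (B \ {s(a, b)}).Finite := Set.toFinite _
  have hc2 : ({s(a, c), s(b, d)} : Set (Sym2 V)).ncard = 2 := Set.ncard_pair h12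
  refine ⟨hc2 ▸ Set.ncard_le_ncard hsub hfin, fun hcard => ?_⟩
  have heq : ({s(a, c), s(b, d)} : Set (Sym2 V)) = B \ {s(a, b)} :=
    Set.eq_of_subset_of_ncard_le hsub (by rw [hc2, hcard]) hfin
  have hB' : B = {s(a, b), s(a, c), s(b, d)} := by
    ext e
    constructor
    · intro he
      by_cases h1 : e = s(a, b)
      · exact Or.inl h1
      · have : e ∈ B \ {s(a, b)} := ⟨he, h1⟩
        rw [← heq] at this
        exact Or.inr this
    · rintro (rfl | h1)
      · exact hab
      · exact (hsub h1).1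
  obtain ⟨e3, he3, hn3, hv3⟩ := h.other he1 (Sym2.mem_mk_right a c)
  have hcd : c = d := by
    rw [hB'] at he3
    rcases he3 with rfl | rfl | rfl
    · rcases Sym2.mem_iff.mp hv3 with h3 | h3
      · exact absurd h3.symm hac
      · exact absurd h3 hcb
    · exact absurd rfl hn3
    · rcases Sym2.mem_iff.mp hv3 with h3 | h3
      · exact absurd h3 hcb
      · exact h3
  subst hcd
  exact ⟨c, hac.symm, hcb, by rw [hB', Sym2.eq_swap (a := a) (b := c), Sym2.eq_swap (a := b) (b := c)]⟩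

theorem swt_split [Finite V] (lab : Sym2 V → ℕ) {B : Set (Sym2 V)} {e : Sym2 V} (he : e ∈ B) :
    swt lab B = lab e + swt lab (B \ {e}) := by
  have hB : B = insert e (B \ {e}) := by
    rw [Set.insert_sdiff_singleton, Set.insert_eq_of_mem he]
  unfold swt
  conv_lhs => rw [hB]
  rw [finsum_mem_insert lab (fun h => h.2 rfl) (Set.toFinite _)]

theorem swt_eq_sum [Finite V] (lab : Sym2 V → ℕ) (B : Set (Sym2 V)) :
    swt lab B = ∑ e ∈ (Set.toFinite B).toFinset, lab e :=
  finsum_mem_eq_finite_toFinset_sum lab (Set.toFinite B)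

theorem card_le_swt [Finite V] (lab : Sym2 V → ℕ) {B : Set (Sym2 V)}
    (h : ∀ e ∈ B, 1 ≤ lab e) : B.ncard ≤ swt lab B := by
  rw [swt_eq_sum, Set.ncard_eq_toFinset_card B (Set.toFinite B), Finset.card_eq_sum_ones]
  exact Finset.sum_le_sum fun e he => h e (by simpa using he)

theorem swt_congr [Finite V] {lab lab' : Sym2 V → ℕ} {B : Set (Sym2 V)}
    (h : ∀ e ∈ B, lab e = lab' e) : swt lab B = swt lab' B := by
  rw [swt_eq_sum, swt_eq_sum]
  exact Finset.sum_congr rfl fun e he => h e (by simpa using he)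

theorem swt_empty (lab : Sym2 V → ℕ) : swt lab ∅ = 0 := by
  unfold swt
  exact finsum_mem_empty

theorem swt_pair [Finite V] (lab : Sym2 V → ℕ) {e e' : Sym2 V} (h : e ≠ e') :
    swt lab {e, e'} = lab e + lab e' := by
  unfold swt
  exact finsum_mem_pair h

/-- The weight of an even set without its edge `s(a, b)` is at least two, with equality only if it
is a triangle closed by two edges of weight one. -/
theorem Ev.swt_two [Finite V] {G : SimpleGraph V} {B : Set (Sym2 V)} (h : Ev B)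
    (hB : B ⊆ G.edgeSet) {lab : Sym2 V → ℕ} {a b : V} (hab : s(a, b) ∈ B)
    (h1 : ∀ e ∈ B, e ≠ s(a, b) → 1 ≤ lab e) :
    2 ≤ swt lab (B \ {s(a, b)}) ∧ (swt lab (B \ {s(a, b)}) = 2 →
      ∃ c, c ≠ a ∧ c ≠ b ∧ B = {s(a, b), s(c, a), s(c, b)} ∧ lab s(c, a) = 1 ∧ lab s(c, b) = 1) := by
  obtain ⟨h2, h3⟩ := h.two_or hB hab
  have h4 := card_le_swt lab (B := B \ {s(a, b)}) (fun e he => h1 e he.1 he.2)
  refine ⟨h2.trans h4, fun h5 => ?_⟩
  obtain ⟨c, hca, hcb, hBc⟩ := h3 (by omega)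
  have hab' : a ≠ b := (show G.Adj a b from hB hab).ne
  have hn : s(c, a) ≠ s(c, b) := by
    intro hh
    rw [Sym2.eq_iff] at hh
    rcases hh with ⟨-, h6⟩ | ⟨h6, -⟩
    · exact hab' h6
    · exact hcb h6
  have hca' : s(c, a) ≠ s(a, b) := by
    intro hh
    rw [Sym2.eq_iff] at hh
    rcases hh with ⟨h6, -⟩ | ⟨h6, -⟩
    · exact hca h6
    · exact hcb h6
  have hcb' : s(c, b) ≠ s(a, b) := by
    intro hh
    rw [Sym2.eq_iff] at hh
    rcases hh with ⟨h6, -⟩ | ⟨h6, -⟩
    · exact hca h6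
    · exact hcb h6
  have hd : B \ {s(a, b)} = {s(c, a), s(c, b)} := by
    rw [hBc]
    ext e
    constructor
    · rintro ⟨rfl | h6, h7⟩
      · exact absurd rfl h7
      · exact h6
    · rintro (rfl | rfl)
      · exact ⟨Or.inr (Or.inl rfl), hca'⟩
      · exact ⟨Or.inr (Or.inr rfl), hcb'⟩
  rw [hd, swt_pair lab hn] at h5
  have h6 := h1 s(c, a) (by rw [hBc]; exact Or.inr (Or.inl rfl)) hca'
  have h7 := h1 s(c, b) (by rw [hBc]; exact Or.inr (Or.inr rfl)) hcb'
  exact ⟨c, hca, hcb, hBc, by omega, by omega⟩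

/-- An even set with positive labels and without triangle of label one has weight different from
three. -/
theorem Ev.swt_ne_three [Finite V] {G : SimpleGraph V} {B : Set (Sym2 V)} (h : Ev B)
    (hB : B ⊆ G.edgeSet) {lab : Sym2 V → ℕ} (h1 : ∀ e ∈ B, 1 ≤ lab e)
    (htri : ∀ a b c, G.Adj a b → G.Adj c a → G.Adj c b → lab s(a, b) = 1 → lab s(c, a) = 1 →
      lab s(c, b) = 1 → False) : swt lab B ≠ 3 := by
  intro h3
  by_cases hne : B.Nonempty
  · obtain ⟨e, he⟩ := hne
    induction e using Sym2.ind with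
    | _ a b =>
    obtain ⟨h4, h5⟩ := h.swt_two hB he (fun e he _ => h1 e he)
    rw [swt_split lab he] at h3
    have h6 := h1 _ he
    obtain ⟨c, -, -, hBc, h7, h8⟩ := h5 (by omega)
    refine htri a b c (hB he) ?_ ?_ (by omega) h7 h8
    · exact hB (by rw [hBc]; exact Or.inr (Or.inl rfl))
    · exact hB (by rw [hBc]; exact Or.inr (Or.inr rfl))
  · rw [Set.not_nonempty_iff_eq_empty] at hne
    rw [hne, swt_empty] at h3
    omega

theorem wt_eq_swt [Finite V] {lab : Sym2 V → ℕ} {B : Set (Sym2 V)} (h : ∀ e ∈ B, lab e ≤ 2) :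
    wt lab B = swt lab B := by
  classical
  rw [swt_eq_sum]
  unfold wt
  rw [Set.ncard_eq_toFinset_card _ (Set.toFinite {e | e ∈ B ∧ lab e = 1}),
    Set.ncard_eq_toFinset_card _ (Set.toFinite {e | e ∈ B ∧ lab e = 2})]
  have h1 : (Set.toFinite {e | e ∈ B ∧ lab e = 1}).toFinset =
      (Set.toFinite B).toFinset.filter (fun e => lab e = 1) := by
    ext e; simp
  have h2 : (Set.toFinite {e | e ∈ B ∧ lab e = 2}).toFinset =
      (Set.toFinite B).toFinset.filter (fun e => lab e = 2) := by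
    ext e; simp
  rw [h1, h2, Finset.card_filter, Finset.card_filter, Finset.mul_sum, ← Finset.sum_add_distrib]
  refine Finset.sum_congr rfl fun e he => ?_
  have h3 := h e (by simpa using he)
  have h4 : lab e = 0 ∨ lab e = 1 ∨ lab e = 2 := by omega
  rcases h4 with h4 | h4 | h4 <;> simp [h4]

end BND
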