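import Pool.Agent.BND.Tr4
import Pool.Agent.BND.Cove
import Pool.Agent.Helper48.BDu.MAIN

/-!
# BOND: the planar theorem in primal form (translation core, helper73)
-/

set_option autoImplicit false
set_option linter.unusedSectionVars false

open Classical

namespace BND

variable {V W : Type}

section Core

variable [Fintype W] {G : SimpleGraph V} [Fintype G.edgeSet] {f : W → Set (Sym2 V)} {U : Set V}

theorem cove (h : DualPair G f) : (mkD h).COVE Finset.univ := by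
  refine BDu.cove_of_dual (mkD h) (fun e => (Quot.out e.1).1) (fun e => (Quot.out e.1).2) ?_
  intro Z
  have h1 := ev_iff h Z
  unfold BDu.Ev at h1
  rw [h1]
  refine exists_congr fun X => forall_congr' fun e => ?_
  have h2 : e.1 = s((Quot.out e.1).1, (Quot.out e.1).2) := (Quot.out_eq e.1).symm
  conv_lhs => rw [h2, crs_mk]

/-- labels of the edges as weights -/
def wts (G : SimpleGraph V) (lab : Sym2 V → ℕ) : G.edgeSet → ℕ := fun e => lab e.1

theorem supp_wts {lab : Sym2 V → ℕ} {K0 : SimpleGraph V}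
    (hK0 : ∀ u v, K0.Adj u v ↔ G.Adj u v ∧ lab s(u, v) = 0) :
    BDu.supp (wts G lab) = off G K0 := by
  ext ⟨e, he⟩
  induction e using Sym2.ind with
  | _ u v =>
    rw [BDu.mem_supp, mem_off]
    have h1 : s(u, v) ∈ K0.edgeSet ↔ G.Adj u v ∧ lab s(u, v) = 0 := hK0 u v
    rw [h1]
    unfold wts
    simp only [ne_eq, not_and]
    exact ⟨fun h _ => h, fun h => h he⟩

/-- A good circuit of the dual gives a good cut. -/
theorem gc_of_good (h : DualPair G f) (hGU : ∀ u v, G.Adj u v → u ∈ U ∧ v ∈ U)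
    (hcon : Con G U) {lab : Sym2 V → ℕ} (hlab : ∀ e ∈ G.edgeSet, lab e ≤ 2)
    {C : Finset G.edgeSet} (hC : (mkD h).Good (wts G lab) C) :
    ∃ A : Set V, GC G U A (KL G lab A) ∧ ∀ e : G.edgeSet, e ∈ C ↔ crs A e.1 := by
  obtain ⟨hcirc, hsub, htc⟩ := hC
  have hev : (mkD h).Ev C := by
    intro w
    by_cases hw : w ∈ (mkD h).VS C
    · rw [hcirc.2.1 w hw]
      decide
    · rw [BDu.dg_eq_zero.mpr hw]
      exact Even.zero
  obtain ⟨A, hA⟩ := (ev_iff h C).mp hev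
  refine ⟨A, ?_, hA⟩
  have hoff : BDu.supp (BDu.sub (wts G lab) C) = off G (KL G lab A) := by
    ext ⟨e, he⟩
    induction e using Sym2.ind with
    | _ u v =>
      rw [BDu.mem_supp, mem_off]
      have h1 : s(u, v) ∈ (KL G lab A).edgeSet ↔
          G.Adj u v ∧ (lab s(u, v) = 0 ∨ (lab s(u, v) = 1 ∧ ¬ (u ∈ A ↔ v ∈ A))) := Iff.rfl
      rw [h1, ← crs_mk, ← hA ⟨s(u, v), he⟩]
      have h2 := hlab _ he
      have h3 : G.Adj u v := he
      simp only [h3, true_and]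
      by_cases hmem : (⟨s(u, v), he⟩ : G.edgeSet) ∈ C
      · rw [BDu.sub_mem hmem]
        simp only [hmem, and_true]
        unfold wts
        simp only
        omega
      · rw [BDu.sub_not_mem hmem]
        simp only [hmem, and_false, or_false]
        rfl
  rw [hoff] at htc
  obtain ⟨e₀, he₀⟩ := hcirc.1
  obtain ⟨u₀, v₀, huv₀, hu₀, hv₀⟩ := (hA e₀).mp he₀
  have hadj₀ : G.Adj u₀ v₀ := by
    have := e₀.2
    rwa [huv₀] at this
  refine ⟨⟨u₀, (hGU _ _ hadj₀).1, hu₀⟩, ⟨v₀, (hGU _ _ hadj₀).2, hv₀⟩,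
    side_con h hGU hcon hcirc hA, ?_, ctr_of_twoC h hGU (fun u v huv => huv.1) hcon htc⟩
  have h1 : U \ A = U ∩ Aᶜ := rfl
  rw [h1]
  refine side_con h hGU hcon hcirc (A := Aᶜ) fun e => ?_
  rw [hA e]
  obtain ⟨e, he⟩ := e
  induction e using Sym2.ind with
  | _ u v =>
    rw [crs_mk, crs_mk]
    simp only [Set.mem_compl_iff]
    tauto

end Core

/-- **Planar theorem, rooted.** All faces but `ρ` (a face at the real root edge `r`) have weight
different from 3. -/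
theorem planarGood [Finite V] [Finite W] {G : SimpleGraph V} {U : Set V} {f : W → Set (Sym2 V)}
    (hD : DualPair G f) (hGU : ∀ u v, G.Adj u v → u ∈ U ∧ v ∈ U) {lab : Sym2 V → ℕ}
    (hlab : ∀ e ∈ G.edgeSet, lab e ≤ 2) {K0 : SimpleGraph V}
    (hK0 : ∀ u v, K0.Adj u v ↔ G.Adj u v ∧ lab s(u, v) = 0) (hc : Ctr G U K0)
    (hbig : ∃ w, 3 ≤ wt lab (f w)) {ρ : W} {a b : V} (hab : G.Adj a b) (hr : lab s(a, b) = 1)
    (hρ : s(a, b) ∈ f ρ) (h3 : ∀ w, w ≠ ρ → wt lab (f w) ≠ 3) :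
    ∃ A : Set V, GC G U A (KL G lab A) ∧ (a ∈ A ↔ b ∈ A) ∧
      ∀ u v, G.Adj u v → lab s(u, v) = 0 → (u ∈ A ↔ v ∈ A) := by
  have := Fintype.ofFinite W
  have := Fintype.ofFinite G.edgeSet
  have hsupp := supp_wts (G := G) hK0
  have htc := twoC_of_ctr hD hGU hc ⟨a, (hGU a b hab).1⟩
  have hpv : ∀ w, (mkD hD).pv (wts G lab) w = wt lab (f w) := fun w => pv_eq hD hlab w
  have hadm : (mkD hD).Adm (wts G lab) := by
    refine ⟨fun e => hlab e.1 e.2, ?_, ?_⟩
    · rw [hsupp]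
      exact htc
    · obtain ⟨w, hw⟩ := hbig
      exact ⟨w, by rw [hpv]; exact hw⟩
  obtain ⟨C, hC, hrC⟩ := BDu.GP (cove hD) hadm (Finset.subset_univ _) (r := ρ)
    (fun w hw => by rw [hpv]; exact h3 w hw) (g := ⟨s(a, b), hab⟩) hr ((mem_inc hD).mpr hρ)
  obtain ⟨A, hA, hCA⟩ := gc_of_good hD hGU hc.base hlab hC
  refine ⟨A, hA, ?_, ?_⟩
  · rw [hCA, crs_mk, not_not] at hrC
    exact hrC
  · intro u v huv h0
    by_contra hcon
    have h1 : (⟨s(u, v), huv⟩ : G.edgeSet) ∈ C := (hCA _).mpr (crs_mk.mpr hcon)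
    exact BDu.mem_supp.mp (hC.2.1 h1) h0

/-- **Planar theorem, unrooted.** At most one face has weight 3. -/
theorem planarGood' [Finite V] [Finite W] {G : SimpleGraph V} {U : Set V} {f : W → Set (Sym2 V)}
    (hD : DualPair G f) (hGU : ∀ u v, G.Adj u v → u ∈ U ∧ v ∈ U) {lab : Sym2 V → ℕ}
    (hlab : ∀ e ∈ G.edgeSet, lab e ≤ 2) {K0 : SimpleGraph V}
    (hK0 : ∀ u v, K0.Adj u v ↔ G.Adj u v ∧ lab s(u, v) = 0) (hc : Ctr G U K0)
    (hbig : ∃ w, 3 ≤ wt lab (f w)) (h3 : ∀ w w', wt lab (f w) = 3 → wt lab (f w') = 3 → w = w') :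
    ∃ A : Set V, GC G U A (KL G lab A) ∧
      ∀ u v, G.Adj u v → lab s(u, v) = 0 → (u ∈ A ↔ v ∈ A) := by
  have := Fintype.ofFinite W
  have := Fintype.ofFinite G.edgeSet
  have hsupp := supp_wts (G := G) hK0
  have hU : U.Nonempty := by
    obtain ⟨w, hw⟩ := hbig
    by_contra hU
    have hfw : f w = ∅ := by
      ext e
      simp only [Set.mem_empty_iff_false, iff_false]
      intro he
      have heG := hD.sub w he
      induction e using Sym2.ind with
      | _ u v => exact hU ⟨u, (hGU u v heG).1⟩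
    rw [hfw] at hw
    simp [wt] at hw
  have htc := twoC_of_ctr hD hGU hc hU
  have hpv : ∀ w, (mkD hD).pv (wts G lab) w = wt lab (f w) := fun w => pv_eq hD hlab w
  have hadm : (mkD hD).Adm (wts G lab) := by
    refine ⟨fun e => hlab e.1 e.2, ?_, ?_⟩
    · rw [hsupp]
      exact htc
    · obtain ⟨w, hw⟩ := hbig
      exact ⟨w, by rw [hpv]; exact hw⟩
  obtain ⟨C, hC⟩ := BDu.GPu (cove hD) hadm (Finset.subset_univ _) (by
    by_cases hex : ∃ r, wt lab (f r) = 3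
    · obtain ⟨r, hr⟩ := hex
      exact ⟨r, fun v hv h => hv (h3 v r (by rw [← hpv]; exact h) hr)⟩
    · push Not at hex
      obtain ⟨w, _⟩ := hbig
      exact ⟨w, fun v _ => by rw [hpv]; exact hex v⟩)
  obtain ⟨A, hA, hCA⟩ := gc_of_good hD hGU hc.base hlab hC
  refine ⟨A, hA, ?_⟩
  intro u v huv h0
  by_contra hcon
  have h1 : (⟨s(u, v), huv⟩ : G.edgeSet) ∈ C := (hCA _).mpr (crs_mk.mpr hcon)
  exact BDu.mem_supp.mp (hC.2.1 h1) h0

end BND
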