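import Pool.Agent.BND.LTri
import Pool.Agent.BND.Plan

/-!
# BND, leaf part 3: the labels of the planar instances on a leaf
-/

set_option autoImplicit false

namespace BND

variable {V : Type}

/-- The edges of label zero. -/
def lz (H : SimpleGraph V) (lab : Sym2 V → ℕ) : SimpleGraph V where
  Adj u v := H.Adj u v ∧ lab s(u, v) = 0
  symm := ⟨fun u v h => ⟨h.1.symm, by rw [Sym2.eq_swap]; exact h.2⟩⟩
  loopless := ⟨fun _ h => h.1.ne rfl⟩

theorem edge_reach {x y u v : V} (h : (SimpleGraph.edge x y).Reachable u v) :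
    u = v ∨ (u = x ∨ u = y) ∧ (v = x ∨ v = y) := by
  obtain ⟨p⟩ := h
  induction p with
  | nil => exact Or.inl rfl
  | cons hadj _ ih =>
    right
    rw [SimpleGraph.edge_adj] at hadj
    obtain ⟨h1, -⟩ := hadj
    rcases h1 with ⟨rfl, rfl⟩ | ⟨rfl, rfl⟩
    · rcases ih with rfl | ih
      · exact ⟨Or.inl rfl, Or.inr rfl⟩
      · exact ⟨Or.inl rfl, ih.2⟩
    · rcases ih with rfl | ih
      · exact ⟨Or.inr rfl, Or.inl rfl⟩
      · exact ⟨Or.inr rfl, ih.2⟩

theorem Three.ctr_edge {G : SimpleGraph V} {U : Set V} (h : Three G U) {x y : V} (hx : x ∈ U)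
    (hy : y ∈ U) (hxy : G.Adj x y) : Ctr G U (SimpleGraph.edge x y) := by
  have hadj : (SimpleGraph.edge x y).Adj x y := by
    rw [SimpleGraph.edge_adj]
    exact ⟨Or.inl ⟨rfl, rfl⟩, hxy.ne⟩
  have hr : (SimpleGraph.edge x y).Reachable x y := hadj.reachable
  refine ⟨h.two.con, ?_, ?_, ?_, ?_⟩
  · intro u v huv
    rw [SimpleGraph.edge_adj] at huv
    rcases huv.1 with ⟨rfl, rfl⟩ | ⟨rfl, rfl⟩
    · exact ⟨hxy, hx, hy⟩
    · exact ⟨hxy.symm, hy, hx⟩
  · intro u _ v _ huv hre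
    rw [SimpleGraph.edge_adj]
    rcases edge_reach hre with h1 | ⟨h1, h2⟩
    · exact absurd h1 huv.ne
    · rcases h1 with rfl | rfl <;> rcases h2 with rfl | rfl
      · exact absurd rfl huv.ne
      · exact ⟨Or.inl ⟨rfl, rfl⟩, hxy.ne⟩
      · exact ⟨Or.inr ⟨rfl, rfl⟩, hxy.ne'⟩
      · exact absurd rfl huv.ne
  · intro v hv
    by_cases h1 : v = x ∨ v = y
    · have : {w | w ∈ U ∧ ¬ (SimpleGraph.edge x y).Reachable v w} = U \ {x, y} := by
        ext w
        constructor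
        · rintro ⟨hw, hn⟩
          refine ⟨hw, ?_⟩
          rintro (rfl | rfl)
          · rcases h1 with rfl | rfl
            · exact hn (SimpleGraph.Reachable.refl _)
            · exact hn hr.symm
          · rcases h1 with rfl | rfl
            · exact hn hr
            · exact hn (SimpleGraph.Reachable.refl _)
        · rintro ⟨hw, hn⟩
          refine ⟨hw, fun hre => ?_⟩
          rcases edge_reach hre with rfl | ⟨-, h2⟩
          · exact hn h1
          · exact hn h2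
      rw [this]
      exact h.del x y
    · have : {w | w ∈ U ∧ ¬ (SimpleGraph.edge x y).Reachable v w} = U \ {v, v} := by
        ext w
        constructor
        · rintro ⟨hw, hn⟩
          refine ⟨hw, ?_⟩
          rintro (rfl | rfl) <;> exact hn (SimpleGraph.Reachable.refl _)
        · rintro ⟨hw, hn⟩
          refine ⟨hw, fun hre => ?_⟩
          rcases edge_reach hre with rfl | ⟨h2, -⟩
          · exact hn (Or.inl rfl)
          · exact h1 h2
      rw [this]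
      exact h.del v v
  · intro v _
    obtain ⟨w, hw, hw1, hw2, hw3⟩ := cnx_exists_ne3 h.card x y v
    refine ⟨w, hw, fun hre => ?_⟩
    rcases edge_reach hre with h1 | ⟨-, h1⟩
    · exact hw3 h1.symm
    · exact h1.elim hw1 hw2

open Classical in
/-- The label of the edges of a leaf. -/
noncomputable def rl (R : SimpleGraph V) : Sym2 V → ℕ := fun e => if e ∈ R.edgeSet then 1 else 2

open Classical in
/-- The labels of an instance on a leaf with the triangle `x y z`. -/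
noncomputable def ll (R : SimpleGraph V) (x y z : V) (i j k : ℕ) : Sym2 V → ℕ := fun e =>
  if e = s(x, y) then i else if e = s(x, z) then j else if e = s(y, z) then k else rl R e

theorem rl_pos (R : SimpleGraph V) (e : Sym2 V) : 1 ≤ rl R e := by
  unfold rl
  split_ifs <;> omega

theorem rl_le (R : SimpleGraph V) (e : Sym2 V) : rl R e ≤ 2 := by
  unfold rl
  split_ifs <;> omega

theorem rl_one {R : SimpleGraph V} {u v : V} : rl R s(u, v) = 1 ↔ R.Adj u v := by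
  unfold rl
  constructor
  · intro h
    by_contra hc
    rw [if_neg (by simpa using hc)] at h
    omega
  · intro h
    rw [if_pos (by simpa using h)]

theorem ll_le (R : SimpleGraph V) (x y z : V) {i j k : ℕ} (hi : i ≤ 2) (hj : j ≤ 2) (hk : k ≤ 2)
    (e : Sym2 V) : ll R x y z i j k e ≤ 2 := by
  unfold ll
  split_ifs
  · exact hi
  · exact hj
  · exact hk
  · exact rl_le R e

theorem ll_one {R : SimpleGraph V} {x y z : V} {i j k : ℕ} : ll R x y z i j k s(x, y) = i := by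
  unfold ll
  rw [if_pos rfl]

theorem ll_two {R : SimpleGraph V} {x y z : V} {i j k : ℕ} (hyz : y ≠ z) (hxz : x ≠ z) :
    ll R x y z i j k s(x, z) = j := by
  unfold ll
  rw [if_neg, if_pos rfl]
  rw [Sym2.eq_iff]
  rintro (⟨-, h⟩ | ⟨-, h⟩)
  · exact hyz h.symm
  · exact hxz h.symm

theorem ll_three {R : SimpleGraph V} {x y z : V} {i j k : ℕ} (hxy : x ≠ y) (hxz : x ≠ z) : ll R x y z i j k s(y, z) = k := by
  unfold ll
  rw [if_neg, if_neg, if_pos rfl]
  · rw [Sym2.eq_iff]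
    rintro (⟨h, -⟩ | ⟨-, h⟩)
    · exact hxy h.symm
    · exact hxz h.symm
  · rw [Sym2.eq_iff]
    rintro (⟨h, -⟩ | ⟨-, h⟩)
    · exact hxy h.symm
    · exact hxz h.symm

theorem ll_other {R : SimpleGraph V} {x y z : V} {i j k : ℕ} {e : Sym2 V} (h1 : e ≠ s(x, y))
    (h2 : e ≠ s(x, z)) (h3 : e ≠ s(y, z)) : ll R x y z i j k e = rl R e := by
  unfold ll
  rw [if_neg h1, if_neg h2, if_neg h3]

/-! ### The context: a leaf with a dual -/

/-- A leaf with a dual. -/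
structure Ctx (R F : SimpleGraph V) (C S : Set V) {W : Type} (f : W → Set (Sym2 V)) : Prop where
  tri : ∀ a ∈ C ∪ S, ∀ b ∈ C ∪ S, ∀ c ∈ C ∪ S, R.Adj a b → R.Adj b c → R.Adj a c → False
  dis : Disjoint C S
  con : Con (R ⊔ F) C
  nb : ∀ s ∈ S, ∃ c ∈ C, (R ⊔ F).Adj s c
  three : Three (LG (R ⊔ F) C S) (C ∪ S)
  dual : DualPair (LG (R ⊔ F) C S) f

/-- The stars at the triangle. -/
structure Str {W : Type} (f : W → Set (Sym2 V)) (x y z : V) (t p q r : W) : Prop where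
  ft : f t = {s(x, y), s(x, z), s(y, z)}
  pt : p ≠ t
  qt : q ≠ t
  rt : r ≠ t
  pq : p ≠ q
  pr : p ≠ r
  qr : q ≠ r
  hp : ∀ w, s(x, y) ∈ f w ↔ (w = t ∨ w = p)
  hq : ∀ w, s(x, z) ∈ f w ↔ (w = t ∨ w = q)
  hr : ∀ w, s(y, z) ∈ f w ↔ (w = t ∨ w = r)

theorem LG_mem {G : SimpleGraph V} {C S : Set V} {u v : V} (h : (LG G C S).Adj u v) :
    u ∈ C ∪ S ∧ v ∈ C ∪ S := by
  rcases h with ⟨-, h | h⟩ | h
  · exact ⟨Or.inl h.1, h.2⟩
  · exact ⟨h.2, Or.inl h.1⟩
  · exact ⟨Or.inr h.2.1, Or.inr h.2.2⟩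

theorem tri_cases {S : Set V} {x y z u v : V} (hS : S = {x, y, z}) (h : (tri S).Adj u v) :
    (u = x ∧ v = y) ∨ (u = y ∧ v = x) ∨ (u = x ∧ v = z) ∨ (u = z ∧ v = x) ∨
      (u = y ∧ v = z) ∨ (u = z ∧ v = y) := by
  obtain ⟨hne, hu, hv⟩ := h
  rw [hS] at hu hv
  rcases hu with rfl | rfl | rfl <;> rcases hv with rfl | rfl | rfl
  · exact absurd rfl hne
  · exact Or.inl ⟨rfl, rfl⟩
  · exact Or.inr (Or.inr (Or.inl ⟨rfl, rfl⟩))
  · exact Or.inr (Or.inl ⟨rfl, rfl⟩)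
  · exact absurd rfl hne
  · exact Or.inr (Or.inr (Or.inr (Or.inr (Or.inl ⟨rfl, rfl⟩))))
  · exact Or.inr (Or.inr (Or.inr (Or.inl ⟨rfl, rfl⟩)))
  · exact Or.inr (Or.inr (Or.inr (Or.inr (Or.inr ⟨rfl, rfl⟩))))
  · exact absurd rfl hne

section

variable {R F : SimpleGraph V} {C S : Set V} {W : Type} {f : W → Set (Sym2 V)}

theorem Ctx.stars [Finite V] [Finite W] (hX : Ctx R F C S f) {x y z : V} (hxy : x ≠ y)
    (hxz : x ≠ z) (hyz : y ≠ z) (hS : S = {x, y, z}) : ∃ t p q r, Str f x y z t p q r := by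
  have hxS : x ∈ S := by rw [hS]; simp
  have hyS : y ∈ S := by rw [hS]; simp
  have hzS : z ∈ S := by rw [hS]; simp
  have hCS : ∀ c ∈ C, c ∉ S := fun c hc hs => Set.disjoint_left.mp hX.dis hc hs
  have axy : (LG (R ⊔ F) C S).Adj x y := Or.inr ⟨hxy, hxS, hyS⟩
  have axz : (LG (R ⊔ F) C S).Adj x z := Or.inr ⟨hxz, hxS, hzS⟩
  have ayz : (LG (R ⊔ F) C S).Adj y z := Or.inr ⟨hyz, hyS, hzS⟩
  have hHU : ∀ u v, (LG (R ⊔ F) C S).Adj u v → u ∈ C ∪ S := fun u v h => (LG_mem h).1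
  obtain ⟨t, ft⟩ := tri_star (H := LG (R ⊔ F) C S) (U := C ∪ S) hHU hX.dual axy axz ayz
    (C := C) (hX.con.mono_graph fun a ha b hb hab => Or.inl ⟨hab, Or.inl ⟨ha, Or.inl hb⟩⟩)
    (fun c _ => hX.three.two.del c) (fun h => hCS x h hxS) (fun h => hCS y h hyS)
    (fun h => hCS z h hzS) (by
      intro u v huv hu hv
      have h1 : (BND.tri S).Adj u v := by
        rcases huv with ⟨-, h | h⟩ | h
        · exact absurd h.1 hu
        · exact absurd h.1 hv
        · exact h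
      rcases tri_cases hS h1 with ⟨rfl, rfl⟩ | ⟨rfl, rfl⟩ | ⟨rfl, rfl⟩ | ⟨rfl, rfl⟩ | ⟨rfl, rfl⟩ |
        ⟨rfl, rfl⟩ <;> simp [Sym2.eq_swap])
  have other : ∀ u v, (LG (R ⊔ F) C S).Adj u v → s(u, v) ∈ f t →
      ∃ p, p ≠ t ∧ ∀ w, s(u, v) ∈ f w ↔ (w = t ∨ w = p) := by
    intro u v huv hut
    obtain ⟨w₁, w₂, hne, h12⟩ := hX.dual.two s(u, v) huv
    rcases (h12 t).mp hut with h1 | h1
    · exact ⟨w₂, by rw [h1]; exact hne.symm, by rw [h1]; exact h12⟩
    · exact ⟨w₁, by rw [h1]; exact hne, fun w => by rw [h1, or_comm]; exact h12 w⟩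
  have txy : s(x, y) ∈ f t := by rw [ft]; simp
  have txz : s(x, z) ∈ f t := by rw [ft]; simp
  have tyz : s(y, z) ∈ f t := by rw [ft]; simp
  obtain ⟨p, pt, hp⟩ := other x y axy txy
  obtain ⟨q, qt, hq⟩ := other x z axz txz
  obtain ⟨r, rt, hr⟩ := other y z ayz tyz
  have nb : ∀ s ∈ S, ∃ c ∈ C, (LG (R ⊔ F) C S).Adj s c := by
    intro s hs
    obtain ⟨c, hc, hsc⟩ := hX.nb s hs
    exact ⟨c, hc, Or.inl ⟨hsc, Or.inr ⟨hc, Or.inr hs⟩⟩⟩
  have hneC : ∀ c ∈ C, ∀ s ∈ S, c ≠ s := by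
    rintro c hc s hs rfl
    exact hCS c hc hs
  refine ⟨t, p, q, r, ft, pt, qt, rt, ?_, ?_, ?_, hp, hq, hr⟩
  · rintro rfl
    obtain ⟨c, hc, hxc⟩ := nb x hxS
    exact tri_other hHU hX.dual axy axz hyz (hX.three.two.del x) hxc (hneC c hc y hyS)
      (hneC c hc z hzS) txy txz pt ((hp p).mpr (Or.inr rfl)) ((hq p).mpr (Or.inr rfl))
  · rintro rfl
    obtain ⟨c, hc, hyc⟩ := nb y hyS
    exact tri_other hHU hX.dual axy.symm ayz hxz (hX.three.two.del y) hyc (hneC c hc x hxS)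
      (hneC c hc z hzS) (by rw [Sym2.eq_swap]; exact txy) tyz pt
      (by rw [Sym2.eq_swap]; exact (hp p).mpr (Or.inr rfl)) ((hr p).mpr (Or.inr rfl))
  · rintro rfl
    obtain ⟨c, hc, hzc⟩ := nb z hzS
    exact tri_other hHU hX.dual axz.symm ayz.symm hxy (hX.three.two.del z) hzc (hneC c hc x hxS)
      (hneC c hc y hyS) (by rw [Sym2.eq_swap]; exact txz) (by rw [Sym2.eq_swap]; exact tyz) qt
      (by rw [Sym2.eq_swap]; exact (hq q).mpr (Or.inr rfl))
      (by rw [Sym2.eq_swap]; exact (hr q).mpr (Or.inr rfl))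

/-- The face at `x y` is closed by two real edges. -/
def crt (R : SimpleGraph V) (C : Set V) (f : W → Set (Sym2 V)) (x y : V) : Prop :=
  ∃ c ∈ C, R.Adj c x ∧ R.Adj c y ∧ ∃ w, f w = {s(x, y), s(c, x), s(c, y)}

theorem crt_symm {x y : V} (h : crt R C f x y) : crt R C f y x := by
  obtain ⟨c, hc, h1, h2, w, hw⟩ := h
  refine ⟨c, hc, h2, h1, w, ?_⟩
  rw [hw, Sym2.eq_swap (a := x) (b := y), Set.pair_comm s(c, x) s(c, y)]

/-- The weight of the star at `x y` without `x y`. -/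
theorem Ctx.Q [Finite V] (hX : Ctx R F C S f) {x y z : V} (hS : S = {x, y, z}) (hxy : x ≠ y)
    {t p : W} (ht : s(x, z) ∈ f t ∧ ∀ c ∈ C, s(c, x) ∉ f t) (hpt : p ≠ t)
    (hp : ∀ w, s(x, y) ∈ f w ↔ (w = t ∨ w = p)) (hxz : s(x, z) ∉ f p) :
    2 ≤ swt (rl R) (f p \ {s(x, y)}) ∧ (¬ crt R C f x y → 3 ≤ swt (rl R) (f p \ {s(x, y)})) ∧
      (crt R C f x y → swt (rl R) (f p \ {s(x, y)}) = 2) := by
  have hpm : s(x, y) ∈ f p := (hp p).mpr (Or.inr rfl)
  obtain ⟨h2, h3⟩ := (hX.dual.ev p).swt_two (hX.dual.sub p) (lab := rl R) hpm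
    (fun e _ _ => rl_pos R e)
  refine ⟨h2, fun hn => ?_, ?_⟩
  · by_contra hlt
    obtain ⟨c, hcx, hcy, hpc, h4, h5⟩ := h3 (by omega)
    rw [rl_one] at h4 h5
    refine hn ⟨c, ?_, h4, h5, p, hpc⟩
    have hcm : s(c, x) ∈ f p := by rw [hpc]; simp
    have h6 := (LG_mem (hX.dual.sub p hcm : (LG (R ⊔ F) C S).Adj c x)).1
    rcases h6 with h6 | h6
    · exact h6
    · rw [hS] at h6
      rcases h6 with h6 | h6 | h6
      · exact absurd h6 hcx
      · exact absurd h6 hcy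
      · rw [Set.mem_singleton_iff] at h6
        rw [show c = z from h6, Sym2.eq_swap] at hcm
        exact absurd hcm hxz
  · rintro ⟨c, hc, h4, h5, w, hw⟩
    have hw1 : s(x, y) ∈ f w := by rw [hw]; simp
    have hw2 : w = p := by
      rcases (hp w).mp hw1 with h6 | h6
      · rw [h6] at hw
        exact absurd (by rw [hw]; simp) (ht.2 c hc)
      · exact h6
    subst hw2
    have hcx : c ≠ x := h4.ne
    have hcy : c ≠ y := h5.ne
    have hn : s(c, x) ≠ s(c, y) := by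
      intro hh
      rw [Sym2.eq_iff] at hh
      rcases hh with ⟨-, h6⟩ | ⟨h6, -⟩
      · exact hxy h6
      · exact hcy h6
    have hca' : s(c, x) ≠ s(x, y) := by
      intro hh
      rw [Sym2.eq_iff] at hh
      rcases hh with ⟨h6, -⟩ | ⟨h6, -⟩
      · exact hcx h6
      · exact hcy h6
    have hcb' : s(c, y) ≠ s(x, y) := by
      intro hh
      rw [Sym2.eq_iff] at hh
      rcases hh with ⟨h6, -⟩ | ⟨h6, -⟩
      · exact hcx h6
      · exact hcy h6
    have hd : f w \ {s(x, y)} = {s(c, x), s(c, y)} := by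
      rw [hw]
      ext e
      constructor
      · rintro ⟨rfl | h6, h7⟩
        · exact absurd rfl h7
        · exact h6
      · rintro (rfl | rfl)
        · exact ⟨Or.inr (Or.inl rfl), hca'⟩
        · exact ⟨Or.inr (Or.inr rfl), hcb'⟩
    rw [hd, swt_pair _ hn, rl_one.mpr h4, rl_one.mpr h5]

end

end BND
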