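import Pool.Agent.BND.LEv

/-!
# BND, leaf part 2: a triangle which does not separate is a star of the dual
-/

set_option autoImplicit false

namespace BND

variable {V : Type}

/-- `ℤ/2`-indicator. -/
noncomputable def ind2 (B : Set (Sym2 V)) : Sym2 V → ZMod 2 := Set.indicator B 1

theorem ind2_mem {B : Set (Sym2 V)} {e : Sym2 V} (h : e ∈ B) : ind2 B e = 1 := by
  unfold ind2
  rw [Set.indicator_of_mem h]
  rfl

theorem ind2_notMem {B : Set (Sym2 V)} {e : Sym2 V} (h : e ∉ B) : ind2 B e = 0 := by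
  unfold ind2
  rw [Set.indicator_of_notMem h]

open Classical in
theorem sum_single [Finite V] (φ : (Sym2 V → ZMod 2) →ₗ[ZMod 2] ZMod 2) (B : Set (Sym2 V)) :
    φ (ind2 B) = ∑ e ∈ (Set.toFinite B).toFinset, φ (Pi.single e 1) := by
  rw [← map_sum]
  congr 1
  ext e
  rw [Finset.sum_apply]
  by_cases he : e ∈ B
  · rw [ind2_mem he, Finset.sum_eq_single e]
    · simp
    · intro e' _ hne
      rw [Pi.single_apply, if_neg hne.symm]
    · intro h
      exact absurd (by simpa using he) h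
  · rw [ind2_notMem he]
    symm
    refine Finset.sum_eq_zero fun e' he' => ?_
    rw [Pi.single_apply, if_neg]
    rintro rfl
    exact he (by simpa using he')

open Classical in
theorem sum_single_card [Finite V] (φ : (Sym2 V → ZMod 2) →ₗ[ZMod 2] ZMod 2)
    (B E : Set (Sym2 V)) (hBE : B ⊆ E) :
    φ (ind2 B) = ((B ∩ {e | e ∈ E ∧ φ (Pi.single e 1) = 1}).ncard : ZMod 2) := by
  rw [sum_single, Set.ncard_eq_toFinset_card _ (Set.toFinite _), Finset.card_eq_sum_ones,
    Nat.cast_sum]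
  have h01 : ∀ a : ZMod 2, a = 0 ∨ a = 1 := by decide
  have : (Set.toFinite (B ∩ {e | e ∈ E ∧ φ (Pi.single e 1) = 1})).toFinset =
      (Set.toFinite B).toFinset.filter (fun e => φ (Pi.single e 1) = 1) := by
    ext e
    simp only [Set.Finite.mem_toFinset, Finset.mem_filter]
    constructor
    · exact fun h => ⟨h.1, h.2.2⟩
    · exact fun h => ⟨h.1, hBE h.1, h.2⟩
  rw [this, Finset.sum_filter]
  refine Finset.sum_congr rfl fun e _ => ?_
  rcases h01 (φ (Pi.single e 1)) with h | h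
  · rw [h]; simp
  · rw [h]; simp

theorem even_iff_zmod {n : ℕ} : Even n ↔ (n : ZMod 2) = 0 := by
  rw [ZMod.natCast_eq_zero_iff_even]

/-- A triangle is a sum of stars of the dual. -/
theorem tri_sum [Finite V] {H : SimpleGraph V} {W : Type} [Fintype W] {f : W → Set (Sym2 V)}
    (hD : DualPair H f) {x y z : V} (hxy : H.Adj x y) (hxz : H.Adj x z) (hyz : H.Adj y z) :
    ∃ c : W → ZMod 2, ∀ e ∈ H.edgeSet, ∀ w₁ w₂, w₁ ≠ w₂ → (∀ w, e ∈ f w ↔ (w = w₁ ∨ w = w₂)) →
      c w₁ + c w₂ = ind2 {s(x, y), s(x, z), s(y, z)} e := by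
  classical
  set L : Submodule (ZMod 2) (Sym2 V → ZMod 2) :=
    Submodule.span (ZMod 2) (Set.range fun w => ind2 (f w)) with hL
  have hmem : ind2 {s(x, y), s(x, z), s(y, z)} ∈ L := by
    by_contra hcon
    obtain ⟨φ, hφ, hφL⟩ := Submodule.exists_dual_map_eq_bot_of_notMem hcon inferInstance
    set B : Set (Sym2 V) := {e | e ∈ H.edgeSet ∧ φ (Pi.single e 1) = 1} with hB
    obtain ⟨X, hX⟩ := (hD.cut B (fun e he => he.1)).mp (by
      intro w
      rw [even_iff_zmod, ← sum_single_card φ (f w) H.edgeSet (hD.sub w)]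
      have : φ (ind2 (f w)) ∈ Submodule.map φ L :=
        ⟨_, Submodule.subset_span ⟨w, rfl⟩, rfl⟩
      rw [hφL] at this
      exact this)
    have hT : φ (ind2 {s(x, y), s(x, z), s(y, z)}) =
        φ (Pi.single s(x, y) 1) + φ (Pi.single s(x, z) 1) + φ (Pi.single s(y, z) 1) := by
      rw [← map_add, ← map_add]
      congr 1
      ext e
      have h1 := hxy.ne
      have h2 := hxz.ne
      have h3 := hyz.ne
      have e12 : s(x, y) ≠ s(x, z) := by
        intro hh; rw [Sym2.eq_iff] at hh; rcases hh with ⟨-, h⟩ | ⟨h, -⟩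
        · exact h3 h
        · exact h2 h
      have e13 : s(x, y) ≠ s(y, z) := by
        intro hh; rw [Sym2.eq_iff] at hh; rcases hh with ⟨h, -⟩ | ⟨h, -⟩
        · exact h1 h
        · exact h2 h
      have e23 : s(x, z) ≠ s(y, z) := by
        intro hh; rw [Sym2.eq_iff] at hh; rcases hh with ⟨h, -⟩ | ⟨h, -⟩
        · exact h1 h
        · exact h2 h
      simp only [Pi.add_apply, Pi.single_apply]
      by_cases he1 : e = s(x, y)
      · subst he1
        rw [ind2_mem (by simp), if_pos rfl, if_neg e12, if_neg e13]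
        simp
      · by_cases he2 : e = s(x, z)
        · subst he2
          rw [ind2_mem (by simp), if_neg e12.symm, if_pos rfl, if_neg e23]
          simp
        · by_cases he3 : e = s(y, z)
          · subst he3
            rw [ind2_mem (by simp), if_neg e13.symm, if_neg e23.symm,
              if_pos rfl]
            simp
          · rw [ind2_notMem, if_neg he1, if_neg he2, if_neg he3]
            · simp
            · rintro (h | h | h)
              · exact he1 h
              · exact he2 h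
              · exact he3 h
    rw [hT] at hφ
    have h01 : ∀ a : ZMod 2, a = 0 ∨ a = 1 := by decide
    have hval : ∀ u v, H.Adj u v → φ (Pi.single s(u, v) 1) = if (u ∈ X ↔ v ∈ X) then 0 else 1 := by
      intro u v huv
      have h1 := hX u v huv
      by_cases h2 : (u ∈ X ↔ v ∈ X)
      · rw [if_pos h2]
        rcases h01 (φ (Pi.single s(u, v) 1)) with h3 | h3
        · exact h3
        · exact absurd h2 (h1.mp ⟨huv, h3⟩)
      · rw [if_neg h2]
        exact (h1.mpr h2).2
    rw [hval x y hxy, hval x z hxz, hval y z hyz] at hφ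
    apply hφ
    by_cases hx : x ∈ X <;> by_cases hy : y ∈ X <;> by_cases hz : z ∈ X <;> simp [hx, hy, hz] <;>
      decide
  rw [hL, Submodule.mem_span_range_iff_exists_fun] at hmem
  obtain ⟨c, hc⟩ := hmem
  refine ⟨c, fun e he w₁ w₂ hne hw => ?_⟩
  rw [← hc, Finset.sum_apply]
  have h1 : ∀ w, (c w • ind2 (f w)) e = if w = w₁ then c w₁ else if w = w₂ then c w₂ else 0 := by
    intro w
    rw [Pi.smul_apply, smul_eq_mul]
    by_cases hw1 : w = w₁
    · subst hw1
      rw [ind2_mem ((hw w).mpr (Or.inl rfl)), if_pos rfl]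
      simp
    · by_cases hw2 : w = w₂
      · subst hw2
        rw [ind2_mem ((hw w).mpr (Or.inr rfl)), if_neg hw1, if_pos rfl]
        simp
      · rw [ind2_notMem, if_neg hw1, if_neg hw2, mul_zero]
        exact fun h => ((hw w).mp h).elim hw1 hw2
  rw [Finset.sum_congr rfl fun w _ => h1 w,
    ← Finset.add_sum_erase _ _ (Finset.mem_univ w₁), if_pos rfl,
    ← Finset.add_sum_erase _ _ (Finset.mem_erase.mpr ⟨hne.symm, Finset.mem_univ w₂⟩),
    if_neg hne.symm, if_pos rfl, Finset.sum_eq_zero, add_zero]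
  intro w hw'
  rw [Finset.mem_erase, Finset.mem_erase] at hw'
  rw [if_neg hw'.2.1, if_neg hw'.1]

/-- If all `H`-edges with an end `c` are in a set of edges `B` which is a part of the star of `c`
and is a cut, then `B` is empty or the whole star. -/
theorem star_cut {H : SimpleGraph V} {U : Set V} (hHU : ∀ u v, H.Adj u v → u ∈ U) {c : V}
    (hc : Con H (U \ {c})) {B : Set (Sym2 V)} (hBc : ∀ e ∈ B, c ∈ e) {X : Set V}
    (hX : ∀ u v, H.Adj u v → (s(u, v) ∈ B ↔ ¬ (u ∈ X ↔ v ∈ X))) {u v : V}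
    (hu : H.Adj c u) (hv : H.Adj c v) (huB : s(c, u) ∈ B) : s(c, v) ∈ B := by
  rw [hX c v hv]
  rw [hX c u hu] at huB
  have huc : u ∈ U \ {c} := ⟨hHU u c hu.symm, hu.ne'⟩
  have hvc : v ∈ U \ {c} := ⟨hHU v c hv.symm, hv.ne'⟩
  have key : ∀ p ∈ U \ {c}, ∀ q ∈ U \ {c}, p ∈ X → q ∉ X → False := by
    intro p hp q hq hpX hqX
    obtain ⟨a, ha, b, hb, hab⟩ := hc X ⟨p, hp, hpX⟩ ⟨q, hq, hqX⟩
    have h1 : s(a, b) ∈ B := (hX a b hab).mpr fun h => hb.2 (h.mp ha.2)
    rcases Sym2.mem_iff.mp (hBc _ h1) with h2 | h2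
    · exact ha.1.2 h2.symm
    · exact hb.1.2 h2.symm
  have huv : u ∈ X ↔ v ∈ X :=
    ⟨fun h => by_contra fun h' => key u huc v hvc h h', fun h => by_contra fun h' => key v hvc u huc h h'⟩
  rw [← huv]
  exact huB

/-- **The triangle is a star.** -/
theorem tri_star [Finite V] {H : SimpleGraph V} {U : Set V} (hHU : ∀ u v, H.Adj u v → u ∈ U)
    {W : Type} [Finite W] {f : W → Set (Sym2 V)}
    (hD : DualPair H f) {x y z : V} (hxy : H.Adj x y) (hxz : H.Adj x z) (hyz : H.Adj y z)
    {C : Set V} (hC : Con H C) (hCc : ∀ c ∈ C, Con H (U \ {c}))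
    (hCx : x ∉ C) (hCy : y ∉ C) (hCz : z ∉ C)
    (hcov : ∀ u v, H.Adj u v → u ∉ C → v ∉ C → s(u, v) ∈ ({s(x, y), s(x, z), s(y, z)} : Set (Sym2 V))) :
    ∃ t, f t = {s(x, y), s(x, z), s(y, z)} := by
  classical
  have := Fintype.ofFinite W
  obtain ⟨φ, hφ⟩ := tri_sum hD hxy hxz hyz
  set T : Set (Sym2 V) := {s(x, y), s(x, z), s(y, z)} with hT
  have h01 : ∀ a : ZMod 2, a = 0 ∨ a = 1 := by decide
  have hTC : ∀ e ∈ T, ∀ c ∈ C, c ∉ e := by
    rintro e he c hc hce
    rcases he with rfl | rfl | rfl <;> rcases Sym2.mem_iff.mp hce with rfl | rfl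
    · exact hCx hc
    · exact hCy hc
    · exact hCx hc
    · exact hCz hc
    · exact hCy hc
    · exact hCz hc
  -- on an edge outside `T` the value of `φ` is constant
  have hval : ∀ e ∈ H.edgeSet, e ∉ T → ∀ w w', e ∈ f w → e ∈ f w' → φ w = φ w' := by
    intro e he heT w w' hw hw'
    obtain ⟨w₁, w₂, hne, h12⟩ := hD.two e he
    have h1 := hφ e he w₁ w₂ hne h12
    rw [ind2_notMem heT] at h1
    have h2 : φ w₁ = φ w₂ := by
      have hh : ∀ a b : ZMod 2, a + b = 0 → a = b := by decide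
      exact hh _ _ h1
    rcases (h12 w).mp hw with rfl | rfl <;> rcases (h12 w').mp hw' with rfl | rfl
    · rfl
    · exact h2
    · exact h2.symm
    · rfl
  -- all edges at `c ∈ C` have the same value
  have hstar : ∀ c ∈ C, ∀ u v, H.Adj c u → H.Adj c v → ∀ w w', s(c, u) ∈ f w → s(c, v) ∈ f w' →
      φ w = φ w' := by
    have key : ∀ c ∈ C, ∀ u v, H.Adj c u → H.Adj c v → ∀ w w', s(c, u) ∈ f w → s(c, v) ∈ f w' →
        φ w = 1 → φ w' = 1 := by
      intro c hc u v hu hv w w' hw hw' hw1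
      set B : Set (Sym2 V) := {e | e ∈ H.edgeSet ∧ c ∈ e ∧ ∃ w, e ∈ f w ∧ φ w = 1} with hB
      obtain ⟨X, hX⟩ := (hD.cut B (fun e he => he.1)).mp (by
        intro w0
        rcases h01 (φ w0) with h0 | h1
        · have : f w0 ∩ B = ∅ := by
            ext e
            simp only [Set.mem_inter_iff, Set.mem_empty_iff_false, iff_false]
            rintro ⟨he0, he, hce, w1, hw1, hw1'⟩
            have := hval e he (fun heT => hTC e heT c hc hce) w0 w1 he0 hw1
            rw [h0, hw1'] at this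
            exact absurd this (by decide)
          rw [this, Set.ncard_empty]
          exact Even.zero
        · have : f w0 ∩ B = {e | e ∈ f w0 ∧ c ∈ e} := by
            ext e
            constructor
            · exact fun h => ⟨h.1, h.2.2.1⟩
            · exact fun h => ⟨h.1, hD.sub _ h.1, h.2, w0, h.1, h1⟩
          rw [this]
          exact hD.ev w0 c)
      have h1 := star_cut hHU (hCc c hc) (B := B) (fun e he => he.2.1) hX hu hv
        ⟨hu, Sym2.mem_mk_left _ _, w, hw, hw1⟩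
      obtain ⟨-, -, w1, hw1, hw1'⟩ := h1
      rw [hval _ hv (fun heT => hTC _ heT c hc (Sym2.mem_mk_left _ _)) w' w1 hw' hw1]
      exact hw1'
    intro c hc u v hu hv w w' hw hw'
    rcases h01 (φ w) with h0 | h1
    · rcases h01 (φ w') with h2 | h2
      · rw [h0, h2]
      · have := key c hc v u hv hu w' w hw' hw h2
        rw [this, h2]
    · rw [h1, key c hc u v hu hv w w' hw hw' h1]
  -- all edges with an end in `C` have the same value `k`
  have hk : ∃ k : ZMod 2, ∀ c ∈ C, ∀ u, H.Adj c u → ∀ w, s(c, u) ∈ f w → φ w = k := by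
    by_cases hex : ∃ c ∈ C, ∃ u, H.Adj c u ∧ ∃ w, s(c, u) ∈ f w ∧ φ w = 1
    · refine ⟨1, ?_⟩
      by_contra hcon
      push Not at hcon
      obtain ⟨c0, hc0, u0, hu0, w0, hw0, hw01⟩ := hcon
      have hw00 : φ w0 = 0 := (h01 _).resolve_right hw01
      obtain ⟨c1, hc1, u1, hu1, w1, hw1, hw11⟩ := hex
      set X : Set V := {c | ∃ u, H.Adj c u ∧ ∃ w, s(c, u) ∈ f w ∧ φ w = 1} with hXdef
      obtain ⟨a, ha, b, hb, hab⟩ := hC X ⟨c1, hc1, u1, hu1, w1, hw1, hw11⟩
        ⟨c0, hc0, by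
          rintro ⟨u, hu, w, hw, hw'⟩
          have := hstar c0 hc0 u u0 hu hu0 w w0 hw hw0
          rw [hw', hw00] at this
          exact absurd this (by decide)⟩
      obtain ⟨haC, u, hu, w, hw, hw'⟩ := ha
      obtain ⟨w2, w3, -, h23⟩ := hD.two s(a, b) hab
      have hw2 : s(a, b) ∈ f w2 := (h23 w2).mpr (Or.inl rfl)
      have h1 := hstar a haC u b hu hab w w2 hw hw2
      rw [hw'] at h1
      exact hb.2 ⟨a, hab.symm, w2, by rw [Sym2.eq_swap]; exact hw2, h1.symm⟩
    · push Not at hex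
      exact ⟨0, fun c hc u hu w hw => (h01 _).resolve_right (hex c hc u hu w hw)⟩
  obtain ⟨k, hk⟩ := hk
  -- the other side
  obtain ⟨w₁, w₂, hne, h12⟩ := hD.two s(x, y) hxy
  have h1 := hφ _ hxy w₁ w₂ hne h12
  have hxyT : s(x, y) ∈ T := by rw [hT]; simp
  rw [ind2_mem hxyT] at h1
  have ht : ∃ t, s(x, y) ∈ f t ∧ φ t ≠ k := by
    have hh : ∀ a b k : ZMod 2, a + b = 1 → a ≠ k ∨ b ≠ k := by decide
    rcases hh _ _ k h1 with h2 | h2
    · exact ⟨w₁, (h12 w₁).mpr (Or.inl rfl), h2⟩
    · exact ⟨w₂, (h12 w₂).mpr (Or.inr rfl), h2⟩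
  obtain ⟨t, htxy, htk⟩ := ht
  have hsub : f t ⊆ T := by
    intro e he
    by_contra heT
    induction e using Sym2.ind with
    | _ a b =>
    have hab : H.Adj a b := hD.sub _ he
    by_cases ha : a ∈ C
    · exact htk (hk a ha b hab t he)
    · by_cases hb : b ∈ C
      · exact htk (hk b hb a hab.symm t (by rw [Sym2.eq_swap]; exact he))
      · exact heT (hcov a b hab ha hb)
  refine ⟨t, Set.eq_of_subset_of_ncard_le hsub ?_ (Set.toFinite _)⟩
  have h2 := ((hD.ev t).two_or (hD.sub t) htxy).1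
  have h3 : (f t).ncard = (f t \ {s(x, y)}).ncard + 1 := by
    rw [Set.ncard_sdiff_singleton_add_one htxy (Set.toFinite _)]
  have h4 : T.ncard ≤ 3 := by
    rw [hT]
    calc _ ≤ ({s(x, z), s(y, z)} : Set (Sym2 V)).ncard + 1 := Set.ncard_insert_le _ _
      _ ≤ _ := by
        have := Set.ncard_insert_le s(x, z) {s(y, z)}
        rw [Set.ncard_singleton] at this
        omega
  omega

/-- Two edges of the triangle star have different other ends. -/
theorem tri_other {H : SimpleGraph V} {U : Set V} (hHU : ∀ u v, H.Adj u v → u ∈ U)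
    {W : Type} {f : W → Set (Sym2 V)} (hD : DualPair H f) {x y z c : V}
    (hxy : H.Adj x y) (hxz : H.Adj x z) (hyz : y ≠ z) (hx : Con H (U \ {x})) (hxc : H.Adj x c)
    (hcy : c ≠ y) (hcz : c ≠ z) {t w : W} (htxy : s(x, y) ∈ f t) (htxz : s(x, z) ∈ f t)
    (hwt : w ≠ t) (hw : s(x, y) ∈ f w) : s(x, z) ∉ f w := by
  intro hw'
  have hne : s(x, y) ≠ s(x, z) := by
    intro hh
    rw [Sym2.eq_iff] at hh
    rcases hh with ⟨-, h⟩ | ⟨h, -⟩
    · exact hyz h
    · exact hxz.ne h
  have hends : ∀ e ∈ H.edgeSet, e ∈ f t → e ∈ f w → ∀ w', e ∈ f w' ↔ (w' = t ∨ w' = w) := by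
    intro e he het hew w'
    obtain ⟨w₁, w₂, -, h12⟩ := hD.two e he
    rw [h12]
    rcases (h12 t).mp het with h1 | h1 <;> rcases (h12 w).mp hew with h2 | h2
    · exact absurd (h2.trans h1.symm) hwt
    · rw [h1, h2]
    · rw [h1, h2, or_comm]
    · exact absurd (h2.trans h1.symm) hwt
  have e1 := hends _ hxy htxy hw
  have e2 := hends _ hxz htxz hw'
  obtain ⟨X, hX⟩ := (hD.cut {s(x, y), s(x, z)} (by
    rintro e (rfl | rfl)
    · exact hxy
    · exact hxz)).mp (by
    intro w'
    by_cases h : w' = t ∨ w' = w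
    · have : f w' ∩ {s(x, y), s(x, z)} = {s(x, y), s(x, z)} := by
        apply Set.inter_eq_right.mpr
        rintro e (rfl | rfl)
        · exact (e1 w').mpr h
        · exact (e2 w').mpr h
      rw [this, Set.ncard_pair hne]
      exact even_two
    · have : f w' ∩ {s(x, y), s(x, z)} = ∅ := by
        ext e
        simp only [Set.mem_inter_iff, Set.mem_empty_iff_false, iff_false]
        rintro ⟨h1, rfl | rfl⟩
        · exact h ((e1 w').mp h1)
        · exact h ((e2 w').mp h1)
      rw [this, Set.ncard_empty]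
      exact Even.zero)
  have h1 := star_cut hHU hx (B := {s(x, y), s(x, z)}) (by
    rintro e (rfl | rfl)
    · exact Sym2.mem_mk_left _ _
    · exact Sym2.mem_mk_left _ _) hX hxy hxc (Or.inl rfl)
  rcases h1 with h1 | h1
  · rw [Sym2.eq_iff] at h1
    rcases h1 with ⟨-, h⟩ | ⟨h, -⟩
    · exact hcy h
    · exact hxy.ne h
  · rw [Set.mem_singleton_iff, Sym2.eq_iff] at h1
    rcases h1 with ⟨-, h⟩ | ⟨h, -⟩
    · exact hcz h
    · exact hxz.ne h

end BND
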