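import Pool.Agent.BND.LInst

/-!
# BND, leaf part 4: the five instances, `LeafFacts`
-/

set_option autoImplicit false

namespace BND

variable {V : Type}

section

variable {R F : SimpleGraph V} {C S : Set V} {W : Type} {f : W → Set (Sym2 V)}

/-- Weights of all stars for the instance `i j k`. -/
theorem Ctx.weights [Finite V] (hX : Ctx R F C S f) {x y z : V} (hxy : x ≠ y)
    (hxz : x ≠ z) (hyz : y ≠ z) {t p q r : W} (h : Str f x y z t p q r)
    {i j k : ℕ} (hi : i ≤ 2) (hj : j ≤ 2) (hk : k ≤ 2) :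
    wt (ll R x y z i j k) (f t) = i + j + k ∧
    wt (ll R x y z i j k) (f p) = i + swt (rl R) (f p \ {s(x, y)}) ∧
    wt (ll R x y z i j k) (f q) = j + swt (rl R) (f q \ {s(x, z)}) ∧
    wt (ll R x y z i j k) (f r) = k + swt (rl R) (f r \ {s(y, z)}) ∧
    ∀ w, w ≠ t → w ≠ p → w ≠ q → w ≠ r → wt (ll R x y z i j k) (f w) ≠ 3 := by
  have e12 : s(x, y) ≠ s(x, z) := by
    intro hh; rw [Sym2.eq_iff] at hh; rcases hh with ⟨-, h⟩ | ⟨h, -⟩
    · exact hyz h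
    · exact hxz h
  have e13 : s(x, y) ≠ s(y, z) := by
    intro hh; rw [Sym2.eq_iff] at hh; rcases hh with ⟨h, -⟩ | ⟨h, -⟩
    · exact hxy h
    · exact hxz h
  have e23 : s(x, z) ≠ s(y, z) := by
    intro hh; rw [Sym2.eq_iff] at hh; rcases hh with ⟨h, -⟩ | ⟨h, -⟩
    · exact hxy h
    · exact hxz h
  have hle : ∀ w, wt (ll R x y z i j k) (f w) = swt (ll R x y z i j k) (f w) := fun w =>
    wt_eq_swt fun e _ => ll_le R x y z hi hj hk e
  refine ⟨?_, ?_, ?_, ?_, ?_⟩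
  · rw [hle, h.ft, swt_split _ (show s(x, y) ∈ ({s(x, y), s(x, z), s(y, z)} : Set (Sym2 V)) by simp)]
    have : ({s(x, y), s(x, z), s(y, z)} : Set (Sym2 V)) \ {s(x, y)} = {s(x, z), s(y, z)} := by
      ext e
      constructor
      · rintro ⟨rfl | h6, h7⟩
        · exact absurd rfl h7
        · exact h6
      · rintro (rfl | rfl)
        · exact ⟨Or.inr (Or.inl rfl), e12.symm⟩
        · exact ⟨Or.inr (Or.inr rfl), e13.symm⟩
    rw [this, swt_pair _ e23, ll_one, ll_two hyz hxz, ll_three hxy hxz, add_assoc]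
  · have h1 : s(x, y) ∈ f p := (h.hp p).mpr (Or.inr rfl)
    rw [hle, swt_split _ h1, ll_one]
    congr 1
    refine swt_congr fun e he => ll_other he.2 ?_ ?_
    · rintro rfl
      rcases (h.hq p).mp he.1 with h2 | h2
      · exact h.pt h2
      · exact h.pq h2
    · rintro rfl
      rcases (h.hr p).mp he.1 with h2 | h2
      · exact h.pt h2
      · exact h.pr h2
  · have h1 : s(x, z) ∈ f q := (h.hq q).mpr (Or.inr rfl)
    rw [hle, swt_split _ h1, ll_two hyz hxz]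
    congr 1
    refine swt_congr fun e he => ll_other ?_ he.2 ?_
    · rintro rfl
      rcases (h.hp q).mp he.1 with h2 | h2
      · exact h.qt h2
      · exact h.pq h2.symm
    · rintro rfl
      rcases (h.hr q).mp he.1 with h2 | h2
      · exact h.qt h2
      · exact h.qr h2
  · have h1 : s(y, z) ∈ f r := (h.hr r).mpr (Or.inr rfl)
    rw [hle, swt_split _ h1, ll_three hxy hxz]
    congr 1
    refine swt_congr fun e he => ll_other ?_ ?_ he.2
    · rintro rfl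
      rcases (h.hp r).mp he.1 with h2 | h2
      · exact h.rt h2
      · exact h.pr h2.symm
    · rintro rfl
      rcases (h.hq r).mp he.1 with h2 | h2
      · exact h.rt h2
      · exact h.qr h2.symm
  · intro w wt' wp wq wr
    have : swt (ll R x y z i j k) (f w) = swt (rl R) (f w) := by
      refine swt_congr fun e he => ll_other ?_ ?_ ?_
      · rintro rfl
        exact ((h.hp w).mp he).elim wt' wp
      · rintro rfl
        exact ((h.hq w).mp he).elim wt' wq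
      · rintro rfl
        exact ((h.hr w).mp he).elim wt' wr
    rw [hle, this]
    refine (hX.dual.ev w).swt_ne_three (hX.dual.sub w) (fun e _ => rl_pos R e) ?_
    intro a b c hab hca hcb h1 h2 h3
    rw [rl_one] at h1 h2 h3
    exact hX.tri c (LG_mem hca).1 a (LG_mem hab).1 b (LG_mem hab).2 h2 h1 h3

theorem Str.swap {x y z : V} {t p q r : W} (h : Str f x y z t p q r) : Str f x z y t q p r := by
  refine ⟨?_, h.qt, h.pt, h.rt, h.pq.symm, h.qr, h.pr, h.hq, h.hp, ?_⟩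
  · rw [h.ft]
    ext e
    simp only [Set.mem_insert_iff, Set.mem_singleton_iff, Sym2.eq_swap (a := z) (b := y)]
    tauto
  · rw [Sym2.eq_swap]
    exact h.hr

theorem Str.rot {x y z : V} {t p q r : W} (h : Str f x y z t p q r) : Str f y z x t r p q := by
  refine ⟨?_, h.rt, h.pt, h.qt, h.pr.symm, h.qr.symm, h.pq, h.hr, ?_, ?_⟩
  · rw [h.ft]
    ext e
    simp only [Set.mem_insert_iff, Set.mem_singleton_iff, Sym2.eq_swap (a := y) (b := x),
      Sym2.eq_swap (a := z) (b := x)]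
    tauto
  · rw [Sym2.eq_swap]
    exact h.hp
  · rw [Sym2.eq_swap]
    exact h.hq

theorem Ctx.Qs [Finite V] (hX : Ctx R F C S f) {x y z : V} (hxy : x ≠ y) (hxz : x ≠ z)
    (hS : S = {x, y, z}) {t p q r : W} (h : Str f x y z t p q r) :
    2 ≤ swt (rl R) (f p \ {s(x, y)}) ∧ (¬ crt R C f x y → 3 ≤ swt (rl R) (f p \ {s(x, y)})) ∧
      (crt R C f x y → swt (rl R) (f p \ {s(x, y)}) = 2) := by
  have hCS : ∀ c ∈ C, c ∉ S := fun c hc hs => Set.disjoint_left.mp hX.dis hc hs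
  have hxS : x ∈ S := by rw [hS]; simp
  have hyS : y ∈ S := by rw [hS]; simp
  have hzS : z ∈ S := by rw [hS]; simp
  refine hX.Q hS hxy (t := t) ⟨by rw [h.ft]; simp, fun c hc => ?_⟩ h.pt h.hp ?_
  · rw [h.ft]
    have hcx : c ≠ x := by rintro rfl; exact hCS c hc hxS
    have hcy : c ≠ y := by rintro rfl; exact hCS c hc hyS
    have hcz : c ≠ z := by rintro rfl; exact hCS c hc hzS
    simp only [Set.mem_insert_iff, Set.mem_singleton_iff, Sym2.eq_iff]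
    tauto
  · intro h1
    rcases (h.hq p).mp h1 with h2 | h2
    · exact h.pt h2
    · exact h.pq h2

/-- The contracted edges of an instance. -/
theorem KL_eq {x y z : V} (hxy : x ≠ y) (hxz : x ≠ z) (hyz : y ≠ z) (hS : S = {x, y, z})
    (hCS : Disjoint C S) {i j k : ℕ} {A : Set V} {T : SimpleGraph V}
    (hT : ∀ u v, T.Adj u v ↔ (tri S).Adj u v ∧ (ll R x y z i j k s(u, v) = 0 ∨
      (ll R x y z i j k s(u, v) = 1 ∧ ¬ (u ∈ A ↔ v ∈ A)))) :
    KL (LG (R ⊔ F) C S) (ll R x y z i j k) A = LK R C S A ⊔ T := by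
  have hxS : x ∈ S := by rw [hS]; simp
  have hyS : y ∈ S := by rw [hS]; simp
  have hzS : z ∈ S := by rw [hS]; simp
  have hlab : ∀ u v, (Lf (R ⊔ F) C S).Adj u v → ll R x y z i j k s(u, v) = rl R s(u, v) := by
    intro u v huv
    have hex : ∃ c ∈ C, c ∈ s(u, v) := by
      rcases huv.2 with h | h
      · exact ⟨u, h.1, Sym2.mem_mk_left _ _⟩
      · exact ⟨v, h.1, Sym2.mem_mk_right _ _⟩
    obtain ⟨c, hc, hce⟩ := hex
    have hcS : c ∉ S := fun h => Set.disjoint_left.mp hCS hc h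
    refine ll_other ?_ ?_ ?_ <;> intro he <;> rw [he] at hce <;>
      rcases Sym2.mem_iff.mp hce with rfl | rfl
    · exact hcS hxS
    · exact hcS hyS
    · exact hcS hxS
    · exact hcS hzS
    · exact hcS hyS
    · exact hcS hzS
  ext u v
  constructor
  · rintro ⟨h | h, h'⟩
    · rw [hlab u v h] at h'
      left
      rcases h' with h' | ⟨h', hcr⟩
      · have := rl_pos R s(u, v)
        omega
      · rw [rl_one] at h'
        refine ⟨⟨h', h.2⟩, ?_, ?_, hcr⟩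
        · rcases h.2 with h2 | h2
          · exact Or.inl h2.1
          · exact h2.2
        · rcases h.2 with h2 | h2
          · exact h2.2
          · exact Or.inl h2.1
    · right
      exact (hT u v).mpr ⟨h, h'⟩
  · rintro (⟨h, -, -, hcr⟩ | h)
    · have h1 : (Lf (R ⊔ F) C S).Adj u v := ⟨Or.inl h.1, h.2⟩
      refine ⟨Or.inl h1, Or.inr ⟨?_, hcr⟩⟩
      rw [hlab u v h1, rl_one]
      exact h.1
    · obtain ⟨h1, h2⟩ := (hT u v).mp h
      exact ⟨Or.inr h1, h2⟩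

theorem lz_iff {H : SimpleGraph V} {lab : Sym2 V → ℕ} (u v : V) :
    (lz H lab).Adj u v ↔ H.Adj u v ∧ lab s(u, v) = 0 := Iff.rfl

/-- the graph of the edges of label zero -/
theorem lz_eq {x y z : V} (hS : S = {x, y, z}) (hxy : x ≠ y) (hxz : x ≠ z) (hyz : y ≠ z)
    (hCS : Disjoint C S) {i j k : ℕ} {T : SimpleGraph V}
    (hT : ∀ u v, T.Adj u v ↔ (tri S).Adj u v ∧ ll R x y z i j k s(u, v) = 0) :
    lz (LG (R ⊔ F) C S) (ll R x y z i j k) = T := by
  have hxS : x ∈ S := by rw [hS]; simp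
  have hyS : y ∈ S := by rw [hS]; simp
  have hzS : z ∈ S := by rw [hS]; simp
  ext u v
  constructor
  · rintro ⟨h | h, h'⟩
    · exfalso
      have hex : ∃ c ∈ C, c ∈ s(u, v) := by
        rcases h.2 with h | h
        · exact ⟨u, h.1, Sym2.mem_mk_left _ _⟩
        · exact ⟨v, h.1, Sym2.mem_mk_right _ _⟩
      obtain ⟨c, hc, hce⟩ := hex
      have hcS : c ∉ S := fun h => Set.disjoint_left.mp hCS hc h
      have : ll R x y z i j k s(u, v) = rl R s(u, v) := by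
        refine ll_other ?_ ?_ ?_ <;> intro he <;> rw [he] at hce <;>
          rcases Sym2.mem_iff.mp hce with rfl | rfl
        · exact hcS hxS
        · exact hcS hyS
        · exact hcS hxS
        · exact hcS hzS
        · exact hcS hyS
        · exact hcS hzS
      have h1 := rl_pos R s(u, v)
      omega
    · exact (hT u v).mpr ⟨h, h'⟩
  · intro h
    obtain ⟨h1, h2⟩ := (hT u v).mp h
    exact ⟨Or.inr h1, h2⟩

theorem tri_ext {x y z : V} (hS : S = {x, y, z}) {T : SimpleGraph V} (hTS : T ≤ tri S)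
    {P : V → V → Prop} (hP : ∀ u v, P u v → P v u) (h1 : T.Adj x y ↔ P x y)
    (h2 : T.Adj x z ↔ P x z) (h3 : T.Adj y z ↔ P y z) (u v : V) :
    T.Adj u v ↔ (tri S).Adj u v ∧ P u v := by
  have key : (tri S).Adj u v → (T.Adj u v ↔ P u v) := by
    intro h
    rcases tri_cases hS h with ⟨rfl, rfl⟩ | ⟨rfl, rfl⟩ | ⟨rfl, rfl⟩ | ⟨rfl, rfl⟩ | ⟨rfl, rfl⟩ |
      ⟨rfl, rfl⟩
    · exact h1
    · rw [T.adj_comm, h1]; exact ⟨hP _ _, hP _ _⟩
    · exact h2
    · rw [T.adj_comm, h2]; exact ⟨hP _ _, hP _ _⟩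
    · exact h3
    · rw [T.adj_comm, h3]; exact ⟨hP _ _, hP _ _⟩
  constructor
  · intro h
    exact ⟨hTS h, (key (hTS h)).mp h⟩
  · rintro ⟨h, h'⟩
    exact (key h).mpr h'

theorem ll_symm (lab : Sym2 V → ℕ) (A : Set V) (u v : V)
    (h : lab s(u, v) = 0 ∨ (lab s(u, v) = 1 ∧ ¬ (u ∈ A ↔ v ∈ A))) :
    lab s(v, u) = 0 ∨ (lab s(v, u) = 1 ∧ ¬ (v ∈ A ↔ u ∈ A)) := by
  rw [Sym2.eq_swap]
  exact h.imp id fun h' => ⟨h'.1, fun hc => h'.2 hc.symm⟩

theorem edge_le_tri {x y : V} (hx : x ∈ S) (hy : y ∈ S) : SimpleGraph.edge x y ≤ tri S := by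
  intro u v h
  rw [SimpleGraph.edge_adj] at h
  obtain ⟨h1, hne⟩ := h
  rcases h1 with ⟨rfl, rfl⟩ | ⟨rfl, rfl⟩
  · exact ⟨hne, hx, hy⟩
  · exact ⟨hne, hy, hx⟩

theorem edge_adj_iff {x y u v : V} (huv : u ≠ v) :
    (SimpleGraph.edge x y).Adj u v ↔ (u = x ∧ v = y ∨ u = y ∧ v = x) := by
  rw [SimpleGraph.edge_adj]
  constructor
  · rintro ⟨⟨rfl, rfl⟩ | ⟨rfl, rfl⟩, -⟩
    · exact Or.inl ⟨rfl, rfl⟩
    · exact Or.inr ⟨rfl, rfl⟩
  · rintro (⟨rfl, rfl⟩ | ⟨rfl, rfl⟩)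
    · exact ⟨Or.inl ⟨rfl, rfl⟩, huv⟩
    · exact ⟨Or.inr ⟨rfl, rfl⟩, huv⟩

theorem Ctx.mem3 {x y z : V} (hS : S = {x, y, z}) : x ∈ S ∧ y ∈ S ∧ z ∈ S := by
  rw [hS]; simp

theorem Ctx.A1 [Finite V] [Finite W] (hX : Ctx R F C S f) {x y z : V} (hxy : x ≠ y) (hxz : x ≠ z)
    (hyz : y ≠ z) (hS : S = {x, y, z}) : ∃ A, (y ∈ A ↔ z ∈ A) ∧ LO R F C S A ⊥ := by
  obtain ⟨hxS, hyS, hzS⟩ := Ctx.mem3 hS
  obtain ⟨t, p, q, r, h⟩ := hX.stars hxy hxz hyz hS
  obtain ⟨wt1, wp, wq, wr, wo⟩ := hX.weights hxy hxz hyz h (i := 2) (j := 2) (k := 1)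
    (by omega) (by omega) (by omega)
  have Q1 := (hX.Qs hxy hxz hS h).1
  have Q2 := (hX.Qs hxz hxy (by rw [hS, Set.pair_comm y z]) h.swap).1
  have hz : lz (LG (R ⊔ F) C S) (ll R x y z 2 2 1) = ⊥ :=
    lz_eq hS hxy hxz hyz hX.dis (tri_ext hS bot_le (P := fun u v => ll R x y z 2 2 1 s(u, v) = 0)
      (fun u v h => by rw [Sym2.eq_swap]; exact h)
      (by rw [ll_one]; simp) (by rw [ll_two hyz hxz]; simp) (by rw [ll_three hxy hxz]; simp))
  obtain ⟨A, hA, hyzA, -⟩ := planarGood (G := LG (R ⊔ F) C S) (U := C ∪ S) hX.dual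
    (fun u v h => LG_mem h) (lab := ll R x y z 2 2 1)
    (fun e _ => ll_le R x y z (by omega) (by omega) (by omega) e) lz_iff
    (by rw [hz]; exact hX.three.two.ctr_bot) ⟨t, by rw [wt1]; omega⟩ (ρ := r) (a := y) (b := z)
    (Or.inr ⟨hyz, hyS, hzS⟩) (ll_three hxy hxz) ((h.hr r).mpr (Or.inr rfl)) (by
      intro w hw
      by_cases h1 : w = t
      · rw [h1, wt1]; omega
      · by_cases h2 : w = p
        · rw [h2, wp]; omega
        · by_cases h3 : w = q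
          · rw [h3, wq]; omega
          · exact wo w h1 h2 h3 hw)
  refine ⟨A, hyzA, ?_⟩
  have : KL (LG (R ⊔ F) C S) (ll R x y z 2 2 1) A = LK R C S A ⊔ ⊥ :=
    KL_eq hxy hxz hyz hS hX.dis (tri_ext hS bot_le (P := fun u v => ll R x y z 2 2 1 s(u, v) = 0 ∨
      (ll R x y z 2 2 1 s(u, v) = 1 ∧ ¬ (u ∈ A ↔ v ∈ A))) (ll_symm _ A)
      (by rw [ll_one]; simp) (by rw [ll_two hyz hxz]; simp)
      (by rw [ll_three hxy hxz]; simp [hyzA]))
  rw [this] at hA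
  exact hA

theorem Ctx.A2 [Finite V] [Finite W] (hX : Ctx R F C S f) {x y z : V} (hxy : x ≠ y) (hxz : x ≠ z)
    (hyz : y ≠ z) (hS : S = {x, y, z}) (hc : ¬ crt R C f x y) :
    ∃ A, (y ∈ A ↔ z ∈ A) ∧ (((x ∈ A ↔ y ∈ A) ∧ LO R F C S A ⊥) ∨
      (¬ (x ∈ A ↔ y ∈ A) ∧ LO R F C S A (SimpleGraph.edge x y))) := by
  obtain ⟨hxS, hyS, hzS⟩ := Ctx.mem3 hS
  obtain ⟨t, p, q, r, h⟩ := hX.stars hxy hxz hyz hS
  obtain ⟨wt1, wp, wq, wr, wo⟩ := hX.weights hxy hxz hyz h (i := 1) (j := 2) (k := 1)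
    (by omega) (by omega) (by omega)
  have Q1 := (hX.Qs hxy hxz hS h).2.1 hc
  have Q2 := (hX.Qs hxz hxy (by rw [hS, Set.pair_comm y z]) h.swap).1
  have hz : lz (LG (R ⊔ F) C S) (ll R x y z 1 2 1) = ⊥ :=
    lz_eq hS hxy hxz hyz hX.dis (tri_ext hS bot_le (P := fun u v => ll R x y z 1 2 1 s(u, v) = 0)
      (fun u v h => by rw [Sym2.eq_swap]; exact h)
      (by rw [ll_one]; simp) (by rw [ll_two hyz hxz]; simp) (by rw [ll_three hxy hxz]; simp))
  obtain ⟨A, hA, hyzA, -⟩ := planarGood (G := LG (R ⊔ F) C S) (U := C ∪ S) hX.dual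
    (fun u v h => LG_mem h) (lab := ll R x y z 1 2 1)
    (fun e _ => ll_le R x y z (by omega) (by omega) (by omega) e) lz_iff
    (by rw [hz]; exact hX.three.two.ctr_bot) ⟨t, by rw [wt1]; omega⟩ (ρ := r) (a := y) (b := z)
    (Or.inr ⟨hyz, hyS, hzS⟩) (ll_three hxy hxz) ((h.hr r).mpr (Or.inr rfl)) (by
      intro w hw
      by_cases h1 : w = t
      · rw [h1, wt1]; omega
      · by_cases h2 : w = p
        · rw [h2, wp]; omega
        · by_cases h3 : w = q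
          · rw [h3, wq]; omega
          · exact wo w h1 h2 h3 hw)
  refine ⟨A, hyzA, ?_⟩
  by_cases hxyA : (x ∈ A ↔ y ∈ A)
  · left
    refine ⟨hxyA, ?_⟩
    have : KL (LG (R ⊔ F) C S) (ll R x y z 1 2 1) A = LK R C S A ⊔ ⊥ :=
      KL_eq hxy hxz hyz hS hX.dis (tri_ext hS bot_le (P := fun u v =>
        ll R x y z 1 2 1 s(u, v) = 0 ∨
        (ll R x y z 1 2 1 s(u, v) = 1 ∧ ¬ (u ∈ A ↔ v ∈ A))) (ll_symm _ A)
        (by rw [ll_one]; simp [hxyA]) (by rw [ll_two hyz hxz]; simp)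
        (by rw [ll_three hxy hxz]; simp [hyzA]))
    rw [this] at hA
    exact hA
  · right
    refine ⟨hxyA, ?_⟩
    have : KL (LG (R ⊔ F) C S) (ll R x y z 1 2 1) A = LK R C S A ⊔ SimpleGraph.edge x y :=
      KL_eq hxy hxz hyz hS hX.dis (tri_ext hS (edge_le_tri hxS hyS) (P := fun u v =>
        ll R x y z 1 2 1 s(u, v) = 0 ∨
        (ll R x y z 1 2 1 s(u, v) = 1 ∧ ¬ (u ∈ A ↔ v ∈ A))) (ll_symm _ A)
        (by rw [ll_one, edge_adj_iff hxy]; simp [hxyA])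
        (by rw [ll_two hyz hxz, edge_adj_iff hxz]; simp [hyz.symm, hxz.symm])
        (by rw [ll_three hxy hxz, edge_adj_iff hyz]; simp [hyzA, hxy.symm, hyz.symm, hxz.symm]))
    rw [this] at hA
    exact hA

theorem Ctx.A3 [Finite V] [Finite W] (hX : Ctx R F C S f) {x y z : V} (hxy : x ≠ y) (hxz : x ≠ z)
    (hyz : y ≠ z) (hS : S = {x, y, z}) :
    ∃ A, (y ∈ A ↔ z ∈ A) ∧ LO R F C S A (SimpleGraph.edge y z) := by
  obtain ⟨hxS, hyS, hzS⟩ := Ctx.mem3 hS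
  obtain ⟨t, p, q, r, h⟩ := hX.stars hxy hxz hyz hS
  obtain ⟨wt1, wp, wq, wr, wo⟩ := hX.weights hxy hxz hyz h (i := 2) (j := 2) (k := 0)
    (by omega) (by omega) (by omega)
  have Q1 := (hX.Qs hxy hxz hS h).1
  have Q2 := (hX.Qs hxz hxy (by rw [hS, Set.pair_comm y z]) h.swap).1
  have hz : lz (LG (R ⊔ F) C S) (ll R x y z 2 2 0) = SimpleGraph.edge y z :=
    lz_eq hS hxy hxz hyz hX.dis (tri_ext hS (edge_le_tri hyS hzS)
      (P := fun u v => ll R x y z 2 2 0 s(u, v) = 0)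
      (fun u v h => by rw [Sym2.eq_swap]; exact h)
      (by rw [ll_one, edge_adj_iff hxy]; simp [hxy, hxz])
      (by rw [ll_two hyz hxz, edge_adj_iff hxz]; simp [hxy, hxz])
      (by rw [ll_three hxy hxz, edge_adj_iff hyz]; simp))
  have h3 : ∀ w, wt (ll R x y z 2 2 0) (f w) = 3 → w = r := by
    intro w hw
    by_contra hwr
    by_cases h1 : w = t
    · rw [h1, wt1] at hw; omega
    · by_cases h2 : w = p
      · rw [h2, wp] at hw; omega
      · by_cases h3 : w = q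
        · rw [h3, wq] at hw; omega
        · exact wo w h1 h2 h3 hwr hw
  obtain ⟨A, hA, hA0⟩ := planarGood' (G := LG (R ⊔ F) C S) (U := C ∪ S) hX.dual
    (fun u v h => LG_mem h) (lab := ll R x y z 2 2 0)
    (fun e _ => ll_le R x y z (by omega) (by omega) (by omega) e) lz_iff
    (by rw [hz]; exact hX.three.ctr_edge (Or.inr hyS) (Or.inr hzS) (Or.inr ⟨hyz, hyS, hzS⟩))
    ⟨t, by rw [wt1]; omega⟩ (fun w w' h1 h2 => (h3 w h1).trans (h3 w' h2).symm)
  have hyzA : y ∈ A ↔ z ∈ A := hA0 y z (Or.inr ⟨hyz, hyS, hzS⟩) (ll_three hxy hxz)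
  refine ⟨A, hyzA, ?_⟩
  have : KL (LG (R ⊔ F) C S) (ll R x y z 2 2 0) A = LK R C S A ⊔ SimpleGraph.edge y z :=
    KL_eq hxy hxz hyz hS hX.dis (tri_ext hS (edge_le_tri hyS hzS) (P := fun u v =>
      ll R x y z 2 2 0 s(u, v) = 0 ∨
      (ll R x y z 2 2 0 s(u, v) = 1 ∧ ¬ (u ∈ A ↔ v ∈ A))) (ll_symm _ A)
      (by rw [ll_one, edge_adj_iff hxy]; simp [hxy, hxz])
      (by rw [ll_two hyz hxz, edge_adj_iff hxz]; simp [hxy, hxz])
      (by rw [ll_three hxy hxz, edge_adj_iff hyz]; simp))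
  rw [this] at hA
  exact hA

theorem Ctx.A4 [Finite V] [Finite W] (hX : Ctx R F C S f) {x y z : V} (hxy : x ≠ y) (hxz : x ≠ z)
    (hyz : y ≠ z) (hS : S = {x, y, z}) (c1 : ¬ crt R C f x y) (c2 : ¬ crt R C f x z)
    (c3 : ¬ crt R C f y z) :
    ∃ A, (∀ s ∈ S, ∀ t ∈ S, s ∈ A ↔ t ∈ A) ∧ LO R F C S A ⊥ := by
  obtain ⟨hxS, hyS, hzS⟩ := Ctx.mem3 hS
  obtain ⟨t, p, q, r, h⟩ := hX.stars hxy hxz hyz hS
  obtain ⟨wt1, wp, wq, wr, wo⟩ := hX.weights hxy hxz hyz h (i := 1) (j := 1) (k := 1)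
    (by omega) (by omega) (by omega)
  have Q1 := (hX.Qs hxy hxz hS h).2.1 c1
  have Q2 := (hX.Qs hxz hxy (by rw [hS, Set.pair_comm y z]) h.swap).2.1 c2
  have Q3 := (hX.Qs hyz hxy.symm (by rw [hS, Set.pair_comm z x, Set.insert_comm]) h.rot).2.1 c3
  have hz : lz (LG (R ⊔ F) C S) (ll R x y z 1 1 1) = ⊥ :=
    lz_eq hS hxy hxz hyz hX.dis (tri_ext hS bot_le (P := fun u v => ll R x y z 1 1 1 s(u, v) = 0)
      (fun u v h => by rw [Sym2.eq_swap]; exact h)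
      (by rw [ll_one]; simp) (by rw [ll_two hyz hxz]; simp) (by rw [ll_three hxy hxz]; simp))
  obtain ⟨A, hA, hxyA, -⟩ := planarGood (G := LG (R ⊔ F) C S) (U := C ∪ S) hX.dual
    (fun u v h => LG_mem h) (lab := ll R x y z 1 1 1)
    (fun e _ => ll_le R x y z (by omega) (by omega) (by omega) e) lz_iff
    (by rw [hz]; exact hX.three.two.ctr_bot) ⟨p, by rw [wp]; omega⟩ (ρ := t) (a := x) (b := y)
    (Or.inr ⟨hxy, hxS, hyS⟩) ll_one ((h.hp t).mpr (Or.inl rfl)) (by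
      intro w hw
      by_cases h2 : w = p
      · rw [h2, wp]; omega
      · by_cases h3 : w = q
        · rw [h3, wq]; omega
        · by_cases h4 : w = r
          · rw [h4, wr]; omega
          · exact wo w hw h2 h3 h4)
  have hxzA : x ∈ A ↔ z ∈ A := by
    by_contra hcr
    have k1 : (KL (LG (R ⊔ F) C S) (ll R x y z 1 1 1) A).Adj x z :=
      ⟨Or.inr ⟨hxz, hxS, hzS⟩, Or.inr ⟨ll_two hyz hxz, hcr⟩⟩
    have k2 : (KL (LG (R ⊔ F) C S) (ll R x y z 1 1 1) A).Adj y z :=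
      ⟨Or.inr ⟨hyz, hyS, hzS⟩, Or.inr ⟨ll_three hxy hxz, by rw [← hxyA]; exact hcr⟩⟩
    have k3 := hA.ctr.strict x (Or.inr hxS) y (Or.inr hyS) (Or.inr ⟨hxy, hxS, hyS⟩)
      (k1.reachable.trans k2.reachable.symm)
    rcases k3.2 with k4 | k4
    · rw [ll_one] at k4
      omega
    · exact k4.2 hxyA
  have hyzA : y ∈ A ↔ z ∈ A := hxyA.symm.trans hxzA
  refine ⟨A, ?_, ?_⟩
  · have : ∀ s ∈ S, s ∈ A ↔ x ∈ A := by
      intro s hs
      rw [hS] at hs
      rcases hs with rfl | rfl | rfl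
      · exact Iff.rfl
      · exact hxyA.symm
      · exact hxzA.symm
    exact fun s hs t ht => (this s hs).trans (this t ht).symm
  have : KL (LG (R ⊔ F) C S) (ll R x y z 1 1 1) A = LK R C S A ⊔ ⊥ :=
    KL_eq hxy hxz hyz hS hX.dis (tri_ext hS bot_le (P := fun u v => ll R x y z 1 1 1 s(u, v) = 0 ∨
      (ll R x y z 1 1 1 s(u, v) = 1 ∧ ¬ (u ∈ A ↔ v ∈ A))) (ll_symm _ A)
      (by rw [ll_one]; simp [hxyA]) (by rw [ll_two hyz hxz]; simp [hxzA])
      (by rw [ll_three hxy hxz]; simp [hyzA]))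
  rw [this] at hA
  exact hA

theorem Ctx.A5 [Finite V] [Finite W] (hX : Ctx R F C S f) {x y z : V} (hxy : x ≠ y) (hxz : x ≠ z)
    (hyz : y ≠ z) (hS : S = {x, y, z}) (hc : crt R C f x y) :
    (∃ A, (∀ s ∈ S, ∀ t ∈ S, s ∈ A ↔ t ∈ A) ∧ LO R F C S A (SimpleGraph.edge x y)) ∨
    (crt R C f x z ∧ crt R C f y z) := by
  by_cases hboth : crt R C f x z ∧ crt R C f y z
  · exact Or.inr hboth
  left
  obtain ⟨hxS, hyS, hzS⟩ := Ctx.mem3 hS
  obtain ⟨t, p, q, r, h⟩ := hX.stars hxy hxz hyz hS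
  obtain ⟨wt1, wp, wq, wr, wo⟩ := hX.weights hxy hxz hyz h (i := 0) (j := 1) (k := 1)
    (by omega) (by omega) (by omega)
  have Q1 := (hX.Qs hxy hxz hS h).2.2 hc
  have Q2 := hX.Qs hxz hxy (by rw [hS, Set.pair_comm y z]) h.swap
  have Q3 := hX.Qs hyz hxy.symm (by rw [hS, Set.pair_comm z x, Set.insert_comm]) h.rot
  have hz : lz (LG (R ⊔ F) C S) (ll R x y z 0 1 1) = SimpleGraph.edge x y :=
    lz_eq hS hxy hxz hyz hX.dis (tri_ext hS (edge_le_tri hxS hyS)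
      (P := fun u v => ll R x y z 0 1 1 s(u, v) = 0)
      (fun u v h => by rw [Sym2.eq_swap]; exact h)
      (by rw [ll_one, edge_adj_iff hxy]; simp)
      (by rw [ll_two hyz hxz, edge_adj_iff hxz]; simp [hyz.symm, hxz.symm])
      (by rw [ll_three hxy hxz, edge_adj_iff hyz]; simp [hxy.symm, hyz.symm, hxz.symm]))
  have hctr : Ctr (LG (R ⊔ F) C S) (C ∪ S) (lz (LG (R ⊔ F) C S) (ll R x y z 0 1 1)) := by
    rw [hz]
    exact hX.three.ctr_edge (Or.inr hxS) (Or.inr hyS) (Or.inr ⟨hxy, hxS, hyS⟩)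
  have hA : ∃ A, GC (LG (R ⊔ F) C S) (C ∪ S) A (KL (LG (R ⊔ F) C S) (ll R x y z 0 1 1) A) ∧
      (x ∈ A ↔ y ∈ A) ∧ (x ∈ A ↔ z ∈ A) := by
    by_cases cxz : crt R C f x z
    · have cyz : ¬ crt R C f y z := fun h' => hboth ⟨cxz, h'⟩
      have Q3' := Q3.2.1 cyz
      obtain ⟨A, hA, hxzA, hA0⟩ := planarGood (G := LG (R ⊔ F) C S) (U := C ∪ S) hX.dual
        (fun u v h => LG_mem h) (lab := ll R x y z 0 1 1)
        (fun e _ => ll_le R x y z (by omega) (by omega) (by omega) e) lz_iff hctr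
        ⟨r, by rw [wr]; omega⟩ (ρ := q) (a := x) (b := z)
        (Or.inr ⟨hxz, hxS, hzS⟩) (ll_two hyz hxz) ((h.hq q).mpr (Or.inr rfl)) (by
          intro w hw
          by_cases h1 : w = t
          · rw [h1, wt1]; omega
          · by_cases h2 : w = p
            · rw [h2, wp]; omega
            · by_cases h4 : w = r
              · rw [h4, wr]; omega
              · exact wo w h1 h2 hw h4)
      exact ⟨A, hA, hA0 x y (Or.inr ⟨hxy, hxS, hyS⟩) ll_one, hxzA⟩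
    · have Q2' := Q2.2.1 cxz
      obtain ⟨A, hA, hyzA, hA0⟩ := planarGood (G := LG (R ⊔ F) C S) (U := C ∪ S) hX.dual
        (fun u v h => LG_mem h) (lab := ll R x y z 0 1 1)
        (fun e _ => ll_le R x y z (by omega) (by omega) (by omega) e) lz_iff hctr
        ⟨q, by rw [wq]; omega⟩ (ρ := r) (a := y) (b := z)
        (Or.inr ⟨hyz, hyS, hzS⟩) (ll_three hxy hxz) ((h.hr r).mpr (Or.inr rfl)) (by
          intro w hw
          by_cases h1 : w = t
          · rw [h1, wt1]; omega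
          · by_cases h2 : w = p
            · rw [h2, wp]; omega
            · by_cases h3 : w = q
              · rw [h3, wq]; omega
              · exact wo w h1 h2 h3 hw)
      have hxyA := hA0 x y (Or.inr ⟨hxy, hxS, hyS⟩) ll_one
      exact ⟨A, hA, hxyA, hxyA.trans hyzA⟩
  obtain ⟨A, hA, hxyA, hxzA⟩ := hA
  have hyzA : y ∈ A ↔ z ∈ A := hxyA.symm.trans hxzA
  refine ⟨A, ?_, ?_⟩
  · have : ∀ s ∈ S, s ∈ A ↔ x ∈ A := by
      intro s hs
      rw [hS] at hs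
      rcases hs with rfl | rfl | rfl
      · exact Iff.rfl
      · exact hxyA.symm
      · exact hxzA.symm
    exact fun s hs t ht => (this s hs).trans (this t ht).symm
  have : KL (LG (R ⊔ F) C S) (ll R x y z 0 1 1) A = LK R C S A ⊔ SimpleGraph.edge x y :=
    KL_eq hxy hxz hyz hS hX.dis (tri_ext hS (edge_le_tri hxS hyS) (P := fun u v =>
      ll R x y z 0 1 1 s(u, v) = 0 ∨
      (ll R x y z 0 1 1 s(u, v) = 1 ∧ ¬ (u ∈ A ↔ v ∈ A))) (ll_symm _ A)
      (by rw [ll_one, edge_adj_iff hxy]; simp)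
      (by rw [ll_two hyz hxz, edge_adj_iff hxz]; simp [hxzA, hyz.symm, hxz.symm])
      (by rw [ll_three hxy hxz, edge_adj_iff hyz]; simp [hyzA, hxy.symm, hyz.symm, hxz.symm]))
  rw [this] at hA
  exact hA

/-- **The facts about a planar leaf.** -/
theorem Ctx.facts [Finite V] [Finite W] (hX : Ctx R F C S f) (hS : S.ncard = 3) :
    LeafFacts R F C S (crt R C f) := by
  refine ⟨fun x y h => crt_symm h, ?_, ?_, ?_, ?_, ?_, ?_⟩
  · rintro x _ y _ ⟨c, hc, h1, h2, -⟩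
    exact ⟨c, hc, h1, h2⟩
  · exact fun x y z h1 h2 h3 h4 => hX.A1 h1 h2 h3 h4
  · exact fun x y z h1 h2 h3 h4 h5 => hX.A2 h1 h2 h3 h4 h5
  · exact fun x y z h1 h2 h3 h4 => hX.A3 h1 h2 h3 h4
  · intro hn
    obtain ⟨x, y, z, hxy, hxz, hyz, hS'⟩ := Set.ncard_eq_three.mp hS
    obtain ⟨hxS, hyS, hzS⟩ := Ctx.mem3 hS'
    exact hX.A4 hxy hxz hyz hS' (hn x hxS y hyS hxy) (hn x hxS z hzS hxz) (hn y hyS z hzS hyz)
  · exact fun x y z h1 h2 h3 h4 h5 => hX.A5 h1 h2 h3 h4 h5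

end

end BND
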