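import Pool.Agent.BND.Plan
import Pool.Agent.BND.Cnx
import Pool.Agent.BOND.Adapt2

/-!
# BOND: the planar input (3-connected graphs with a dual), from `planarGood`
-/

set_option autoImplicit false

open scoped Classical

namespace BND

variable {V W : Type}

theorem DualPair.even_vertex {G : SimpleGraph V} {f : W → Set (Sym2 V)} (hD : DualPair G f)
    (w : W) (v : V) : Even {e | e ∈ f w ∧ v ∈ e}.ncard := by
  have h1 := (hD.cut {e | e ∈ G.edgeSet ∧ v ∈ e} (fun e he => he.1)).mpr ⟨{v}, by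
    intro a b hab
    have hne := hab.ne
    simp only [Set.mem_ofPred_eq, SimpleGraph.mem_edgeSet, Sym2.mem_iff, Set.mem_singleton_iff]
    constructor
    · rintro ⟨_, rfl | rfl⟩ h
      · exact hne (h.mp rfl).symm
      · exact hne (h.mpr rfl)
    · intro h
      refine ⟨hab, ?_⟩
      by_contra hcon
      rw [not_or] at hcon
      exact h ⟨fun h' => absurd h'.symm hcon.1, fun h' => absurd h'.symm hcon.2⟩⟩ w
  have h2 : f w ∩ {e | e ∈ G.edgeSet ∧ v ∈ e} = {e | e ∈ f w ∧ v ∈ e} := by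
    ext e
    constructor
    · rintro ⟨h, _, h'⟩
      exact ⟨h, h'⟩
    · rintro ⟨h, h'⟩
      exact ⟨h, hD.sub w h, h'⟩
  rw [h2] at h1
  exact h1

theorem wt_eq_sum [Finite V] (lab : Sym2 V → ℕ) (S : Set (Sym2 V)) (h : ∀ e ∈ S, lab e ≤ 2) :
    wt lab S = ∑ e ∈ (Set.toFinite S).toFinset, lab e := by
  unfold wt
  have h1 : {e | e ∈ S ∧ lab e = 1}.ncard =
      ((Set.toFinite S).toFinset.filter fun e => lab e = 1).card := by
    rw [← Set.ncard_coe_finset]
    congr 1
    ext e
    simp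
  have h2 : {e | e ∈ S ∧ lab e = 2}.ncard =
      ((Set.toFinite S).toFinset.filter fun e => lab e = 2).card := by
    rw [← Set.ncard_coe_finset]
    congr 1
    ext e
    simp
  rw [h1, h2, Finset.card_filter, Finset.card_filter, Finset.mul_sum, ← Finset.sum_add_distrib]
  refine Finset.sum_congr rfl fun e he => ?_
  have h3 := h e ((Set.Finite.mem_toFinset _).mp he)
  interval_cases h4 : lab e <;> simp

theorem sum_le_wt [Finite V] {lab : Sym2 V → ℕ} {S : Set (Sym2 V)} (h : ∀ e ∈ S, lab e ≤ 2)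
    (T : Finset (Sym2 V)) (hT : ∀ e ∈ T, e ∈ S) : ∑ e ∈ T, lab e ≤ wt lab S := by
  rw [wt_eq_sum lab S h]
  refine Finset.sum_le_sum_of_subset ?_
  intro e he
  exact (Set.Finite.mem_toFinset _).mpr (hT e he)

theorem other_edge [Finite V] {c : Set (Sym2 V)} {v : V} (hev : Even {e | e ∈ c ∧ v ∈ e}.ncard)
    {e : Sym2 V} (he : e ∈ c) (hv : v ∈ e) : ∃ e' ∈ c, v ∈ e' ∧ e' ≠ e := by
  by_contra hcon
  push Not at hcon
  have h1 : {e | e ∈ c ∧ v ∈ e} = {e} := by
    ext e'
    constructor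
    · rintro ⟨h, h'⟩
      exact hcon e' h h'
    · rintro rfl
      exact ⟨he, hv⟩
  rw [h1, Set.ncard_singleton] at hev
  exact absurd hev (by decide)

/-- A nonempty even set of edges with labels 1 and 2 and no triangle of label 1 has weight at
least 4. -/
theorem face_wt [Finite V] {G : SimpleGraph V} {c : Set (Sym2 V)} (hc : c ⊆ G.edgeSet)
    (hev : ∀ v, Even {e | e ∈ c ∧ v ∈ e}.ncard) (hne : c.Nonempty) {lab : Sym2 V → ℕ}
    (hlab : ∀ e ∈ c, lab e = 1 ∨ lab e = 2)
    (htri : ∀ a b x, s(a, b) ∈ c → s(b, x) ∈ c → s(a, x) ∈ c → lab s(a, b) = 1 →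
      lab s(b, x) = 1 → lab s(a, x) = 1 → False) : 4 ≤ wt lab c := by
  have hle : ∀ e ∈ c, lab e ≤ 2 := fun e he => by
    rcases hlab e he with h | h <;> omega
  have hge : ∀ e ∈ c, 1 ≤ lab e := fun e he => by
    rcases hlab e he with h | h <;> omega
  obtain ⟨e1, he1⟩ := hne
  induction e1 using Sym2.ind with
  | _ a b =>
  have hab : a ≠ b := (hc he1 : G.Adj a b).ne
  obtain ⟨e2, he2, ha2, hne2⟩ := other_edge (hev a) he1 (Sym2.mem_mk_left a b)
  obtain ⟨x, rfl⟩ := Sym2.mem_iff_exists.mp ha2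
  have hax : a ≠ x := (hc he2 : G.Adj a x).ne
  have hxb : x ≠ b := fun h => hne2 (by rw [h])
  obtain ⟨e3, he3, hb3, hne3⟩ := other_edge (hev b) he1 (Sym2.mem_mk_right a b)
  obtain ⟨y, rfl⟩ := Sym2.mem_iff_exists.mp hb3
  have hby : b ≠ y := (hc he3 : G.Adj b y).ne
  have hya : y ≠ a := fun h => hne3 (by rw [h, Sym2.eq_swap])
  have h23 : s(a, x) ≠ s(b, y) := by
    intro h
    rw [Sym2.eq_iff] at h
    rcases h with ⟨h, _⟩ | ⟨h, _⟩
    · exact hab h
    · exact hya h.symm
  by_cases hxy : x = y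
  · subst hxy
    have h1 := sum_le_wt hle {s(a, b), s(a, x), s(b, x)} (by
      intro e he
      simp only [Finset.mem_insert, Finset.mem_singleton] at he
      rcases he with rfl | rfl | rfl
      · exact he1
      · exact he2
      · exact he3)
    rw [Finset.sum_insert (by
      simp only [Finset.mem_insert, Finset.mem_singleton, not_or]
      exact ⟨hne2.symm, hne3.symm⟩), Finset.sum_pair h23] at h1
    have h2 : ¬ (lab s(a, b) = 1 ∧ lab s(a, x) = 1 ∧ lab s(b, x) = 1) := fun h =>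
      htri a b x he1 he3 he2 h.1 h.2.2 h.2.1
    have h3 := hge _ he1
    have h4 := hge _ he2
    have h5 := hge _ he3
    have h6 := hlab _ he1
    have h7 := hlab _ he2
    have h8 := hlab _ he3
    omega
  · obtain ⟨e4, he4, hx4, hne4⟩ := other_edge (hev x) he2 (Sym2.mem_mk_right a x)
    have h41 : s(a, b) ≠ e4 := by
      rintro rfl
      rw [Sym2.mem_iff] at hx4
      rcases hx4 with h | h
      · exact hax h.symm
      · exact hxb h
    have h43 : s(b, y) ≠ e4 := by
      rintro rfl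
      rw [Sym2.mem_iff] at hx4
      rcases hx4 with h | h
      · exact hxb h
      · exact hxy h
    have h1 := sum_le_wt hle {s(a, b), s(a, x), s(b, y), e4} (by
      intro e he
      simp only [Finset.mem_insert, Finset.mem_singleton] at he
      rcases he with rfl | rfl | rfl | rfl
      · exact he1
      · exact he2
      · exact he3
      · exact he4)
    rw [Finset.sum_insert (by
      simp only [Finset.mem_insert, Finset.mem_singleton, not_or]
      exact ⟨hne2.symm, hne3.symm, h41⟩), Finset.sum_insert (by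
      simp only [Finset.mem_insert, Finset.mem_singleton, not_or]
      exact ⟨h23, hne4.symm⟩), Finset.sum_pair h43] at h1
    have h3 := hge _ he1
    have h4 := hge _ he2
    have h5 := hge _ he3
    have h6 := hge _ he4
    omega

theorem Con.res_iff {G : SimpleGraph V} {U s : Set V} (hs : s ⊆ U) :
    Con (Pool.Agent.BOND.res G U) s ↔ Con G s :=
  con_congr fun _ ha _ hb => ⟨fun h => h.1, fun h => ⟨h, hs ha, hs hb⟩⟩

theorem Ctr.res_iff {G K : SimpleGraph V} {U : Set V} :
    Ctr (Pool.Agent.BOND.res G U) U K ↔ Ctr G U K := by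
  constructor
  · rintro ⟨h1, h2, h3, h4, h5⟩
    refine ⟨(Con.res_iff (subset_refl U)).mp h1, fun u v h => ?_, fun u hu v hv h hr => ?_,
      fun v hv => ?_, h5⟩
    · have := h2 u v h
      exact ⟨this.1.1, this.2⟩
    · exact h3 u hu v hv ⟨h, hu, hv⟩ hr
    · exact (Con.res_iff (fun w hw => hw.1)).mp (h4 v hv)
  · rintro ⟨h1, h2, h3, h4, h5⟩
    refine ⟨(Con.res_iff (subset_refl U)).mpr h1, fun u v h => ?_, fun u hu v hv h hr => ?_,
      fun v hv => ?_, h5⟩
    · have := h2 u v h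
      exact ⟨⟨this.1, this.2⟩, this.2⟩
    · exact h3 u hu v hv h.1 hr
    · exact (Con.res_iff (fun w hw => hw.1)).mpr (h4 v hv)

theorem GC.res_iff {G K : SimpleGraph V} {U A : Set V} :
    GC (Pool.Agent.BOND.res G U) U A K ↔ GC G U A K := by
  constructor
  · rintro ⟨h1, h2, h3, h4, h5⟩
    exact ⟨h1, h2, (Con.res_iff (fun w hw => hw.1)).mp h3,
      (Con.res_iff (fun w hw => hw.1)).mp h4, Ctr.res_iff.mp h5⟩
  · rintro ⟨h1, h2, h3, h4, h5⟩
    exact ⟨h1, h2, (Con.res_iff (fun w hw => hw.1)).mpr h3,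
      (Con.res_iff (fun w hw => hw.1)).mpr h4, Ctr.res_iff.mpr h5⟩

/-- The planar input. -/
theorem planar_input (V : Type) [Finite V] (R F : SimpleGraph V) (U : Set V) (hcls : Cls R F U)
    (hd : HasDual (Pool.Agent.BOND.res (R ⊔ F) U)) : ClaimR R F U := by
  intro a ha b hb hab
  obtain ⟨n, f, hD⟩ := hd
  set G := Pool.Agent.BOND.res (R ⊔ F) U with hG
  set lab : Sym2 V → ℕ := fun e => if e ∈ R.edgeSet then 1 else 2 with hlab
  have hlab1 : ∀ e, lab e = 1 ∨ lab e = 2 := by
    intro e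
    by_cases h : e ∈ R.edgeSet
    · left; simp only [hlab, if_pos h]
    · right; simp only [hlab, if_neg h]
  have hR : ∀ u v, lab s(u, v) = 1 ↔ R.Adj u v := by
    intro u v
    simp only [hlab]
    by_cases h : s(u, v) ∈ R.edgeSet
    · simp only [if_pos h, true_iff]
      exact h
    · simp only [if_neg h]
      constructor
      · intro h'
        exact absurd h' (by norm_num)
      · intro h'
        exact absurd h' h
  have hGab : G.Adj a b := ⟨Or.inl hab, ha, hb⟩
  have hface : ∀ w, (f w).Nonempty → 4 ≤ wt lab (f w) := by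
    intro w hw
    refine face_wt (hD.sub w) (hD.even_vertex w) hw (fun e _ => hlab1 e) ?_
    intro a' b' x h1 h2 h3 h4 h5 h6
    have h7 : G.Adj a' b' := hD.sub w h1
    have h8 : G.Adj b' x := hD.sub w h2
    exact hcls.tri a' h7.2.1 b' h7.2.2 x h8.2.2 ((hR _ _).mp h4) ((hR _ _).mp h5)
      ((hR _ _).mp h6)
  obtain ⟨w1, w2, hw12, hw⟩ := hD.two s(a, b) hGab
  have hw1 : s(a, b) ∈ f w1 := (hw w1).mpr (Or.inl rfl)
  obtain ⟨A, hA, hroot, -⟩ := planarGood (U := U) hD (fun u v h => h.2) (lab := lab)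
    (fun e _ => by rcases hlab1 e with h | h <;> omega) (K0 := ⊥) (by
      intro u v
      simp only [SimpleGraph.bot_adj, false_iff, not_and]
      intro _ h
      rcases hlab1 s(u, v) with h' | h' <;> omega)
    (Ctr.res_iff.mpr hcls.two.ctr_bot)
    ⟨w1, le_trans (by norm_num) (hface w1 ⟨_, hw1⟩)⟩ (ρ := w1) hGab ((hR a b).mpr hab) hw1
    (by
      intro w _ h3
      by_cases hne : (f w).Nonempty
      · have := hface w hne
        omega
      · rw [Set.not_nonempty_iff_eq_empty] at hne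
        rw [hne] at h3
        simp [wt] at h3)
  refine ⟨A, ?_, hroot⟩
  have hK : KL G lab A = cross R U A := by
    ext u v
    constructor
    · rintro ⟨h1, h2 | h2⟩
      · rcases hlab1 s(u, v) with h' | h' <;> omega
      · exact ⟨(hR u v).mp h2.1, h1.2.1, h1.2.2, h2.2⟩
    · rintro ⟨h1, h2, h3, h4⟩
      exact ⟨⟨Or.inl h1, h2, h3⟩, Or.inr ⟨(hR u v).mpr h1, h4⟩⟩
  rw [hK] at hA
  exact GC.res_iff.mp hA

end BND
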