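import Mathlib

/-!
# BOND, primal side: definitions

Labelled graphs: `R` = real edges (weight 1), `F` = fat edges (weight 2) on a vertex set `U ⊆ V`.
-/

set_option autoImplicit false

namespace BND

variable {V : Type}

/-- The vertex set `s` is connected in `G` (or empty): it has no separation. -/
def Con (G : SimpleGraph V) (s : Set V) : Prop :=
  ∀ X : Set V, (s ∩ X).Nonempty → (s \ X).Nonempty → ∃ a ∈ s ∩ X, ∃ b ∈ s \ X, G.Adj a b

/-- `G[U]` has no `K₅` minor. -/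
def NoK5 (G : SimpleGraph V) (U : Set V) : Prop :=
  ¬ ∃ f : Fin 5 → Set V, (∀ i, (f i).Nonempty ∧ f i ⊆ U ∧ Con G (f i)) ∧
    (∀ i j, i ≠ j → Disjoint (f i) (f j)) ∧
    (∀ i j, i ≠ j → ∃ u ∈ f i, ∃ v ∈ f j, G.Adj u v)

/-- `G[U]` is 2-connected (at least three vertices). -/
structure Two (G : SimpleGraph V) (U : Set V) : Prop where
  card : 3 ≤ U.ncard
  con : Con G U
  del : ∀ v, Con G (U \ {v})

/-- `G[U]` is 3-connected (at least four vertices). -/
structure Three (G : SimpleGraph V) (U : Set V) : Prop where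
  card : 4 ≤ U.ncard
  del : ∀ u v, Con G (U \ {u, v})

/-- The class of labelled graphs: 2-connected, no `K₅` minor, no real triangle. -/
structure Cls (R F : SimpleGraph V) (U : Set V) : Prop where
  two : Two (R ⊔ F) U
  tri : ∀ a ∈ U, ∀ b ∈ U, ∀ c ∈ U, R.Adj a b → R.Adj b c → R.Adj a c → False
  disj : ∀ a b, R.Adj a b → ¬ F.Adj a b
  k5 : NoK5 (R ⊔ F) U

/-- The edges of `R` inside `U` which cross the cut `A`. -/
def cross (R : SimpleGraph V) (U A : Set V) : SimpleGraph V where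
  Adj u v := R.Adj u v ∧ u ∈ U ∧ v ∈ U ∧ ¬ (u ∈ A ↔ v ∈ A)
  symm := ⟨fun _ _ h => ⟨h.1.symm, h.2.2.1, h.2.1, fun h' => h.2.2.2 h'.symm⟩⟩
  loopless := ⟨fun _ h => h.2.2.2 Iff.rfl⟩

/-- `G[U]` may be contracted along `K`: `K` consists of edges of `G[U]`, every other edge of `G[U]`
joins different classes (components of `K`), and `G[U] / K` is connected, has at least two vertices
and stays connected if one class is deleted. -/
structure Ctr (G : SimpleGraph V) (U : Set V) (K : SimpleGraph V) : Prop where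
  base : Con G U
  le : ∀ u v, K.Adj u v → G.Adj u v ∧ u ∈ U ∧ v ∈ U
  strict : ∀ u ∈ U, ∀ v ∈ U, G.Adj u v → K.Reachable u v → K.Adj u v
  con : ∀ v ∈ U, Con G {w | w ∈ U ∧ ¬ K.Reachable v w}
  ne : ∀ v ∈ U, ∃ w ∈ U, ¬ K.Reachable v w

/-- `A` is a good cut of `G[U]` for the contracted edge set `K`: both sides are connected and
nonempty, and `K` may be contracted. -/
structure GC (G : SimpleGraph V) (U A : Set V) (K : SimpleGraph V) : Prop where
  ne : (U ∩ A).Nonempty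
  ne' : (U \ A).Nonempty
  left : Con G (U ∩ A)
  right : Con G (U \ A)
  ctr : Ctr G U K

/-- `A` is a strict good cut of the labelled graph `(R, F)` on `U`. -/
def SG (R F : SimpleGraph V) (U A : Set V) : Prop := GC (R ⊔ F) U A (cross R U A)

/-- **Claim R** for `(R, F, U)`: every real edge is avoided by a strict good cut. -/
def ClaimR (R F : SimpleGraph V) (U : Set V) : Prop :=
  ∀ a ∈ U, ∀ b ∈ U, R.Adj a b → ∃ A, SG R F U A ∧ (a ∈ A ↔ b ∈ A)

/-- `C` is a component of `G[U] - S`. -/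
structure IsComp (G : SimpleGraph V) (U S C : Set V) : Prop where
  sub : C ⊆ U \ S
  ne : C.Nonempty
  con : Con G C
  closed : ∀ c ∈ C, ∀ d ∈ U \ S, G.Adj c d → d ∈ C

/-! ### Leaves -/

/-- The edges of `G` with one end in `C` and the other one in `C ∪ S`. -/
def Lf (G : SimpleGraph V) (C S : Set V) : SimpleGraph V where
  Adj u v := G.Adj u v ∧ (u ∈ C ∧ v ∈ C ∪ S ∨ v ∈ C ∧ u ∈ C ∪ S)
  symm := ⟨fun _ _ h => ⟨h.1.symm, h.2.symm⟩⟩
  loopless := ⟨fun _ h => h.1.ne rfl⟩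

/-- The complete graph on `S`. -/
def tri (S : Set V) : SimpleGraph V where
  Adj u v := u ≠ v ∧ u ∈ S ∧ v ∈ S
  symm := ⟨fun _ _ h => ⟨h.1.symm, h.2.2, h.2.1⟩⟩
  loopless := ⟨fun _ h => h.1 rfl⟩

/-- The leaf `C` with all (virtual) edges in `S`. -/
def LG (G : SimpleGraph V) (C S : Set V) : SimpleGraph V := Lf G C S ⊔ tri S

/-- The real edges of the leaf which cross `A`. -/
def LK (R : SimpleGraph V) (C S A : Set V) : SimpleGraph V := cross (Lf R C S) (C ∪ S) A

/-- Outcome of a planar instance on the leaf `C`: a good cut `A` of the leaf with the triangle `S`,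
where the contracted edges are the crossing real edges of the leaf and the edges of `T`. -/
def LO (R F : SimpleGraph V) (C S A : Set V) (T : SimpleGraph V) : Prop :=
  GC (LG (R ⊔ F) C S) (C ∪ S) A (LK R C S A ⊔ T)

/-- The facts about a planar leaf (provided by the planar side, from the rooted planar theorem).
`crit x y` = the face at `x y` is closed by two real edges. -/
structure LeafFacts (R F : SimpleGraph V) (C S : Set V) (crit : V → V → Prop) : Prop where
  symm : ∀ x y, crit x y → crit y x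
  nbr : ∀ x ∈ S, ∀ y ∈ S, crit x y → ∃ c ∈ C, R.Adj c x ∧ R.Adj c y
  /-- `y z` real root, `x y`, `x z` fat -/
  A1 : ∀ x y z, x ≠ y → x ≠ z → y ≠ z → S = {x, y, z} →
    ∃ A, (y ∈ A ↔ z ∈ A) ∧ LO R F C S A ⊥
  /-- `y z` real root, `x y` real, `x z` fat -/
  A2 : ∀ x y z, x ≠ y → x ≠ z → y ≠ z → S = {x, y, z} → ¬ crit x y →
    ∃ A, (y ∈ A ↔ z ∈ A) ∧ (((x ∈ A ↔ y ∈ A) ∧ LO R F C S A ⊥) ∨
      (¬ (x ∈ A ↔ y ∈ A) ∧ LO R F C S A (SimpleGraph.edge x y)))
  /-- `y z` contracted, `x y`, `x z` fat -/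
  A3 : ∀ x y z, x ≠ y → x ≠ z → y ≠ z → S = {x, y, z} →
    ∃ A, (y ∈ A ↔ z ∈ A) ∧ LO R F C S A (SimpleGraph.edge y z)
  /-- all three real, one of them the root -/
  A4 : (∀ x ∈ S, ∀ y ∈ S, x ≠ y → ¬ crit x y) →
    ∃ A, (∀ s ∈ S, ∀ t ∈ S, s ∈ A ↔ t ∈ A) ∧ LO R F C S A ⊥
  /-- `x y` contracted, `y z` real root, `x z` real -/
  A5 : ∀ x y z, x ≠ y → x ≠ z → y ≠ z → S = {x, y, z} → crit x y →
    (∃ A, (∀ s ∈ S, ∀ t ∈ S, s ∈ A ↔ t ∈ A) ∧ LO R F C S A (SimpleGraph.edge x y)) ∨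
    (crit x z ∧ crit y z)

/-- `S` is a 3-cut with at least three components. -/
structure IsHub (G : SimpleGraph V) (U S C0 C1 C2 : Set V) : Prop where
  sub : S ⊆ U
  card : S.ncard = 3
  c0 : IsComp G U S C0
  c1 : IsComp G U S C1
  c2 : IsComp G U S C2
  d01 : Disjoint C0 C1
  d02 : Disjoint C0 C2
  d12 : Disjoint C1 C2

/-- The Wagner graph. -/
def IsV8 (G : SimpleGraph V) (U : Set V) : Prop :=
  ∃ e : Fin 8 → V, Function.Injective e ∧ Set.range e = U ∧
    ∀ i j, G.Adj (e i) (e j) ↔ (i - j = 1 ∨ j - i = 1 ∨ i - j = 4)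

end BND
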