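import Pool.Agent.Helper48.BDu.Base

/-!
# BOND, translation core 1: even sets of a loopless multigraph
-/

set_option autoImplicit false
set_option linter.unusedSectionVars false

open scoped symmDiff

namespace BDu

variable {W E : Type} [DecidableEq W] [DecidableEq E] {D : BDu W E}

/-- Even edge sets. -/
def Ev (D : BDu W E) (Z : Finset E) : Prop := ∀ w, Even (D.dg Z w)

theorem dg_symmDiff (P Q : Finset E) (w : W) :
    D.dg (P ∆ Q) w + 2 * D.dg (P ∩ Q) w = D.dg P w + D.dg Q w := by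
  have h0 : Disjoint (P \ Q) (Q \ P) := by
    rw [Finset.disjoint_left]
    intro e he he'
    simp only [Finset.mem_sdiff] at he he'
    exact he.2 he'.1
  have h1 : D.dg (P ∆ Q) w = D.dg (P \ Q) w + D.dg (Q \ P) w := by
    rw [← dg_union h0]
    rfl
  have h2 : D.dg P w = D.dg (P \ Q) w + D.dg (P ∩ Q) w := by
    have h3 : Disjoint (P \ Q) (P ∩ Q) := Finset.disjoint_sdiff_inter P Q
    rw [← dg_union h3, Finset.sdiff_union_inter]
  have h4 : D.dg Q w = D.dg (Q \ P) w + D.dg (P ∩ Q) w := by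
    have h3 : Disjoint (Q \ P) (Q ∩ P) := Finset.disjoint_sdiff_inter Q P
    rw [Finset.inter_comm P Q, ← dg_union h3, Finset.sdiff_union_inter]
  omega

theorem Ev.symmDiff {P Q : Finset E} (hP : D.Ev P) (hQ : D.Ev Q) : D.Ev (P ∆ Q) := by
  intro w
  have h := dg_symmDiff (D := D) P Q w
  have h1 := hP w
  have h2 := hQ w
  rw [Nat.even_iff] at *
  omega

/-- A link contains a join of its ends. -/
theorem Lk.join {F : Finset E} {A : Finset W} {u v : W} (h : D.Lk F A u v) :
    ∃ P ⊆ F, (∀ e ∈ P, ∀ x ∈ D.inc e, x ∉ A) ∧ ∀ w, Odd (D.dg P w) ↔ ¬ (w = u ↔ w = v) := by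
  unfold Lk at h
  induction h with
  | refl => exact ⟨∅, Finset.empty_subset _, by simp, fun w => by simp [dg]⟩
  | tail _ hbc ih =>
    rename_i b c _
    obtain ⟨P, hPF, hPA, hP⟩ := ih
    obtain ⟨⟨hne, e, he, hb, hc⟩, hbA, hcA⟩ := hbc
    have hinc := inc_eq hb hc hne
    refine ⟨P ∆ {e}, ?_, ?_, ?_⟩
    · intro g hg
      rw [Finset.mem_symmDiff] at hg
      rcases hg with hg | hg
      · exact hPF hg.1
      · rw [Finset.mem_singleton.mp hg.1]
        exact he
    · intro g hg x hx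
      rw [Finset.mem_symmDiff] at hg
      rcases hg with hg | hg
      · exact hPA g hg.1 x hx
      · rw [Finset.mem_singleton.mp hg.1, hinc] at hx
        rcases Finset.mem_insert.mp hx with rfl | hx
        · exact hbA
        · rw [Finset.mem_singleton.mp hx]
          exact hcA
    · intro w
      have h1 := dg_symmDiff (D := D) P {e} w
      have h2 := hP w
      rw [dg_singleton, hinc] at h1
      have h3 : w ∈ ({b, c} : Finset W) ↔ (w = b ∨ w = c) := by simp
      have h4 : Odd (D.dg (P ∆ {e}) w) ↔ ¬ (Odd (D.dg P w) ↔ (w = b ∨ w = c)) := by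
        by_cases h5 : w = b ∨ w = c
        · rw [if_pos (h3.mpr h5)] at h1
          simp only [h5, iff_true]
          rw [Nat.odd_iff, Nat.odd_iff]
          omega
        · rw [if_neg (fun h => h5 (h3.mp h))] at h1
          simp only [h5, iff_false, not_not]
          rw [Nat.odd_iff, Nat.odd_iff]
          omega
      rw [h4, h2]
      by_cases h6 : w = b
      · subst h6
        have h7 : w ≠ c := hne
        simp [h7]
      · simp only [h6, iff_false, false_or]
        tauto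

/-- In a two-connected set no proper nonempty part splits all even sets. -/
theorem TwoC.split {F B : Finset E} (hF : D.TwoC F) (hB : B ⊆ F) (h1 : B.Nonempty)
    (h2 : (F \ B).Nonempty) : ∃ Z ⊆ F, D.Ev Z ∧ ¬ D.Ev (Z ∩ B) := by
  have hx : ∃ x, x ∈ D.VS B ∧ x ∈ D.VS (F \ B) := by
    by_contra hcon
    push Not at hcon
    obtain ⟨e₁, he₁⟩ := h1
    obtain ⟨e₂, he₂⟩ := h2
    obtain ⟨u, u', huu, hi1⟩ := exists_end D e₁
    obtain ⟨v, v', hvv, hi2⟩ := exists_end D e₂
    have hu : u ∈ D.VS B := mem_VS.mpr ⟨e₁, he₁, by rw [hi1]; simp⟩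
    have hu' : u' ∈ D.VS B := mem_VS.mpr ⟨e₁, he₁, by rw [hi1]; simp⟩
    have hv : v ∈ D.VS (F \ B) := mem_VS.mpr ⟨e₂, he₂, by rw [hi2]; simp⟩
    have hvu' : v ≠ u' := fun h => hcon u' hu' (h ▸ hv)
    have hl := hF.2 u' u v (VS_mono hB hu) (VS_mono Finset.sdiff_subset hv) huu hvu'
    obtain ⟨x, y, e, he, hxe, hye, _, _, _, hxB, hyB, _⟩ :=
      hl.exit (fun w => w ∈ D.VS B) hu (fun h => hcon v h hv)
    by_cases heB : e ∈ B
    · exact hyB (mem_VS.mpr ⟨e, heB, hye⟩)
    · exact hcon x hxB (mem_VS.mpr ⟨e, Finset.mem_sdiff.mpr ⟨he, heB⟩, hxe⟩)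
  obtain ⟨x, hx1, hx2⟩ := hx
  obtain ⟨e₁, he₁, hxe₁⟩ := mem_VS.mp hx1
  obtain ⟨e₂, he₂, hxe₂⟩ := mem_VS.mp hx2
  obtain ⟨a, hxa, hi1⟩ := exists_other hxe₁
  obtain ⟨b, hxb, hi2⟩ := exists_other hxe₂
  have he₂F := (Finset.mem_sdiff.mp he₂).1
  have he₂B := (Finset.mem_sdiff.mp he₂).2
  have haF : a ∈ D.VS F := mem_VS.mpr ⟨e₁, hB he₁, by rw [hi1]; simp⟩
  have hbF : b ∈ D.VS F := mem_VS.mpr ⟨e₂, he₂F, by rw [hi2]; simp⟩
  obtain ⟨P, hPF, hPx, hP⟩ := (hF.2 x a b haF hbF hxa.symm hxb.symm).join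
  have hPx' : ∀ e ∈ P, x ∉ D.inc e := fun e he hx => hPx e he x hx (Finset.mem_singleton_self x)
  have he₁P : e₁ ∉ P := fun h => hPx' e₁ h hxe₁
  have he₂P : e₂ ∉ P := fun h => hPx' e₂ h hxe₂
  have hne : e₁ ≠ e₂ := fun h => he₂B (h ▸ he₁)
  have hd1 : Disjoint P {e₁} := Finset.disjoint_singleton_right.mpr he₁P
  have hd2 : Disjoint (P ∪ {e₁}) {e₂} := by
    rw [Finset.disjoint_singleton_right, Finset.mem_union, Finset.mem_singleton]
    rintro (h | h)
    · exact he₂P h
    · exact hne h.symm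
  refine ⟨P ∪ {e₁} ∪ {e₂}, ?_, ?_, ?_⟩
  · refine Finset.union_subset (Finset.union_subset hPF ?_) ?_
    · exact Finset.singleton_subset_iff.mpr (hB he₁)
    · exact Finset.singleton_subset_iff.mpr he₂F
  · intro w
    rw [dg_union hd2, dg_union hd1, dg_singleton, dg_singleton, hi1, hi2]
    have h := hP w
    by_cases hwx : w = x
    · subst hwx
      have h3 : ¬ Odd (D.dg P w) := by
        rw [h]
        simp [hxa, hxb]
      rw [Nat.not_odd_iff_even] at h3
      simp only [Finset.mem_insert_self, if_true]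
      rw [Nat.even_iff] at *
      omega
    · have ha : w ∈ ({x, a} : Finset W) ↔ w = a := by simp [hwx]
      have hb : w ∈ ({x, b} : Finset W) ↔ w = b := by simp [hwx]
      simp only [ha, hb]
      rw [Nat.odd_iff] at h
      rw [Nat.even_iff]
      by_cases h3 : w = a <;> by_cases h4 : w = b
      · have h5 : ¬ D.dg P w % 2 = 1 := by rw [h]; tauto
        rw [if_pos h3, if_pos h4]
        omega
      · have h5 : D.dg P w % 2 = 1 := by rw [h]; tauto
        rw [if_pos h3, if_neg h4]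
        omega
      · have h5 : D.dg P w % 2 = 1 := by rw [h]; tauto
        rw [if_neg h3, if_pos h4]
        omega
      · have h5 : ¬ D.dg P w % 2 = 1 := by rw [h]; tauto
        rw [if_neg h3, if_neg h4]
        omega
  · intro hev
    have h5 := hev x
    have h6 : D.dg ((P ∪ {e₁} ∪ {e₂}) ∩ B) x = 1 := by
      unfold dg
      have : ((P ∪ {e₁} ∪ {e₂}) ∩ B).filter (fun e => x ∈ D.inc e) = {e₁} := by
        ext g
        simp only [Finset.mem_filter, Finset.mem_inter, Finset.mem_union, Finset.mem_singleton]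
        constructor
        · rintro ⟨⟨(h | h) | h, hgB⟩, hgx⟩
          · exact absurd hgx (hPx' g h)
          · exact h
          · exact absurd (h ▸ hgB) he₂B
        · rintro rfl
          exact ⟨⟨Or.inl (Or.inr rfl), he₁⟩, hxe₁⟩
      rw [this, Finset.card_singleton]
    rw [h6] at h5
    exact absurd h5 (by decide)

/-- A nonempty even subset of a circuit is the whole circuit. -/
theorem IsCirc.eq_of_ev {C Z : Finset E} (hC : D.IsCirc C) (hZC : Z ⊆ C) (hne : Z.Nonempty)
    (hZ : D.Ev Z) : Z = C := by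
  have hfull : ∀ w ∈ D.VS Z, ∀ e ∈ C, w ∈ D.inc e → e ∈ Z := by
    intro w hw e he hwe
    refine mem_of_dg_eq hZC ?_ he hwe
    have h1 := hC.2.1 w (VS_mono hZC hw)
    have h2 := dg_pos.mpr hw
    have h3 := hZ w
    rw [Nat.even_iff] at h3
    omega
  refine Finset.Subset.antisymm hZC fun e he => ?_
  obtain ⟨f, hf⟩ := hne
  obtain ⟨v, v', _, hi1⟩ := exists_end D f
  obtain ⟨u, u', _, hi2⟩ := exists_end D e
  have hv : v ∈ D.VS Z := mem_VS.mpr ⟨f, hf, by rw [hi1]; simp⟩
  have hu : u ∈ D.VS C := mem_VS.mpr ⟨e, he, by rw [hi2]; simp⟩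
  have hl := hC.2.2 v (VS_mono hZC hv) u hu
  have hu' : u ∈ D.VS Z := by
    refine hl.stay (fun w => w ∈ D.VS Z) ?_ hv
    intro x y g hg hx hy _ _ _ hxZ
    exact mem_VS.mpr ⟨g, hfull x hxZ g hg hx, hy⟩
  exact hfull u hu' e he (by rw [hi2]; simp)

theorem Ev.two_le {Z : Finset E} (hZ : D.Ev Z) (hne : Z.Nonempty) : 2 ≤ Z.card := by
  obtain ⟨e, he⟩ := hne
  obtain ⟨u, u', _, hi⟩ := exists_end D e
  have hu : u ∈ D.VS Z := mem_VS.mpr ⟨e, he, by rw [hi]; simp⟩
  have h1 := dg_pos.mpr hu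
  have h2 := hZ u
  have h3 : D.dg Z u ≤ Z.card := Finset.card_filter_le _ _
  rw [Nat.even_iff] at h2
  omega

/-- Handshake: one vertex need not be checked. -/
theorem ev_of_ne [Fintype W] {Z : Finset E} (x : W) (h : ∀ w, w ≠ x → Even (D.dg Z w)) :
    D.Ev Z := by
  intro w
  by_cases hw : w = x
  · subst hw
    have h1 := sum_dg (D := D) Z Finset.univ
    have h2 : ∑ e ∈ Z, (D.inc e ∩ Finset.univ).card = 2 * Z.card := by
      rw [Finset.sum_congr rfl (fun e _ => by rw [Finset.inter_univ, D.two e])]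
      rw [Finset.sum_const, smul_eq_mul, mul_comm]
    rw [h2, ← Finset.add_sum_erase _ _ (Finset.mem_univ w)] at h1
    have h3 : Even (∑ v ∈ Finset.univ.erase w, D.dg Z v) :=
      Finset.even_sum _ fun v hv => h v (Finset.ne_of_mem_erase hv)
    rw [Nat.even_iff] at *
    omega
  · exact h w hw

end BDu
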