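import Pool.Agent.BND.Tr1
import Pool.Agent.BND.Dual

/-!
# BOND, translation core 2: the dual multigraph of a dual pair
-/

set_option autoImplicit false
set_option linter.unusedSectionVars false

open Classical

namespace BND

variable {V W : Type}

/-- The edge `e` crosses `X`. -/
def crs (X : Set V) (e : Sym2 V) : Prop := ∃ u v, e = s(u, v) ∧ u ∈ X ∧ v ∉ X

theorem crs_mk {X : Set V} {u v : V} : crs X s(u, v) ↔ ¬ (u ∈ X ↔ v ∈ X) := by
  constructor
  · rintro ⟨a, b, h, ha, hb⟩ hc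
    rcases Sym2.eq_iff.mp h with ⟨rfl, rfl⟩ | ⟨rfl, rfl⟩
    · exact hb (hc.mp ha)
    · exact hb (hc.mpr ha)
  · intro h
    by_cases hu : u ∈ X
    · exact ⟨u, v, rfl, hu, fun hv => h ⟨fun _ => hv, fun _ => hu⟩⟩
    · by_cases hv : v ∈ X
      · exact ⟨v, u, Sym2.eq_swap, hv, hu⟩
      · exact absurd ⟨fun h => absurd h hu, fun h => absurd h hv⟩ h

/-- The dual multigraph. -/
noncomputable def mkD [Fintype W] {G : SimpleGraph V} {f : W → Set (Sym2 V)} (h : DualPair G f) :
    BDu W G.edgeSet where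
  inc e := Finset.univ.filter fun w => e.1 ∈ f w
  two e := by
    obtain ⟨w₁, w₂, hne, hw⟩ := h.two e.1 e.2
    have : (Finset.univ.filter fun w => e.1 ∈ f w) = {w₁, w₂} := by
      ext w
      simp [hw w]
    rw [this, Finset.card_pair hne]

theorem mem_inc [Fintype W] {G : SimpleGraph V} {f : W → Set (Sym2 V)} (h : DualPair G f)
    {e : G.edgeSet} {w : W} : w ∈ (mkD h).inc e ↔ e.1 ∈ f w := by
  simp [mkD]

theorem ncard_val {G : SimpleGraph V} (T : Finset G.edgeSet) (S : Set (Sym2 V))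
    (h : ∀ e, e ∈ S ↔ ∃ g ∈ T, g.1 = e) : S.ncard = T.card := by
  have h1 : S = Subtype.val '' (T : Set G.edgeSet) := by
    ext e
    rw [h]
    simp
  rw [h1, Set.ncard_image_of_injective _ Subtype.val_injective, Set.ncard_coe_finset]

/-- Even sets of the dual are the cuts. -/
theorem ev_iff [Fintype W] {G : SimpleGraph V} {f : W → Set (Sym2 V)} (h : DualPair G f)
    (Z : Finset G.edgeSet) : (mkD h).Ev Z ↔ ∃ X : Set V, ∀ e : G.edgeSet, e ∈ Z ↔ crs X e.1 := by
  have h1 := h.cut {e | ∃ g ∈ Z, g.1 = e} (by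
    rintro e ⟨g, _, rfl⟩
    exact g.2)
  have h2 : ∀ w, (f w ∩ {e | ∃ g ∈ Z, g.1 = e}).ncard = (mkD h).dg Z w := by
    intro w
    unfold BDu.dg
    refine ncard_val _ _ fun e => ?_
    simp only [Set.mem_inter_iff, Set.mem_ofPred_eq, Finset.mem_filter, mem_inc]
    constructor
    · rintro ⟨h3, g, hg, rfl⟩
      exact ⟨g, ⟨hg, h3⟩, rfl⟩
    · rintro ⟨g, ⟨hg, h3⟩, rfl⟩
      exact ⟨h3, g, hg, rfl⟩
  have h3 : (mkD h).Ev Z ↔ ∀ w, Even (f w ∩ {e | ∃ g ∈ Z, g.1 = e}).ncard := by
    unfold BDu.Ev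
    simp only [h2]
  rw [h3, h1]
  refine exists_congr fun X => ?_
  constructor
  · intro h4 e
    obtain ⟨e, he⟩ := e
    induction e using Sym2.ind with
    | _ u v =>
      rw [crs_mk, ← h4 u v he]
      simp only [Set.mem_ofPred_eq]
      constructor
      · intro h5
        exact ⟨_, h5, rfl⟩
      · rintro ⟨g, hg, h6⟩
        have : g = ⟨s(u, v), he⟩ := Subtype.ext h6
        rwa [this] at hg
  · intro h4 u v huv
    rw [← crs_mk, ← h4 ⟨s(u, v), huv⟩]
    simp only [Set.mem_ofPred_eq]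
    constructor
    · rintro ⟨g, hg, h6⟩
      have : g = ⟨s(u, v), huv⟩ := Subtype.ext h6
      rwa [this] at hg
    · intro h5
      exact ⟨_, h5, rfl⟩

theorem pv_eq [Fintype W] {G : SimpleGraph V} [Fintype G.edgeSet] {f : W → Set (Sym2 V)}
    (h : DualPair G f) {lab : Sym2 V → ℕ} (hlab : ∀ e ∈ G.edgeSet, lab e ≤ 2) (w : W) :
    (mkD h).pv (fun e => lab e.1) w = wt lab (f w) := by
  unfold BDu.pv wt
  have h1 : {e | e ∈ f w ∧ lab e = 1}.ncard =
      ((Finset.univ.filter fun e => w ∈ (mkD h).inc e).filter fun e => lab e.1 = 1).card := by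
    refine ncard_val _ _ fun e => ?_
    simp only [Set.mem_ofPred_eq, Finset.mem_filter, Finset.mem_univ, true_and, mem_inc]
    constructor
    · rintro ⟨h3, h4⟩
      exact ⟨⟨e, h.sub w h3⟩, ⟨h3, h4⟩, rfl⟩
    · rintro ⟨g, hg, rfl⟩
      exact hg
  have h2 : {e | e ∈ f w ∧ lab e = 2}.ncard =
      ((Finset.univ.filter fun e => w ∈ (mkD h).inc e).filter fun e => lab e.1 = 2).card := by
    refine ncard_val _ _ fun e => ?_
    simp only [Set.mem_ofPred_eq, Finset.mem_filter, Finset.mem_univ, true_and, mem_inc]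
    constructor
    · rintro ⟨h3, h4⟩
      exact ⟨⟨e, h.sub w h3⟩, ⟨h3, h4⟩, rfl⟩
    · rintro ⟨g, hg, rfl⟩
      exact hg
  rw [h1, h2, Finset.card_filter, Finset.card_filter, Finset.mul_sum, ← Finset.sum_add_distrib]
  refine Finset.sum_congr rfl fun e _ => ?_
  have h3 := hlab e.1 e.2
  interval_cases h4 : lab e.1 <;> simp [h4]

/-- The edges outside `N`. -/
noncomputable def off (G N : SimpleGraph V) [Fintype G.edgeSet] : Finset G.edgeSet :=
  Finset.univ.filter fun e => e.1 ∉ N.edgeSet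

theorem mem_off {G N : SimpleGraph V} [Fintype G.edgeSet] {e : G.edgeSet} :
    e ∈ off G N ↔ e.1 ∉ N.edgeSet := by
  simp [off]

/-- The class of `k`. -/
def clx (N : SimpleGraph V) (k : V) : Set V := {w | N.Reachable k w}

/-- edges of `N` do not cross unions of classes -/
theorem not_crs_clx {N : SimpleGraph V} {k u v : V} (h : N.Adj u v) : ¬ crs (clx N k) s(u, v) := by
  rw [crs_mk, not_not]
  exact ⟨fun h1 => h1.trans h.reachable, fun h1 => h1.trans h.symm.reachable⟩

/-- Reachable vertices are on the same side of a set crossed by no `N`-edge. -/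
theorem side_of_reachable {N : SimpleGraph V} {X : Set V} (h : ∀ u v, N.Adj u v → (u ∈ X ↔ v ∈ X))
    {u v : V} (huv : N.Reachable u v) : u ∈ X ↔ v ∈ X := by
  obtain ⟨w⟩ := huv
  induction w with
  | nil => rfl
  | cons hadj _ ih => exact (h _ _ hadj).trans ih

end BND
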