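import Pool.Agent.BND.Tr2

/-!
# BOND, translation core 3: two-connected part of the dual = two-connected loopless quotient
-/

set_option autoImplicit false
set_option linter.unusedSectionVars false

open Classical

namespace BND

variable {V W : Type}

section Back

variable [Fintype W] {G : SimpleGraph V} [Fintype G.edgeSet] {f : W → Set (Sym2 V)} {U : Set V}
  {N : SimpleGraph V}

/-- the star of a class in the dual -/
noncomputable def star (G N : SimpleGraph V) [Fintype G.edgeSet] (k : V) : Finset G.edgeSet :=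
  Finset.univ.filter fun e => crs (clx N k) e.1

theorem mem_star {k : V} {e : G.edgeSet} : e ∈ star G N k ↔ crs (clx N k) e.1 := by
  simp [star]

theorem star_subset (k : V) : star G N k ⊆ off G N := by
  intro e he
  rw [mem_star] at he
  rw [mem_off]
  obtain ⟨e, heG⟩ := e
  induction e using Sym2.ind with
  | _ u v => exact fun h => not_crs_clx h he

theorem star_ev (h : DualPair G f) (k : V) : (mkD h).Ev (star G N k) :=
  (ev_iff h _).mpr ⟨clx N k, fun _ => mem_star⟩

/-- A subset of a star which is a cut is empty or the whole star. -/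
theorem star_min (h : DualPair G f) (hGU : ∀ u v, G.Adj u v → u ∈ U ∧ v ∈ U)
    (hc : Ctr G U N) {k : V} (hk : k ∈ U) {Z : Finset G.edgeSet} (hZ : Z ⊆ star G N k)
    (hev : (mkD h).Ev Z) : Z = ∅ ∨ Z = star G N k := by
  obtain ⟨Y, hY⟩ := (ev_iff h Z).mp hev
  -- the class is on one side
  have h1 : ∀ u v, N.Adj u v → (u ∈ Y ↔ v ∈ Y) := by
    intro u v huv
    have hG := (hc.le u v huv).1
    by_contra hcon
    have h2 : (⟨s(u, v), hG⟩ : G.edgeSet) ∈ Z := (hY _).mpr (crs_mk.mpr hcon)
    have h3 := mem_off.mp (star_subset k (hZ h2))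
    exact h3 huv
  have h2 : ∀ w, w ∈ clx N k → (w ∈ Y ↔ k ∈ Y) := fun w hw => (side_of_reachable h1 hw).symm
  -- the rest is on one side
  have h3 : ∀ a b, a ∈ U → ¬ N.Reachable k a → b ∈ U → ¬ N.Reachable k b → a ∈ Y → b ∈ Y := by
    intro a b ha hna hb hnb haY
    by_contra hbY
    obtain ⟨p, ⟨⟨hpU, hpn⟩, hpY⟩, q, ⟨⟨hqU, hqn⟩, hqY⟩, hpq⟩ :=
      hc.con k hk Y ⟨a, ⟨ha, hna⟩, haY⟩ ⟨b, ⟨hb, hnb⟩, hbY⟩
    have h4 : (⟨s(p, q), hpq⟩ : G.edgeSet) ∈ Z :=
      (hY _).mpr (crs_mk.mpr fun h5 => hqY (h5.mp hpY))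
    have h5 := crs_mk.mp (mem_star.mp (hZ h4))
    exact h5 ⟨fun h6 => absurd h6 hpn, fun h6 => absurd h6 hqn⟩
  by_cases hempty : Z = ∅
  · exact Or.inl hempty
  · right
    obtain ⟨e, he⟩ := Finset.nonempty_iff_ne_empty.mpr hempty
    obtain ⟨u, v, huv, hu, hv⟩ := mem_star.mp (hZ he)
    obtain ⟨u', v', huv', hu', hv'⟩ := (hY e).mp he
    have hadj : G.Adj u v := by
      have := e.2
      rwa [huv] at this
    have hvU := (hGU u v hadj).2
    -- u, v on different sides of Y
    have h4 : ¬ (u ∈ Y ↔ v ∈ Y) := by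
      have h5 := (hY e).mp he
      rw [huv] at h5
      exact crs_mk.mp h5
    refine Finset.Subset.antisymm hZ fun g hg => ?_
    obtain ⟨a, b, hab, ha, hb⟩ := mem_star.mp hg
    have hadj' : G.Adj a b := by
      have := g.2
      rwa [hab] at this
    have hbU := (hGU a b hadj').2
    rw [hY g, hab, crs_mk]
    have h5 := h2 a ha
    have h6 := h2 u hu
    have h7 : b ∈ Y ↔ v ∈ Y := ⟨h3 b v hbU hb hvU hv, h3 v b hvU hv hbU hb⟩
    rw [h5, h7, ← h6]
    exact h4

/-- **Backward translation**. -/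
theorem twoC_of_ctr (h : DualPair G f) (hGU : ∀ u v, G.Adj u v → u ∈ U ∧ v ∈ U)
    (hc : Ctr G U N) (hU : U.Nonempty) : (mkD h).TwoC (off G N) := by
  have hstar : ∀ a b, ∀ hab : G.Adj a b, ¬ N.Adj a b →
      (⟨s(a, b), hab⟩ : G.edgeSet) ∈ star G N a := by
    intro a b hab hn
    rw [mem_star, crs_mk]
    intro h1
    exact hn (hc.strict a (hGU a b hab).1 b (hGU a b hab).2 hab
      (h1.mp (SimpleGraph.Reachable.refl a)))
  have hstar' : ∀ a b, ∀ hab : G.Adj a b, ¬ N.Adj a b →
      (⟨s(a, b), hab⟩ : G.edgeSet) ∈ star G N b := by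
    intro a b hab hn
    have h1 := hstar b a hab.symm (fun h => hn h.symm)
    have h2 : (⟨s(a, b), hab⟩ : G.edgeSet) = ⟨s(b, a), hab.symm⟩ := Subtype.ext Sym2.eq_swap
    rw [h2]
    exact h1
  constructor
  · obtain ⟨k, hk⟩ := hU
    obtain ⟨w, hw, hnw⟩ := hc.ne k hk
    obtain ⟨p, ⟨hpU, hp⟩, q, ⟨hqU, hq⟩, hpq⟩ := hc.base (clx N k)
      ⟨k, hk, SimpleGraph.Reachable.refl k⟩ ⟨w, hw, hnw⟩
    have h1 : (⟨s(p, q), hpq⟩ : G.edgeSet) ∈ star G N k := by
      rw [mem_star, crs_mk]
      exact fun h => hq (h.mp hp)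
    have h2 := (star_ev (N := N) h k).two_le ⟨_, h1⟩
    exact h2.trans (Finset.card_le_card (star_subset k))
  · intro x u v hu hv hux hvx
    by_contra hcon
    set B : Finset G.edgeSet := (off G N).filter fun e => ∃ w ∈ (mkD h).inc e,
      (mkD h).Lk (off G N) {x} u w with hBdef
    have hxB : ∀ w, (mkD h).Lk (off G N) {x} u w → w ≠ x := by
      intro w hw
      by_cases huw : u = w
      · rw [← huw]
        exact hux
      · have := (hw.mem_right huw).2
        simpa using this
    -- even sets are split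
    have hsplit : ∀ Z ⊆ off G N, (mkD h).Ev Z → (mkD h).Ev (Z ∩ B) := by
      intro Z hZ hev
      refine BDu.ev_of_ne x fun w hw => ?_
      by_cases hl : (mkD h).Lk (off G N) {x} u w
      · have h1 : (mkD h).dg (Z ∩ B) w = (mkD h).dg Z w := by
          unfold BDu.dg
          congr 1
          ext e
          simp only [Finset.mem_filter, Finset.mem_inter, hBdef]
          constructor
          · rintro ⟨⟨h1, _⟩, h2⟩
            exact ⟨h1, h2⟩
          · rintro ⟨h1, h2⟩
            exact ⟨⟨h1, hZ h1, w, h2, hl⟩, h2⟩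
        rw [h1]
        exact hev w
      · have h1 : (mkD h).dg (Z ∩ B) w = 0 := by
          rw [BDu.dg_eq_zero, BDu.mem_VS]
          rintro ⟨e, he, hwe⟩
          simp only [Finset.mem_filter, Finset.mem_inter, hBdef] at he
          obtain ⟨_, heF, w', hw'e, hl'⟩ := he
          refine hl (hl'.trans (BDu.Lk.edge heF hw'e hwe ?_ ?_))
          · simpa using hxB w' hl'
          · simpa using hw
        rw [h1]
        exact Even.zero
    -- stars have one colour
    have hcol : ∀ k ∈ U, star G N k ∩ B = ∅ ∨ star G N k ∩ B = star G N k := fun k hk =>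
      star_min h hGU hc hk Finset.inter_subset_left (hsplit _ (star_subset k) (star_ev h k))
    -- an edge of B and an edge outside B
    obtain ⟨e₁, he₁, hue₁⟩ := BDu.mem_VS.mp hu
    obtain ⟨e₂, he₂, hve₂⟩ := BDu.mem_VS.mp hv
    have he₁B : e₁ ∈ B := by
      rw [hBdef, Finset.mem_filter]
      exact ⟨he₁, u, hue₁, BDu.Lk.refl _ _ _⟩
    have he₂B : e₂ ∉ B := by
      rw [hBdef, Finset.mem_filter]
      rintro ⟨_, w, hw, hl⟩
      refine hcon (hl.trans (BDu.Lk.edge he₂ hw hve₂ ?_ ?_))
      · simpa using hxB w hl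
      · simpa using hvx
    obtain ⟨e₁, h₁⟩ := e₁
    obtain ⟨e₂, h₂⟩ := e₂
    induction e₁ using Sym2.ind with
    | _ a b =>
    induction e₂ using Sym2.ind with
    | _ c d =>
      have ha := (hGU a b h₁).1
      have hcU := (hGU c d h₂).1
      have hs₁ := hstar a b h₁ (mem_off.mp he₁)
      have hs₂ := hstar c d h₂ (mem_off.mp he₂)
      obtain ⟨p, ⟨hpU, hp⟩, q, ⟨hqU, hq⟩, hpq⟩ := hc.base {k | (star G N k ∩ B).Nonempty}
        ⟨a, ha, ⟨_, Finset.mem_inter.mpr ⟨hs₁, he₁B⟩⟩⟩
        ⟨c, hcU, by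
          intro h1
          rcases hcol c hcU with h2 | h2
          · simp only [Set.mem_ofPred_eq, h2] at h1
            exact absurd h1 (by simp)
          · rw [← h2] at hs₂
            exact he₂B (Finset.mem_inter.mp hs₂).2⟩
      by_cases hN : N.Adj p q
      · have h1 : star G N p = star G N q := by
          have h2 : clx N p = clx N q := by
            ext w
            exact ⟨fun h3 => hN.symm.reachable.trans h3, fun h3 => hN.reachable.trans h3⟩
          unfold star
          rw [h2]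
        simp only [Set.mem_ofPred_eq] at hp hq
        rw [h1] at hp
        exact hq hp
      · simp only [Set.mem_ofPred_eq] at hp hq
        rcases hcol p hpU with h2 | h2
        · rw [h2] at hp
          exact absurd hp (by simp)
        · have h3 := hstar p q hpq hN
          rw [← h2] at h3
          exact hq ⟨_, Finset.mem_inter.mpr ⟨hstar' p q hpq hN, (Finset.mem_inter.mp h3).2⟩⟩

end Back

end BND
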