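import Pool.Agent.BND.Tr3

/-!
# BOND, translation core 4: from the dual to the primal side
-/

set_option autoImplicit false
set_option linter.unusedSectionVars false

open Classical

namespace BND

variable {V W : Type}

section Forw

variable [Fintype W] {G : SimpleGraph V} [Fintype G.edgeSet] {f : W → Set (Sym2 V)} {U : Set V}
  {N : SimpleGraph V}

/-- an even set outside `N` does not split the classes of `N` -/
theorem side_of_ev {Z : Finset G.edgeSet} (hZ : Z ⊆ off G N) (hN : ∀ u v, N.Adj u v → G.Adj u v)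
    {X : Set V} (hX : ∀ e : G.edgeSet, e ∈ Z ↔ crs X e.1) {u v : V} (huv : N.Reachable u v) :
    u ∈ X ↔ v ∈ X := by
  refine side_of_reachable (fun a b hab => ?_) huv
  by_contra hcon
  have h1 : (⟨s(a, b), hN a b hab⟩ : G.edgeSet) ∈ Z := (hX _).mpr (crs_mk.mpr hcon)
  exact mem_off.mp (hZ h1) hab

theorem strict_of_twoC (h : DualPair G f) (hN : ∀ u v, N.Adj u v → G.Adj u v)
    (ht : (mkD h).TwoC (off G N)) {u v : V} (huv : G.Adj u v) (hr : N.Reachable u v) :
    N.Adj u v := by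
  by_contra hcon
  have he : (⟨s(u, v), huv⟩ : G.edgeSet) ∈ off G N := mem_off.mpr hcon
  obtain ⟨Z, hZ, hev, hnot⟩ := ht.split (Finset.singleton_subset_iff.mpr he)
    (Finset.singleton_nonempty _) (by
      rw [← Finset.card_pos, Finset.card_sdiff_of_subset (Finset.singleton_subset_iff.mpr he),
        Finset.card_singleton]
      have := ht.1
      omega)
  have heZ : (⟨s(u, v), huv⟩ : G.edgeSet) ∈ Z := by
    by_contra hnm
    apply hnot
    rw [Finset.inter_singleton_of_notMem hnm]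
    intro w
    simp [BDu.dg]
  obtain ⟨X, hX⟩ := (ev_iff h Z).mp hev
  exact crs_mk.mp ((hX _).mp heZ) (side_of_ev hZ hN hX hr)

/-- **Forward translation.** -/
theorem ctr_of_twoC (h : DualPair G f) (hGU : ∀ u v, G.Adj u v → u ∈ U ∧ v ∈ U)
    (hN : ∀ u v, N.Adj u v → G.Adj u v) (hcon : Con G U) (ht : (mkD h).TwoC (off G N)) :
    Ctr G U N where
  base := hcon
  le u v huv := ⟨hN u v huv, hGU u v (hN u v huv)⟩
  strict u _ v _ huv hr := strict_of_twoC h hN ht huv hr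
  ne v hv := by
    have h1 : (off G N).Nonempty := by
      rw [← Finset.card_pos]
      have := ht.1
      omega
    obtain ⟨⟨e, he⟩, heF⟩ := h1
    induction e using Sym2.ind with
    | _ a b =>
      by_contra hc
      push Not at hc
      have ha := hc a (hGU a b he).1
      have hb := hc b (hGU a b he).2
      exact mem_off.mp heF (strict_of_twoC h hN ht he (ha.symm.trans hb))
  con k hk := by
    intro Y hY1 hY2
    by_contra hno
    push Not at hno
    set s : Set V := {w | w ∈ U ∧ ¬ N.Reachable k w} with hs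
    -- edges with an end in s ∩ Y
    set B : Finset G.edgeSet := (off G N).filter fun e => ∃ u v, e.1 = s(u, v) ∧ u ∈ s ∩ Y with hB
    -- an edge of `G` from `s ∩ T` to its complement goes to the class of `k`
    have hstep : ∀ T : Set V, (s ∩ T).Nonempty → (∀ a ∈ s ∩ T, ∀ b ∈ s \ T, ¬ G.Adj a b) →
        ∃ a b, a ∈ s ∩ T ∧ N.Reachable k b ∧ ∃ hab : G.Adj a b,
          (⟨s(a, b), hab⟩ : G.edgeSet) ∈ off G N := by
      intro T hT1 hT
      obtain ⟨a, ha⟩ := hT1
      obtain ⟨p, ⟨hpU, hp⟩, q, ⟨hqU, hq⟩, hpq⟩ := hcon (s ∩ T)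
        ⟨a, ha.1.1, ha⟩ ⟨k, hk, fun hk' => hk'.1.2 (SimpleGraph.Reachable.refl k)⟩
      have hkq : N.Reachable k q := by
        by_contra hkq
        have hqs : q ∈ s := ⟨hqU, hkq⟩
        exact hT p hp q ⟨hqs, fun hqT => hq ⟨hqs, hqT⟩⟩ hpq
      refine ⟨p, q, hp, hkq, hpq, ?_⟩
      rw [mem_off]
      intro hN'
      exact hp.1.2 (hkq.trans (show N.Adj p q from hN').symm.reachable)
    obtain ⟨a₁, b₁, ha₁, hb₁, hab₁, hoff₁⟩ := hstep Y hY1 hno
    obtain ⟨a₂, b₂, ha₂, hb₂, hab₂, hoff₂⟩ := hstep Yᶜ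
      (by obtain ⟨w, hw⟩ := hY2; exact ⟨w, hw.1, hw.2⟩)
      (fun a ha b hb hab => hno b ⟨hb.1, not_not.mp hb.2⟩ a ⟨ha.1, ha.2⟩ hab.symm)
    have hB1 : B.Nonempty := ⟨_, Finset.mem_filter.mpr ⟨hoff₁, a₁, b₁, rfl, ha₁⟩⟩
    have hB2 : (off G N \ B).Nonempty := by
      refine ⟨_, Finset.mem_sdiff.mpr ⟨hoff₂, ?_⟩⟩
      rw [hB, Finset.mem_filter]
      rintro ⟨_, u, v, huv, hu⟩
      rcases Sym2.eq_iff.mp huv with ⟨rfl, rfl⟩ | ⟨rfl, rfl⟩
      · exact ha₂.2 hu.2
      · exact hu.1.2 hb₂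
    obtain ⟨Z, hZ, hev, hnot⟩ := ht.split (Finset.filter_subset _ _) hB1 hB2
    refine hnot ?_
    -- the cut of Z, normalised: the class of k is outside
    obtain ⟨X, hX, hkX⟩ : ∃ X : Set V, (∀ e : G.edgeSet, e ∈ Z ↔ crs X e.1) ∧ k ∉ X := by
      obtain ⟨X, hX⟩ := (ev_iff h Z).mp hev
      by_cases hkX : k ∈ X
      · refine ⟨Xᶜ, fun e => ?_, fun hk' => hk' hkX⟩
        rw [hX e]
        obtain ⟨e, he⟩ := e
        induction e using Sym2.ind with
        | _ u v =>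
          rw [crs_mk, crs_mk]
          simp only [Set.mem_compl_iff]
          tauto
      · exact ⟨X, hX, hkX⟩
    have hcl : ∀ w, N.Reachable k w → w ∉ X := fun w hw hwX =>
      hkX ((side_of_ev hZ hN hX hw).mpr hwX)
    refine (ev_iff h _).mpr ⟨X ∩ (s ∩ Y), fun e => ?_⟩
    obtain ⟨e, he⟩ := e
    -- neighbours of s ∩ Y
    have hnb : ∀ p q, G.Adj p q → p ∈ s ∩ Y → q ∈ s ∩ Y ∨ N.Reachable k q := by
      intro p q hpq hp
      by_contra hc
      push Not at hc
      have hqs : q ∈ s := ⟨(hGU p q hpq).2, hc.2⟩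
      exact hno p hp q ⟨hqs, fun hqY => hc.1 ⟨hqs, hqY⟩⟩ hpq
    constructor
    · intro hmem
      rw [Finset.mem_inter, Finset.mem_filter] at hmem
      obtain ⟨heZ, _, u, v, huv, hu⟩ := hmem
      have huv' : e = s(u, v) := huv
      subst huv'
      have hcr := crs_mk.mp ((hX _).mp heZ)
      rw [crs_mk]
      rcases hnb u v he hu with hv | hv
      · intro hc
        exact hcr ⟨fun h1 => (hc.mp ⟨h1, hu⟩).1, fun h1 => (hc.mpr ⟨h1, hv⟩).1⟩
      · have hvX := hcl v hv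
        have huX : u ∈ X := by
          by_contra huX
          exact hcr ⟨fun h1 => absurd h1 huX, fun h1 => absurd h1 hvX⟩
        intro hc
        exact hvX (hc.mp ⟨huX, hu⟩).1
    · rintro ⟨u, v, huv, hu, hv⟩
      have huv' : e = s(u, v) := huv
      subst huv'
      have hvX : v ∉ X := by
        intro hvX
        rcases hnb u v he hu.2 with h1 | h1
        · exact hv ⟨hvX, h1⟩
        · exact hcl v h1 hvX
      have heZ : (⟨s(u, v), he⟩ : G.edgeSet) ∈ Z :=
        (hX _).mpr (crs_mk.mpr fun hc => hvX (hc.mp hu.1))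
      rw [Finset.mem_inter, Finset.mem_filter]
      exact ⟨heZ, hZ heZ, u, v, rfl, hu.2⟩

/-- The two sides of a circuit cut are connected. -/
theorem side_con (h : DualPair G f) (hGU : ∀ u v, G.Adj u v → u ∈ U ∧ v ∈ U) (hcon : Con G U)
    {C : Finset G.edgeSet} (hC : (mkD h).IsCirc C) {A : Set V}
    (hA : ∀ e : G.edgeSet, e ∈ C ↔ crs A e.1) : Con G (U ∩ A) := by
  intro X hX1 hX2
  by_contra hno
  push Not at hno
  -- the cut of a part `P` of `U ∩ A` without edges to the other part is `C`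
  have key : ∀ P Q : Set V, P ⊆ U ∩ A → (∀ a ∈ U ∩ A, a ∈ P ∨ a ∈ Q) → P.Nonempty →
      (∀ a ∈ P, ∀ b ∈ Q, ¬ G.Adj a b) →
      ∀ e : G.edgeSet, e ∈ C → crs P e.1 := by
    intro P Q hP hPQ hne hn
    obtain ⟨e₀, he₀⟩ := hC.1
    obtain ⟨u₀, v₀, huv₀, hu₀, hv₀⟩ := (hA e₀).mp he₀
    have hadj₀ : G.Adj u₀ v₀ := by
      have := e₀.2
      rwa [huv₀] at this
    set Z : Finset G.edgeSet := Finset.univ.filter fun e => crs P e.1 with hZ
    have hZC : Z ⊆ C := by
      intro e he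
      rw [hZ, Finset.mem_filter] at he
      obtain ⟨_, p, q, hpq, hp, hq⟩ := he
      have hadj : G.Adj p q := by
        have := e.2
        rwa [hpq] at this
      rw [hA e, hpq, crs_mk]
      intro hc
      have hqA : q ∈ U ∩ A := ⟨(hGU p q hadj).2, hc.mp (hP hp).2⟩
      rcases hPQ q hqA with h1 | h1
      · exact hq h1
      · exact hn p hp q h1 hadj
    have hev : (mkD h).Ev Z := (ev_iff h Z).mpr ⟨P, fun e => by simp [hZ]⟩
    have hZne : Z.Nonempty := by
      obtain ⟨a, ha⟩ := hne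
      obtain ⟨p, ⟨_, hp⟩, q, ⟨_, hq⟩, hpq⟩ := hcon P ⟨a, (hP ha).1, ha⟩
        ⟨v₀, (hGU u₀ v₀ hadj₀).2, fun h1 => hv₀ (hP h1).2⟩
      refine ⟨⟨s(p, q), hpq⟩, ?_⟩
      rw [hZ, Finset.mem_filter]
      exact ⟨Finset.mem_univ _, crs_mk.mpr fun hc => hq (hc.mp hp)⟩
    have hZC' := hC.eq_of_ev hZC hZne hev
    intro e he
    rw [← hZC', hZ, Finset.mem_filter] at he
    exact he.2
  obtain ⟨e₀, he₀⟩ := hC.1
  have h1 := key ((U ∩ A) ∩ X) ((U ∩ A) \ X) Set.inter_subset_left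
    (fun a ha => by
      by_cases haX : a ∈ X
      · exact Or.inl ⟨ha, haX⟩
      · exact Or.inr ⟨ha, haX⟩) hX1 (fun a ha b hb => hno a ha b hb) e₀ he₀
  have h2 := key ((U ∩ A) \ X) ((U ∩ A) ∩ X) Set.sdiff_subset
    (fun a ha => by
      by_cases haX : a ∈ X
      · exact Or.inr ⟨ha, haX⟩
      · exact Or.inl ⟨ha, haX⟩) hX2 (fun a ha b hb hab => hno b hb a ha hab.symm) e₀ he₀
  obtain ⟨u, v, huv, hu, hv⟩ := h1
  rw [huv, crs_mk] at h2
  have h3 := (hA e₀).mp he₀
  rw [huv, crs_mk] at h3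
  have huA := hu.1.2
  have hvA : v ∉ A := fun h4 => h3 ⟨fun _ => h4, fun _ => huA⟩
  exact h2 ⟨fun h4 => absurd hu.2 h4.2, fun h4 => absurd h4.1.2 hvA⟩

end Forw

end BND
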